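/-!
# Kernel programs for the table of Gilbert's game

The functions below are written with recursors only, so that the kernel evaluates them fast.
All numbers are scaled by `2 ^ 56 = 72057594037927936`.
-/

set_option autoImplicit false
set_option linter.all false

namespace Pool.Agent.H95.Gilbert

/-- A list of natural numbers in blocks of eight. -/
inductive Blk : Type
  | nil : Blk
  | cons (a0 a1 a2 a3 a4 a5 a6 a7 : Nat) (t : Blk) : Blk

namespace Blk

/-- drop the first entry (the last block is lost) -/
noncomputable def shift : Blk → Blk :=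
  Blk.rec (motive := fun _ => Blk) Blk.nil
    (fun a0 a1 a2 a3 a4 a5 a6 a7 t ih => Blk.rec (motive := fun _ => Blk) Blk.nil
      (fun b0 b1 b2 b3 b4 b5 b6 b7 t' _ => Blk.cons a1 a2 a3 a4 a5 a6 a7 b0 ih) t)

/-- add an entry in front (the last entry is lost) -/
noncomputable def push (l : Blk) : Nat → Blk :=
  Blk.rec (motive := fun _ => Nat → Blk) (fun _ => Blk.nil)
    (fun a0 a1 a2 a3 a4 a5 a6 a7 t ih x => Blk.cons x a0 a1 a2 a3 a4 a5 a6 (ih a7)) l

/-- move the first `k` blocks in reversed order to the accumulator -/
noncomputable def revTake (k : Nat) : Blk → Blk → Blk :=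
  Nat.rec (motive := fun _ => Blk → Blk → Blk) (fun _ acc => acc)
    (fun _ ih l acc => Blk.rec (motive := fun _ => Blk) Blk.nil
       (fun a0 a1 a2 a3 a4 a5 a6 a7 t _ => ih t (Blk.cons a7 a6 a5 a4 a3 a2 a1 a0 acc)) l) k

/-- drop the first `k` blocks -/
noncomputable def dropB (k : Nat) : Blk → Blk :=
  Nat.rec (motive := fun _ => Blk → Blk) (fun l => l)
    (fun _ ih l => Blk.rec (motive := fun _ => Blk) Blk.nil
       (fun a0 a1 a2 a3 a4 a5 a6 a7 t _ => ih t) l) k

/-- the list of entries -/
noncomputable def elems : Blk → List Nat :=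
  Blk.rec (motive := fun _ => List Nat) List.nil
    (fun a0 a1 a2 a3 a4 a5 a6 a7 t ih => List.cons a0 (List.cons a1 (List.cons a2 (List.cons a3
      (List.cons a4 (List.cons a5 (List.cons a6 (List.cons a7 ih))))))))

/-- The lower run: eight steps `F ↦ 2^56 - 1 - (CS - b F) / a` at a time, until the value is
`2^56 - 1`. -/
noncomputable def runL (CS : Nat) (l : Blk) : Blk → Nat → Bool :=
  Blk.rec (motive := fun _ => Blk → Nat → Bool) (fun _ _ => false)
   (fun a0 a1 a2 a3 a4 a5 a6 a7 lt ih r F => Blk.rec (motive := fun _ => Bool) false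
     (fun b0 b1 b2 b3 b4 b5 b6 b7 rt _ => Nat.rec (motive := fun _ => Bool) true
       (fun n _ => ih rt (Nat.sub 72057594037927935 (Nat.succ n)))
       (Nat.div (Nat.sub CS (Nat.mul b7 (Nat.sub 72057594037927935 (Nat.div (Nat.sub CS (Nat.mul b6 (Nat.sub 72057594037927935 (Nat.div (Nat.sub CS (Nat.mul b5 (Nat.sub 72057594037927935 (Nat.div (Nat.sub CS (Nat.mul b4 (Nat.sub 72057594037927935 (Nat.div (Nat.sub CS (Nat.mul b3 (Nat.sub 72057594037927935 (Nat.div (Nat.sub CS (Nat.mul b2 (Nat.sub 72057594037927935 (Nat.div (Nat.sub CS (Nat.mul b1 (Nat.sub 72057594037927935 (Nat.div (Nat.sub CS (Nat.mul b0 F)) a0)))) a1)))) a2)))) a3)))) a4)))) a5)))) a6)))) a7)) r) l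

/-- The upper run: eight steps `F ↦ 2^56 - (CS - b F) / a` at a time, until the value is `0`. -/
noncomputable def runU (CS : Nat) (l : Blk) : Blk → Nat → Bool :=
  Blk.rec (motive := fun _ => Blk → Nat → Bool) (fun _ _ => false)
   (fun a0 a1 a2 a3 a4 a5 a6 a7 lt ih r F => Blk.rec (motive := fun _ => Bool) false
     (fun b0 b1 b2 b3 b4 b5 b6 b7 rt _ => Nat.rec (motive := fun _ => Bool) true
       (fun n _ => ih rt (Nat.succ n))
       (Nat.sub 72057594037927936 (Nat.div (Nat.sub CS (Nat.mul b7 (Nat.sub 72057594037927936 (Nat.div (Nat.sub CS (Nat.mul b6 (Nat.sub 72057594037927936 (Nat.div (Nat.sub CS (Nat.mul b5 (Nat.sub 72057594037927936 (Nat.div (Nat.sub CS (Nat.mul b4 (Nat.sub 72057594037927936 (Nat.div (Nat.sub CS (Nat.mul b3 (Nat.sub 72057594037927936 (Nat.div (Nat.sub CS (Nat.mul b2 (Nat.sub 72057594037927936 (Nat.div (Nat.sub CS (Nat.mul b1 (Nat.sub 72057594037927936 (Nat.div (Nat.sub CS (Nat.mul b0 F)) a0)))) a1)))) a2)))) a3)))) a4)))) a5)))) a6)))) a7))) r) l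

noncomputable def band (a b : Bool) : Bool := Bool.rec (motive := fun _ => Bool) false b a

noncomputable def isZ (n : Nat) : Bool := Nat.rec (motive := fun _ => Bool) true (fun _ _ => false) n

/-- The checks for `V (2p)` (table entry `c0`) and `V (2p+1)` (table entry `c1`); `L` lists the
table downwards from `p-1`, `R` upwards from `p`, `R1` upwards from `p+1`; `l0`, `r0` are the
entries at `p-1` and `p`. -/
noncomputable def chk (c0 c1 l0 r0 : Nat) (L R R1 : Blk) : Bool :=
  band (isZ (Nat.sub (Nat.mul 2 (Nat.sub c0 72057594037960704)) (Nat.add l0 r0))) (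
  band (runL (Nat.mul (Nat.sub c0 72057594037960704) 72057594037927936) L R 36028797018963968) (
  band (runU (Nat.mul (Nat.sub c0 72057594037895169) 72057594037927936) L R 36028797018963968) (
  band (isZ (Nat.sub (Nat.sub c1 72057594037895169) r0)) (
  band (isZ (Nat.sub 36028797018963968 (Nat.sub 72057594037927935 (Nat.div (Nat.mul (Nat.sub c1 72057594037960704) 36028797018963968) r0)))) (
  band (runL (Nat.mul (Nat.sub c1 72057594037960704) 72057594037927936) L R1
    (Nat.sub 72057594037927935 (Nat.div (Nat.mul (Nat.sub c1 72057594037960704) 36028797018963968) r0))) (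
  runU (Nat.mul (Nat.sub c1 72057594037895169) 72057594037927936) L R1
    (Nat.sub 72057594037927936 (Nat.div (Nat.mul (Nat.sub c1 72057594037895169) 36028797018963968) r0))))))))

/-- `k` consecutive values of `p`. -/
noncomputable def go (k : Nat) : List Nat → Blk → Blk → Bool :=
  Nat.rec (motive := fun _ => List Nat → Blk → Blk → Bool) (fun _ _ _ => true)
   (fun _ ih cs L R => List.rec (motive := fun _ => Bool) false
     (fun c0 cs1 _ => List.rec (motive := fun _ => Bool) false
        (fun c1 cs2 _ => Blk.rec (motive := fun _ => Bool) false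
          (fun l0 _ _ _ _ _ _ _ _ _ => Blk.rec (motive := fun _ => Bool) false
            (fun r0 _ _ _ _ _ _ _ _ _ =>
              band (chk c0 c1 l0 r0 L R (shift R)) (ih cs2 (push L r0) (shift R))) R) L) cs1) cs) k

noncomputable def tl (l : List Nat) : List Nat :=
  List.rec (motive := fun _ => List Nat) List.nil (fun _ t _ => t) l

/-- `tab` starts with the table entry for `1`; the values of `p` from `8k+1` to `8k+len` are
checked. -/
noncomputable def chunk (tab : Blk) (k len : Nat) : Bool :=
  go len (tl (elems (dropB (Nat.mul 2 k) tab))) (revTake k tab Blk.nil) (dropB k tab)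

/-- Lower run for small `n`, on lists. -/
noncomputable def runLs (CS : Nat) (l : List Nat) : List Nat → Nat → Bool :=
  List.rec (motive := fun _ => List Nat → Nat → Bool)
    (fun r F => List.rec (motive := fun _ => Bool) false
      (fun b _ _ => isZ (Nat.sub CS (Nat.mul b F))) r)
    (fun a _ ih r F => List.rec (motive := fun _ => Bool) false
      (fun b r' _ => Nat.rec (motive := fun _ => Bool) true
        (fun n _ => ih r' (Nat.sub 72057594037927935 (Nat.div (Nat.succ n) a))) (Nat.sub CS (Nat.mul b F))) r) l

/-- Upper run for small `n`, on lists. -/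
noncomputable def runUs (CS : Nat) (l : List Nat) : List Nat → Nat → Bool :=
  List.rec (motive := fun _ => List Nat → Nat → Bool)
    (fun r F => List.rec (motive := fun _ => Bool) false
      (fun b _ _ => isZ (Nat.sub (Nat.mul b F) CS)) r)
    (fun a _ ih r F => List.rec (motive := fun _ => Bool) false
      (fun b r' _ => Nat.rec (motive := fun _ => Bool) true
        (fun _ _ => ih r' (Nat.sub 72057594037927936 (Nat.div (Nat.sub CS (Nat.mul b F)) a)))
        (Nat.sub (Nat.add (Nat.mul 72057594037927936 a) (Nat.mul b F)) CS)) r) l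

/-- The checks for small `p`, on lists; `L` lists the table from `p-1` down to `1`. -/
noncomputable def chkS (c0 c1 l0 r0 : Nat) (L R R1 : List Nat) : Bool :=
  band (isZ (Nat.sub (Nat.mul 2 (Nat.sub c0 72057594037960704)) (Nat.add l0 r0))) (
  band (runLs (Nat.mul (Nat.sub c0 72057594037960704) 72057594037927936) L R 36028797018963968) (
  band (runUs (Nat.mul (Nat.sub c0 72057594037895169) 72057594037927936) L R 36028797018963968) (
  band (isZ (Nat.sub (Nat.sub c1 72057594037895169) r0)) (
  band (isZ (Nat.sub 36028797018963968 (Nat.sub 72057594037927935 (Nat.div (Nat.mul (Nat.sub c1 72057594037960704) 36028797018963968) r0)))) (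
  band (runLs (Nat.mul (Nat.sub c1 72057594037960704) 72057594037927936) L R1
    (Nat.sub 72057594037927935 (Nat.div (Nat.mul (Nat.sub c1 72057594037960704) 36028797018963968) r0))) (
  runUs (Nat.mul (Nat.sub c1 72057594037895169) 72057594037927936) L R1
    (Nat.sub 72057594037927936 (Nat.div (Nat.mul (Nat.sub c1 72057594037895169) 36028797018963968) r0))))))))

noncomputable def goS (k : Nat) : List Nat → Nat → List Nat → List Nat → Bool :=
  Nat.rec (motive := fun _ => List Nat → Nat → List Nat → List Nat → Bool) (fun _ _ _ _ => true)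
   (fun _ ih cs l0 L R => List.rec (motive := fun _ => Bool) false
     (fun c0 cs1 _ => List.rec (motive := fun _ => Bool) false
        (fun c1 cs2 _ => List.rec (motive := fun _ => Bool) false
            (fun r0 R1 _ =>
              band (chkS c0 c1 l0 r0 L R R1) (ih cs2 r0 (List.cons r0 L) R1)) R) cs1) cs) k

/-- the values of `p` from `1` to `len` -/
noncomputable def small (tab : Blk) (len : Nat) : Bool :=
  goS len (tl (elems tab)) 0 List.nil (elems tab)

/-- the table increases by at least 100 and is concave: `a`, `b` are the two previous entries;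
`k` entries are checked, and the last one is at most `50 * 2^56` -/
noncomputable def tabchk (k : Nat) : List Nat → Nat → Nat → Bool :=
  Nat.rec (motive := fun _ => List Nat → Nat → Nat → Bool)
    (fun _ _ b => isZ (Nat.sub b 3602879701896396800))
    (fun _ ih l a b => List.rec (motive := fun _ => Bool) false
      (fun c t _ => band (isZ (Nat.sub (Nat.add b 100) c))
        (band (isZ (Nat.sub (Nat.add c a) (Nat.mul 2 b))) (ih t b c))) l) k

noncomputable def headIs (l : List Nat) (x : Nat) : Bool :=
  List.rec (motive := fun _ => Bool) false (fun a _ _ => Nat.beq a x) l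

end Blk

end Pool.Agent.H95.Gilbert
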