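import Mathlib

/-!
# Gilbert's high-low game: definitions

`payoff V n g h` is the payoff matrix `A_n(g,h)` of the first round of the game on `{1,…,n}`
(Red guesses `g`, Blue hides at `h`), given the values `V k` of the games on `k < n` numbers.
-/

namespace Pool.Agent.H95.Gilbert

/-- The payoff to Blue in the `n × n` matrix game: Red guesses `g`, Blue hides at `h`. -/
noncomputable def payoff (V : ℕ → ℝ) (n g h : ℕ) : ℝ :=
  if h = g then 1 else if h < g then 1 + V (g - 1) else 1 + V (n - g)

/-- `p` is a mixed strategy (probability distribution) on `{1,…,n}`. -/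
def IsMixed (n : ℕ) (p : ℕ → ℝ) : Prop :=
  (∀ i ∈ Finset.Icc 1 n, 0 ≤ p i) ∧ ∑ i ∈ Finset.Icc 1 n, p i = 1

/-- `v` is the value of the zero-sum matrix game on `{1,…,n} × {1,…,n}` in which the minimiser
(Red) chooses `g`, the maximiser (Blue) chooses `h`, and `A g h` is the payoff to Blue: Red has a
mixed strategy which makes the expected payoff at most `v` against every `h`, and Blue has a mixed
strategy which makes it at least `v` against every `g`. -/
def IsGameValue (n : ℕ) (A : ℕ → ℕ → ℝ) (v : ℝ) : Prop :=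
  (∃ q : ℕ → ℝ, IsMixed n q ∧ ∀ h ∈ Finset.Icc 1 n, ∑ g ∈ Finset.Icc 1 n, q g * A g h ≤ v) ∧
  (∃ p : ℕ → ℝ, IsMixed n p ∧ ∀ g ∈ Finset.Icc 1 n, v ≤ ∑ h ∈ Finset.Icc 1 n, p h * A g h)

/-- `V` is the sequence of values of Gilbert's high-low game: `V 0 = 0` and for `n ≥ 1` the number
`V n` is the value of the matrix game with payoff `A_n(g,h)`. -/
def IsGilbertValue (V : ℕ → ℝ) : Prop :=
  V 0 = 0 ∧ ∀ n : ℕ, 1 ≤ n → IsGameValue n (payoff V n) (V n)

end Pool.Agent.H95.Gilbert
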