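import Mathlib
import Pool.Agent.H95.Gilbert.Defs

namespace Pool.Agent.H95.Gilbert

open Finset

/-! ### Weak duality -/

theorem weak_duality {n : ℕ} {A : ℕ → ℕ → ℝ} {q p : ℕ → ℝ} {a b : ℝ}
    (hq : IsMixed n q) (hp : IsMixed n p)
    (h1 : ∀ h ∈ Icc 1 n, ∑ g ∈ Icc 1 n, q g * A g h ≤ a)
    (h2 : ∀ g ∈ Icc 1 n, b ≤ ∑ h ∈ Icc 1 n, p h * A g h) : b ≤ a := by
  have e1 : ∑ g ∈ Icc 1 n, q g * (∑ h ∈ Icc 1 n, p h * A g h) =
      ∑ h ∈ Icc 1 n, p h * (∑ g ∈ Icc 1 n, q g * A g h) := by
    simp_rw [Finset.mul_sum]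
    rw [Finset.sum_comm]
    refine Finset.sum_congr rfl fun x _ => Finset.sum_congr rfl fun y _ => by ring
  have e2 : b ≤ ∑ g ∈ Icc 1 n, q g * (∑ h ∈ Icc 1 n, p h * A g h) := by
    calc b = ∑ g ∈ Icc 1 n, q g * b := by rw [← Finset.sum_mul, hq.2, one_mul]
      _ ≤ _ := Finset.sum_le_sum fun g hg => mul_le_mul_of_nonneg_left (h2 g hg) (hq.1 g hg)
  have e3 : ∑ h ∈ Icc 1 n, p h * (∑ g ∈ Icc 1 n, q g * A g h) ≤ a := by
    calc _ ≤ ∑ h ∈ Icc 1 n, p h * a :=
          Finset.sum_le_sum fun h hh => mul_le_mul_of_nonneg_left (h1 h hh) (hp.1 h hh)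
      _ = a := by rw [← Finset.sum_mul, hp.2, one_mul]
  linarith

theorem gameValue_unique {n : ℕ} {A : ℕ → ℕ → ℝ} {v w : ℝ}
    (hv : IsGameValue n A v) (hw : IsGameValue n A w) : v = w := by
  obtain ⟨⟨q, hq, hq'⟩, ⟨p, hp, hp'⟩⟩ := hv
  obtain ⟨⟨q2, hq2, hq2'⟩, ⟨p2, hp2, hp2'⟩⟩ := hw
  exact le_antisymm (weak_duality hq2 hp hq2' hp') (weak_duality hq hp2 hq' hp2')

/-! ### Expected payoffs -/

theorem sum_Icc_split {n g : ℕ} (hg : g ∈ Icc 1 n) (f : ℕ → ℝ) :
    ∑ h ∈ Icc 1 n, f h = ∑ h ∈ Icc 1 (g - 1), f h + f g + ∑ h ∈ Icc (g + 1) n, f h := by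
  rw [Finset.mem_Icc] at hg
  have h1 : Icc 1 n = (Icc 1 (g - 1) ∪ {g}) ∪ Icc (g + 1) n := by
    ext x; simp only [Finset.mem_union, Finset.mem_Icc, Finset.mem_singleton]; omega
  rw [h1, Finset.sum_union, Finset.sum_union]
  · simp
  · rw [Finset.disjoint_left]; intro x hx hx2
    simp only [Finset.mem_Icc, Finset.mem_singleton] at hx hx2; omega
  · rw [Finset.disjoint_left]; intro x hx hx2
    simp only [Finset.mem_union, Finset.mem_Icc, Finset.mem_singleton] at hx hx2; omega

/-- Blue's expected payoff against `g`. -/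
theorem blue_payoff (V : ℕ → ℝ) {n g : ℕ} (hg : g ∈ Icc 1 n) (p : ℕ → ℝ) :
    ∑ h ∈ Icc 1 n, p h * payoff V n g h =
      ∑ h ∈ Icc 1 n, p h + V (g - 1) * ∑ h ∈ Icc 1 (g - 1), p h +
        V (n - g) * ∑ h ∈ Icc (g + 1) n, p h := by
  rw [sum_Icc_split hg, sum_Icc_split hg p]
  have h1 : ∑ h ∈ Icc 1 (g - 1), p h * payoff V n g h =
      ∑ h ∈ Icc 1 (g - 1), p h * (1 + V (g - 1)) := by
    refine Finset.sum_congr rfl fun h hh => ?_
    rw [Finset.mem_Icc] at hh
    rw [payoff, if_neg (by omega), if_pos (by omega)]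
  have h2 : ∑ h ∈ Icc (g + 1) n, p h * payoff V n g h =
      ∑ h ∈ Icc (g + 1) n, p h * (1 + V (n - g)) := by
    refine Finset.sum_congr rfl fun h hh => ?_
    rw [Finset.mem_Icc] at hh
    rw [payoff, if_neg (by omega), if_neg (by omega)]
  rw [h1, h2, ← Finset.sum_mul, ← Finset.sum_mul, payoff, if_pos rfl]
  ring

/-- Red's expected payoff against `h`. -/
theorem red_payoff (V : ℕ → ℝ) {n h : ℕ} (hh : h ∈ Icc 1 n) (q : ℕ → ℝ) :
    ∑ g ∈ Icc 1 n, q g * payoff V n g h =
      ∑ g ∈ Icc 1 n, q g + ∑ g ∈ Icc 1 (h - 1), q g * V (n - g) +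
        ∑ g ∈ Icc (h + 1) n, q g * V (g - 1) := by
  rw [sum_Icc_split hh, sum_Icc_split hh q]
  have h1 : ∑ g ∈ Icc 1 (h - 1), q g * payoff V n g h =
      ∑ g ∈ Icc 1 (h - 1), (q g + q g * V (n - g)) := by
    refine Finset.sum_congr rfl fun g hg => ?_
    rw [Finset.mem_Icc] at hg
    rw [payoff, if_neg (by omega), if_neg (by omega)]; ring
  have h2 : ∑ g ∈ Icc (h + 1) n, q g * payoff V n g h =
      ∑ g ∈ Icc (h + 1) n, (q g + q g * V (g - 1)) := by
    refine Finset.sum_congr rfl fun g hg => ?_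
    rw [Finset.mem_Icc] at hg
    rw [payoff, if_neg (by omega), if_pos (by omega)]; ring
  rw [h1, h2, Finset.sum_add_distrib, Finset.sum_add_distrib, payoff, if_pos rfl]
  ring

/-! ### Telescoping of a distribution function -/

theorem sum_diff (F : ℕ → ℝ) (k : ℕ) : ∑ h ∈ Icc 1 k, (F h - F (h - 1)) = F k - F 0 := by
  induction k with
  | zero => simp
  | succ k ih =>
    rw [Finset.sum_Icc_succ_top (by omega), ih]
    simp

theorem sum_diff' (F : ℕ → ℝ) {g n : ℕ} (hg : g ≤ n) :
    ∑ h ∈ Icc (g + 1) n, (F h - F (h - 1)) = F n - F g := by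
  induction n, hg using Nat.le_induction with
  | base => simp
  | succ k hk ih =>
    rw [Finset.sum_Icc_succ_top (by omega), ih]
    simp

variable {V : ℕ → ℝ}

/-- Blue's lemma: a distribution function `F` guarantees `1 + c`. -/
theorem blue_lemma (hV : IsGilbertValue V) {n : ℕ} (hn : 1 ≤ n) (F : ℕ → ℝ) (c : ℝ)
    (h0 : F 0 = 0) (h1 : F n = 1) (hmono : ∀ g ∈ Icc 1 n, F (g - 1) ≤ F g)
    (hc : ∀ g ∈ Icc 1 n, c ≤ V (g - 1) * F (g - 1) + V (n - g) * (1 - F g)) :
    1 + c ≤ V n := by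
  obtain ⟨⟨q, hq, hq'⟩, _⟩ := hV.2 n hn
  have hp : IsMixed n (fun h => F h - F (h - 1)) :=
    ⟨fun g hg => sub_nonneg.mpr (hmono g hg), by rw [sum_diff, h0, h1]; norm_num⟩
  refine weak_duality hq hp hq' fun g hg => ?_
  rw [blue_payoff V hg, sum_diff, sum_diff]
  have hg' := Finset.mem_Icc.mp hg
  rw [sum_diff' F (by omega), h0, h1]
  have := hc g hg
  linarith

/-- Monotonicity of the values. -/
theorem gilbert_mono_aux (hV : IsGilbertValue V) : ∀ n : ℕ, V n ≤ V (n + 1) := by
  have hnn : ∀ n, 0 ≤ V n := by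
    intro n
    induction n using Nat.strong_induction_on with
    | _ n ih =>
      rcases Nat.eq_zero_or_pos n with h | h
      · rw [h, hV.1]
      · obtain ⟨⟨q, hq, hq'⟩, _⟩ := hV.2 n h
        have h1 := hq' 1 (Finset.mem_Icc.mpr ⟨le_refl _, h⟩)
        refine le_trans (Finset.sum_nonneg fun g hg => mul_nonneg (hq.1 g hg) ?_) h1
        have hg' := Finset.mem_Icc.mp hg
        unfold payoff
        split_ifs
        · norm_num
        · have := ih (g - 1) (by omega); linarith
        · have := ih (n - g) (by omega); linarith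
  intro n
  induction n using Nat.strong_induction_on with
  | _ n ih =>
    rcases Nat.eq_zero_or_pos n with h | h
    · rw [h, hV.1]; exact hnn _
    · obtain ⟨⟨q, hq, hq'⟩, _⟩ := hV.2 (n + 1) (by omega)
      obtain ⟨_, ⟨p, hp, hp'⟩⟩ := hV.2 n h
      have hp2 : IsMixed (n + 1) (fun h => if h = n + 1 then 0 else p h) := by
        refine ⟨fun i hi => ?_, ?_⟩
        · dsimp only
          split_ifs with h1
          · exact le_refl _
          · exact hp.1 i (by rw [Finset.mem_Icc] at hi ⊢; omega)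
        · rw [Finset.sum_Icc_succ_top (by omega)]
          simp only [if_true, add_zero]
          rw [← hp.2]
          refine Finset.sum_congr rfl fun x hx => ?_
          rw [Finset.mem_Icc] at hx
          rw [if_neg (by omega)]
      refine weak_duality hq hp2 hq' fun g hg => ?_
      rw [Finset.sum_Icc_succ_top (by omega)]
      simp only [if_true, zero_mul, add_zero]
      have e1 : ∑ k ∈ Icc 1 n, (if k = n + 1 then 0 else p k) * payoff V (n + 1) g k =
          ∑ k ∈ Icc 1 n, p k * payoff V (n + 1) g k := by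
        refine Finset.sum_congr rfl fun x hx => ?_
        rw [Finset.mem_Icc] at hx
        rw [if_neg (by omega)]
      rw [e1]
      have hg' := Finset.mem_Icc.mp hg
      rcases Nat.lt_or_ge n g with hgn | hgn
      · -- g = n + 1
        have : g = n + 1 := by omega
        subst this
        have e2 : ∑ k ∈ Icc 1 n, p k * payoff V (n + 1) (n + 1) k = 1 + V n := by
          have : ∑ k ∈ Icc 1 n, p k * payoff V (n + 1) (n + 1) k =
              ∑ k ∈ Icc 1 n, p k * (1 + V n) := by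
            refine Finset.sum_congr rfl fun x hx => ?_
            rw [Finset.mem_Icc] at hx
            rw [payoff, if_neg (by omega), if_pos (by omega)]
            simp
          rw [this, ← Finset.sum_mul, hp.2, one_mul]
        rw [e2]; linarith
      · refine le_trans (hp' g (Finset.mem_Icc.mpr ⟨hg'.1, hgn⟩)) ?_
        refine Finset.sum_le_sum fun k hk => mul_le_mul_of_nonneg_left ?_ (hp.1 k hk)
        unfold payoff
        split_ifs
        · exact le_refl _
        · exact le_refl _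
        · have := ih (n - g) (by omega)
          rw [show n + 1 - g = n - g + 1 by omega]
          linarith

theorem gilbert_mono (hV : IsGilbertValue V) : Monotone V :=
  monotone_nat_of_le_succ (gilbert_mono_aux hV)

theorem gilbert_nonneg (hV : IsGilbertValue V) (n : ℕ) : 0 ≤ V n := by
  have := gilbert_mono hV (Nat.zero_le n)
  rwa [hV.1] at this

theorem gilbert_one (hV : IsGilbertValue V) : V 1 = 1 := by
  refine gameValue_unique (hV.2 1 (le_refl _)) ?_
  have h1 : payoff V 1 1 1 = 1 := by rw [payoff, if_pos rfl]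
  refine ⟨⟨fun _ => 1, ⟨fun _ _ => by norm_num, by simp⟩, ?_⟩,
    ⟨fun _ => 1, ⟨fun _ _ => by norm_num, by simp⟩, ?_⟩⟩
  · intro h hh
    have : h = 1 := by rw [Finset.mem_Icc] at hh; omega
    subst this
    simp [h1]
  · intro h hh
    have : h = 1 := by rw [Finset.mem_Icc] at hh; omega
    subst this
    simp [h1]

theorem gilbert_one_le (hV : IsGilbertValue V) {n : ℕ} (hn : 1 ≤ n) : 1 ≤ V n := by
  rw [← gilbert_one hV]; exact gilbert_mono hV hn

/-- Dual form of Red's lemma: any function `F` (not necessarily monotone) with `F 0 = 0`,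
`F n = 1` and `V (g-1) F (g-1) + V (n-g) (1 - F g) ≤ c` for all `g` shows `V n ≤ 1 + c`. -/
theorem red_dual_lemma (hV : IsGilbertValue V) {n : ℕ} (hn : 1 ≤ n) (F : ℕ → ℝ) (c : ℝ)
    (h0 : F 0 = 0) (h1 : F n = 1)
    (hc : ∀ g ∈ Icc 1 n, V (g - 1) * F (g - 1) + V (n - g) * (1 - F g) ≤ c) :
    V n ≤ 1 + c := by
  by_contra hcon
  push Not at hcon
  obtain ⟨_, ⟨p, hp, hp'⟩⟩ := hV.2 n hn
  -- Blue's optimal distribution function
  set P : ℕ → ℝ := fun j => ∑ h ∈ Icc 1 j, p h with hP
  have hPn : P n = 1 := hp.2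
  have hP0 : P 0 = 0 := by simp [hP]
  have key : ∀ g ∈ Icc 1 n, V n ≤ 1 + V (g - 1) * P (g - 1) + V (n - g) * (1 - P g) := by
    intro g hg
    have h2 := hp' g hg
    rw [blue_payoff V hg] at h2
    have hs := sum_Icc_split hg p
    rw [hp.2] at h2 hs
    have hPg : P g = P (g - 1) + p g := by
      have hg' := Finset.mem_Icc.mp hg
      have : g = (g - 1) + 1 := by omega
      simp only [hP]
      conv_lhs => rw [this]
      rw [Finset.sum_Icc_succ_top (by omega), ← this]
    have : ∑ h ∈ Icc (g + 1) n, p h = 1 - P g := by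
      rw [hPg]; simp only [hP]; linarith
    rw [this] at h2
    exact h2
  -- difference D = P - F is negative up to n-1 and then contradiction
  have hD : ∀ j, 1 ≤ j → j < n → P j - F j < 0 := by
    intro j hj1
    induction j, hj1 using Nat.le_induction with
    | base =>
      intro hj
      have k1 := key 1 (Finset.mem_Icc.mpr ⟨le_refl _, hn⟩)
      have k2 := hc 1 (Finset.mem_Icc.mpr ⟨le_refl _, hn⟩)
      simp only [Nat.sub_self, hV.1, zero_mul] at k1 k2
      have hv := gilbert_one_le hV (show 1 ≤ n - 1 by omega)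
      have : V (n - 1) * (P 1 - F 1) < 0 := by nlinarith
      by_contra h
      push Not at h
      have := mul_nonneg (by linarith : (0:ℝ) ≤ V (n - 1)) h
      linarith
    | succ j hj ih =>
      intro hjn
      have ih' := ih (by omega)
      have k1 := key (j + 1) (Finset.mem_Icc.mpr ⟨by omega, by omega⟩)
      have k2 := hc (j + 1) (Finset.mem_Icc.mpr ⟨by omega, by omega⟩)
      simp only [Nat.add_sub_cancel] at k1 k2
      have hv := gilbert_one_le hV (show 1 ≤ n - (j + 1) by omega)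
      have hv2 := gilbert_one_le hV hj
      by_contra h
      push Not at h
      have h3 := mul_nonneg (by linarith : (0:ℝ) ≤ V (n - (j + 1))) h
      have h4 := mul_nonneg (by linarith : (0:ℝ) ≤ V j) (by linarith : 0 ≤ -(P j - F j))
      nlinarith
  have k1 := key n (Finset.mem_Icc.mpr ⟨hn, le_refl _⟩)
  have k2 := hc n (Finset.mem_Icc.mpr ⟨hn, le_refl _⟩)
  simp only [Nat.sub_self, hV.1, zero_mul, add_zero] at k1 k2
  rcases Nat.lt_or_ge 1 n with h | h
  · have h5 := hD (n - 1) (by omega) (by omega)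
    have hv := gilbert_one_le hV (show 1 ≤ n - 1 by omega)
    have h6 := mul_nonneg (by linarith : (0:ℝ) ≤ V (n - 1)) (by linarith : 0 ≤ -(P (n-1) - F (n-1)))
    nlinarith
  · have : n = 1 := by omega
    subst this
    simp only [Nat.sub_self, hV.1, zero_mul, add_zero] at k1 k2
    linarith

end Pool.Agent.H95.Gilbert
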