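import Mathlib
import Pool.Agent.H95.Gilbert.Game

namespace Pool.Agent.H95.Gilbert

open Finset

variable {V : ℕ → ℝ}

theorem sum_Icc_one (f : ℕ → ℝ) (m : ℕ) : ∑ g ∈ Icc 1 m, f g = ∑ j ∈ range m, f (j + 1) := by
  induction m with
  | zero => simp
  | succ m ih => rw [Finset.sum_Icc_succ_top (by omega), ih, Finset.sum_range_succ]

theorem sum_Icc_shift (f : ℕ → ℝ) (k m : ℕ) :
    ∑ g ∈ Icc (k + 1) m, f g = ∑ j ∈ Ico k m, f (j + 1) := by
  rw [Finset.sum_Ico_add' f k m 1]
  rfl

/-- Red's window lemma. -/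
theorem red_window (hV : IsGilbertValue V) {n lo hi : ℕ} (hn : lo + hi + 1 = n) (hlh : lo ≤ hi)
    (v a : ℕ → ℝ) (ha : ∀ j, lo ≤ j → j ≤ hi → 0 < a j)
    (hv : ∀ j, lo ≤ j → j ≤ hi → V j ≤ v j)
    (hrec : ∀ j, lo ≤ j → j < hi → a (j + 1) * v (j + 1) = a j * v (n - 1 - j))
    (hsym : a hi ≤ a lo) :
    V n * ∑ j ∈ Icc lo hi, a j ≤ ∑ j ∈ Icc lo hi, a j + ∑ j ∈ Icc lo hi, a j * v j := by
  have hn1 : 1 ≤ n := by omega
  set A := ∑ j ∈ Icc lo hi, a j with hA
  have hApos : 0 < A := Finset.sum_pos (fun j hj => ha j (Finset.mem_Icc.mp hj).1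
    (Finset.mem_Icc.mp hj).2) ⟨lo, Finset.mem_Icc.mpr ⟨le_refl _, hlh⟩⟩
  set a' : ℕ → ℝ := fun j => if lo ≤ j ∧ j ≤ hi then a j else 0 with ha'
  have ha'nn : ∀ j, 0 ≤ a' j := by
    intro j; simp only [ha']; split_ifs with h
    · exact (ha j h.1 h.2).le
    · exact le_refl _
  have hsub : Icc lo hi ⊆ range n := by
    intro x hx; rw [Finset.mem_Icc] at hx; rw [Finset.mem_range]; omega
  have hsum1 : ∑ j ∈ range n, a' j = A := by
    rw [hA, ← Finset.sum_subset hsub]
    · refine Finset.sum_congr rfl fun j hj => ?_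
      simp only [ha']; rw [if_pos (Finset.mem_Icc.mp hj)]
    · intro x _ hx2
      simp only [ha']; rw [if_neg (fun h => hx2 (Finset.mem_Icc.mpr h))]
  have hsum2 : ∑ j ∈ range n, a' j * v j = ∑ j ∈ Icc lo hi, a j * v j := by
    rw [← Finset.sum_subset hsub]
    · refine Finset.sum_congr rfl fun j hj => ?_
      simp only [ha']; rw [if_pos (Finset.mem_Icc.mp hj)]
    · intro x _ hx2
      simp only [ha']; rw [if_neg (fun h => hx2 (Finset.mem_Icc.mpr h)), zero_mul]
  have hvnn : ∀ j, lo ≤ j → j ≤ hi → 0 ≤ v j := fun j h1 h2 =>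
    (gilbert_nonneg hV j).trans (hv j h1 h2)
  -- the key partial sum inequality
  have key1 : ∀ k, k ≤ lo → ∑ j ∈ range k, a' j * V (n - 1 - j) = 0 := by
    intro k hk
    refine Finset.sum_eq_zero fun j hj => ?_
    rw [Finset.mem_range] at hj
    simp only [ha']; rw [if_neg (by omega), zero_mul]
  have key2 : ∀ k, lo ≤ k → k ≤ hi →
      ∑ j ∈ range k, a' j * V (n - 1 - j) + a lo * v lo ≤ ∑ j ∈ range (k + 1), a' j * v j := by
    intro k hk
    induction k, hk using Nat.le_induction with
    | base =>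
      intro _
      rw [key1 lo (le_refl _), Finset.sum_range_succ]
      have h1 : ∑ j ∈ range lo, a' j * v j = 0 := by
        refine Finset.sum_eq_zero fun j hj => ?_
        rw [Finset.mem_range] at hj
        simp only [ha']; rw [if_neg (by omega), zero_mul]
      rw [h1]
      simp only [ha']; rw [if_pos ⟨le_refl _, hlh⟩]
    | succ k hk ih =>
      intro hk2
      have ih' := ih (by omega)
      rw [Finset.sum_range_succ, Finset.sum_range_succ (fun j => a' j * v j) (k + 1)]
      have e1 : a' k = a k := by simp only [ha']; rw [if_pos ⟨hk, by omega⟩]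
      have e2 : a' (k + 1) = a (k + 1) := by simp only [ha']; rw [if_pos ⟨by omega, hk2⟩]
      rw [e1, e2]
      have e3 := hrec k hk (by omega)
      have e4 : a k * V (n - 1 - k) ≤ a k * v (n - 1 - k) :=
        mul_le_mul_of_nonneg_left (hv _ (by omega) (by omega)) (ha k hk (by omega)).le
      linarith
  have key3 : ∀ k, k < n →
      ∑ j ∈ range k, a' j * V (n - 1 - j) ≤ ∑ j ∈ range (k + 1), a' j * v j := by
    intro k hk
    rcases Nat.lt_or_ge k lo with h | h
    · rw [key1 k h.le]
      refine Finset.sum_nonneg fun j hj => ?_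
      rw [Finset.mem_range] at hj
      simp only [ha']; rw [if_neg (by omega), zero_mul]
    rcases Nat.lt_or_ge hi k with h2 | h2
    · -- k > hi
      have h3 : ∀ k, hi + 1 ≤ k → ∑ j ∈ range k, a' j * V (n - 1 - j) ≤
          ∑ j ∈ range (k + 1), a' j * v j := by
        intro k hk
        induction k, hk using Nat.le_induction with
        | base =>
          rw [Finset.sum_range_succ, Finset.sum_range_succ (fun j => a' j * v j) (hi + 1)]
          have e1 : a' hi = a hi := by simp only [ha']; rw [if_pos ⟨hlh, le_refl _⟩]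
          have e2 : a' (hi + 1) = 0 := by simp only [ha']; rw [if_neg (by omega)]
          rw [e1, e2]
          have e4 : a hi * V (n - 1 - hi) ≤ a lo * v lo := by
            rw [show n - 1 - hi = lo by omega]
            calc a hi * V lo ≤ a hi * v lo :=
                  mul_le_mul_of_nonneg_left (hv _ (le_refl _) hlh) (ha hi hlh (le_refl _)).le
              _ ≤ a lo * v lo := mul_le_mul_of_nonneg_right hsym (hvnn lo (le_refl _) hlh)
          have := key2 hi hlh (le_refl _)
          linarith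
        | succ k hk ih =>
          rw [Finset.sum_range_succ, Finset.sum_range_succ (fun j => a' j * v j) (k + 1)]
          have e1 : a' k = 0 := by simp only [ha']; rw [if_neg (by omega)]
          have e2 : a' (k + 1) = 0 := by simp only [ha']; rw [if_neg (by omega)]
          rw [e1, e2]
          linarith
      exact h3 k h2
    · have := key2 k h h2
      have h4 : 0 ≤ a lo * v lo := mul_nonneg (ha lo (le_refl _) hlh).le (hvnn lo (le_refl _) hlh)
      linarith
  obtain ⟨_, ⟨p, hp, hp'⟩⟩ := hV.2 n hn1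
  have hq : IsMixed n (fun g => a' (g - 1) / A) := by
    refine ⟨fun i _ => div_nonneg (ha'nn _) hApos.le, ?_⟩
    rw [← Finset.sum_div, sum_Icc_one]
    simp only [Nat.add_sub_cancel]
    rw [hsum1, div_self hApos.ne']
  have h1 : V n ≤ 1 + (∑ j ∈ Icc lo hi, a j * v j) / A := by
    refine weak_duality hq hp (fun h hh => ?_) hp'
    rw [red_payoff V hh, hq.2]
    obtain ⟨k, rfl⟩ : ∃ k, h = k + 1 := ⟨h - 1, by have := Finset.mem_Icc.mp hh; omega⟩
    have hkn : k < n := by have := Finset.mem_Icc.mp hh; omega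
    rw [Nat.add_sub_cancel, sum_Icc_one, sum_Icc_shift]
    simp only [Nat.add_sub_cancel]
    have e1 : ∑ j ∈ range k, a' j / A * V (n - (j + 1)) =
        (∑ j ∈ range k, a' j * V (n - 1 - j)) / A := by
      rw [Finset.sum_div]
      refine Finset.sum_congr rfl fun j _ => ?_
      rw [show n - (j + 1) = n - 1 - j by omega]; ring
    have e2 : ∑ j ∈ Ico (k + 1) n, a' j / A * V j =
        (∑ j ∈ Ico (k + 1) n, a' j * V j) / A := by
      rw [Finset.sum_div]
      refine Finset.sum_congr rfl fun j _ => by ring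
    rw [e1, e2, add_assoc, ← add_div]
    have e3 : ∑ j ∈ Ico (k + 1) n, a' j * V j ≤ ∑ j ∈ Ico (k + 1) n, a' j * v j := by
      refine Finset.sum_le_sum fun j _ => ?_
      simp only [ha']; split_ifs with h
      · exact mul_le_mul_of_nonneg_left (hv j h.1 h.2) (ha j h.1 h.2).le
      · simp
    have e4 := key3 k hkn
    have e5 : ∑ j ∈ range n, a' j * v j =
        ∑ j ∈ range (k + 1), a' j * v j + ∑ j ∈ Ico (k + 1) n, a' j * v j := by
      rw [Finset.sum_range_add_sum_Ico _ (by omega)]
    rw [hsum2] at e5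
    have : (∑ j ∈ range k, a' j * V (n - 1 - j) + ∑ j ∈ Ico (k + 1) n, a' j * V j) / A ≤
        (∑ j ∈ Icc lo hi, a j * v j) / A := by
      apply div_le_div_of_nonneg_right _ hApos.le
      linarith
    linarith
  calc V n * A ≤ (1 + (∑ j ∈ Icc lo hi, a j * v j) / A) * A :=
        mul_le_mul_of_nonneg_right h1 hApos.le
    _ = A + ∑ j ∈ Icc lo hi, a j * v j := by field_simp

/-! ### Concave sequences -/

section Concave

variable {v : ℕ → ℝ} {lo hi : ℕ}

theorem conc_diff (hconc : ∀ j, lo ≤ j → j + 2 ≤ hi → v (j + 2) - v (j + 1) ≤ v (j + 1) - v j)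
    {i j : ℕ} (h1 : lo ≤ i) (h2 : i ≤ j) (h3 : j + 1 ≤ hi) :
    v (j + 1) - v j ≤ v (i + 1) - v i := by
  induction j, h2 using Nat.le_induction with
  | base => exact le_refl _
  | succ j hj ih =>
    have := hconc j (by omega) (by omega)
    have := ih (by omega)
    linarith

theorem conc_upper (hconc : ∀ j, lo ≤ j → j + 2 ≤ hi → v (j + 2) - v (j + 1) ≤ v (j + 1) - v j)
    {j k : ℕ} (h1 : lo ≤ j) (h2 : j ≤ k) (h3 : k ≤ hi) :
    v k - v j ≤ (k - j : ℝ) * (v (j + 1) - v j) := by
  induction k, h2 using Nat.le_induction with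
  | base => simp
  | succ k hk ih =>
    have e1 := ih (by omega)
    have e2 := conc_diff hconc h1 hk h3
    push_cast
    linarith

theorem conc_lower (hconc : ∀ j, lo ≤ j → j + 2 ≤ hi → v (j + 2) - v (j + 1) ≤ v (j + 1) - v j)
    {j k : ℕ} (h1 : lo ≤ j) (h2 : j ≤ k) (h3 : k + 1 ≤ hi) :
    (k + 1 - j : ℝ) * (v (k + 1) - v k) ≤ v (k + 1) - v j := by
  obtain ⟨d, rfl⟩ := Nat.exists_eq_add_of_le h2
  induction d generalizing j with
  | zero => simp
  | succ d ih =>
    have e1 := ih (j := j + 1) (by omega) (by omega) (by omega)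
    have e2 := conc_diff hconc h1 (show j ≤ j + (d + 1) by omega) h3
    rw [show j + 1 + d = j + (d + 1) by omega] at e1
    push_cast at e1 e2 ⊢
    linarith

end Concave

end Pool.Agent.H95.Gilbert
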