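import Mathlib
import Pool.Agent.H95.Gilbert.Window

namespace Pool.Agent.H95.Gilbert

open Finset

variable {V : ℕ → ℝ}

/-- `G i = F (j+i)` is the right half of a distribution function which guarantees `c` to Blue. -/
def ReachB (V : ℕ → ℝ) (n : ℕ) (c : ℝ) (j : ℕ) (φ : ℝ) : Prop :=
  ∃ G : ℕ → ℝ, G 0 = φ ∧ (∀ i, i < n - j → G i ≤ G (i + 1)) ∧ G (n - j) = 1 ∧
    ∀ i, i < n - j → c ≤ V (j + i) * G i + V (n - 1 - j - i) * (1 - G (i + 1))

theorem ReachB.fin (hV : IsGilbertValue V) {n j : ℕ} {c φ : ℝ} (hj : j < n) (hφ : φ ≤ 1)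
    (hφ0 : 0 ≤ φ) (hc : c ≤ V j * φ) : ReachB V n c j φ := by
  refine ⟨fun i => if i = 0 then φ else 1, by simp, fun i _ => ?_, ?_, fun i hi => ?_⟩
  · rcases Nat.eq_zero_or_pos i with h | h
    · subst h; simpa using hφ
    · beta_reduce
      rw [if_neg (by omega), if_neg (by omega)]
  · beta_reduce
    rw [if_neg (by omega)]
  · rcases Nat.eq_zero_or_pos i with h | h
    · subst h; simpa using hc
    · beta_reduce
      rw [if_neg (by omega), if_neg (by omega)]
      have h1 := gilbert_mono hV (show j ≤ j + i by omega)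
      have h2 : V j * φ ≤ V j * 1 := mul_le_mul_of_nonneg_left hφ (gilbert_nonneg hV j)
      linarith

theorem ReachB.step {n j : ℕ} {c φ φ' : ℝ} (hj : j < n) (hφ : φ ≤ φ')
    (hc : c ≤ V j * φ + V (n - 1 - j) * (1 - φ')) (h : ReachB V n c (j + 1) φ') :
    ReachB V n c j φ := by
  obtain ⟨G, h0, h1, h2, h3⟩ := h
  refine ⟨fun i => if i = 0 then φ else G (i - 1), by simp, fun i hi => ?_, ?_, fun i hi => ?_⟩
  · rcases Nat.eq_zero_or_pos i with h | h
    · subst h; simp [h0, hφ]
    · beta_reduce
      rw [if_neg (by omega), if_neg (by omega)]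
      have := h1 (i - 1) (by omega)
      rwa [show i - 1 + 1 = i + 1 - 1 by omega] at this
  · beta_reduce
    rw [if_neg (by omega)]
    rw [show n - j - 1 = n - (j + 1) by omega]; exact h2
  · rcases Nat.eq_zero_or_pos i with h | h
    · subst h; simpa [h0] using hc
    · beta_reduce
      rw [if_neg (by omega), if_neg (by omega)]
      have := h3 (i - 1) (by omega)
      rwa [show j + 1 + (i - 1) = j + i by omega, show n - 1 - (j + 1) - (i - 1) = n - 1 - j - i by omega,
        show i - 1 + 1 = i + 1 - 1 by omega] at this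

theorem ReachB.mono {n j : ℕ} {c φ : ℝ} (h : ReachB V n c j φ) (hj : j < n) :
    ∃ G : ℕ → ℝ, G 0 = φ ∧ (∀ i, i < n - j → G i ≤ G (i + 1)) ∧ G (n - j) = 1 ∧
    (∀ i, i < n - j → c ≤ V (j + i) * G i + V (n - 1 - j - i) * (1 - G (i + 1))) ∧ φ ≤ G 1 := by
  obtain ⟨G, h0, h1, h2, h3⟩ := h
  exact ⟨G, h0, h1, h2, h3, by rw [← h0]; exact h1 0 (by omega)⟩

/-- Lower bound for `V (2p)`. -/
theorem blue_half_even (hV : IsGilbertValue V) {p : ℕ} (hp : 1 ≤ p) {c : ℝ}
    (h : ReachB V (2 * p) c p (1 / 2)) : 1 + c ≤ V (2 * p) := by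
  obtain ⟨G, h0, h1, h2, h3, h4⟩ := h.mono (by omega)
  set F : ℕ → ℝ := fun i => if i < p then 1 - G (2 * p - i - p) else G (i - p) with hF
  refine blue_lemma hV (by omega) F c ?_ ?_ ?_ ?_
  · simp only [hF]; rw [if_pos (by omega), show 2 * p - 0 - p = 2 * p - p by omega, h2]; ring
  · simp only [hF]; rw [if_neg (by omega), h2]
  · intro g hg
    have hg' := Finset.mem_Icc.mp hg
    simp only [hF]
    rcases Nat.lt_trichotomy g p with h | h | h
    · rw [if_pos (by omega), if_pos h]
      have := h1 (2 * p - g - p) (by omega)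
      rw [show 2 * p - (g - 1) - p = 2 * p - g - p + 1 by omega]
      linarith
    · subst h
      rw [if_pos (by omega), if_neg (by omega), Nat.sub_self, h0,
        show 2 * g - (g - 1) - g = 1 by omega]
      linarith
    · rw [if_neg (by omega), if_neg (by omega)]
      have := h1 (g - 1 - p) (by omega)
      rwa [show g - 1 - p + 1 = g - p by omega] at this
  · intro g hg
    have hg' := Finset.mem_Icc.mp hg
    simp only [hF]
    rcases Nat.lt_trichotomy g p with h | h | h
    · rw [if_pos (by omega), if_pos h]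
      have := h3 (2 * p - g - p) (by omega)
      rw [show p + (2 * p - g - p) = 2 * p - g by omega,
        show 2 * p - 1 - p - (2 * p - g - p) = g - 1 by omega] at this
      rw [show 2 * p - (g - 1) - p = 2 * p - g - p + 1 by omega]
      linarith
    · subst h
      rw [if_pos (by omega), if_neg (by omega), Nat.sub_self, h0,
        show 2 * g - (g - 1) - g = 1 by omega]
      have := h3 0 (by omega)
      rw [h0, show g + 0 = g by omega, show 2 * g - 1 - g - 0 = g - 1 by omega, zero_add] at this
      rw [show 2 * g - g = g by omega]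
      linarith
    · rw [if_neg (by omega), if_neg (by omega)]
      have := h3 (g - 1 - p) (by omega)
      rwa [show p + (g - 1 - p) = g - 1 by omega,
        show 2 * p - 1 - p - (g - 1 - p) = 2 * p - g by omega,
        show g - 1 - p + 1 = g - p by omega] at this

/-- Lower bound for `V (2p+1)`. -/
theorem blue_half_odd (hV : IsGilbertValue V) {p : ℕ} {c φ : ℝ}
    (hφ : 1 / 2 ≤ φ) (hcen : c ≤ 2 * V p * (1 - φ))
    (h : ReachB V (2 * p + 1) c (p + 1) φ) : 1 + c ≤ V (2 * p + 1) := by
  obtain ⟨G, h0, h1, h2, h3⟩ := h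
  set F : ℕ → ℝ := fun i => if i < p + 1 then 1 - G (2 * p + 1 - i - (p + 1)) else G (i - (p + 1))
    with hF
  refine blue_lemma hV (by omega) F c ?_ ?_ ?_ ?_
  · simp only [hF]; rw [if_pos (by omega), show 2 * p + 1 - 0 - (p + 1) = 2 * p + 1 - (p + 1) by omega,
      h2]; ring
  · simp only [hF]; rw [if_neg (by omega), h2]
  · intro g hg
    have hg' := Finset.mem_Icc.mp hg
    simp only [hF]
    rcases Nat.lt_trichotomy g (p + 1) with h | h | h
    · rw [if_pos (by omega), if_pos h]
      have := h1 (2 * p + 1 - g - (p + 1)) (by omega)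
      rw [show 2 * p + 1 - (g - 1) - (p + 1) = 2 * p + 1 - g - (p + 1) + 1 by omega]
      linarith
    · subst h
      rw [if_pos (by omega), if_neg (by omega), Nat.sub_self, h0,
        show 2 * p + 1 - (p + 1 - 1) - (p + 1) = 0 by omega, h0]
      linarith
    · rw [if_neg (by omega), if_neg (by omega)]
      have := h1 (g - 1 - (p + 1)) (by omega)
      rwa [show g - 1 - (p + 1) + 1 = g - (p + 1) by omega] at this
  · intro g hg
    have hg' := Finset.mem_Icc.mp hg
    simp only [hF]
    rcases Nat.lt_trichotomy g (p + 1) with h | h | h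
    · rw [if_pos (by omega), if_pos h]
      have := h3 (2 * p + 1 - g - (p + 1)) (by omega)
      rw [show p + 1 + (2 * p + 1 - g - (p + 1)) = 2 * p + 1 - g by omega,
        show 2 * p + 1 - 1 - (p + 1) - (2 * p + 1 - g - (p + 1)) = g - 1 by omega] at this
      rw [show 2 * p + 1 - (g - 1) - (p + 1) = 2 * p + 1 - g - (p + 1) + 1 by omega]
      linarith
    · subst h
      rw [if_pos (by omega), if_neg (by omega), Nat.sub_self, h0,
        show 2 * p + 1 - (p + 1 - 1) - (p + 1) = 0 by omega, h0,
        show p + 1 - 1 = p by omega, show 2 * p + 1 - (p + 1) = p by omega]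
      linarith
    · rw [if_neg (by omega), if_neg (by omega)]
      have := h3 (g - 1 - (p + 1)) (by omega)
      rwa [show p + 1 + (g - 1 - (p + 1)) = g - 1 by omega,
        show 2 * p + 1 - 1 - (p + 1) - (g - 1 - (p + 1)) = 2 * p + 1 - g by omega,
        show g - 1 - (p + 1) + 1 = g - (p + 1) by omega] at this

/-- The analogue of `ReachB` for upper bounds. -/
def ReachR (V : ℕ → ℝ) (n : ℕ) (c : ℝ) (j : ℕ) (φ : ℝ) : Prop :=
  ∃ G : ℕ → ℝ, G 0 = φ ∧ G (n - j) = 1 ∧
    ∀ i, i < n - j → V (j + i) * G i + V (n - 1 - j - i) * (1 - G (i + 1)) ≤ c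

theorem ReachR.fin (hV : IsGilbertValue V) {n j : ℕ} {c φ : ℝ} (hj : j < n)
    (hφ0 : 0 ≤ φ) (hc : V j * φ + V (n - 1 - j) ≤ c) : ReachR V n c j φ := by
  have hVj := gilbert_nonneg hV j
  have hVn := gilbert_nonneg hV (n - 1 - j)
  have hp := mul_nonneg hVj hφ0
  refine ⟨fun i => if i = 0 then φ else if i = n - j then 1 else 0, by simp, ?_, fun i hi => ?_⟩
  · beta_reduce
    rw [if_neg (by omega), if_pos rfl]
  · rcases Nat.eq_zero_or_pos i with h | h
    · subst h
      simp only [if_true, Nat.add_zero, Nat.sub_zero, zero_add, if_neg (one_ne_zero)]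
      split_ifs with h
      · rw [show n - 1 - j = 0 by omega] at hc ⊢
        rw [hV.1] at hc ⊢
        linarith
      · linarith
    · beta_reduce
      rw [if_neg (by omega), if_neg (by omega), if_neg (by omega)]
      split_ifs with h
      · simp only [mul_zero, sub_self, add_zero]; linarith
      · have := gilbert_mono hV (show n - 1 - j - i ≤ n - 1 - j by omega)
        simp only [mul_zero, sub_zero, mul_one, zero_add]
        linarith

theorem ReachR.step {n j : ℕ} {c φ φ' : ℝ} (hj : j < n)
    (hc : V j * φ + V (n - 1 - j) * (1 - φ') ≤ c) (h : ReachR V n c (j + 1) φ') :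
    ReachR V n c j φ := by
  obtain ⟨G, h0, h2, h3⟩ := h
  refine ⟨fun i => if i = 0 then φ else G (i - 1), by simp, ?_, fun i hi => ?_⟩
  · beta_reduce
    rw [if_neg (by omega)]
    rw [show n - j - 1 = n - (j + 1) by omega]; exact h2
  · rcases Nat.eq_zero_or_pos i with h | h
    · subst h; simpa [h0] using hc
    · beta_reduce
      rw [if_neg (by omega), if_neg (by omega)]
      have := h3 (i - 1) (by omega)
      rwa [show j + 1 + (i - 1) = j + i by omega, show n - 1 - (j + 1) - (i - 1) = n - 1 - j - i by omega,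
        show i - 1 + 1 = i + 1 - 1 by omega] at this

theorem red_half_even (hV : IsGilbertValue V) {p : ℕ} (hp : 1 ≤ p) {c : ℝ}
    (h : ReachR V (2 * p) c p (1 / 2)) : V (2 * p) ≤ 1 + c := by
  obtain ⟨G, h0, h2, h3⟩ := h
  set F : ℕ → ℝ := fun i => if i < p then 1 - G (2 * p - i - p) else G (i - p) with hF
  refine red_dual_lemma hV (by omega) F c ?_ ?_ ?_
  · simp only [hF]; rw [if_pos (by omega), show 2 * p - 0 - p = 2 * p - p by omega, h2]; ring
  · simp only [hF]; rw [if_neg (by omega), h2]
  · intro g hg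
    have hg' := Finset.mem_Icc.mp hg
    simp only [hF]
    rcases Nat.lt_trichotomy g p with h | h | h
    · rw [if_pos (by omega), if_pos h]
      have := h3 (2 * p - g - p) (by omega)
      rw [show p + (2 * p - g - p) = 2 * p - g by omega,
        show 2 * p - 1 - p - (2 * p - g - p) = g - 1 by omega] at this
      rw [show 2 * p - (g - 1) - p = 2 * p - g - p + 1 by omega]
      linarith
    · subst h
      rw [if_pos (by omega), if_neg (by omega), Nat.sub_self, h0,
        show 2 * g - (g - 1) - g = 1 by omega]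
      have := h3 0 (by omega)
      rw [h0, show g + 0 = g by omega, show 2 * g - 1 - g - 0 = g - 1 by omega, zero_add] at this
      rw [show 2 * g - g = g by omega]
      linarith
    · rw [if_neg (by omega), if_neg (by omega)]
      have := h3 (g - 1 - p) (by omega)
      rwa [show p + (g - 1 - p) = g - 1 by omega,
        show 2 * p - 1 - p - (g - 1 - p) = 2 * p - g by omega,
        show g - 1 - p + 1 = g - p by omega] at this

theorem red_half_odd (hV : IsGilbertValue V) {p : ℕ} {c φ : ℝ}
    (hcen : 2 * V p * (1 - φ) ≤ c)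
    (h : ReachR V (2 * p + 1) c (p + 1) φ) : V (2 * p + 1) ≤ 1 + c := by
  obtain ⟨G, h0, h2, h3⟩ := h
  set F : ℕ → ℝ := fun i => if i < p + 1 then 1 - G (2 * p + 1 - i - (p + 1)) else G (i - (p + 1))
    with hF
  refine red_dual_lemma hV (by omega) F c ?_ ?_ ?_
  · simp only [hF]; rw [if_pos (by omega), show 2 * p + 1 - 0 - (p + 1) = 2 * p + 1 - (p + 1) by omega,
      h2]; ring
  · simp only [hF]; rw [if_neg (by omega), h2]
  · intro g hg
    have hg' := Finset.mem_Icc.mp hg
    simp only [hF]
    rcases Nat.lt_trichotomy g (p + 1) with h | h | h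
    · rw [if_pos (by omega), if_pos h]
      have := h3 (2 * p + 1 - g - (p + 1)) (by omega)
      rw [show p + 1 + (2 * p + 1 - g - (p + 1)) = 2 * p + 1 - g by omega,
        show 2 * p + 1 - 1 - (p + 1) - (2 * p + 1 - g - (p + 1)) = g - 1 by omega] at this
      rw [show 2 * p + 1 - (g - 1) - (p + 1) = 2 * p + 1 - g - (p + 1) + 1 by omega]
      linarith
    · subst h
      rw [if_pos (by omega), if_neg (by omega), Nat.sub_self, h0,
        show 2 * p + 1 - (p + 1 - 1) - (p + 1) = 0 by omega, h0,
        show p + 1 - 1 = p by omega, show 2 * p + 1 - (p + 1) = p by omega]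
      linarith
    · rw [if_neg (by omega), if_neg (by omega)]
      have := h3 (g - 1 - (p + 1)) (by omega)
      rwa [show p + 1 + (g - 1 - (p + 1)) = g - 1 by omega,
        show 2 * p + 1 - 1 - (p + 1) - (g - 1 - (p + 1)) = 2 * p + 1 - g by omega,
        show g - 1 - (p + 1) + 1 = g - (p + 1) by omega] at this

end Pool.Agent.H95.Gilbert
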