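import Mathlib
import Pool.Agent.H95.Gilbert.Half

namespace Pool.Agent.H95.Gilbert

open Finset

/-- the scale `2 ^ 56` -/
abbrev SS : ℕ := 72057594037927936

/-- the relative error `2 ^ (-41)` -/
noncomputable abbrev del : ℝ := 1 / 2199023255552

def stepL (CS F a b : ℕ) : ℕ := 72057594037927935 - (CS - b * F) / a

def stepU (CS F a b : ℕ) : ℕ := 72057594037927936 - (CS - b * F) / a

inductive LR (v : ℕ → ℕ) (CS : ℕ) : ℕ → ℕ → ℕ → Prop
  | fin (ia ib F : ℕ) : CS ≤ v ib * F → LR v CS ia ib F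
  | step (ia ib F : ℕ) : LR v CS ia (ib + 1) (stepL CS F (v (ia + 1)) (v ib)) → LR v CS (ia + 1) ib F

inductive UR (v : ℕ → ℕ) (CS : ℕ) : ℕ → ℕ → ℕ → Prop
  | fin (ia ib F : ℕ) : v ia * SS + v ib * F ≤ CS → UR v CS ia ib F
  | step (ia ib F : ℕ) : UR v CS ia (ib + 1) (stepU CS F (v (ia + 1)) (v ib)) → UR v CS (ia + 1) ib F

/-- Properties of the table. -/
structure TabOK (v : ℕ → ℕ) (N : ℕ) : Prop where
  zero : v 0 = 0
  one : v 1 = SS
  inc : ∀ j, j < N → v j + 100 ≤ v (j + 1)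
  conc : ∀ j, j + 2 ≤ N → v (j + 2) + v j ≤ 2 * v (j + 1)

/-- The table is correct at `n`. -/
def Bd (V : ℕ → ℝ) (v : ℕ → ℕ) (n : ℕ) : Prop :=
  (1 - del) * (v n / SS) ≤ V n ∧ V n ≤ (1 + del) * (v n / SS)

theorem TabOK.lt {v : ℕ → ℕ} {N : ℕ} (h : TabOK v N) {i j : ℕ} (hij : i < j) (hj : j ≤ N) :
    v i + 100 ≤ v j := by
  induction j, hij using Nat.le_induction with
  | base => exact h.inc i (by omega)
  | succ j hij ih =>
    have := ih (by omega)
    have := h.inc j (by omega)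
    omega

/-- The star inequality for concave sequences. -/
theorem star_ineq {v : ℕ → ℝ} {lo hi n : ℕ} (hn : lo + hi + 1 = n)
    (hmono : ∀ j, lo ≤ j → j < hi → v j < v (j + 1))
    (hconc : ∀ j, lo ≤ j → j + 2 ≤ hi → v (j + 2) - v (j + 1) ≤ v (j + 1) - v j)
    {k1 k2 : ℕ} (hk12 : k1 + k2 = n - 1) (hk1 : k1 ≤ k2) (hk2 : k2 ≤ k1 + 1)
    {C : ℝ} (hC : C ≤ (v k1 + v k2) / 2) {j : ℕ} (h1 : lo ≤ j) (h2 : j + 1 ≤ k1) :
    (v (n - 1 - j) - v (n - 2 - j)) * (C - v j) ≤ (v (j + 1) - v j) * (v (n - 1 - j) - C) := by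
  have hk3 : lo ≤ k1 := by omega
  have hk4 : k2 ≤ hi := by omega
  set c0 := (v k1 + v k2) / 2 with hc0
  have e1 : c0 - v j ≤ ((k1 - j : ℝ) + (k2 - j)) / 2 * (v (j + 1) - v j) := by
    have e1 := conc_upper hconc h1 (show j ≤ k1 by omega) (by omega)
    have e2 := conc_upper hconc h1 (show j ≤ k2 by omega) hk4
    rw [hc0]; linarith
  have e2 : ((k1 - j : ℝ) + (k2 - j)) / 2 * (v (n - 1 - j) - v (n - 2 - j)) ≤
      v (n - 1 - j) - c0 := by
    have hB : n - 1 - j = (n - 2 - j) + 1 := by omega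
    have e1 := conc_lower hconc hk3 (show k1 ≤ n - 2 - j by omega) (by omega)
    have e2 : ((n - 2 - j : ℕ) + 1 - k2 : ℝ) * (v (n - 2 - j + 1) - v (n - 2 - j)) ≤
        v (n - 2 - j + 1) - v k2 := by
      rcases Nat.lt_or_ge (n - 2 - j) k2 with h | h
      · have : k2 = n - 2 - j + 1 := by omega
        rw [this]; push_cast; simp
      · exact conc_lower hconc (by omega) h (by omega)
    rw [← hB] at e1 e2
    have hc1 : ((n - 2 - j : ℕ) : ℝ) = n - 2 - j := by
      rw [Nat.cast_sub (by omega), Nat.cast_sub (by omega)]; push_cast; ring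
    have hc2 : (k1 : ℝ) + k2 = n - 1 := by
      have : ((k1 + k2 : ℕ) : ℝ) = ((n - 1 : ℕ) : ℝ) := by rw [hk12]
      rw [Nat.cast_sub (by omega)] at this
      push_cast at this
      exact this
    rw [hc1] at e1 e2
    rw [hc0]
    have e3 : ((k1 - j : ℝ) + (k2 - j)) / 2 =
        (((n:ℝ) - 2 - j + 1 - k1) + ((n:ℝ) - 2 - j + 1 - k2)) / 2 := by
      have : (n:ℝ) = k1 + k2 + 1 := by linarith
      rw [this]; ring
    rw [e3]
    linarith
  have hdr : 0 < v (n - 1 - j) - v (n - 2 - j) := by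
    have := hmono (n - 2 - j) (by omega) (by omega)
    rw [show n - 2 - j + 1 = n - 1 - j by omega] at this
    linarith
  have hdl : 0 < v (j + 1) - v j := by
    have := hmono j h1 (by omega)
    linarith
  calc (v (n - 1 - j) - v (n - 2 - j)) * (C - v j)
      ≤ (v (n - 1 - j) - v (n - 2 - j)) * (c0 - v j) := by
        apply mul_le_mul_of_nonneg_left _ hdr.le; linarith
    _ ≤ (v (n - 1 - j) - v (n - 2 - j)) *
          (((k1 - j : ℝ) + (k2 - j)) / 2 * (v (j + 1) - v j)) :=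
        mul_le_mul_of_nonneg_left e1 hdr.le
    _ = (v (j + 1) - v j) *
          (((k1 - j : ℝ) + (k2 - j)) / 2 * (v (n - 1 - j) - v (n - 2 - j))) := by ring
    _ ≤ (v (j + 1) - v j) * (v (n - 1 - j) - c0) := mul_le_mul_of_nonneg_left e2 hdl.le
    _ ≤ _ := by apply mul_le_mul_of_nonneg_left _ hdl.le; linarith

variable {V : ℕ → ℝ} {v : ℕ → ℕ} {N : ℕ}

theorem TabOK.star (hT : TabOK v N) {n k1 k2 C : ℕ} (hn : n ≤ N + 1) (hk12 : k1 + k2 + 1 = n)
    (hk1 : k1 ≤ k2) (hk2 : k2 ≤ k1 + 1) (hC : 2 * C ≤ v k1 + v k2)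
    {ia ib : ℕ} (hab : ia + 1 + ib + 1 = n) (h : ia + 1 ≤ k1) :
    ((v (ib + 1) : ℝ) - v ib) * ((C : ℝ) - v ia) ≤
      ((v (ia + 1) : ℝ) - v ia) * ((v (ib + 1) : ℝ) - C) := by
  have := star_ineq (v := fun j => (v j : ℝ)) (lo := 0) (hi := n - 1) (n := n) (by omega)
    (fun j _ hj => by
      have := hT.inc j (by omega)
      exact_mod_cast (by omega : v j < v (j + 1)))
    (fun j _ hj => by
      have := hT.conc j (by omega)
      have h2 : ((v (j + 2) : ℝ)) + v j ≤ 2 * v (j + 1) := by exact_mod_cast this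
      linarith)
    (k1 := k1) (k2 := k2) (by omega) hk1 hk2 (C := (C : ℝ))
    (by
      have h2 : (2 * (C : ℝ)) ≤ v k1 + v k2 := by exact_mod_cast hC
      linarith)
    (j := ia) (by omega) h
  rw [show n - 1 - ia = ib + 1 by omega, show n - 2 - ia = ib by omega] at this
  exact this

/-- key consequence of the star inequality -/
theorem star_step {a b a' b' C F F' S : ℝ} (hba : 0 < b - a) (hba' : 0 < b' - a')
    (hstar : (b' - b) * (C - a') ≤ (a - a') * (b' - C))
    (hP : C * S + a' * F' ≤ b' * F' + a' * S) (hF : F' ≤ F) (hS : 0 ≤ S) :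
    C * S + a * F ≤ b * F + a * S := by
  by_contra hcon
  push Not at hcon
  have h1 : (b - a) * F < (C - a) * S := by linarith
  have h2 : (C - a) * (b' - a') ≤ (C - a') * (b - a) := by linarith
  have h3 : (C - a') * S ≤ (b' - a') * F' := by linarith
  have h4 : (b - a) * ((b' - a') * F') ≤ (b' - a') * ((b - a) * F) := by
    have := mul_le_mul_of_nonneg_left hF (mul_nonneg hba.le hba'.le)
    linarith
  have h5 : (b' - a') * ((b - a) * F) < (b' - a') * ((C - a) * S) :=
    mul_lt_mul_of_pos_left h1 hba'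
  have h6 : ((C - a) * (b' - a')) * S ≤ ((C - a') * (b - a)) * S :=
    mul_le_mul_of_nonneg_right h2 hS
  have h7 : (b - a) * ((C - a') * S) ≤ (b - a) * ((b' - a') * F') :=
    mul_le_mul_of_nonneg_left h3 hba.le
  linarith

/-- strict version -/
theorem star_step' {a b a' b' C F F' S : ℝ} (hba : 0 < b - a) (hba' : 0 < b' - a')
    (hstar : (b' - b) * (C - a') ≤ (a - a') * (b' - C))
    (hP : C * S + a' * F' ≤ b' * F' + a' * S) (hF : F' < F) (hS : 0 ≤ S) :
    C * S + a * F < b * F + a * S := by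
  by_contra hcon
  push Not at hcon
  have h1 : (b - a) * F ≤ (C - a) * S := by linarith
  have h2 : (C - a) * (b' - a') ≤ (C - a') * (b - a) := by linarith
  have h3 : (C - a') * S ≤ (b' - a') * F' := by linarith
  have h4 : (b - a) * ((b' - a') * F') < (b' - a') * ((b - a) * F) := by
    have := mul_lt_mul_of_pos_left hF (mul_pos hba hba')
    linarith
  have h5 : (b' - a') * ((b - a) * F) ≤ (b' - a') * ((C - a) * S) :=
    mul_le_mul_of_nonneg_left h1 hba'.le
  have h6 : ((C - a) * (b' - a')) * S ≤ ((C - a') * (b - a)) * S :=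
    mul_le_mul_of_nonneg_right h2 hS
  have h7 : (b - a) * ((C - a') * S) ≤ (b - a) * ((b' - a') * F') :=
    mul_le_mul_of_nonneg_left h3 hba.le
  linarith

theorem stepL_le (CS F a b : ℕ) : stepL CS F a b ≤ 72057594037927935 := Nat.sub_le _ _

theorem stepU_le (CS F a b : ℕ) : stepU CS F a b ≤ SS := Nat.sub_le _ _

/-- The invariant of the lower run. -/
theorem LR.above (hT : TabOK v N) {n k1 k2 C : ℕ} (hn : n ≤ N + 1) (hk12 : k1 + k2 + 1 = n)
    (hk1 : k1 ≤ k2) (hk2 : k2 ≤ k1 + 1) (hC : 2 * C ≤ v k1 + v k2)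
    {ia ib F : ℕ} (h : LR v (C * SS) ia ib F) (hab : ia + ib + 1 = n) (hia : ia ≤ k1)
    (hF : F ≤ SS) : (C : ℝ) * SS + v ia * F ≤ v ib * F + v ia * SS := by
  induction h with
  | fin ia ib F h =>
    have h1 : ((C * SS : ℕ) : ℝ) ≤ ((v ib * F : ℕ) : ℝ) := by exact_mod_cast h
    have h2 : ((v ia * F : ℕ) : ℝ) ≤ ((v ia * SS : ℕ) : ℝ) := by
      exact_mod_cast Nat.mul_le_mul_left _ hF
    push_cast at h1 h2 ⊢
    linarith
  | step ia ib F h ih =>
    have ih' := ih (by omega) (by omega) ((stepL_le _ _ _ _).trans (by norm_num))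
    have hst := hT.star hn hk12 hk1 hk2 hC (ia := ia) (ib := ib) (by omega) hia
    have hba : (0:ℝ) < (v ib : ℝ) - v (ia + 1) ∨ ib = ia + 1 := by
      rcases Nat.lt_or_ge (ia + 1) ib with h | h
      · left
        have := hT.lt h (by omega)
        have : (v (ia + 1) : ℝ) < v ib := by exact_mod_cast (by omega : v (ia + 1) < v ib)
        linarith
      · right; omega
    by_contra hcon
    push Not at hcon
    -- in natural numbers
    have h1 : v ib * F + v (ia + 1) * SS < C * SS + v (ia + 1) * F := by exact_mod_cast hcon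
    have hapos : 0 < v (ia + 1) := by
      have := hT.lt (show 0 < ia + 1 by omega) (by omega)
      omega
    have h2 : SS - F ≤ (C * SS - v ib * F) / v (ia + 1) := by
      rw [Nat.le_div_iff_mul_le hapos]
      have h3 : (SS - F) * v (ia + 1) = v (ia + 1) * SS - v (ia + 1) * F := by
        rw [Nat.sub_mul, mul_comm, mul_comm F]
      rw [h3]
      have h4 : v (ia + 1) * F ≤ v (ia + 1) * SS := Nat.mul_le_mul_left _ hF
      omega
    have h3 : stepL (C * SS) F (v (ia + 1)) (v ib) ≤ F := by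
      unfold stepL
      have : SS = 72057594037927936 := rfl
      omega
    have hba' : (0:ℝ) < (v (ib + 1) : ℝ) - v ia := by
      have := hT.lt (show ia < ib + 1 by omega) (by omega)
      have : (v ia : ℝ) < v (ib + 1) := by exact_mod_cast (by omega : v ia < v (ib + 1))
      linarith
    rcases hba with hba | hba
    · have h3' : ((stepL (C * SS) F (v (ia + 1)) (v ib) : ℕ) : ℝ) ≤ (F : ℝ) := by exact_mod_cast h3
      have := star_step (S := (SS : ℝ)) hba hba' hst ih' h3' (by positivity)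
      linarith
    · have e1 : k1 = ia + 1 := by omega
      have e2 : k2 = ia + 1 := by omega
      rw [e1, e2] at hC
      rw [hba] at h1
      have h5 : C * SS ≤ v (ia + 1) * SS := Nat.mul_le_mul_right _ (by omega)
      omega

/-- Monotonicity of the lower run. -/
theorem LR.mono (hT : TabOK v N) {n k1 k2 C : ℕ} (hn : n ≤ N + 1) (hk12 : k1 + k2 + 1 = n)
    (hk1 : k1 ≤ k2) (hk2 : k2 ≤ k1 + 1) (hC : 2 * C ≤ v k1 + v k2)
    {ia ib F : ℕ} (h : LR v (C * SS) ia (ib + 1) (stepL (C * SS) F (v (ia + 1)) (v ib)))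
    (hab : ia + 1 + ib + 1 = n) (hia : ia + 1 ≤ k1) (hlt : ia + 1 < ib)
    (hF : F < SS) : F ≤ stepL (C * SS) F (v (ia + 1)) (v ib) := by
  have hP := h.above hT hn hk12 hk1 hk2 hC (by omega) (by omega)
    ((stepL_le _ _ _ _).trans (by norm_num))
  have hst := hT.star hn hk12 hk1 hk2 hC (ia := ia) (ib := ib) (by omega) hia
  by_contra hcon
  push Not at hcon
  have hapos : 0 < v (ia + 1) := by
    have := hT.lt (show 0 < ia + 1 by omega) (by omega)
    omega
  have h2 : SS - F ≤ (C * SS - v ib * F) / v (ia + 1) := by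
    unfold stepL at hcon
    have : SS = 72057594037927936 := rfl
    omega
  rw [Nat.le_div_iff_mul_le hapos] at h2
  have hpos : 0 < (SS - F) * v (ia + 1) := Nat.mul_pos (by omega) hapos
  have h3 : (SS - F) * v (ia + 1) = v (ia + 1) * SS - v (ia + 1) * F := by
    rw [Nat.sub_mul, mul_comm, mul_comm F]
  rw [h3] at h2 hpos
  have h4 : v (ib) * F + v (ia + 1) * SS ≤ C * SS + v (ia + 1) * F := by omega
  have h5 : ((v (ib) * F + v (ia + 1) * SS : ℕ) : ℝ) ≤ ((C * SS + v (ia + 1) * F : ℕ) : ℝ) := by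
    exact_mod_cast h4
  push_cast at h5
  have hba' : (0:ℝ) < (v (ib + 1) : ℝ) - v ia := by
    have := hT.lt (show ia < ib + 1 by omega) (by omega)
    have : (v ia : ℝ) < v (ib + 1) := by exact_mod_cast (by omega : v ia < v (ib + 1))
    linarith
  have hba : (0:ℝ) < (v ib : ℝ) - v (ia + 1) := by
    have := hT.lt (show ia + 1 < ib by omega) (by omega)
    have : (v (ia + 1) : ℝ) < v ib := by exact_mod_cast (by omega : v (ia + 1) < v ib)
    linarith
  have hcon' : ((stepL (C * SS) F (v (ia + 1)) (v ib) : ℕ) : ℝ) < (F : ℝ) := by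
    exact_mod_cast hcon
  have := star_step' (S := (SS : ℝ)) hba hba' hst hP hcon' (by positivity)
  push_cast at this
  linarith

end Pool.Agent.H95.Gilbert
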