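import Mathlib
import Pool.Agent.H95.Gilbert.Cert

namespace Pool.Agent.H95.Gilbert

open Finset

variable {V : ℕ → ℝ} {v : ℕ → ℕ} {N : ℕ}

theorem SSpos : (0:ℝ) < (SS : ℝ) := by norm_num

theorem del_pos : (0:ℝ) < del := by norm_num [del]

theorem del_lt : del < 1 := by norm_num [del]

/-- From integers to reals, lower version. -/
theorem lower_real {j ia F F' C : ℕ} (hj : Bd V v j) (hia : Bd V v ia) (hF' : F' ≤ SS)
    (h : C * SS ≤ v j * F + v ia * (SS - F')) :
    (1 - del) * ((C : ℝ) / SS) ≤ V j * ((F : ℝ) / SS) + V ia * (1 - (F' : ℝ) / SS) := by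
  have hS := SSpos
  have h1 : ((C * SS : ℕ) : ℝ) ≤ ((v j * F + v ia * (SS - F') : ℕ) : ℝ) := by exact_mod_cast h
  rw [Nat.cast_add, Nat.cast_mul, Nat.cast_mul, Nat.cast_mul, Nat.cast_sub hF'] at h1
  have h2 : (1 - (F' : ℝ) / SS) = ((SS : ℝ) - F') / SS := by field_simp
  have h3 : (0:ℝ) ≤ ((SS : ℝ) - F') / SS := by
    apply div_nonneg _ hS.le
    have : (F' : ℝ) ≤ SS := by exact_mod_cast hF'
    linarith
  have h4 : (0:ℝ) ≤ (F : ℝ) / SS := by positivity
  rw [h2]
  have e1 := mul_le_mul_of_nonneg_right hj.1 h4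
  have e2 := mul_le_mul_of_nonneg_right hia.1 h3
  have hd : (0:ℝ) ≤ 1 - del := by have := del_lt; linarith
  have e3 : (1 - del) * ((C : ℝ) / SS) ≤
      (1 - del) * ((v j : ℝ) / SS * ((F : ℝ) / SS) + (v ia : ℝ) / SS * (((SS : ℝ) - F') / SS)) := by
    apply mul_le_mul_of_nonneg_left _ hd
    have : (C : ℝ) / SS = ((C : ℝ) * SS) / (SS * SS) := by field_simp
    rw [this]
    have : (v j : ℝ) / SS * ((F : ℝ) / SS) + (v ia : ℝ) / SS * (((SS : ℝ) - F') / SS) =
        ((v j : ℝ) * F + v ia * (SS - F')) / (SS * SS) := by field_simp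
    rw [this]
    exact div_le_div_of_nonneg_right h1 (by positivity)
  linarith

theorem upper_real {j ia F F' C : ℕ} (hj : Bd V v j) (hia : Bd V v ia) (hF' : F' ≤ SS)
    (h : v j * F + v ia * (SS - F') ≤ C * SS) :
    V j * ((F : ℝ) / SS) + V ia * (1 - (F' : ℝ) / SS) ≤ (1 + del) * ((C : ℝ) / SS) := by
  have hS := SSpos
  have h1 : ((v j * F + v ia * (SS - F') : ℕ) : ℝ) ≤ ((C * SS : ℕ) : ℝ) := by exact_mod_cast h
  rw [Nat.cast_add, Nat.cast_mul, Nat.cast_mul, Nat.cast_mul, Nat.cast_sub hF'] at h1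
  have h2 : (1 - (F' : ℝ) / SS) = ((SS : ℝ) - F') / SS := by field_simp
  have h3 : (0:ℝ) ≤ ((SS : ℝ) - F') / SS := by
    apply div_nonneg _ hS.le
    have : (F' : ℝ) ≤ SS := by exact_mod_cast hF'
    linarith
  have h4 : (0:ℝ) ≤ (F : ℝ) / SS := by positivity
  rw [h2]
  have e1 := mul_le_mul_of_nonneg_right hj.2 h4
  have e2 := mul_le_mul_of_nonneg_right hia.2 h3
  have hd : (0:ℝ) ≤ 1 + del := by have := del_pos; linarith
  have e3 : (1 + del) * ((v j : ℝ) / SS * ((F : ℝ) / SS) +
      (v ia : ℝ) / SS * (((SS : ℝ) - F') / SS)) ≤ (1 + del) * ((C : ℝ) / SS) := by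
    apply mul_le_mul_of_nonneg_left _ hd
    have : (C : ℝ) / SS = ((C : ℝ) * SS) / (SS * SS) := by field_simp
    rw [this]
    have : (v j : ℝ) / SS * ((F : ℝ) / SS) + (v ia : ℝ) / SS * (((SS : ℝ) - F') / SS) =
        ((v j : ℝ) * F + v ia * (SS - F')) / (SS * SS) := by field_simp
    rw [this]
    exact div_le_div_of_nonneg_right h1 (by positivity)
  linarith

theorem LR.reach (hV : IsGilbertValue V) (hT : TabOK v N) {n k1 k2 C : ℕ} (hn : n ≤ N + 1)
    (hk12 : k1 + k2 + 1 = n) (hk1 : k1 ≤ k2) (hk2 : k2 ≤ k1 + 1) (hC : 2 * C ≤ v k1 + v k2)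
    (hB : ∀ j < n, Bd V v j)
    {ia ib F : ℕ} (h : LR v (C * SS) ia ib F) (hab : ia + ib + 1 = n) (hia : ia ≤ k1)
    (hlt : ia < ib) (hF : F < SS) :
    ReachB V n ((1 - del) * ((C : ℝ) / SS)) ib ((F : ℝ) / SS) := by
  induction h with
  | fin ia ib F h =>
    have hF1 : (F : ℝ) / SS ≤ 1 := by
      rw [div_le_one SSpos]; exact_mod_cast hF.le
    refine ReachB.fin hV (by omega) hF1 (by positivity) ?_
    have := lower_real (F' := SS) (hB ib (by omega)) (hB ia (by omega)) (le_refl _)
      (F := F) (C := C) (by omega)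
    rw [div_self SSpos.ne', sub_self, mul_zero, add_zero] at this
    exact this
  | step ia ib F h ih =>
    have hmono := LR.mono hT hn hk12 hk1 hk2 hC h hab hia hlt hF
    set F' := stepL (C * SS) F (v (ia + 1)) (v ib) with hF'
    have hF'lt : F' < SS := lt_of_le_of_lt (stepL_le _ _ _ _) (by norm_num)
    have ih' := ih (by omega) (by omega) (by omega) hF'lt
    refine ReachB.step (by omega) ?_ ?_ ih'
    · apply div_le_div_of_nonneg_right _ SSpos.le
      exact_mod_cast hmono
    · rw [show n - 1 - ib = ia + 1 by omega]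
      refine lower_real (hB ib (by omega)) (hB (ia + 1) (by omega)) hF'lt.le ?_
      -- integer inequality
      have hapos : 0 < v (ia + 1) := by
        have := hT.lt (show 0 < ia + 1 by omega) (by omega)
        omega
      set q := (C * SS - v ib * F) / v (ia + 1) with hq
      have hSS : SS = 72057594037927936 := rfl
      have hF'' : F' = 72057594037927935 - q := by rw [hF', stepL]
      have h1 : C * SS - v ib * F < v (ia + 1) * (q + 1) := by
        rw [hq]; exact Nat.lt_mul_div_succ _ hapos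
      rcases Nat.lt_or_ge q SS with h2 | h2
      · have h3 : SS - F' = q + 1 := by omega
        rw [h3]; omega
      · have h3 : F' = 0 := by omega
        have h4 : F = 0 := by omega
        have hP : (C : ℝ) * SS + v (ia + 1) * F ≤ v ib * F + v (ia + 1) * SS :=
          LR.above hT hn hk12 hk1 hk2 hC (LR.step ia ib F h) hab hia hF.le
        have hP' : C * SS + v (ia + 1) * F ≤ v ib * F + v (ia + 1) * SS := by exact_mod_cast hP
        have h5 : v ib * F = 0 := by rw [h4, Nat.mul_zero]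
        have h6 : v (ia + 1) * F = 0 := by rw [h4, Nat.mul_zero]
        have h7 : SS - F' = SS := by omega
        rw [h6, h5, Nat.add_zero, Nat.zero_add] at hP'
        rw [h7]
        exact hP'.trans (Nat.le_add_left _ _)

theorem UR.above (hT : TabOK v N) {n C : ℕ} (hn : n ≤ N + 1)
    {ia ib F : ℕ} (h : UR v (C * SS) ia ib F) (hab : ia + ib + 1 = n)
    (hF : F ≤ SS) : v ib * F ≤ C * SS := by
  induction h with
  | fin ia ib F h => omega
  | step ia ib F h ih =>
    by_contra hcon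
    push Not at hcon
    have h1 : stepU (C * SS) F (v (ia + 1)) (v ib) = SS := by
      unfold stepU
      have : C * SS - v ib * F = 0 := by omega
      rw [this, Nat.zero_div]
    rw [h1] at ih
    have h2 := ih (by omega) (le_refl _)
    have h3 : v (ib + 1) ≤ C := Nat.le_of_mul_le_mul_right h2 (by norm_num)
    have h4 : v ib * F ≤ v ib * SS := Nat.mul_le_mul_left _ hF
    have h5 : C < v ib := by
      by_contra h
      push Not at h
      have := Nat.mul_le_mul_right SS h
      omega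
    have := hT.inc ib (by omega)
    omega

theorem UR.reach (hV : IsGilbertValue V) (hT : TabOK v N) {n C : ℕ} (hn : n ≤ N + 1)
    (hB : ∀ j < n, Bd V v j)
    {ia ib F : ℕ} (h : UR v (C * SS) ia ib F) (hab : ia + ib + 1 = n) (hF : F ≤ SS) :
    ReachR V n ((1 + del) * ((C : ℝ) / SS)) ib ((F : ℝ) / SS) := by
  induction h with
  | fin ia ib F h =>
    refine ReachR.fin hV (by omega) (by positivity) ?_
    have := upper_real (F' := 0) (hB ib (by omega)) (hB ia (by omega)) (by norm_num)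
      (F := F) (C := C) (by rw [Nat.sub_zero]; omega)
    rw [Nat.cast_zero, zero_div, sub_zero, mul_one] at this
    rw [show n - 1 - ib = ia by omega]
    exact this
  | step ia ib F h ih =>
    set F' := stepU (C * SS) F (v (ia + 1)) (v ib) with hF'
    have hF'le : F' ≤ SS := stepU_le _ _ _ _
    have ih' := ih (by omega) hF'le
    refine ReachR.step (by omega) ?_ ih'
    rw [show n - 1 - ib = ia + 1 by omega]
    refine upper_real (hB ib (by omega)) (hB (ia + 1) (by omega)) hF'le ?_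
    have hP := UR.above hT hn (UR.step ia ib F h) hab hF
    set q := (C * SS - v ib * F) / v (ia + 1) with hq
    have hSS : SS = 72057594037927936 := rfl
    have hF'' : F' = 72057594037927936 - q := by rw [hF', stepU]
    have h1 : v (ia + 1) * q ≤ C * SS - v ib * F := by
      rw [hq]; exact Nat.mul_div_le _ _
    have h2 : SS - F' ≤ q := by omega
    have h3 : v (ia + 1) * (SS - F') ≤ v (ia + 1) * q := Nat.mul_le_mul_left _ h2
    omega

/-- The integer checks for `n = 2p`. -/
structure GoodE (v : ℕ → ℕ) (p : ℕ) : Prop where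
  cen : 2 * (v (2 * p) - 72057594037960704) ≤ v (p - 1) + v p
  low : LR v ((v (2 * p) - 72057594037960704) * SS) (p - 1) p 36028797018963968
  upp : UR v ((v (2 * p) - 72057594037895169) * SS) (p - 1) p 36028797018963968

/-- The integer checks for `n = 2p+1`. -/
structure GoodO (v : ℕ → ℕ) (p : ℕ) : Prop where
  cen : v (2 * p + 1) - 72057594037895169 ≤ v p
  half : 36028797018963968 ≤
    72057594037927935 - (v (2 * p + 1) - 72057594037960704) * 36028797018963968 / v p
  low : LR v ((v (2 * p + 1) - 72057594037960704) * SS) (p - 1) (p + 1)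
    (72057594037927935 - (v (2 * p + 1) - 72057594037960704) * 36028797018963968 / v p)
  upp : UR v ((v (2 * p + 1) - 72057594037895169) * SS) (p - 1) (p + 1)
    (72057594037927936 - (v (2 * p + 1) - 72057594037895169) * 36028797018963968 / v p)

theorem fin_low {n C w : ℕ} (hC : C = w - 72057594037960704)
    (h : 1 + (1 - del) * ((C : ℝ) / SS) ≤ V n) : (1 - del) * ((w : ℝ) / SS) ≤ V n := by
  refine le_trans ?_ h
  have h1 : (w : ℝ) ≤ (C : ℝ) + 72057594037960704 := by
    have : w ≤ C + 72057594037960704 := by omega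
    exact_mod_cast this
  have h2 : (SS : ℝ) = 72057594037927936 := by norm_num
  rw [h2]
  have h3 : (w : ℝ) / 72057594037927936 ≤ ((C : ℝ) + 72057594037960704) / 72057594037927936 :=
    div_le_div_of_nonneg_right h1 (by norm_num)
  have h4 : (1 - del) * ((w : ℝ) / 72057594037927936) ≤
      (1 - del) * (((C : ℝ) + 72057594037960704) / 72057594037927936) :=
    mul_le_mul_of_nonneg_left h3 (by have := del_lt; linarith)
  refine h4.trans ?_
  rw [add_div, mul_add]
  have : (1 - del) * ((72057594037960704 : ℝ) / 72057594037927936) ≤ 1 := by norm_num [del]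
  linarith

theorem fin_upp {n C w : ℕ} (hC : C = w - 72057594037895169) (hw : 72057594037895169 ≤ w)
    (h : V n ≤ 1 + (1 + del) * ((C : ℝ) / SS)) : V n ≤ (1 + del) * ((w : ℝ) / SS) := by
  refine le_trans h ?_
  have h1 : (w : ℝ) = (C : ℝ) + 72057594037895169 := by
    have : w = C + 72057594037895169 := by omega
    exact_mod_cast this
  have h2 : (SS : ℝ) = 72057594037927936 := by norm_num
  rw [h2, h1, add_div, mul_add]
  have : 1 ≤ (1 + del) * ((72057594037895169 : ℝ) / 72057594037927936) := by norm_num [del]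
  linarith

theorem GoodE.bd (hV : IsGilbertValue V) (hT : TabOK v N) {p : ℕ} (hp : 1 ≤ p)
    (hn : 2 * p ≤ N) (hB : ∀ j < 2 * p, Bd V v j) (h : GoodE v p) : Bd V v (2 * p) := by
  have h1 : SS ≤ v (2 * p) := by
    have := hT.one
    rcases Nat.lt_or_ge 1 (2 * p) with h | h
    · have := hT.lt h hn; omega
    · omega
  have hSS : SS = 72057594037927936 := rfl
  have hhalf : ((36028797018963968 : ℕ) : ℝ) / SS = 1 / 2 := by norm_num
  constructor
  · refine fin_low rfl (blue_half_even hV hp ?_)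
    have := LR.reach hV hT (n := 2 * p) (k1 := p - 1) (k2 := p) (by omega) (by omega) (by omega)
      (by omega) h.cen hB h.low (by omega) (le_refl _) (by omega) (by norm_num)
    rwa [hhalf] at this
  · refine fin_upp rfl (by omega) (red_half_even hV hp ?_)
    have := UR.reach hV hT (n := 2 * p) (by omega) hB h.upp (by omega) (by norm_num)
    rwa [hhalf] at this

theorem cen_low {p C q F : ℕ} (hF : F + q + 1 = SS) (hb : (1 - del) * ((v p : ℝ) / SS) ≤ V p)
    (hq : C * 36028797018963968 ≤ v p * (q + 1)) :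
    (1 - del) * ((C : ℝ) / SS) ≤ 2 * V p * (1 - (F : ℝ) / SS) := by
  have h3 : 1 - (F : ℝ) / SS = ((q + 1 : ℕ) : ℝ) / SS := by
    have h5 : ((F + q + 1 : ℕ) : ℝ) = (SS : ℝ) := by rw [hF]
    push_cast at h5
    rw [eq_div_iff SSpos.ne', sub_mul, one_mul, div_mul_cancel₀ _ SSpos.ne']
    push_cast
    linarith
  rw [h3]
  have h7 : ((C * 36028797018963968 : ℕ) : ℝ) ≤ ((v p * (q + 1) : ℕ) : ℝ) := by
    exact_mod_cast hq
  rw [Nat.cast_mul, Nat.cast_mul] at h7
  have hd : (0:ℝ) ≤ 1 - del := by have := del_lt; linarith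
  have h8 : (1 - del) * ((C : ℝ) / SS) ≤
      2 * ((1 - del) * ((v p : ℝ) / SS)) * (((q + 1 : ℕ) : ℝ) / SS) := by
    have e1 : 2 * ((1 - del) * ((v p : ℝ) / SS)) * (((q + 1 : ℕ) : ℝ) / SS) =
      (1 - del) * (2 * ((v p : ℝ) * ((q + 1 : ℕ) : ℝ)) / (SS * SS)) := by ring
    rw [e1]
    apply mul_le_mul_of_nonneg_left _ hd
    have hSp := SSpos
    rw [div_le_div_iff₀ SSpos (by positivity)]
    have e2 : ((36028797018963968 : ℕ) : ℝ) * 2 = SS := by norm_num
    have e3 : (C : ℝ) * ((SS : ℝ) * SS) = 2 * ((C : ℝ) * ((36028797018963968 : ℕ) : ℝ)) * SS := by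
      rw [← e2]; ring
    rw [e3]
    apply mul_le_mul_of_nonneg_right _ SSpos.le
    linarith
  refine h8.trans ?_
  have h9 : (0:ℝ) ≤ ((q + 1 : ℕ) : ℝ) / SS := by positivity
  have := mul_le_mul_of_nonneg_right hb h9
  linarith

theorem cen_upp {p C q F : ℕ} (hF : F + q = SS) (hb : V p ≤ (1 + del) * ((v p : ℝ) / SS))
    (hq : v p * q ≤ C * 36028797018963968) :
    2 * V p * (1 - (F : ℝ) / SS) ≤ (1 + del) * ((C : ℝ) / SS) := by
  have h3 : 1 - (F : ℝ) / SS = (q : ℝ) / SS := by
    have h5 : ((F + q : ℕ) : ℝ) = (SS : ℝ) := by rw [hF]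
    push_cast at h5
    rw [eq_div_iff SSpos.ne', sub_mul, one_mul, div_mul_cancel₀ _ SSpos.ne']
    push_cast
    linarith
  rw [h3]
  have h7 : ((v p * q : ℕ) : ℝ) ≤ ((C * 36028797018963968 : ℕ) : ℝ) := by
    exact_mod_cast hq
  rw [Nat.cast_mul, Nat.cast_mul] at h7
  have hd : (0:ℝ) ≤ 1 + del := by have := del_pos; linarith
  have h8 : 2 * ((1 + del) * ((v p : ℝ) / SS)) * ((q : ℝ) / SS) ≤
      (1 + del) * ((C : ℝ) / SS) := by
    have e1 : 2 * ((1 + del) * ((v p : ℝ) / SS)) * ((q : ℝ) / SS) =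
      (1 + del) * (2 * ((v p : ℝ) * (q : ℝ)) / (SS * SS)) := by ring
    rw [e1]
    apply mul_le_mul_of_nonneg_left _ hd
    have hSp := SSpos
    rw [div_le_div_iff₀ (by positivity) SSpos]
    have e2 : ((36028797018963968 : ℕ) : ℝ) * 2 = SS := by norm_num
    have e3 : (C : ℝ) * ((SS : ℝ) * SS) = 2 * ((C : ℝ) * ((36028797018963968 : ℕ) : ℝ)) * SS := by
      rw [← e2]; ring
    rw [e3]
    apply mul_le_mul_of_nonneg_right _ SSpos.le
    linarith
  have h9 : (0:ℝ) ≤ (q : ℝ) / SS := by positivity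
  have := mul_le_mul_of_nonneg_right hb h9
  linarith

theorem GoodO.bd (hV : IsGilbertValue V) (hT : TabOK v N) {p : ℕ} (hp : 1 ≤ p)
    (hn : 2 * p + 1 ≤ N) (hB : ∀ j < 2 * p + 1, Bd V v j) (h : GoodO v p) :
    Bd V v (2 * p + 1) := by
  obtain ⟨hcen, hhalf, hlow, hupp⟩ := h
  have h1 : SS ≤ v (2 * p + 1) := by
    have := hT.one
    have := hT.lt (show 1 < 2 * p + 1 by omega) hn; omega
  have hvp : 0 < v p := by
    have := hT.lt (show 0 < p by omega) (by omega); omega
  obtain ⟨Cl, hCl⟩ : ∃ C, C = v (2 * p + 1) - 72057594037960704 := ⟨_, rfl⟩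
  obtain ⟨Cu, hCu⟩ : ∃ C, C = v (2 * p + 1) - 72057594037895169 := ⟨_, rfl⟩
  rw [← hCl] at hhalf hlow
  rw [← hCu] at hcen hupp
  obtain ⟨ql, hql⟩ : ∃ q, q = Cl * 36028797018963968 / v p := ⟨_, rfl⟩
  obtain ⟨qu, hqu⟩ : ∃ q, q = Cu * 36028797018963968 / v p := ⟨_, rfl⟩
  rw [← hql] at hhalf hlow
  rw [← hqu] at hupp
  have hql' : Cl * 36028797018963968 ≤ v p * (ql + 1) := by
    rw [hql]; exact (Nat.lt_mul_div_succ _ hvp).le
  have hqu' : v p * qu ≤ Cu * 36028797018963968 := by
    rw [hqu]; exact Nat.mul_div_le _ _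
  obtain ⟨Fl, hFl⟩ : ∃ F, F = 72057594037927935 - ql := ⟨_, rfl⟩
  obtain ⟨Fu, hFu⟩ : ∃ F, F = 72057594037927936 - qu := ⟨_, rfl⟩
  rw [← hFl] at hhalf hlow
  rw [← hFu] at hupp
  have hSS : SS = 72057594037927936 := rfl
  have hFl' : Fl + ql + 1 = SS := by omega
  have hquS : qu ≤ 36028797018963968 := by
    have h4 : Cu * 36028797018963968 ≤ v p * 36028797018963968 := Nat.mul_le_mul_right _ hcen
    exact Nat.le_of_mul_le_mul_left (hqu'.trans h4) hvp
  have hFu' : Fu + qu = SS := by omega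
  constructor
  · refine fin_low hCl (blue_half_odd hV (φ := (Fl : ℝ) / SS) ?_ (cen_low hFl' (hB p (by omega)).1 hql')
      ?_)
    · rw [le_div_iff₀ SSpos]
      have : ((36028797018963968 : ℕ) : ℝ) ≤ (Fl : ℝ) := by exact_mod_cast hhalf
      push_cast at this ⊢
      linarith
    · refine LR.reach hV hT (n := 2 * p + 1) (k1 := p) (k2 := p) (by omega) (by omega) (le_refl _)
        (by omega) ?_ hB hlow (by omega) (by omega) (by omega) (by omega)
      omega
  · refine fin_upp hCu (by omega)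
      (red_half_odd hV (φ := (Fu : ℝ) / SS) (cen_upp hFu' (hB p (by omega)).2 hqu') ?_)
    exact UR.reach hV hT (n := 2 * p + 1) (by omega) hB hupp (by omega) (by omega)

end Pool.Agent.H95.Gilbert
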