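import Mathlib
import Pool.Agent.H95.Gilbert.Cert2
import Pool.Agent.H95.Gilbert.Blk

/-! Soundness of the kernel programs in `Blk.lean`. -/

namespace Pool.Agent.H95.Gilbert

open Blk

/-- The blocks list `f i, f (i+1), …`. -/
def Asc (f : ℕ → ℕ) : ℕ → Blk → Prop
  | _, .nil => True
  | i, .cons a0 a1 a2 a3 a4 a5 a6 a7 t => (a0 = f i ∧ a1 = f (i + 1) ∧ a2 = f (i + 2) ∧
      a3 = f (i + 3) ∧ a4 = f (i + 4) ∧ a5 = f (i + 5) ∧ a6 = f (i + 6) ∧ a7 = f (i + 7)) ∧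
      Asc f (i + 8) t

/-- The blocks list `f i, f (i-1), …`, all indices being positive. -/
def Desc (f : ℕ → ℕ) : ℕ → Blk → Prop
  | _, .nil => True
  | i, .cons a0 a1 a2 a3 a4 a5 a6 a7 t => (8 ≤ i ∧ a0 = f i ∧ a1 = f (i - 1) ∧ a2 = f (i - 2) ∧
      a3 = f (i - 3) ∧ a4 = f (i - 4) ∧ a5 = f (i - 5) ∧ a6 = f (i - 6) ∧ a7 = f (i - 7)) ∧
      Desc f (i - 8) t

def LAsc (f : ℕ → ℕ) : ℕ → List ℕ → Prop
  | _, [] => True
  | i, a :: t => a = f i ∧ LAsc f (i + 1) t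

theorem Asc.shift {f : ℕ → ℕ} : ∀ {l : Blk} {i : ℕ}, Asc f i l → Asc f (i + 1) (Blk.shift l) := by
  intro l
  induction l with
  | nil => intro i _; exact trivial
  | cons a0 a1 a2 a3 a4 a5 a6 a7 t ih =>
    intro i h
    cases t with
    | nil => exact trivial
    | cons b0 b1 b2 b3 b4 b5 b6 b7 t' =>
      obtain ⟨⟨h0, h1, h2, h3, h4, h5, h6, h7⟩, ht⟩ := h
      have ht' := ih ht
      obtain ⟨⟨g0, -⟩, -⟩ := ht
      refine ⟨⟨h1, h2, h3, h4, h5, h6, h7, ?_⟩, ?_⟩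
      · rw [g0]
      · rw [show i + 1 + 8 = i + 8 + 1 by omega]; exact ht'

theorem Desc.push {f : ℕ → ℕ} : ∀ {l : Blk} {i x : ℕ}, Desc f i l → x = f (i + 1) →
    Desc f (i + 1) (Blk.push l x) := by
  intro l
  induction l with
  | nil => intro i x _ _; exact trivial
  | cons a0 a1 a2 a3 a4 a5 a6 a7 t ih =>
    intro i x h hx
    obtain ⟨⟨h, h0, h1, h2, h3, h4, h5, h6, h7⟩, ht⟩ := h
    refine ⟨⟨by omega, hx, ?_, ?_, ?_, ?_, ?_, ?_, ?_⟩, ?_⟩
    · rw [h0, show i + 1 - 1 = i by omega]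
    · rw [h1, show i + 1 - 2 = i - 1 by omega]
    · rw [h2, show i + 1 - 3 = i - 2 by omega]
    · rw [h3, show i + 1 - 4 = i - 3 by omega]
    · rw [h4, show i + 1 - 5 = i - 4 by omega]
    · rw [h5, show i + 1 - 6 = i - 5 by omega]
    · rw [h6, show i + 1 - 7 = i - 6 by omega]
    · rw [show i + 1 - 8 = i - 8 + 1 by omega]
      exact ih ht (by rw [h7, show i - 8 + 1 = i - 7 by omega])

theorem Asc.dropB {f : ℕ → ℕ} : ∀ (k : ℕ) {l : Blk} {i : ℕ}, Asc f i l →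
    Asc f (i + 8 * k) (Blk.dropB k l) := by
  intro k
  induction k with
  | zero => intro l i h; exact h
  | succ k ih =>
    intro l i h
    cases l with
    | nil => exact trivial
    | cons a0 a1 a2 a3 a4 a5 a6 a7 t =>
      have := ih h.2
      rw [show i + 8 * (k + 1) = i + 8 + 8 * k by omega]
      exact this

theorem Desc.revTake {f : ℕ → ℕ} : ∀ (k : ℕ) {l acc : Blk} {i : ℕ}, 1 ≤ i → Asc f i l →
    Desc f (i - 1) acc → Desc f (i + 8 * k - 1) (Blk.revTake k l acc) := by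
  intro k
  induction k with
  | zero => intro l acc i _ _ h; exact h
  | succ k ih =>
    intro l acc i hi h hacc
    cases l with
    | nil => exact trivial
    | cons a0 a1 a2 a3 a4 a5 a6 a7 t =>
      obtain ⟨⟨h0, h1, h2, h3, h4, h5, h6, h7⟩, ht⟩ := h
      rw [show i + 8 * (k + 1) - 1 = i + 8 + 8 * k - 1 by omega]
      refine ih (l := t) (by omega) ht ?_
      refine ⟨⟨by omega, ?_, ?_, ?_, ?_, ?_, ?_, ?_, ?_⟩, ?_⟩
      · rw [h7, show i + 8 - 1 = i + 7 by omega]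
      · rw [h6, show i + 8 - 1 - 1 = i + 6 by omega]
      · rw [h5, show i + 8 - 1 - 2 = i + 5 by omega]
      · rw [h4, show i + 8 - 1 - 3 = i + 4 by omega]
      · rw [h3, show i + 8 - 1 - 4 = i + 3 by omega]
      · rw [h2, show i + 8 - 1 - 5 = i + 2 by omega]
      · rw [h1, show i + 8 - 1 - 6 = i + 1 by omega]
      · rw [h0, show i + 8 - 1 - 7 = i by omega]
      · rw [show i + 8 - 1 - 8 = i - 1 by omega]; exact hacc

theorem Asc.elems {f : ℕ → ℕ} : ∀ {l : Blk} {i : ℕ}, Asc f i l → LAsc f i (Blk.elems l) := by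
  intro l
  induction l with
  | nil => intro i _; exact trivial
  | cons a0 a1 a2 a3 a4 a5 a6 a7 t ih =>
    intro i h
    obtain ⟨⟨h0, h1, h2, h3, h4, h5, h6, h7⟩, ht⟩ := h
    exact ⟨h0, h1, h2, h3, h4, h5, h6, h7, ih ht⟩

theorem LAsc.tl {f : ℕ → ℕ} {l : List ℕ} {i : ℕ} (h : LAsc f i l) : LAsc f (i + 1) (Blk.tl l) := by
  cases l with
  | nil => exact trivial
  | cons a t => exact h.2

theorem stepL_eq (CS F a b : ℕ) : stepL CS F a b =
    Nat.sub 72057594037927935 (Nat.div (Nat.sub CS (Nat.mul b F)) a) := rfl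

theorem stepU_eq (CS F a b : ℕ) : stepU CS F a b =
    Nat.sub 72057594037927936 (Nat.div (Nat.sub CS (Nat.mul b F)) a) := rfl

theorem runL_cons (CS a0 a1 a2 a3 a4 a5 a6 a7 : ℕ) (lt : Blk) (b0 b1 b2 b3 b4 b5 b6 b7 : ℕ) (rt : Blk) (F : ℕ) :
    runL CS (cons a0 a1 a2 a3 a4 a5 a6 a7 lt) (cons b0 b1 b2 b3 b4 b5 b6 b7 rt) F =
      Nat.rec (motive := fun _ => Bool) true
       (fun n _ => runL CS lt rt (Nat.sub 72057594037927935 (Nat.succ n)))
       (Nat.div (Nat.sub CS (Nat.mul b7 (Nat.sub 72057594037927935 (Nat.div (Nat.sub CS (Nat.mul b6 (Nat.sub 72057594037927935 (Nat.div (Nat.sub CS (Nat.mul b5 (Nat.sub 72057594037927935 (Nat.div (Nat.sub CS (Nat.mul b4 (Nat.sub 72057594037927935 (Nat.div (Nat.sub CS (Nat.mul b3 (Nat.sub 72057594037927935 (Nat.div (Nat.sub CS (Nat.mul b2 (Nat.sub 72057594037927935 (Nat.div (Nat.sub CS (Nat.mul b1 (Nat.sub 72057594037927935 (Nat.div (Nat.sub CS (Nat.mul b0 F)) a0))))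 a1)))) a2)))) a3)))) a4)))) a5)))) a6)))) a7) := rfl

theorem runU_cons (CS a0 a1 a2 a3 a4 a5 a6 a7 : ℕ) (lt : Blk) (b0 b1 b2 b3 b4 b5 b6 b7 : ℕ) (rt : Blk) (F : ℕ) :
    runU CS (cons a0 a1 a2 a3 a4 a5 a6 a7 lt) (cons b0 b1 b2 b3 b4 b5 b6 b7 rt) F =
      Nat.rec (motive := fun _ => Bool) true
       (fun n _ => runU CS lt rt (Nat.succ n))
       (Nat.sub 72057594037927936 (Nat.div (Nat.sub CS (Nat.mul b7 (Nat.sub 72057594037927936 (Nat.div (Nat.sub CS (Nat.mul b6 (Nat.sub 72057594037927936 (Nat.div (Nat.sub CS (Nat.mul b5 (Nat.sub 72057594037927936 (Nat.div (Nat.sub CS (Nat.mul b4 (Nat.sub 72057594037927936 (Nat.div (Nat.sub CS (Nat.mul b3 (Nat.sub 72057594037927936 (Nat.div (Nat.sub CS (Nat.mul b2 (Nat.sub 72057594037927936 (Nat.div (Nat.sub CS (Nat.mul b1 (Nat.sub 72057594037927936 (Nat.div (Nat.sub CS (Nat.mul b0 F)) a0)))) a1)))) a2)))) a3)))) a4)))) a5)))) a6)))) a7)) := rfl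


variable {v : ℕ → ℕ}

theorem LR.step8 {CS ia ib F : ℕ} (hia : 8 ≤ ia)
    {F1 F2 F3 F4 F5 F6 F7 F8 : ℕ}
    (h1 : F1 = stepL CS F (v ia) (v ib))
    (h2 : F2 = stepL CS F1 (v (ia - 1)) (v (ib + 1)))
    (h3 : F3 = stepL CS F2 (v (ia - 2)) (v (ib + 2)))
    (h4 : F4 = stepL CS F3 (v (ia - 3)) (v (ib + 3)))
    (h5 : F5 = stepL CS F4 (v (ia - 4)) (v (ib + 4)))
    (h6 : F6 = stepL CS F5 (v (ia - 5)) (v (ib + 5)))
    (h7 : F7 = stepL CS F6 (v (ia - 6)) (v (ib + 6)))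
    (h8 : F8 = stepL CS F7 (v (ia - 7)) (v (ib + 7)))
    (h : LR v CS (ia - 8) (ib + 8) F8) : LR v CS ia ib F := by
  have g : ∀ i j G G', 1 ≤ i → G' = stepL CS G (v i) (v j) → LR v CS (i - 1) (j + 1) G' →
      LR v CS i j G := by
    intro i j G G' hi hG h
    have := LR.step (v := v) (CS := CS) (i - 1) j G (by
      rw [show i - 1 + 1 = i by omega, ← hG]; exact h)
    rwa [show i - 1 + 1 = i by omega] at this
  refine g ia ib F F1 (by omega) h1 ?_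
  refine g (ia - 1) (ib + 1) F1 F2 (by omega) h2 ?_
  refine g (ia - 1 - 1) (ib + 1 + 1) F2 F3 (by omega) h3 ?_
  refine g (ia - 1 - 1 - 1) (ib + 1 + 1 + 1) F3 F4 (by omega) h4 ?_
  refine g (ia - 1 - 1 - 1 - 1) (ib + 1 + 1 + 1 + 1) F4 F5 (by omega) h5 ?_
  refine g (ia - 1 - 1 - 1 - 1 - 1) (ib + 1 + 1 + 1 + 1 + 1) F5 F6 (by omega) h6 ?_
  refine g (ia - 1 - 1 - 1 - 1 - 1 - 1) (ib + 1 + 1 + 1 + 1 + 1 + 1) F6 F7 (by omega) h7 ?_
  refine g (ia - 1 - 1 - 1 - 1 - 1 - 1 - 1) (ib + 1 + 1 + 1 + 1 + 1 + 1 + 1) F7 F8 (by omega) h8 ?_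
  exact h

theorem UR.step1 {CS i j G G' : ℕ} (hi : 1 ≤ i) (hG : G' = stepU CS G (v i) (v j))
    (h : UR v CS (i - 1) (j + 1) G') : UR v CS i j G := by
  have := UR.step (v := v) (CS := CS) (i - 1) j G (by
    rw [show i - 1 + 1 = i by omega, ← hG]; exact h)
  rwa [show i - 1 + 1 = i by omega] at this

theorem UR.step7 {CS ia ib F : ℕ} (hia : 8 ≤ ia)
    {F1 F2 F3 F4 F5 F6 F7 : ℕ}
    (h1 : F1 = stepU CS F (v ia) (v ib))
    (h2 : F2 = stepU CS F1 (v (ia - 1)) (v (ib + 1)))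
    (h3 : F3 = stepU CS F2 (v (ia - 2)) (v (ib + 2)))
    (h4 : F4 = stepU CS F3 (v (ia - 3)) (v (ib + 3)))
    (h5 : F5 = stepU CS F4 (v (ia - 4)) (v (ib + 4)))
    (h6 : F6 = stepU CS F5 (v (ia - 5)) (v (ib + 5)))
    (h7 : F7 = stepU CS F6 (v (ia - 6)) (v (ib + 6)))
    (h : UR v CS (ia - 7) (ib + 7) F7) : UR v CS ia ib F := by
  refine UR.step1 (i := ia) (j := ib) (by omega) h1 ?_
  refine UR.step1 (i := ia - 1) (j := ib + 1) (by omega) h2 ?_
  refine UR.step1 (i := ia - 1 - 1) (j := ib + 1 + 1) (by omega) h3 ?_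
  refine UR.step1 (i := ia - 1 - 1 - 1) (j := ib + 1 + 1 + 1) (by omega) h4 ?_
  refine UR.step1 (i := ia - 1 - 1 - 1 - 1) (j := ib + 1 + 1 + 1 + 1) (by omega) h5 ?_
  refine UR.step1 (i := ia - 1 - 1 - 1 - 1 - 1) (j := ib + 1 + 1 + 1 + 1 + 1) (by omega) h6 ?_
  refine UR.step1 (i := ia - 1 - 1 - 1 - 1 - 1 - 1) (j := ib + 1 + 1 + 1 + 1 + 1 + 1)
    (by omega) h7 ?_
  exact h


theorem runL_LR {CS M m0 : ℕ} (hfin : ∀ j, m0 ≤ j → j ≤ M → CS ≤ v j * 72057594037927935) :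
    ∀ {l r : Blk} {ia ib F : ℕ}, runL CS l r F = true → Desc v ia l → Asc v ib r →
      ia + ib ≤ M → m0 ≤ ib → LR v CS ia ib F := by
  intro l
  induction l with
  | nil => intro r ia ib F h; exact absurd h (by simp [runL])
  | cons a0 a1 a2 a3 a4 a5 a6 a7 lt ih =>
    intro r ia ib F h hl hr hM hm0
    cases r with
    | nil => exact absurd h (by simp [runL])
    | cons b0 b1 b2 b3 b4 b5 b6 b7 rt =>
      rw [runL_cons] at h
      obtain ⟨⟨hia, h0, h1, h2, h3, h4, h5, h6, h7⟩, hlt⟩ := hl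
      obtain ⟨⟨g0, g1, g2, g3, g4, g5, g6, g7⟩, hrt⟩ := hr
      subst h0 h1 h2 h3 h4 h5 h6 h7 g0 g1 g2 g3 g4 g5 g6 g7
      simp only [← stepL_eq] at h
      generalize hF1 : stepL CS F (v ia) (v ib) = F1 at h
      generalize hF2 : stepL CS F1 (v (ia - 1)) (v (ib + 1)) = F2 at h
      generalize hF3 : stepL CS F2 (v (ia - 2)) (v (ib + 2)) = F3 at h
      generalize hF4 : stepL CS F3 (v (ia - 3)) (v (ib + 3)) = F4 at h
      generalize hF5 : stepL CS F4 (v (ia - 4)) (v (ib + 4)) = F5 at h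
      generalize hF6 : stepL CS F5 (v (ia - 5)) (v (ib + 5)) = F6 at h
      generalize hF7 : stepL CS F6 (v (ia - 6)) (v (ib + 6)) = F7 at h
      refine LR.step8 hia hF1.symm hF2.symm hF3.symm hF4.symm hF5.symm hF6.symm hF7.symm rfl ?_
      rw [stepL_eq]
      generalize hq : Nat.div (Nat.sub CS (Nat.mul (v (ib + 7)) F7)) (v (ia - 7)) = q at h ⊢
      cases q with
      | zero =>
        refine LR.fin _ _ _ ?_
        exact hfin (ib + 8) (by omega) (by omega)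
      | succ n =>
        exact ih h hlt hrt (by omega) (by omega)

theorem runU_UR {CS M : ℕ} (hpos : ∀ j, 1 ≤ j → j ≤ M → 0 < v j) :
    ∀ {l r : Blk} {ia ib F : ℕ}, runU CS l r F = true → Desc v ia l → Asc v ib r →
      ia ≤ M → UR v CS ia ib F := by
  intro l
  induction l with
  | nil => intro r ia ib F h; exact absurd h (by simp [runU])
  | cons a0 a1 a2 a3 a4 a5 a6 a7 lt ih =>
    intro r ia ib F h hl hr hM
    cases r with
    | nil => exact absurd h (by simp [runU])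
    | cons b0 b1 b2 b3 b4 b5 b6 b7 rt =>
      rw [runU_cons] at h
      obtain ⟨⟨hia, h0, h1, h2, h3, h4, h5, h6, h7⟩, hlt⟩ := hl
      obtain ⟨⟨g0, g1, g2, g3, g4, g5, g6, g7⟩, hrt⟩ := hr
      subst h0 h1 h2 h3 h4 h5 h6 h7 g0 g1 g2 g3 g4 g5 g6 g7
      simp only [← stepU_eq] at h
      generalize hF1 : stepU CS F (v ia) (v ib) = F1 at h
      generalize hF2 : stepU CS F1 (v (ia - 1)) (v (ib + 1)) = F2 at h
      generalize hF3 : stepU CS F2 (v (ia - 2)) (v (ib + 2)) = F3 at h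
      generalize hF4 : stepU CS F3 (v (ia - 3)) (v (ib + 3)) = F4 at h
      generalize hF5 : stepU CS F4 (v (ia - 4)) (v (ib + 4)) = F5 at h
      generalize hF6 : stepU CS F5 (v (ia - 5)) (v (ib + 5)) = F6 at h
      generalize hF7 : stepU CS F6 (v (ia - 6)) (v (ib + 6)) = F7 at h
      refine UR.step7 hia hF1.symm hF2.symm hF3.symm hF4.symm hF5.symm hF6.symm hF7.symm ?_
      generalize hF8 : stepU CS F7 (v (ia - 7)) (v (ib + 7)) = F8 at h
      cases F8 with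
      | zero =>
        refine UR.fin _ _ _ ?_
        have hpos' := hpos (ia - 7) (by omega) (by omega)
        unfold stepU at hF8
        have h1 : SS ≤ (CS - v (ib + 7) * F7) / v (ia - 7) := Nat.le_of_sub_eq_zero hF8
        rw [Nat.le_div_iff_mul_le hpos'] at h1
        have h2 : 0 < SS * v (ia - 7) := Nat.mul_pos (by norm_num) hpos'
        rw [Nat.mul_comm (v (ia - 7)) SS]
        omega
      | succ n =>
        refine UR.step1 (i := ia - 7) (j := ib + 7) (G' := n + 1) (by omega) hF8.symm ?_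
        rw [show ia - 7 - 1 = ia - 8 by omega, show ib + 7 + 1 = ib + 8 by omega]
        exact ih h hlt hrt (by omega)

end Pool.Agent.H95.Gilbert
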