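import Mathlib
import Pool.Agent.H95.Gilbert.BlkSound

/-! Soundness of the kernel programs in `Blk.lean`, second part. -/

namespace Pool.Agent.H95.Gilbert

open Blk

theorem band_iff {a b : Bool} : band a b = true ↔ a = true ∧ b = true := by
  cases a <;> cases b <;> simp [band]

theorem nsub (a b : ℕ) : Nat.sub a b = a - b := rfl
theorem nmul (a b : ℕ) : Nat.mul a b = a * b := rfl
theorem nadd (a b : ℕ) : Nat.add a b = a + b := rfl
theorem ndiv (a b : ℕ) : Nat.div a b = a / b := rfl

theorem isZ_iff {n : ℕ} : isZ n = true ↔ n = 0 := by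
  cases n <;> simp [isZ]

variable {v : ℕ → ℕ} {N : ℕ}

/-- the final condition of the lower run -/
theorem fin_cond {m0 C M : ℕ} (hT : TabOK v N) (htop : v N ≤ 50 * SS) (hM : M ≤ N)
    (hC : C + 50 ≤ v m0) : ∀ j, m0 ≤ j → j ≤ M → C * SS ≤ v j * 72057594037927935 := by
  intro j h1 h2
  have h3 : v m0 ≤ v j := by
    rcases Nat.lt_or_ge m0 j with h | h
    · have := hT.lt h (by omega); omega
    · rw [le_antisymm h1 h]
  have h4 : v j ≤ v N := by
    rcases Nat.lt_or_ge j N with h | h
    · have := hT.lt h (by omega); omega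
    · rw [show j = N by omega]
  have h5 : (C + 50) * SS ≤ v j * SS := Nat.mul_le_mul_right _ (by omega)
  have h6 : v j * SS = v j * 72057594037927935 + v j := by
    have : SS = 72057594037927935 + 1 := by norm_num
    rw [this, Nat.mul_add, Nat.mul_one]
  have h7 : v j ≤ 50 * SS := h4.trans htop
  have h8 : (C + 50) * SS = C * SS + 50 * SS := Nat.add_mul _ _ _
  rw [h8, h6] at h5
  exact Nat.le_of_add_le_add_right (h5.trans (Nat.add_le_add_left h7 _))

theorem TabOK.pos (hT : TabOK v N) : ∀ j, 1 ≤ j → j ≤ N → 0 < v j := by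
  intro j h1 h2
  have := hT.lt (show 0 < j by omega) h2
  omega

theorem chk_sound {p c0 c1 l0 r0 : ℕ} {L R R1 : Blk} (h : chk c0 c1 l0 r0 L R R1 = true)
    (hT : TabOK v N) (htop : v N ≤ 50 * SS) (hp : 1 ≤ p) (hN : 2 * p + 1 ≤ N)
    (hc0 : c0 = v (2 * p)) (hc1 : c1 = v (2 * p + 1)) (hl0 : l0 = v (p - 1)) (hr0 : r0 = v p)
    (hL : Desc v (p - 1) L) (hR : Asc v p R) (hR1 : Asc v (p + 1) R1) :
    GoodE v p ∧ GoodO v p := by
  subst hc0 hc1 hl0 hr0
  unfold Blk.chk at h
  simp only [band_iff, isZ_iff, nsub, nmul, nadd, ndiv] at h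
  obtain ⟨h1', h2, h3, h4', h5', h6, h7⟩ := h
  have hinc := hT.inc (p - 1) (by omega)
  rw [show p - 1 + 1 = p by omega] at hinc
  have hinc2 := hT.inc p (by omega)
  refine ⟨⟨by omega, ?_, ?_⟩, ⟨by omega, by omega, ?_, ?_⟩⟩
  · exact runL_LR (fin_cond (m0 := p) (M := N) hT htop le_rfl (by omega)) h2 hL hR (by omega) le_rfl
  · exact runU_UR hT.pos h3 hL hR (by omega)
  · exact runL_LR (fin_cond (m0 := p + 1) (M := N) hT htop le_rfl (by omega)) h6 hL hR1 (by omega)
      le_rfl
  · exact runU_UR hT.pos h7 hL hR1 (by omega)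

theorem go_sound (hT : TabOK v N) (htop : v N ≤ 50 * SS) :
    ∀ (k : ℕ) {p : ℕ} {cs : List ℕ} {L R : Blk}, go k cs L R = true → 1 ≤ p →
      2 * (p + k) ≤ N + 1 → LAsc v (2 * p) cs → Desc v (p - 1) L → Asc v p R →
      ∀ i, i < k → GoodE v (p + i) ∧ GoodO v (p + i) := by
  intro k
  induction k with
  | zero => intro p cs L R _ _ _ _ _ _ i hi; omega
  | succ k ih =>
    intro p cs L R h hp hN hcs hL hR i hi
    rcases cs with _ | ⟨c0, _ | ⟨c1, cs2⟩⟩
    · exact absurd h (by simp [go])
    · exact absurd h (by simp [go])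
    · rcases L with _ | ⟨l0, l1, l2, l3, l4, l5, l6, l7, L'⟩
      · rcases R with _ | ⟨r0, r1, r2, r3, r4, r5, r6, r7, R'⟩
        · exact absurd h (by simp [go])
        · exact absurd h (by simp [go])
      · rcases R with _ | ⟨r0, r1, r2, r3, r4, r5, r6, r7, R'⟩
        · exact absurd h (by simp [go])
        · set L := Blk.cons l0 l1 l2 l3 l4 l5 l6 l7 L' with hLdef
          set R := Blk.cons r0 r1 r2 r3 r4 r5 r6 r7 R' with hRdef
          have h' : band (chk c0 c1 l0 r0 L R (shift R)) (go k cs2 (push L r0) (shift R)) = true := h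
          rw [band_iff] at h'
          obtain ⟨h1, h2⟩ := h'
          obtain ⟨hc0, hc1, hcs2⟩ := hcs
          have hl0 : l0 = v (p - 1) := hL.1.2.1
          have hr0 : r0 = v p := hR.1.1
          rcases Nat.eq_zero_or_pos i with hi0 | hi0
          · subst hi0
            exact chk_sound h1 hT htop hp (by omega) hc0 hc1 hl0 hr0 hL hR hR.shift
          · have hpush : Desc v (p + 1 - 1) (push L r0) := by
              have := hL.push (x := r0) (by rw [hr0, show p - 1 + 1 = p by omega])
              rwa [show p - 1 + 1 = p + 1 - 1 by omega] at this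
            have := ih (p := p + 1) h2 (by omega) (by omega)
              (by rw [show 2 * (p + 1) = 2 * p + 1 + 1 by omega]; exact hcs2) hpush hR.shift
              (i - 1) (by omega)
            rwa [show p + 1 + (i - 1) = p + i by omega] at this

theorem chunk_sound (hT : TabOK v N) (htop : v N ≤ 50 * SS) {tab : Blk} (htab : Asc v 1 tab)
    {k len : ℕ} (h : chunk tab k len = true) (hN : 2 * (8 * k + 1 + len) ≤ N + 1) :
    ∀ i, i < len → GoodE v (8 * k + 1 + i) ∧ GoodO v (8 * k + 1 + i) := by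
  refine go_sound hT htop len h (by omega) hN ?_ ?_ ?_
  · have h1 := (htab.dropB (Nat.mul 2 k)).elems.tl
    have h2 : 1 + 8 * (Nat.mul 2 k) + 1 = 2 * (8 * k + 1) := by
      have : Nat.mul 2 k = 2 * k := rfl
      rw [this]; ring
    rwa [h2] at h1
  · have h1 := Desc.revTake k (acc := Blk.nil) (le_refl 1) htab trivial
    rwa [show 1 + 8 * k - 1 = 8 * k + 1 - 1 by omega] at h1
  · have h1 := htab.dropB k
    rwa [show 1 + 8 * k = 8 * k + 1 by omega] at h1

/-! ### small values -/

def LDesc (f : ℕ → ℕ) : ℕ → List ℕ → Prop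
  | i, [] => i = 0
  | i, a :: t => 1 ≤ i ∧ a = f i ∧ LDesc f (i - 1) t

theorem runLs_LR {CS : ℕ} : ∀ {l r : List ℕ} {ia ib F : ℕ}, runLs CS l r F = true →
    LDesc v ia l → LAsc v ib r → LR v CS ia ib F := by
  intro l
  induction l with
  | nil =>
    intro r ia ib F h hl hr
    cases r with
    | nil => exact absurd h (by simp [runLs])
    | cons b r' =>
      have h' : isZ (Nat.sub CS (Nat.mul b F)) = true := h
      rw [isZ_iff] at h'
      have h1 : CS - b * F = 0 := h'
      refine LR.fin _ _ _ ?_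
      rw [← hr.1]; omega
  | cons a l' ih =>
    intro r ia ib F h hl hr
    cases r with
    | nil => exact absurd h (by simp [runLs])
    | cons b r' =>
      have h' : Nat.rec (motive := fun _ => Bool) true
        (fun n _ => runLs CS l' r' (Nat.sub 72057594037927935 (Nat.div (Nat.succ n) a)))
        (Nat.sub CS (Nat.mul b F)) = true := h
      obtain ⟨hia, ha, hl'⟩ := hl
      obtain ⟨hb, hr'⟩ := hr
      generalize hq : Nat.sub CS (Nat.mul b F) = q at h'
      have hq' : CS - b * F = q := hq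
      cases q with
      | zero =>
        refine LR.fin _ _ _ ?_
        rw [← hb]; omega
      | succ n =>
        have h2 := ih h' hl' hr'
        have h3 : LR v CS (ia - 1 + 1) ib F := by
          refine LR.step (ia - 1) ib F ?_
          rw [show ia - 1 + 1 = ia by omega, ← ha, ← hb]
          rw [nsub, ndiv] at h2
          unfold stepL
          rw [hq']
          exact h2
        rwa [show ia - 1 + 1 = ia by omega] at h3

theorem runUs_UR {CS : ℕ} (hv0 : v 0 = 0) : ∀ {l r : List ℕ} {ia ib F : ℕ},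
    runUs CS l r F = true → LDesc v ia l → LAsc v ib r → UR v CS ia ib F := by
  intro l
  induction l with
  | nil =>
    intro r ia ib F h hl hr
    cases r with
    | nil => exact absurd h (by simp [runUs])
    | cons b r' =>
      have h' : isZ (Nat.sub (Nat.mul b F) CS) = true := h
      rw [isZ_iff] at h'
      have h1 : b * F - CS = 0 := h'
      have hl' : ia = 0 := hl
      refine UR.fin _ _ _ ?_
      rw [← hr.1, hl', hv0, Nat.zero_mul, Nat.zero_add]
      exact Nat.le_of_sub_eq_zero h1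
  | cons a l' ih =>
    intro r ia ib F h hl hr
    cases r with
    | nil => exact absurd h (by simp [runUs])
    | cons b r' =>
      have h' : Nat.rec (motive := fun _ => Bool) true
        (fun _ _ => runUs CS l' r' (Nat.sub 72057594037927936
          (Nat.div (Nat.sub CS (Nat.mul b F)) a)))
        (Nat.sub (Nat.add (Nat.mul 72057594037927936 a) (Nat.mul b F)) CS) = true := h
      obtain ⟨hia, ha, hl'⟩ := hl
      obtain ⟨hb, hr'⟩ := hr
      generalize hq : Nat.sub (Nat.add (Nat.mul 72057594037927936 a) (Nat.mul b F)) CS = q at h'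
      have hq' : (a * 72057594037927936 + b * F) - CS = q := by
        rw [nsub, nadd, nmul, nmul, Nat.mul_comm _ a] at hq; exact hq
      cases q with
      | zero =>
        refine UR.fin _ _ _ ?_
        rw [← hb, ← ha]
        exact Nat.le_of_sub_eq_zero hq'
      | succ n =>
        have h2 := ih h' hl' hr'
        simp only [nsub, nmul, ndiv] at h2
        refine UR.step1 (i := ia) (j := ib) hia ?_ h2
        rw [← ha, ← hb, stepU]

theorem chkS_sound {p c0 c1 l0 r0 : ℕ} {L R R1 : List ℕ} (h : chkS c0 c1 l0 r0 L R R1 = true)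
    (hv0 : v 0 = 0)
    (hc0 : c0 = v (2 * p)) (hc1 : c1 = v (2 * p + 1)) (hl0 : l0 = v (p - 1)) (hr0 : r0 = v p)
    (hL : LDesc v (p - 1) L) (hR : LAsc v p R) (hR1 : LAsc v (p + 1) R1) :
    GoodE v p ∧ GoodO v p := by
  subst hc0 hc1 hl0 hr0
  unfold Blk.chkS at h
  simp only [band_iff, isZ_iff, nsub, nmul, nadd, ndiv] at h
  obtain ⟨h1', h2, h3, h4', h5', h6, h7⟩ := h
  refine ⟨⟨by omega, ?_, ?_⟩, ⟨by omega, by omega, ?_, ?_⟩⟩
  · exact runLs_LR h2 hL hR
  · exact runUs_UR hv0 h3 hL hR
  · exact runLs_LR h6 hL hR1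
  · exact runUs_UR hv0 h7 hL hR1

theorem goS_sound (hv0 : v 0 = 0) :
    ∀ (k : ℕ) {p l0 : ℕ} {cs L R : List ℕ}, goS k cs l0 L R = true → 1 ≤ p →
      LAsc v (2 * p) cs → l0 = v (p - 1) → LDesc v (p - 1) L → LAsc v p R →
      ∀ i, i < k → GoodE v (p + i) ∧ GoodO v (p + i) := by
  intro k
  induction k with
  | zero => intro p l0 cs L R _ _ _ _ _ _ i hi; omega
  | succ k ih =>
    intro p l0 cs L R h hp hcs hl0 hL hR i hi
    rcases cs with _ | ⟨c0, _ | ⟨c1, cs2⟩⟩
    · exact absurd h (by simp [goS])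
    · exact absurd h (by simp [goS])
    · rcases R with _ | ⟨r0, R1⟩
      · exact absurd h (by simp [goS])
      · have h' : band (chkS c0 c1 l0 r0 L (r0 :: R1) R1) (goS k cs2 r0 (List.cons r0 L) R1) = true := h
        rw [band_iff] at h'
        obtain ⟨h1, h2⟩ := h'
        obtain ⟨hc0, hc1, hcs2⟩ := hcs
        have hr0 : r0 = v p := hR.1
        rcases Nat.eq_zero_or_pos i with hi0 | hi0
        · subst hi0
          exact chkS_sound h1 hv0 hc0 hc1 hl0 hr0 hL hR hR.2
        · have hpush : LDesc v (p + 1 - 1) (List.cons r0 L) := by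
            refine ⟨by omega, ?_, ?_⟩
            · rw [hr0, show p + 1 - 1 = p by omega]
            · exact hL
          have := ih (p := p + 1) h2 (by omega)
            (by rw [show 2 * (p + 1) = 2 * p + 1 + 1 by omega]; exact hcs2)
            (by rw [hr0, show p + 1 - 1 = p by omega]) hpush hR.2
            (i - 1) (by omega)
          rwa [show p + 1 + (i - 1) = p + i by omega] at this

theorem small_sound (hv0 : v 0 = 0) {tab : Blk} (htab : Asc v 1 tab)
    {len : ℕ} (h : small tab len = true) :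
    ∀ p, 1 ≤ p → p ≤ len → GoodE v p ∧ GoodO v p := by
  intro p hp1 hp2
  have := goS_sound hv0 len (p := 1) (l0 := 0) h le_rfl htab.elems.tl (by rw [hv0]) rfl htab.elems
    (p - 1) (by omega)
  rwa [show 1 + (p - 1) = p by omega] at this

/-! ### the table -/

/-- the `i`-th entry -/
def getB : Blk → ℕ → ℕ
  | .nil, _ => 0
  | .cons a0 _ _ _ _ _ _ _ _, 0 => a0
  | .cons _ a1 _ _ _ _ _ _ _, 1 => a1
  | .cons _ _ a2 _ _ _ _ _ _, 2 => a2
  | .cons _ _ _ a3 _ _ _ _ _, 3 => a3
  | .cons _ _ _ _ a4 _ _ _ _, 4 => a4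
  | .cons _ _ _ _ _ a5 _ _ _, 5 => a5
  | .cons _ _ _ _ _ _ a6 _ _, 6 => a6
  | .cons _ _ _ _ _ _ _ a7 _, 7 => a7
  | .cons _ _ _ _ _ _ _ _ t, i + 8 => getB t i

theorem Asc.congr {f g : ℕ → ℕ} : ∀ {l : Blk} {i : ℕ}, (∀ j, i ≤ j → f j = g j) → Asc f i l →
    Asc g i l := by
  intro l
  induction l with
  | nil => intro i _ _; exact trivial
  | cons a0 a1 a2 a3 a4 a5 a6 a7 t ih =>
    intro i hfg h
    obtain ⟨⟨h0, h1, h2, h3, h4, h5, h6, h7⟩, ht⟩ := h
    refine ⟨⟨?_, ?_, ?_, ?_, ?_, ?_, ?_, ?_⟩, ih (fun j hj => hfg j (by omega)) ht⟩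
    · rw [h0, hfg _ (by omega)]
    · rw [h1, hfg _ (by omega)]
    · rw [h2, hfg _ (by omega)]
    · rw [h3, hfg _ (by omega)]
    · rw [h4, hfg _ (by omega)]
    · rw [h5, hfg _ (by omega)]
    · rw [h6, hfg _ (by omega)]
    · rw [h7, hfg _ (by omega)]

theorem Asc.getB : ∀ {l : Blk} {i : ℕ}, Asc (fun j => Gilbert.getB l (j - i)) i l := by
  intro l
  induction l with
  | nil => intro i; exact trivial
  | cons a0 a1 a2 a3 a4 a5 a6 a7 t ih =>
    intro i
    refine ⟨⟨?_, ?_, ?_, ?_, ?_, ?_, ?_, ?_⟩, (ih (i := i + 8)).congr fun j hj => ?_⟩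
    · beta_reduce; rw [Nat.sub_self]; rfl
    · beta_reduce; rw [show i + 1 - i = 1 by omega]; rfl
    · beta_reduce; rw [show i + 2 - i = 2 by omega]; rfl
    · beta_reduce; rw [show i + 3 - i = 3 by omega]; rfl
    · beta_reduce; rw [show i + 4 - i = 4 by omega]; rfl
    · beta_reduce; rw [show i + 5 - i = 5 by omega]; rfl
    · beta_reduce; rw [show i + 6 - i = 6 by omega]; rfl
    · beta_reduce; rw [show i + 7 - i = 7 by omega]; rfl
    · beta_reduce; rw [show j - i = (j - (i + 8)) + 8 by omega]; rfl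

theorem tabchk_sound : ∀ (k : ℕ) {l : List ℕ} {i a b : ℕ}, tabchk k l a b = true → a = v i →
    b = v (i + 1) → LAsc v (i + 2) l →
    (∀ j, i + 1 ≤ j → j < i + 1 + k → v j + 100 ≤ v (j + 1) ∧ v (j + 1) + v (j - 1) ≤ 2 * v j) ∧
      v (i + 1 + k) ≤ 3602879701896396800 := by
  intro k
  induction k with
  | zero =>
    intro l i a b h ha hb hl
    have h' : isZ (Nat.sub b 3602879701896396800) = true := h
    rw [isZ_iff, nsub] at h'
    refine ⟨fun j h1 h2 => by omega, ?_⟩
    rw [Nat.add_zero, ← hb]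
    exact Nat.le_of_sub_eq_zero h'
  | succ k ih =>
    intro l i a b h ha hb hl
    cases l with
    | nil => exact absurd h (by simp [tabchk])
    | cons c l =>
      have h' : band (isZ (Nat.sub (Nat.add b 100) c))
        (band (isZ (Nat.sub (Nat.add c a) (Nat.mul 2 b))) (tabchk k l b c)) = true := h
      simp only [band_iff, isZ_iff, nsub, nadd, nmul] at h'
      obtain ⟨g1', g2', g3⟩ := h'
      obtain ⟨hc, hl'⟩ := hl
      obtain ⟨i1, i2⟩ := ih (i := i + 1) g3 hb hc hl'
      refine ⟨fun j h1 h2 => ?_, ?_⟩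
      · rcases Nat.lt_or_ge (i + 1) j with h3 | h3
        · exact i1 j (by omega) (by omega)
        · have hj : j = i + 1 := by omega
          subst hj
          rw [← hb, show i + 1 + 1 = i + 2 by omega, ← hc, show i + 1 - 1 = i by omega, ← ha]
          omega
      · rw [show i + 1 + (k + 1) = i + 1 + 1 + k by omega]; exact i2

theorem headIs_sound {l : List ℕ} {i x : ℕ} (h : headIs l x = true) (hl : LAsc v i l) : v i = x := by
  cases l with
  | nil => exact absurd h (by simp [headIs])
  | cons a t =>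
    have h' : Nat.beq a x = true := h
    have := Nat.eq_of_beq_eq_true h'
    rw [← this]; exact hl.1.symm

end Pool.Agent.H95.Gilbert
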