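import Pool.Agent.H95.Gilbert.Tab

set_option autoImplicit false
set_option linter.all false

namespace Pool.Agent.H95.Gilbert

open Blk

theorem ch0 : chunk tab 32 16 = true := by decide +kernel
theorem ch1 : chunk tab 34 16 = true := by decide +kernel
theorem ch2 : chunk tab 36 16 = true := by decide +kernel
theorem ch3 : chunk tab 38 16 = true := by decide +kernel
theorem ch4 : chunk tab 40 16 = true := by decide +kernel
theorem ch5 : chunk tab 42 16 = true := by decide +kernel
theorem ch6 : chunk tab 44 16 = true := by decide +kernel
theorem ch7 : chunk tab 46 16 = true := by decide +kernel
theorem ch8 : chunk tab 48 16 = true := by decide +kernel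
theorem ch9 : chunk tab 50 16 = true := by decide +kernel
theorem ch10 : chunk tab 52 16 = true := by decide +kernel
theorem ch11 : chunk tab 54 16 = true := by decide +kernel
theorem ch12 : chunk tab 56 16 = true := by decide +kernel
theorem ch13 : chunk tab 58 16 = true := by decide +kernel
theorem ch14 : chunk tab 60 16 = true := by decide +kernel
theorem ch15 : chunk tab 62 16 = true := by decide +kernel
theorem ch16 : chunk tab 64 16 = true := by decide +kernel
theorem ch17 : chunk tab 66 16 = true := by decide +kernel
theorem ch18 : chunk tab 68 16 = true := by decide +kernel
theorem ch19 : chunk tab 70 16 = true := by decide +kernel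
theorem ch20 : chunk tab 72 16 = true := by decide +kernel
theorem ch21 : chunk tab 74 16 = true := by decide +kernel
theorem ch22 : chunk tab 76 16 = true := by decide +kernel
theorem ch23 : chunk tab 78 16 = true := by decide +kernel
theorem ch24 : chunk tab 80 16 = true := by decide +kernel
theorem ch25 : chunk tab 82 16 = true := by decide +kernel
theorem ch26 : chunk tab 84 16 = true := by decide +kernel
theorem ch27 : chunk tab 86 16 = true := by decide +kernel
theorem ch28 : chunk tab 88 16 = true := by decide +kernel
theorem ch29 : chunk tab 90 16 = true := by decide +kernel
theorem ch30 : chunk tab 92 16 = true := by decide +kernel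
theorem ch31 : chunk tab 94 16 = true := by decide +kernel
theorem ch32 : chunk tab 96 16 = true := by decide +kernel
theorem ch33 : chunk tab 98 16 = true := by decide +kernel
theorem ch34 : chunk tab 100 16 = true := by decide +kernel
theorem ch35 : chunk tab 102 16 = true := by decide +kernel
theorem ch36 : chunk tab 104 16 = true := by decide +kernel
theorem ch37 : chunk tab 106 16 = true := by decide +kernel
theorem ch38 : chunk tab 108 16 = true := by decide +kernel
theorem ch39 : chunk tab 110 16 = true := by decide +kernel
theorem ch40 : chunk tab 112 16 = true := by decide +kernel
theorem ch41 : chunk tab 114 16 = true := by decide +kernel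
theorem ch42 : chunk tab 116 16 = true := by decide +kernel
theorem ch43 : chunk tab 118 16 = true := by decide +kernel

end Pool.Agent.H95.Gilbert
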