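import Pool.Agent.H95.Gilbert.Tab

set_option autoImplicit false
set_option linter.all false

namespace Pool.Agent.H95.Gilbert

open Blk

theorem ch44 : chunk tab 120 16 = true := by decide +kernel
theorem ch45 : chunk tab 122 16 = true := by decide +kernel
theorem ch46 : chunk tab 124 16 = true := by decide +kernel
theorem ch47 : chunk tab 126 16 = true := by decide +kernel
theorem ch48 : chunk tab 128 16 = true := by decide +kernel
theorem ch49 : chunk tab 130 16 = true := by decide +kernel
theorem ch50 : chunk tab 132 16 = true := by decide +kernel
theorem ch51 : chunk tab 134 16 = true := by decide +kernel
theorem ch52 : chunk tab 136 16 = true := by decide +kernel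
theorem ch53 : chunk tab 138 16 = true := by decide +kernel
theorem ch54 : chunk tab 140 16 = true := by decide +kernel
theorem ch55 : chunk tab 142 16 = true := by decide +kernel
theorem ch56 : chunk tab 144 16 = true := by decide +kernel
theorem ch57 : chunk tab 146 16 = true := by decide +kernel
theorem ch58 : chunk tab 148 16 = true := by decide +kernel
theorem ch59 : chunk tab 150 16 = true := by decide +kernel
theorem ch60 : chunk tab 152 16 = true := by decide +kernel
theorem ch61 : chunk tab 154 16 = true := by decide +kernel
theorem ch62 : chunk tab 156 16 = true := by decide +kernel
theorem ch63 : chunk tab 158 16 = true := by decide +kernel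
theorem ch64 : chunk tab 160 16 = true := by decide +kernel
theorem ch65 : chunk tab 162 16 = true := by decide +kernel
theorem ch66 : chunk tab 164 16 = true := by decide +kernel
theorem ch67 : chunk tab 166 16 = true := by decide +kernel
theorem ch68 : chunk tab 168 16 = true := by decide +kernel
theorem ch69 : chunk tab 170 16 = true := by decide +kernel
theorem ch70 : chunk tab 172 16 = true := by decide +kernel
theorem ch71 : chunk tab 174 16 = true := by decide +kernel

end Pool.Agent.H95.Gilbert
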