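import Pool.Agent.H95.Gilbert.Tab

set_option autoImplicit false
set_option linter.all false

namespace Pool.Agent.H95.Gilbert

open Blk

theorem ch72 : chunk tab 176 16 = true := by decide +kernel
theorem ch73 : chunk tab 178 16 = true := by decide +kernel
theorem ch74 : chunk tab 180 16 = true := by decide +kernel
theorem ch75 : chunk tab 182 16 = true := by decide +kernel
theorem ch76 : chunk tab 184 16 = true := by decide +kernel
theorem ch77 : chunk tab 186 16 = true := by decide +kernel
theorem ch78 : chunk tab 188 16 = true := by decide +kernel
theorem ch79 : chunk tab 190 16 = true := by decide +kernel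
theorem ch80 : chunk tab 192 16 = true := by decide +kernel
theorem ch81 : chunk tab 194 16 = true := by decide +kernel
theorem ch82 : chunk tab 196 16 = true := by decide +kernel
theorem ch83 : chunk tab 198 16 = true := by decide +kernel
theorem ch84 : chunk tab 200 16 = true := by decide +kernel
theorem ch85 : chunk tab 202 16 = true := by decide +kernel
theorem ch86 : chunk tab 204 16 = true := by decide +kernel
theorem ch87 : chunk tab 206 16 = true := by decide +kernel
theorem ch88 : chunk tab 208 16 = true := by decide +kernel
theorem ch89 : chunk tab 210 16 = true := by decide +kernel
theorem ch90 : chunk tab 212 16 = true := by decide +kernel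
theorem ch91 : chunk tab 214 16 = true := by decide +kernel
theorem ch92 : chunk tab 216 16 = true := by decide +kernel
theorem ch93 : chunk tab 218 16 = true := by decide +kernel
theorem ch94 : chunk tab 220 16 = true := by decide +kernel
theorem ch95 : chunk tab 222 16 = true := by decide +kernel

end Pool.Agent.H95.Gilbert
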