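import Pool.Agent.H95.Gilbert.Tab

set_option autoImplicit false
set_option linter.all false

namespace Pool.Agent.H95.Gilbert

open Blk

theorem ch96 : chunk tab 224 16 = true := by decide +kernel
theorem ch97 : chunk tab 226 16 = true := by decide +kernel
theorem ch98 : chunk tab 228 16 = true := by decide +kernel
theorem ch99 : chunk tab 230 16 = true := by decide +kernel
theorem ch100 : chunk tab 232 16 = true := by decide +kernel
theorem ch101 : chunk tab 234 16 = true := by decide +kernel
theorem ch102 : chunk tab 236 16 = true := by decide +kernel
theorem ch103 : chunk tab 238 16 = true := by decide +kernel
theorem ch104 : chunk tab 240 16 = true := by decide +kernel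
theorem ch105 : chunk tab 242 16 = true := by decide +kernel
theorem ch106 : chunk tab 244 16 = true := by decide +kernel
theorem ch107 : chunk tab 246 16 = true := by decide +kernel
theorem ch108 : chunk tab 248 16 = true := by decide +kernel
theorem ch109 : chunk tab 250 16 = true := by decide +kernel
theorem ch110 : chunk tab 252 16 = true := by decide +kernel
theorem ch111 : chunk tab 254 16 = true := by decide +kernel
theorem ch112 : chunk tab 256 16 = true := by decide +kernel
theorem ch113 : chunk tab 258 16 = true := by decide +kernel
theorem ch114 : chunk tab 260 16 = true := by decide +kernel
theorem ch115 : chunk tab 262 16 = true := by decide +kernel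

end Pool.Agent.H95.Gilbert
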