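import Pool.Agent.H95.Gilbert.Tab

set_option autoImplicit false
set_option linter.all false

namespace Pool.Agent.H95.Gilbert

open Blk

theorem ch116 : chunk tab 264 16 = true := by decide +kernel
theorem ch117 : chunk tab 266 16 = true := by decide +kernel
theorem ch118 : chunk tab 268 16 = true := by decide +kernel
theorem ch119 : chunk tab 270 16 = true := by decide +kernel
theorem ch120 : chunk tab 272 16 = true := by decide +kernel
theorem ch121 : chunk tab 274 16 = true := by decide +kernel
theorem ch122 : chunk tab 276 16 = true := by decide +kernel
theorem ch123 : chunk tab 278 16 = true := by decide +kernel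
theorem ch124 : chunk tab 280 16 = true := by decide +kernel
theorem ch125 : chunk tab 282 16 = true := by decide +kernel
theorem ch126 : chunk tab 284 16 = true := by decide +kernel
theorem ch127 : chunk tab 286 16 = true := by decide +kernel
theorem ch128 : chunk tab 288 16 = true := by decide +kernel
theorem ch129 : chunk tab 290 16 = true := by decide +kernel
theorem ch130 : chunk tab 292 16 = true := by decide +kernel
theorem ch131 : chunk tab 294 16 = true := by decide +kernel
theorem ch132 : chunk tab 296 16 = true := by decide +kernel
theorem ch133 : chunk tab 298 16 = true := by decide +kernel
theorem ch134 : chunk tab 300 16 = true := by decide +kernel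

end Pool.Agent.H95.Gilbert
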