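import Pool.Agent.H95.Gilbert.Tab

set_option autoImplicit false
set_option linter.all false

namespace Pool.Agent.H95.Gilbert

open Blk

theorem ch135 : chunk tab 302 16 = true := by decide +kernel
theorem ch136 : chunk tab 304 16 = true := by decide +kernel
theorem ch137 : chunk tab 306 16 = true := by decide +kernel
theorem ch138 : chunk tab 308 16 = true := by decide +kernel
theorem ch139 : chunk tab 310 16 = true := by decide +kernel
theorem ch140 : chunk tab 312 16 = true := by decide +kernel
theorem ch141 : chunk tab 314 16 = true := by decide +kernel
theorem ch142 : chunk tab 316 16 = true := by decide +kernel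
theorem ch143 : chunk tab 318 16 = true := by decide +kernel
theorem ch144 : chunk tab 320 16 = true := by decide +kernel
theorem ch145 : chunk tab 322 16 = true := by decide +kernel
theorem ch146 : chunk tab 324 16 = true := by decide +kernel
theorem ch147 : chunk tab 326 16 = true := by decide +kernel
theorem ch148 : chunk tab 328 16 = true := by decide +kernel
theorem ch149 : chunk tab 330 16 = true := by decide +kernel
theorem ch150 : chunk tab 332 16 = true := by decide +kernel
theorem ch151 : chunk tab 334 16 = true := by decide +kernel
theorem ch152 : chunk tab 336 16 = true := by decide +kernel

end Pool.Agent.H95.Gilbert
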