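import Pool.Agent.H95.Gilbert.Tab

set_option autoImplicit false
set_option linter.all false

namespace Pool.Agent.H95.Gilbert

open Blk

theorem ch153 : chunk tab 338 16 = true := by decide +kernel
theorem ch154 : chunk tab 340 16 = true := by decide +kernel
theorem ch155 : chunk tab 342 16 = true := by decide +kernel
theorem ch156 : chunk tab 344 16 = true := by decide +kernel
theorem ch157 : chunk tab 346 16 = true := by decide +kernel
theorem ch158 : chunk tab 348 16 = true := by decide +kernel
theorem ch159 : chunk tab 350 16 = true := by decide +kernel
theorem ch160 : chunk tab 352 16 = true := by decide +kernel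
theorem ch161 : chunk tab 354 16 = true := by decide +kernel
theorem ch162 : chunk tab 356 16 = true := by decide +kernel
theorem ch163 : chunk tab 358 16 = true := by decide +kernel
theorem ch164 : chunk tab 360 16 = true := by decide +kernel
theorem ch165 : chunk tab 362 16 = true := by decide +kernel
theorem ch166 : chunk tab 364 16 = true := by decide +kernel
theorem ch167 : chunk tab 366 16 = true := by decide +kernel
theorem ch168 : chunk tab 368 16 = true := by decide +kernel

end Pool.Agent.H95.Gilbert
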