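import Pool.Agent.H95.Gilbert.Tab

set_option autoImplicit false
set_option linter.all false

namespace Pool.Agent.H95.Gilbert

open Blk

theorem ch169 : chunk tab 370 16 = true := by decide +kernel
theorem ch170 : chunk tab 372 16 = true := by decide +kernel
theorem ch171 : chunk tab 374 16 = true := by decide +kernel
theorem ch172 : chunk tab 376 16 = true := by decide +kernel
theorem ch173 : chunk tab 378 16 = true := by decide +kernel
theorem ch174 : chunk tab 380 16 = true := by decide +kernel
theorem ch175 : chunk tab 382 16 = true := by decide +kernel
theorem ch176 : chunk tab 384 16 = true := by decide +kernel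
theorem ch177 : chunk tab 386 16 = true := by decide +kernel
theorem ch178 : chunk tab 388 16 = true := by decide +kernel
theorem ch179 : chunk tab 390 16 = true := by decide +kernel
theorem ch180 : chunk tab 392 16 = true := by decide +kernel
theorem ch181 : chunk tab 394 16 = true := by decide +kernel
theorem ch182 : chunk tab 396 16 = true := by decide +kernel
theorem ch183 : chunk tab 398 16 = true := by decide +kernel

end Pool.Agent.H95.Gilbert
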