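import Pool.Agent.H95.Gilbert.Tab

set_option autoImplicit false
set_option linter.all false

namespace Pool.Agent.H95.Gilbert

open Blk

theorem ch184 : chunk tab 400 16 = true := by decide +kernel
theorem ch185 : chunk tab 402 16 = true := by decide +kernel
theorem ch186 : chunk tab 404 16 = true := by decide +kernel
theorem ch187 : chunk tab 406 16 = true := by decide +kernel
theorem ch188 : chunk tab 408 16 = true := by decide +kernel
theorem ch189 : chunk tab 410 16 = true := by decide +kernel
theorem ch190 : chunk tab 412 16 = true := by decide +kernel
theorem ch191 : chunk tab 414 16 = true := by decide +kernel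
theorem ch192 : chunk tab 416 16 = true := by decide +kernel
theorem ch193 : chunk tab 418 16 = true := by decide +kernel
theorem ch194 : chunk tab 420 16 = true := by decide +kernel
theorem ch195 : chunk tab 422 16 = true := by decide +kernel
theorem ch196 : chunk tab 424 16 = true := by decide +kernel
theorem ch197 : chunk tab 426 16 = true := by decide +kernel
theorem ch198 : chunk tab 428 16 = true := by decide +kernel

end Pool.Agent.H95.Gilbert
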