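import Pool.Agent.H95.Gilbert.Tab

set_option autoImplicit false
set_option linter.all false

namespace Pool.Agent.H95.Gilbert

open Blk

theorem ch199 : chunk tab 430 16 = true := by decide +kernel
theorem ch200 : chunk tab 432 16 = true := by decide +kernel
theorem ch201 : chunk tab 434 16 = true := by decide +kernel
theorem ch202 : chunk tab 436 16 = true := by decide +kernel
theorem ch203 : chunk tab 438 16 = true := by decide +kernel
theorem ch204 : chunk tab 440 16 = true := by decide +kernel
theorem ch205 : chunk tab 442 16 = true := by decide +kernel
theorem ch206 : chunk tab 444 16 = true := by decide +kernel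
theorem ch207 : chunk tab 446 16 = true := by decide +kernel
theorem ch208 : chunk tab 448 16 = true := by decide +kernel
theorem ch209 : chunk tab 450 16 = true := by decide +kernel
theorem ch210 : chunk tab 452 16 = true := by decide +kernel
theorem ch211 : chunk tab 454 16 = true := by decide +kernel
theorem ch212 : chunk tab 456 16 = true := by decide +kernel
theorem ch213 : chunk tab 458 16 = true := by decide +kernel

end Pool.Agent.H95.Gilbert
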