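import Pool.Agent.H95.Gilbert.Tab

set_option autoImplicit false
set_option linter.all false

namespace Pool.Agent.H95.Gilbert

open Blk

theorem ch214 : chunk tab 460 16 = true := by decide +kernel
theorem ch215 : chunk tab 462 16 = true := by decide +kernel
theorem ch216 : chunk tab 464 16 = true := by decide +kernel
theorem ch217 : chunk tab 466 16 = true := by decide +kernel
theorem ch218 : chunk tab 468 16 = true := by decide +kernel
theorem ch219 : chunk tab 470 16 = true := by decide +kernel
theorem ch220 : chunk tab 472 16 = true := by decide +kernel
theorem ch221 : chunk tab 474 16 = true := by decide +kernel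
theorem ch222 : chunk tab 476 16 = true := by decide +kernel
theorem ch223 : chunk tab 478 16 = true := by decide +kernel
theorem ch224 : chunk tab 480 16 = true := by decide +kernel
theorem ch225 : chunk tab 482 16 = true := by decide +kernel
theorem ch226 : chunk tab 484 16 = true := by decide +kernel

end Pool.Agent.H95.Gilbert
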