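import Pool.Agent.H95.Gilbert.Tab

set_option autoImplicit false
set_option linter.all false

namespace Pool.Agent.H95.Gilbert

open Blk

theorem ch227 : chunk tab 486 16 = true := by decide +kernel
theorem ch228 : chunk tab 488 16 = true := by decide +kernel
theorem ch229 : chunk tab 490 16 = true := by decide +kernel
theorem ch230 : chunk tab 492 16 = true := by decide +kernel
theorem ch231 : chunk tab 494 16 = true := by decide +kernel
theorem ch232 : chunk tab 496 16 = true := by decide +kernel
theorem ch233 : chunk tab 498 16 = true := by decide +kernel
theorem ch234 : chunk tab 500 16 = true := by decide +kernel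
theorem ch235 : chunk tab 502 16 = true := by decide +kernel
theorem ch236 : chunk tab 504 16 = true := by decide +kernel
theorem ch237 : chunk tab 506 16 = true := by decide +kernel
theorem ch238 : chunk tab 508 16 = true := by decide +kernel
theorem ch239 : chunk tab 510 16 = true := by decide +kernel

end Pool.Agent.H95.Gilbert
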