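import Pool.Agent.H95.Gilbert.Tab

set_option autoImplicit false
set_option linter.all false

namespace Pool.Agent.H95.Gilbert

open Blk

theorem small_ok : small tab 256 = true := by decide +kernel

theorem tabchk_ok : tabchk 8239 (tl (elems tab)) 0 72057594037927936 = true := by decide +kernel

theorem head_ok : headIs (elems tab) 72057594037927936 = true := by decide +kernel

end Pool.Agent.H95.Gilbert
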