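import Mathlib

/-!
# Polynomials in four variables with rational coefficients, as lists of monomials, and
# Taylor models (a polynomial together with an error polynomial).
-/

namespace Pool.Agent.H95.Gilbert.TM

/-- a monomial `c t^a y^b L^d l^e` -/
structure Mn where
  c : ℚ
  a : ℕ
  b : ℕ
  d : ℕ
  e : ℕ

abbrev PL := List Mn

/-- the values of the variables -/
structure Env where
  t : ℝ
  y : ℝ
  L : ℝ
  l : ℝ

def Env.pw (v : Env) (a b d e : ℕ) : ℝ := v.t ^ a * v.y ^ b * v.L ^ d * v.l ^ e

def Mn.ev (v : Env) (m : Mn) : ℝ := (m.c : ℝ) * v.pw m.a m.b m.d m.e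

def ev (v : Env) (p : PL) : ℝ := (p.map (Mn.ev v)).sum

@[simp] theorem ev_nil (v : Env) : ev v [] = 0 := rfl

@[simp] theorem ev_cons (v : Env) (m : Mn) (p : PL) : ev v (m :: p) = m.ev v + ev v p := by
  simp [ev]

def cmp (m n : Mn) : Ordering :=
  bif Nat.blt m.a n.a then .lt else bif Nat.blt n.a m.a then .gt else
  bif Nat.blt m.b n.b then .lt else bif Nat.blt n.b m.b then .gt else
  bif Nat.blt m.d n.d then .lt else bif Nat.blt n.d m.d then .gt else
  bif Nat.blt m.e n.e then .lt else bif Nat.blt n.e m.e then .gt else .eq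

theorem blt_false {a b : ℕ} (h : Nat.blt a b = false) : b ≤ a := by
  by_contra hc
  have : Nat.blt a b = true := Nat.blt_eq.mpr (by omega)
  rw [h] at this
  exact Bool.noConfusion this

theorem cmp_eq {m n : Mn} (h : cmp m n = .eq) :
    m.a = n.a ∧ m.b = n.b ∧ m.d = n.d ∧ m.e = n.e := by
  unfold cmp at h
  cases h1 : Nat.blt m.a n.a <;> rw [h1] at h <;> simp only [cond_true, cond_false] at h
  · cases h2 : Nat.blt n.a m.a <;> rw [h2] at h <;> simp only [cond_true, cond_false] at h
    · cases h3 : Nat.blt m.b n.b <;> rw [h3] at h <;> simp only [cond_true, cond_false] at h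
      · cases h4 : Nat.blt n.b m.b <;> rw [h4] at h <;> simp only [cond_true, cond_false] at h
        · cases h5 : Nat.blt m.d n.d <;> rw [h5] at h <;> simp only [cond_true, cond_false] at h
          · cases h6 : Nat.blt n.d m.d <;> rw [h6] at h <;> simp only [cond_true, cond_false] at h
            · cases h7 : Nat.blt m.e n.e <;> rw [h7] at h <;>
                simp only [cond_true, cond_false] at h
              · cases h8 : Nat.blt n.e m.e <;> rw [h8] at h <;>
                  simp only [cond_true, cond_false] at h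
                · have := blt_false h1; have := blt_false h2; have := blt_false h3
                  have := blt_false h4; have := blt_false h5; have := blt_false h6
                  have := blt_false h7; have := blt_false h8
                  omega
                · exact Ordering.noConfusion h
              · exact Ordering.noConfusion h
            · exact Ordering.noConfusion h
          · exact Ordering.noConfusion h
        · exact Ordering.noConfusion h
      · exact Ordering.noConfusion h
    · exact Ordering.noConfusion h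
  · exact Ordering.noConfusion h

/-- merge a monomial followed by the function `rest` with a list -/
def addAux (m : Mn) (rest : PL → PL) : PL → PL
  | [] => m :: rest []
  | n :: q => match cmp m n with
    | .lt => m :: rest (n :: q)
    | .eq => ⟨m.c + n.c, m.a, m.b, m.d, m.e⟩ :: rest q
    | .gt => n :: addAux m rest q

def add : PL → PL → PL
  | [] => fun q => q
  | m :: p => addAux m (add p)

theorem ev_addAux (v : Env) (m : Mn) (rest : PL → PL) (S : ℝ)
    (hrest : ∀ q, ev v (rest q) = S + ev v q) (q : PL) :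
    ev v (addAux m rest q) = m.ev v + S + ev v q := by
  induction q with
  | nil => simp [addAux, hrest]
  | cons n q ih =>
    rw [addAux]
    cases h : cmp m n with
    | lt => simp only [ev_cons, hrest]; ring
    | eq =>
      obtain ⟨h1, h2, h3, h4⟩ := cmp_eq h
      simp only [ev_cons, hrest, Mn.ev, h1, h2, h3, h4]
      push_cast
      ring
    | gt => simp only [ev_cons, ih]; ring

@[simp] theorem ev_add (v : Env) (p q : PL) : ev v (add p q) = ev v p + ev v q := by
  induction p generalizing q with
  | nil => simp [add]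
  | cons m p ih =>
    rw [add, ev_addAux v m (add p) (ev v p) ih, ev_cons]

/-- multiply by a monomial -/
def mulM (m : Mn) (p : PL) : PL :=
  p.map fun n => ⟨m.c * n.c, m.a + n.a, m.b + n.b, m.d + n.d, m.e + n.e⟩

theorem Env.pw_add (v : Env) (a b d e a' b' d' e' : ℕ) :
    v.pw (a + a') (b + b') (d + d') (e + e') = v.pw a b d e * v.pw a' b' d' e' := by
  simp only [Env.pw, pow_add]; ring

@[simp] theorem ev_mulM (v : Env) (m : Mn) (p : PL) : ev v (mulM m p) = m.ev v * ev v p := by
  induction p with
  | nil => simp [mulM]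
  | cons n p ih =>
    have : mulM m (n :: p) =
      ⟨m.c * n.c, m.a + n.a, m.b + n.b, m.d + n.d, m.e + n.e⟩ :: mulM m p := rfl
    rw [this, ev_cons, ih, ev_cons]
    simp only [Mn.ev, Env.pw_add]
    push_cast
    ring

def mul : PL → PL → PL
  | [], _ => []
  | m :: p, q => add (mulM m q) (mul p q)

@[simp] theorem ev_mul (v : Env) (p q : PL) : ev v (mul p q) = ev v p * ev v q := by
  induction p with
  | nil => simp [mul]
  | cons m p ih => simp only [mul, ev_add, ev_mulM, ih, ev_cons]; ring

/-- multiply by a constant -/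
def smul (c : ℚ) (p : PL) : PL := p.map fun n => ⟨c * n.c, n.a, n.b, n.d, n.e⟩

@[simp] theorem ev_smul (v : Env) (c : ℚ) (p : PL) : ev v (smul c p) = c * ev v p := by
  induction p with
  | nil => simp [smul]
  | cons n p ih =>
    have : smul c (n :: p) = ⟨c * n.c, n.a, n.b, n.d, n.e⟩ :: smul c p := rfl
    rw [this, ev_cons, ih, ev_cons]
    simp only [Mn.ev]
    push_cast
    ring

/-- absolute values of the coefficients -/
def absP (p : PL) : PL := p.map fun n => ⟨|n.c|, n.a, n.b, n.d, n.e⟩

/-- keep the monomials satisfying a test -/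
def keep (f : Mn → Bool) : PL → PL
  | [] => []
  | m :: p => bif f m then m :: keep f p else keep f p

theorem ev_keep (v : Env) (f : Mn → Bool) (p : PL) :
    ev v p = ev v (keep f p) + ev v (keep (fun m => !f m) p) := by
  induction p with
  | nil => simp [keep]
  | cons m p ih =>
    rw [ev_cons, ih, keep, keep]
    cases f m <;> simp <;> ring

def Env.abs (v : Env) : Env := ⟨|v.t|, v.y, v.L, v.l⟩

structure Env.Nn (v : Env) : Prop where
  y : 0 ≤ v.y
  L : 0 ≤ v.L
  l : 0 ≤ v.l

theorem Env.pw_abs {v : Env} (hv : v.Nn) (a b d e : ℕ) : |v.pw a b d e| = v.abs.pw a b d e := by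
  simp only [Env.pw, Env.abs, abs_mul, abs_pow, abs_of_nonneg hv.y, abs_of_nonneg hv.L,
    abs_of_nonneg hv.l]

theorem Env.pw_nonneg {v : Env} (hv : v.Nn) (a b d e : ℕ) : 0 ≤ v.abs.pw a b d e := by
  rw [← Env.pw_abs hv]; exact abs_nonneg _

theorem ev_abs {v : Env} (hv : v.Nn) (p : PL) : |ev v p| ≤ ev v.abs (absP p) := by
  induction p with
  | nil => simp [absP]
  | cons m p ih =>
    have : absP (m :: p) = ⟨|m.c|, m.a, m.b, m.d, m.e⟩ :: absP p := rfl
    rw [this, ev_cons, ev_cons]
    refine (abs_add_le _ _).trans (add_le_add ?_ ih)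
    simp only [Mn.ev, abs_mul, Env.pw_abs hv]
    push_cast
    exact le_refl _

theorem ev_absP_nonneg {v : Env} (hv : v.Nn) (p : PL) : 0 ≤ ev v.abs (absP p) :=
  (abs_nonneg _).trans (ev_abs hv p)

/-! ### Taylor models -/

structure T where
  p : PL
  e : PL

/-- `f` is approximated by `T.p` with error at most `T.e` -/
def Holds (v : Env) (T : T) (f : ℝ) : Prop := |f - ev v T.p| ≤ ev v.abs T.e

/-- exact polynomial -/
def T.exact (p : PL) : T := ⟨p, []⟩

theorem Holds.exact (v : Env) (p : PL) : Holds v (T.exact p) (ev v p) := by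
  simp [Holds, T.exact]

def ord (m : Mn) : ℕ := m.a + 2 * m.b

def loF (k : ℕ) (m : Mn) : Bool := Nat.ble (ord m) k

/-- move the monomials of order `> k` to the error -/
def T.trunc (k : ℕ) (A : T) : T :=
  ⟨keep (loF k) A.p, add A.e (absP (keep (fun m => !loF k m) A.p))⟩

theorem Holds.trunc {v : Env} (hv : v.Nn) (k : ℕ) {A : T} {f : ℝ} (h : Holds v A f) :
    Holds v (A.trunc k) f := by
  unfold Holds at h ⊢
  simp only [T.trunc, ev_add]
  have h1 := ev_keep v (loF k) A.p
  have h2 := ev_abs hv (keep (fun m => !loF k m) A.p)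
  have h3 : f - ev v (keep (loF k) A.p) =
      (f - ev v A.p) + ev v (keep (fun m => !loF k m) A.p) := by
    rw [h1]; ring
  rw [h3]
  exact (abs_add_le _ _).trans (add_le_add h h2)

def T.add (A B : T) : T := ⟨TM.add A.p B.p, TM.add A.e B.e⟩

theorem Holds.add {v : Env} {A B : T} {f g : ℝ} (hA : Holds v A f) (hB : Holds v B g) :
    Holds v (A.add B) (f + g) := by
  unfold Holds at *
  simp only [T.add, ev_add]
  have : f + g - (ev v A.p + ev v B.p) = (f - ev v A.p) + (g - ev v B.p) := by ring
  rw [this]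
  exact (abs_add_le _ _).trans (add_le_add hA hB)

def T.mul (A B : T) : T :=
  ⟨TM.mul A.p B.p, TM.add (TM.mul (absP A.p) B.e) (TM.add (TM.mul (absP B.p) A.e) (TM.mul A.e B.e))⟩

theorem Holds.mul {v : Env} (hv : v.Nn) {A B : T} {f g : ℝ} (hA : Holds v A f)
    (hB : Holds v B g) : Holds v (A.mul B) (f * g) := by
  unfold Holds at *
  simp only [T.mul, ev_add, ev_mul]
  have h1 := ev_abs hv A.p
  have h2 := ev_abs hv B.p
  have e1 : f * g - ev v A.p * ev v B.p =
      ev v A.p * (g - ev v B.p) + (ev v B.p * (f - ev v A.p) + (f - ev v A.p) * (g - ev v B.p)) := by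
    ring
  rw [e1]
  refine (abs_add_le _ _).trans (add_le_add ?_ ((abs_add_le _ _).trans (add_le_add ?_ ?_)))
  · rw [abs_mul]
    exact mul_le_mul h1 hB (abs_nonneg _) (ev_absP_nonneg hv _)
  · rw [abs_mul]
    exact mul_le_mul h2 hA (abs_nonneg _) (ev_absP_nonneg hv _)
  · rw [abs_mul]
    exact mul_le_mul hA hB (abs_nonneg _) ((abs_nonneg _).trans hA)

/-- the even part in `t` -/
def evenP (p : PL) : PL := keep (fun m => Nat.beq (m.a % 2) 0) p

theorem ev_evenP (v : Env) (p : PL) :
    ev v (evenP p) = (ev v p + ev ⟨-v.t, v.y, v.L, v.l⟩ p) / 2 := by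
  induction p with
  | nil => simp [evenP, keep]
  | cons m p ih =>
    rw [evenP] at ih
    rw [evenP, keep, ev_cons, ev_cons]
    rcases Nat.even_or_odd m.a with h | h
    · have h1 : Nat.beq (m.a % 2) 0 = true := by
        rw [Nat.even_iff.mp h]; rfl
      have h2 : Mn.ev ⟨-v.t, v.y, v.L, v.l⟩ m = Mn.ev v m := by
        simp only [Mn.ev, Env.pw, h.neg_pow]
      rw [h1, cond_true, ev_cons, ih, h2]; ring
    · have h1 : Nat.beq (m.a % 2) 0 = false := by
        rw [Nat.odd_iff.mp h]; rfl
      have h2 : Mn.ev ⟨-v.t, v.y, v.L, v.l⟩ m = - Mn.ev v m := by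
        simp only [Mn.ev, Env.pw, h.neg_pow]; ring
      rw [h1, cond_false, ih, h2]; ring

/-! ### Weights -/

/-- moment constants -/
def Mq : ℕ → ℚ
  | 0 => 1
  | 1 => 5015 / 10000
  | 2 => 7546 / 10000
  | 3 => 18921 / 10000
  | 4 => 66420 / 10000
  | 5 => 299785 / 10000
  | _ => 1653805 / 10000

def z0 : ℚ := 1948 / 1000000

def kk (a : ℕ) : ℕ := min (a / 2) 6

def okM (m : Mn) : Bool :=
  (m.c = 0) || (Nat.ble m.d m.b && Nat.ble 4 (kk m.a + m.b))

def wt (m : Mn) : ℚ :=
  |m.c| * ((bif Nat.beq (m.a % 2) 0 then 1 else 1 / 4) * Mq (kk m.a) * (1 / 16) ^ (m.a / 2 - kk m.a) *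
    (10 / 79) ^ (m.b - m.d) * (6932 / 10000) ^ m.e * z0 ^ (kk m.a + m.b - 4))

def okP : PL → Bool
  | [] => true
  | m :: p => okM m && okP p

def wtP : PL → ℚ
  | [] => 0
  | m :: p => wt m + wtP p

end Pool.Agent.H95.Gilbert.TM
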