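import Mathlib
import Pool.Agent.H95.Gilbert.TM

/-! The Taylor model of `U (m (1 + t))` and the main identity, evaluated in the kernel. -/

namespace Pool.Agent.H95.Gilbert.TM

def cst (q : ℚ) : PL := [⟨q, 0, 0, 0, 0⟩]
def tP : PL := [⟨1, 1, 0, 0, 0⟩]
def yP : PL := [⟨1, 0, 1, 0, 0⟩]
def LP : PL := [⟨1, 0, 0, 1, 0⟩]
def lP : PL := [⟨1, 0, 0, 0, 1⟩]

def powP (p : PL) : ℕ → PL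
  | 0 => cst 1
  | n + 1 => mul p (powP p n)

/-- `log (1 + t)` -/
def logT : T := ⟨[⟨1, 1, 0, 0, 0⟩, ⟨-1/2, 2, 0, 0, 0⟩, ⟨1/3, 3, 0, 0, 0⟩, ⟨-1/4, 4, 0, 0, 0⟩,
  ⟨1/5, 5, 0, 0, 0⟩, ⟨-1/6, 6, 0, 0, 0⟩, ⟨1/7, 7, 0, 0, 0⟩, ⟨-1/8, 8, 0, 0, 0⟩,
  ⟨1/9, 9, 0, 0, 0⟩], [⟨4/3, 10, 0, 0, 0⟩]⟩

/-- `1 / (1 + t)` -/
def invT : T := ⟨[⟨1, 0, 0, 0, 0⟩, ⟨-1, 1, 0, 0, 0⟩, ⟨1, 2, 0, 0, 0⟩, ⟨-1, 3, 0, 0, 0⟩,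
  ⟨1, 4, 0, 0, 0⟩, ⟨-1, 5, 0, 0, 0⟩, ⟨1, 6, 0, 0, 0⟩, ⟨-1, 7, 0, 0, 0⟩, ⟨1, 8, 0, 0, 0⟩,
  ⟨-1, 9, 0, 0, 0⟩], [⟨4/3, 10, 0, 0, 0⟩]⟩

def XT : T := (T.exact LP).add logT

/-- `a1 = 5/12 - 2/9 l` -/
def a1P : PL := [⟨5/12, 0, 0, 0, 0⟩, ⟨-2/9, 0, 0, 0, 1⟩]
/-- `a0 = 11/36 l - 11/108 l^2` -/
def a0P : PL := [⟨11/36, 0, 0, 0, 1⟩, ⟨-11/108, 0, 0, 0, 2⟩]
/-- `b2 = -5/24 + 5/126 l` -/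
def b2P : PL := [⟨-5/24, 0, 0, 0, 0⟩, ⟨5/126, 0, 0, 0, 1⟩]
/-- `b1 = 11/24 - 43/84 l + 149/2646 l^2` -/
def b1P : PL := [⟨11/24, 0, 0, 0, 0⟩, ⟨-43/84, 0, 0, 0, 1⟩, ⟨149/2646, 0, 0, 0, 2⟩]
/-- `b0 = 131/504 l - 2153/10584 l^2 + 127/9261 l^3` -/
def b0P : PL := [⟨131/504, 0, 0, 0, 1⟩, ⟨-2153/10584, 0, 0, 0, 2⟩, ⟨127/9261, 0, 0, 0, 3⟩]

def mt (A B : T) : T := (A.mul B).trunc 9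

def X2T : T := mt XT XT
def A2T : T := ((T.exact (cst (-1/12))).mul X2T).add (((T.exact a1P).mul XT).add (T.exact a0P))
def A3T : T := ((T.exact b2P).mul X2T).add (((T.exact b1P).mul XT).add (T.exact b0P))
def r2T : T := mt invT invT
def r3T : T := mt r2T invT

/-- the Taylor model of `U (m (1 + t))`, where `y = 1/m`, `L = log m + γ` -/
def UT : T := XT.add
  ((mt (T.exact [⟨1/2, 0, 1, 0, 0⟩]) (mt (XT.add (T.exact lP)) invT)).add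
  ((mt (T.exact [⟨1, 0, 2, 0, 0⟩]) (mt A2T r2T)).add
  (mt (T.exact [⟨1, 0, 3, 0, 0⟩]) (mt A3T r3T))))

/-- coefficients of the test function -/
def al0 : PL := [⟨1/4, 0, 0, 0, 0⟩, ⟨3/16, 0, 1, 0, 0⟩, ⟨-1/8, 0, 1, 0, 1⟩, ⟨-1/16, 0, 1, 1, 0⟩,
  ⟨31/192, 0, 2, 0, 0⟩, ⟨-71/288, 0, 2, 0, 1⟩, ⟨17/432, 0, 2, 0, 2⟩, ⟨-25/192, 0, 2, 1, 0⟩,
  ⟨5/144, 0, 2, 1, 1⟩]
def al1 : PL := [⟨1/24, 0, 0, 0, 0⟩, ⟨7/48, 0, 1, 0, 0⟩, ⟨-1/16, 0, 1, 0, 1⟩, ⟨-5/144, 0, 1, 1, 0⟩]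
def al2 : PL := cst (7/360)
def al3 : PL := cst (181/15120)

def hP (x : PL) : PL := add (mul al0 x) (add (mul al1 (powP x 3)) (add (mul al2 (powP x 5))
  (mul al3 (powP x 7))))

/-- `1 + h(t) + h(t - y)` -/
def WP : PL := add (cst 1) (add (hP tP) (hP (add tP (smul (-1) yP))))

def LlP : PL := add LP lP

/-- `C = U (2m) - log 2` -/
def CP : PL := add LP (add (mul [⟨1/4, 0, 1, 0, 0⟩] (add LP (smul 2 lP)))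
  (add (mul [⟨1/4, 0, 2, 0, 0⟩] (add (smul (-1/12) (mul LlP LlP)) (add (mul a1P LlP) a0P)))
  (mul [⟨1/8, 0, 3, 0, 0⟩] (add (mul b2P (mul LlP LlP)) (add (mul b1P LlP) b0P)))))

def mainP : PL := add (evenP (mul WP UT.p)) (smul (-1) CP)

def mainCheck : Bool := okP mainP && okP UT.e && decide (wtP mainP + (6/5) * wtP UT.e ≤ 65/100)

end Pool.Agent.H95.Gilbert.TM
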