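import Mathlib
import Pool.Agent.H95.Gilbert.TMU

/-! The approximating functions. -/

namespace Pool.Agent.H95.Gilbert

open TM

/-- `log 2` -/
noncomputable def ell : ℝ := Real.log 2

/-- the constant `γ` -/
noncomputable def gam : ℝ := -(3379682468916 / 10 ^ 13)

noncomputable def Lx (x : ℝ) : ℝ := Real.log x + gam

noncomputable def A2 (X : ℝ) : ℝ := -1/12 * X ^ 2 + (5/12 - 2/9 * ell) * X +
  (11/36 * ell - 11/108 * ell ^ 2)

noncomputable def A3 (X : ℝ) : ℝ := (-5/24 + 5/126 * ell) * X ^ 2 +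
  (11/24 - 43/84 * ell + 149/2646 * ell ^ 2) * X +
  (131/504 * ell - 2153/10584 * ell ^ 2 + 127/9261 * ell ^ 3)

noncomputable def U (x : ℝ) : ℝ := Lx x + (Lx x + ell) / 2 / x + A2 (Lx x) / x ^ 2 +
  A3 (Lx x) / x ^ 3

/-- `U (2m) - log 2` as a function of `m` -/
noncomputable def Cm (m : ℝ) : ℝ := Lx m + (Lx m + 2 * ell) / 4 / m + A2 (Lx m + ell) / 4 / m ^ 2 +
  A3 (Lx m + ell) / 8 / m ^ 3

theorem ell_gt : 0.6931471803 < ell := Real.log_two_gt_d9
theorem ell_lt : ell < 0.6931471808 := Real.log_two_lt_d9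

theorem Lx_mul {m s : ℝ} (hm : 0 < m) (hs : 0 < s) : Lx (m * s) = Lx m + Real.log s := by
  unfold Lx
  rw [Real.log_mul hm.ne' hs.ne']; ring

theorem Cm_eq {m : ℝ} (hm : 0 < m) : U (2 * m) = Cm m + ell := by
  have h1 : Lx (2 * m) = Lx m + ell := by
    rw [mul_comm, Lx_mul hm (by norm_num)]; rfl
  unfold U Cm
  rw [h1]
  field_simp
  ring

/-- the environment -/
noncomputable def env (m t : ℝ) : Env := ⟨t, 1 / m, Lx m, ell⟩

theorem congrH {v : Env} {T : TM.T} {f g : ℝ} (h : Holds v T f) (hfg : f = g) :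
    Holds v T g := hfg ▸ h

theorem logT_holds {m t : ℝ} (ht : |t| ≤ 1 / 4) : Holds (env m t) logT (Real.log (1 + t)) := by
  have h1 : |(-t)| < 1 := by rw [abs_neg]; linarith
  have h2 := Real.abs_log_sub_add_sum_range_le h1 9
  have h3 : (1:ℝ) - -t = 1 + t := by ring
  rw [h3, abs_neg] at h2
  simp only [Finset.sum_range_succ, Finset.sum_range_zero] at h2
  norm_num at h2
  unfold Holds
  simp only [logT, ev_cons, ev_nil, Mn.ev, Env.pw, env, Env.abs, pow_zero, mul_one, pow_one]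
  push_cast
  have h4 : |t| ^ 10 / (1 - |t|) ≤ 4 / 3 * |t| ^ 10 := by
    rw [div_le_iff₀ (by linarith)]
    have : 0 ≤ |t| ^ 10 := by positivity
    nlinarith
  have h5 : Real.log (1 + t) - (1 * t + (-1 / 2 * t ^ 2 + (1 / 3 * t ^ 3 + (-1 / 4 * t ^ 4 +
      (1 / 5 * t ^ 5 + (-1 / 6 * t ^ 6 + (1 / 7 * t ^ 7 + (-1 / 8 * t ^ 8 +
      (1 / 9 * t ^ 9 + 0))))))))) =
      -t + t ^ 2 / 2 + (-t) ^ 3 / 3 + t ^ 4 / 4 + (-t) ^ 5 / 5 + t ^ 6 / 6 + (-t) ^ 7 / 7 +
        t ^ 8 / 8 + (-t) ^ 9 / 9 + Real.log (1 + t) := by ring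
  rw [h5, add_zero]
  exact h2.trans h4

theorem invT_holds {m t : ℝ} (ht : |t| ≤ 1 / 4) : Holds (env m t) invT (1 / (1 + t)) := by
  have h0 : 0 < 1 + t := by have := neg_abs_le t; linarith
  have h1 : 1 / (1 + t) - (1 - t + t ^ 2 - t ^ 3 + t ^ 4 - t ^ 5 + t ^ 6 - t ^ 7 + t ^ 8 - t ^ 9) =
      t ^ 10 / (1 + t) := by
    field_simp
    ring
  unfold Holds
  simp only [invT, ev_cons, ev_nil, Mn.ev, Env.pw, env, Env.abs, pow_zero, mul_one, pow_one]
  push_cast
  have h2 : 1 / (1 + t) - (1 + (-1 * t + (1 * t ^ 2 + (-1 * t ^ 3 + (1 * t ^ 4 + (-1 * t ^ 5 +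
      (1 * t ^ 6 + (-1 * t ^ 7 + (1 * t ^ 8 + (-1 * t ^ 9 + 0)))))))))) = t ^ 10 / (1 + t) := by
    rw [← h1]; ring
  rw [h2, abs_div, abs_pow, abs_of_pos h0, div_le_iff₀ h0]
  have : 0 ≤ |t| ^ 10 := by positivity
  have h3 : 3 / 4 ≤ 1 + t := by have := neg_abs_le t; linarith
  nlinarith

theorem env_nn {m t : ℝ} (hm : 0 < m) (hL : 0 ≤ Lx m) : (env m t).Nn :=
  ⟨by simp only [env]; positivity, hL, by simp only [env]; have := ell_gt; linarith⟩

theorem XT_holds {m t : ℝ} (ht : |t| ≤ 1 / 4) (hm : 0 < m) :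
    Holds (env m t) XT (Lx (m * (1 + t))) := by
  have h0 : 0 < 1 + t := by have := neg_abs_le t; linarith
  rw [Lx_mul hm h0]
  refine Holds.add ?_ (logT_holds ht)
  have := Holds.exact (env m t) LP
  refine congrH this ?_
  simp [LP, Mn.ev, Env.pw, env]

theorem mt_holds {v : Env} (hv : v.Nn) {A B : TM.T} {f g : ℝ} (hA : Holds v A f)
    (hB : Holds v B g) : Holds v (mt A B) (f * g) := (hA.mul hv hB).trunc hv 9

theorem UT_holds {m t : ℝ} (ht : |t| ≤ 1 / 4) (hm : 0 < m) (hL : 0 ≤ Lx m) :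
    Holds (env m t) UT (U (m * (1 + t))) := by
  have h0 : 0 < 1 + t := by have := neg_abs_le t; linarith
  have hv := env_nn (t := t) hm hL
  have hX := XT_holds ht hm
  have hr := invT_holds (m := m) ht
  set v := env m t with hv'
  set X := Lx (m * (1 + t)) with hXdef
  set r := 1 / (1 + t) with hrdef
  have hX2 : Holds v X2T (X * X) := mt_holds hv hX hX
  have hr2 : Holds v r2T (r * r) := mt_holds hv hr hr
  have hr3 : Holds v r3T (r * r * r) := mt_holds hv hr2 hr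
  have hA2 : Holds v A2T (A2 X) := by
    have h1 := ((Holds.exact v (cst (-1/12))).mul hv hX2).add
      (((Holds.exact v a1P).mul hv hX).add (Holds.exact v a0P))
    refine congrH h1 ?_
    simp only [cst, a1P, a0P, ev_cons, ev_nil, Mn.ev, Env.pw, hv', env, pow_zero, mul_one,
      one_mul, pow_one]
    push_cast
    unfold A2
    ring
  have hA3 : Holds v A3T (A3 X) := by
    have h1 := ((Holds.exact v b2P).mul hv hX2).add
      (((Holds.exact v b1P).mul hv hX).add (Holds.exact v b0P))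
    refine congrH h1 ?_
    simp only [b2P, b1P, b0P, ev_cons, ev_nil, Mn.ev, Env.pw, hv', env, pow_zero, mul_one,
      one_mul, pow_one]
    push_cast
    unfold A3
    ring
  have hXl : Holds v (XT.add (T.exact lP)) (X + ell) := by
    refine hX.add (congrH (Holds.exact v lP) ?_)
    simp [lP, Mn.ev, Env.pw, hv', env]
  have h1 : Holds v (T.exact [⟨1/2, 0, 1, 0, 0⟩]) (1 / 2 * (1 / m)) := by
    refine congrH (Holds.exact v _) ?_
    simp [Mn.ev, Env.pw, hv', env]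
  have h2 : Holds v (T.exact [⟨1, 0, 2, 0, 0⟩]) ((1 / m) ^ 2) := by
    refine congrH (Holds.exact v _) ?_
    simp [Mn.ev, Env.pw, hv', env]
  have h3 : Holds v (T.exact [⟨1, 0, 3, 0, 0⟩]) ((1 / m) ^ 3) := by
    refine congrH (Holds.exact v _) ?_
    simp [Mn.ev, Env.pw, hv', env]
  have hU := hX.add ((mt_holds hv h1 (mt_holds hv hXl hr)).add
    ((mt_holds hv h2 (mt_holds hv hA2 hr2)).add (mt_holds hv h3 (mt_holds hv hA3 hr3))))
  refine congrH hU ?_
  unfold U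
  rw [← hXdef, hrdef]
  field_simp
  ring

/-- the weight function -/
noncomputable def Wf (m t : ℝ) : ℝ := ev (env m t) WP

end Pool.Agent.H95.Gilbert
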