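import Mathlib
import Pool.Agent.H95.Gilbert.Fun

/-! Derivatives of the barrier functions. -/

namespace Pool.Agent.H95.Gilbert

noncomputable def eps : ℝ := 185 / 10 ^ 12
noncomputable def kap : ℝ := 37 / 10 ^ 9
noncomputable def EE : ℝ := 85 / 100 * eps
noncomputable def omg : ℝ := 2 * Real.pi / ell

/-- the oscillating term -/
noncomputable def eta (x : ℝ) : ℝ := - eps * Real.cos (omg * Real.log x)

/-- the correction term -/
noncomputable def Dd (x : ℝ) : ℝ := kap * Lx x / x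

/-- the barrier functions -/
noncomputable def fb (σ x : ℝ) : ℝ := U x + eta x + σ * (EE - Dd x)

noncomputable def P0 (σ X : ℝ) : ℝ := X - eps * Real.cos (omg * (X - gam)) + σ * EE
noncomputable def P0' (X : ℝ) : ℝ := 1 + eps * omg * Real.sin (omg * (X - gam))
noncomputable def P0'' (X : ℝ) : ℝ := eps * omg ^ 2 * Real.cos (omg * (X - gam))
noncomputable def P1 (σ X : ℝ) : ℝ := (X + ell) / 2 - σ * kap * X
noncomputable def A2d (X : ℝ) : ℝ := -1/6 * X + (5/12 - 2/9 * ell)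
noncomputable def A3d (X : ℝ) : ℝ := 2 * (-5/24 + 5/126 * ell) * X +
  (11/24 - 43/84 * ell + 149/2646 * ell ^ 2)

theorem omg_lt : omg < 9.0654 := by
  unfold omg
  have := ell_gt
  have := Real.pi_lt_d4
  rw [div_lt_iff₀ (by linarith)]
  linarith

theorem omg_gt : 9.06 < omg := by
  unfold omg
  have := ell_gt
  have := ell_lt
  have := Real.pi_gt_d4
  rw [lt_div_iff₀ (by linarith)]
  linarith

theorem hasDerivAt_Lx {x : ℝ} (hx : 0 < x) : HasDerivAt Lx (1 / x) x := by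
  unfold Lx
  have := (Real.hasDerivAt_log hx.ne').add_const gam
  rwa [← one_div] at this

theorem hd (P : ℝ → ℝ) (p : ℝ) (k : ℕ) {x : ℝ} (hx : 0 < x) (hP : HasDerivAt P p (Lx x)) :
    HasDerivAt (fun x => P (Lx x) / x ^ k) ((p - k * P (Lx x)) / x ^ (k + 1)) x := by
  have h1 := hP.comp x (hasDerivAt_Lx hx)
  have h2 := h1.div (hasDerivAt_pow k x) (by positivity)
  refine h2.congr_deriv ?_
  rcases k with _ | k
  · simp; ring
  · simp only [Function.comp_apply]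
    rw [Nat.add_sub_cancel]
    field_simp
    ring

theorem hasDerivAt_P0 (σ X : ℝ) : HasDerivAt (P0 σ) (P0' X) X := by
  have h1 : HasDerivAt (fun X : ℝ => omg * (X - gam)) (omg * 1) X :=
    ((hasDerivAt_id X).sub_const gam).const_mul omg
  have h2 := (((hasDerivAt_id X).sub (h1.cos.const_mul eps)).add_const (σ * EE))
  refine h2.congr_deriv ?_
  unfold P0'
  ring

theorem hasDerivAt_P0' (X : ℝ) : HasDerivAt P0' (P0'' X) X := by
  have h1 : HasDerivAt (fun X : ℝ => omg * (X - gam)) (omg * 1) X :=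
    ((hasDerivAt_id X).sub_const gam).const_mul omg
  have h2 := (h1.sin.const_mul (eps * omg)).const_add 1
  refine h2.congr_deriv ?_
  unfold P0''
  ring

theorem hasDerivAt_P1 (σ X : ℝ) : HasDerivAt (P1 σ) (1 / 2 - σ * kap) X := by
  have h2 := (((hasDerivAt_id X).add_const ell).div_const 2).sub
    ((hasDerivAt_id X).const_mul (σ * kap))
  refine h2.congr_deriv ?_
  ring

theorem hasDerivAt_A2 (X : ℝ) : HasDerivAt A2 (A2d X) X := by
  have h2 := ((((hasDerivAt_id X).pow 2).const_mul (-1/12)).add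
    ((hasDerivAt_id X).const_mul (5/12 - 2/9 * ell))).add_const (11/36 * ell - 11/108 * ell ^ 2)
  refine h2.congr_deriv ?_
  unfold A2d
  simp
  ring

theorem hasDerivAt_A2d (X : ℝ) : HasDerivAt A2d (-1/6) X := by
  have h2 := ((hasDerivAt_id X).const_mul (-1/6 : ℝ)).add_const (5/12 - 2/9 * ell)
  refine h2.congr_deriv ?_
  ring

theorem hasDerivAt_A3 (X : ℝ) : HasDerivAt A3 (A3d X) X := by
  have h2 := ((((hasDerivAt_id X).pow 2).const_mul (-5/24 + 5/126 * ell)).add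
    ((hasDerivAt_id X).const_mul (11/24 - 43/84 * ell + 149/2646 * ell ^ 2))).add_const
      (131/504 * ell - 2153/10584 * ell ^ 2 + 127/9261 * ell ^ 3)
  refine h2.congr_deriv ?_
  unfold A3d
  simp
  ring

theorem hasDerivAt_A3d (X : ℝ) : HasDerivAt A3d (2 * (-5/24 + 5/126 * ell)) X := by
  have h2 := ((hasDerivAt_id X).const_mul (2 * (-5/24 + 5/126 * ell))).add_const
    (11/24 - 43/84 * ell + 149/2646 * ell ^ 2)
  refine h2.congr_deriv ?_
  ring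

theorem fb_eq (σ : ℝ) {x : ℝ} (hx : 0 < x) : fb σ x = P0 σ (Lx x) / x ^ 0 + P1 σ (Lx x) / x ^ 1 +
    A2 (Lx x) / x ^ 2 + A3 (Lx x) / x ^ 3 := by
  unfold fb U eta Dd P0 P1
  have : Lx x - gam = Real.log x := by unfold Lx; ring
  rw [this]
  field_simp
  ring

/-- the derivative -/
noncomputable def fb1 (σ x : ℝ) : ℝ := P0' (Lx x) / x ^ 1 +
  ((1 / 2 - σ * kap) - 1 * P1 σ (Lx x)) / x ^ 2 +
  (A2d (Lx x) - 2 * A2 (Lx x)) / x ^ 3 + (A3d (Lx x) - 3 * A3 (Lx x)) / x ^ 4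

/-- the second derivative -/
noncomputable def fb2 (σ x : ℝ) : ℝ := (P0'' (Lx x) - 1 * P0' (Lx x)) / x ^ 2 +
  (- 1 * (1 / 2 - σ * kap) - 2 * ((1 / 2 - σ * kap) - 1 * P1 σ (Lx x))) / x ^ 3 +
  ((-1/6 - 2 * A2d (Lx x)) - 3 * (A2d (Lx x) - 2 * A2 (Lx x))) / x ^ 4 +
  ((2 * (-5/24 + 5/126 * ell) - 3 * A3d (Lx x)) - 4 * (A3d (Lx x) - 3 * A3 (Lx x))) / x ^ 5

theorem hasDerivAt_fb (σ : ℝ) {x : ℝ} (hx : 0 < x) : HasDerivAt (fb σ) (fb1 σ x) x := by
  have h0 := hd (P0 σ) _ 0 hx (hasDerivAt_P0 σ (Lx x))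
  have h1 := hd (P1 σ) _ 1 hx (hasDerivAt_P1 σ (Lx x))
  have h2 := hd A2 _ 2 hx (hasDerivAt_A2 (Lx x))
  have h3 := hd A3 _ 3 hx (hasDerivAt_A3 (Lx x))
  have h := ((h0.add h1).add h2).add h3
  have h4 : HasDerivAt (fb σ) _ x := h.congr_of_eventuallyEq (by
    filter_upwards [lt_mem_nhds hx] with y hy
    rw [fb_eq σ hy]
    rfl)
  refine h4.congr_deriv ?_
  unfold fb1
  push_cast
  ring

theorem hasDerivAt_fb1 (σ : ℝ) {x : ℝ} (hx : 0 < x) : HasDerivAt (fb1 σ) (fb2 σ x) x := by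
  have h0 := hd P0' _ 1 hx (hasDerivAt_P0' (Lx x))
  have h1 := hd (fun X => (1 / 2 - σ * kap) - 1 * P1 σ X) _ 2 hx
    (((hasDerivAt_P1 σ (Lx x)).const_mul 1).const_sub (1 / 2 - σ * kap))
  have h2 := hd (fun X => A2d X - 2 * A2 X) _ 3 hx
    ((hasDerivAt_A2d (Lx x)).sub ((hasDerivAt_A2 (Lx x)).const_mul 2))
  have h3 := hd (fun X => A3d X - 3 * A3 X) _ 4 hx
    ((hasDerivAt_A3d (Lx x)).sub ((hasDerivAt_A3 (Lx x)).const_mul 3))
  have h := ((h0.add h1).add h2).add h3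
  have h4 : HasDerivAt (fb1 σ) _ x := h
  refine h4.congr_deriv ?_
  unfold fb2
  push_cast
  ring

/-! ### bounds on `Lx` -/

theorem log_4096 : Real.log 4096 = 12 * ell := by
  unfold ell
  rw [show (4096 : ℝ) = 2 ^ 12 by norm_num, Real.log_pow]
  norm_num

theorem log_2048 : Real.log 2048 = 11 * ell := by
  unfold ell
  rw [show (2048 : ℝ) = 2 ^ 11 by norm_num, Real.log_pow]
  norm_num

/-- `Lx x ≤ 6.9798 + x / 4096` -/
theorem Lx_le {x : ℝ} (hx : 0 < x) : Lx x ≤ 6.9798 + x / 4096 := by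
  unfold Lx gam
  have h1 : Real.log x = Real.log 4096 + Real.log (x / 4096) := by
    rw [← Real.log_mul (by norm_num) (by positivity)]
    congr 1
    field_simp
  have h2 := Real.log_le_sub_one_of_pos (show 0 < x / 4096 by positivity)
  have h3 := ell_lt
  rw [h1, log_4096]
  norm_num at *
  linarith

theorem Lx_mono {x y : ℝ} (hx : 0 < x) (hxy : x ≤ y) : Lx x ≤ Lx y := by
  unfold Lx
  have := Real.log_le_log hx hxy
  linarith

theorem Lx_ge {x : ℝ} (hx : 2048 ≤ x) : 7.28 ≤ Lx x := by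
  have h1 := Lx_mono (by norm_num) hx
  have h2 : (7.28 : ℝ) ≤ Lx 2048 := by
    unfold Lx gam
    rw [log_2048]
    have := ell_gt
    norm_num at *
    linarith
  exact h2.trans h1

theorem Lx_ge' {x : ℝ} (hx : 4096 ≤ x) : 7.9797 ≤ Lx x := by
  have h1 := Lx_mono (by norm_num) hx
  have h2 : (7.9797 : ℝ) ≤ Lx 4096 := by
    unfold Lx gam
    rw [log_4096]
    have := ell_gt
    norm_num at *
    linarith
  exact h2.trans h1

theorem Lx_div_le {x : ℝ} (hx : 3072 ≤ x) : Lx x ≤ 0.00252 * x := by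
  have := Lx_le (show 0 < x by linarith)
  norm_num at *
  linarith

/-! ### bounds on the derivatives -/

theorem eps_om : eps * omg ≤ 1 / 10 ^ 8 ∧ 0 ≤ eps * omg ∧ eps * omg ^ 2 ≤ 1 / 10 ^ 7 ∧
    0 ≤ eps * omg ^ 2 := by
  have h1 := omg_lt
  have h2 := omg_gt
  have h3 : 0 ≤ omg := by linarith
  unfold eps
  refine ⟨by norm_num at *; linarith, by positivity, ?_, by positivity⟩
  have : omg ^ 2 ≤ 9.0654 ^ 2 := pow_le_pow_left₀ h3 h1.le 2
  norm_num at *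
  linarith

/-- abbreviations for the coefficient values -/
theorem coef_bd : 0.262 ≤ 5/12 - 2/9 * ell ∧ 5/12 - 2/9 * ell ≤ 0.263 ∧
    0.162 ≤ 11/36 * ell - 11/108 * ell ^ 2 ∧ 11/36 * ell - 11/108 * ell ^ 2 ≤ 0.163 ∧
    -0.181 ≤ -5/24 + 5/126 * ell ∧ -5/24 + 5/126 * ell ≤ -0.18 ∧
    0.130 ≤ 11/24 - 43/84 * ell + 149/2646 * ell ^ 2 ∧
    11/24 - 43/84 * ell + 149/2646 * ell ^ 2 ≤ 0.131 ∧
    0.086 ≤ 131/504 * ell - 2153/10584 * ell ^ 2 + 127/9261 * ell ^ 3 ∧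
    131/504 * ell - 2153/10584 * ell ^ 2 + 127/9261 * ell ^ 3 ≤ 0.088 := by
  have h1 := ell_gt
  have h2 := ell_lt
  have h0 : 0 ≤ ell := by linarith
  have a1 : 0.4804 ≤ ell ^ 2 := by
    have := pow_le_pow_left₀ (by norm_num) h1.le 2
    norm_num at *; linarith
  have a2 : ell ^ 2 ≤ 0.4805 := by
    have := pow_le_pow_left₀ h0 h2.le 2
    norm_num at *; linarith
  have a3 : 0.333 ≤ ell ^ 3 := by
    have := pow_le_pow_left₀ (by norm_num) h1.le 3
    norm_num at *; linarith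
  have a4 : ell ^ 3 ≤ 0.3331 := by
    have := pow_le_pow_left₀ h0 h2.le 3
    norm_num at *; linarith
  refine ⟨?_, ?_, ?_, ?_, ?_, ?_, ?_, ?_, ?_, ?_⟩ <;> norm_num at * <;> linarith

theorem P1a_bd {σ L : ℝ} (hσ : |σ| ≤ 1) (hL : 728 / 100 ≤ L) :
    -(51 / 100 * L) ≤ (1 / 2 - σ * kap) - 1 * P1 σ L := by
  have h1 := ell_lt
  rw [abs_le] at hσ
  unfold P1 kap
  norm_num at h1
  nlinarith

theorem P1b_bd {σ L : ℝ} (hσ : |σ| ≤ 1) (hL : 728 / 100 ≤ L) :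
    - 1 * (1 / 2 - σ * kap) - 2 * ((1 / 2 - σ * kap) - 1 * P1 σ L) ≤ 15 / 10 * L := by
  have h1 := ell_lt
  rw [abs_le] at hσ
  unfold P1 kap
  norm_num at h1
  nlinarith

theorem A2_bd {L : ℝ} (hL : 728 / 100 ≤ L) :
    -(1 / 10 * L ^ 2) ≤ A2d L - 2 * A2 L ∧
    (-1/6 - 2 * A2d L) - 3 * (A2d L - 2 * A2 L) ≤ L ^ 2 := by
  obtain ⟨c1, c2, c3, c4, -⟩ := coef_bd
  unfold A2d A2
  generalize 5/12 - 2/9 * ell = p at *
  generalize 11/36 * ell - 11/108 * ell ^ 2 = q at *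
  norm_num at c1 c2 c3 c4
  have hL2 : 0 ≤ (L - 728 / 100) * L := by
    apply mul_nonneg <;> linarith
  constructor <;> nlinarith

theorem A3_bd {L : ℝ} (hL : 728 / 100 ≤ L) :
    -(1 / 10 * L ^ 3) ≤ A3d L - 3 * A3 L ∧
    (2 * (-5/24 + 5/126 * ell) - 3 * A3d L) - 4 * (A3d L - 3 * A3 L) ≤ L ^ 3 := by
  obtain ⟨-, -, -, -, c5, c6, c7, c8, c9, c10⟩ := coef_bd
  unfold A3d A3
  generalize -5/24 + 5/126 * ell = p at *
  generalize 11/24 - 43/84 * ell + 149/2646 * ell ^ 2 = q at *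
  generalize 131/504 * ell - 2153/10584 * ell ^ 2 + 127/9261 * ell ^ 3 = r at *
  norm_num at c5 c6 c7 c8 c9 c10
  have hL2 : 0 ≤ (L - 728 / 100) * L := by
    apply mul_nonneg <;> linarith
  have hL3 : 728 / 100 * L ^ 2 ≤ L ^ 3 := by
    have : 0 ≤ (L - 728 / 100) * L ^ 2 := by
      apply mul_nonneg
      · linarith
      · positivity
    linarith
  have a1 : 0 ≤ (p + 181 / 1000) * L := mul_nonneg (by linarith) (by linarith)
  have a2 : 0 ≤ (-p - 18 / 100) * L := mul_nonneg (by linarith) (by linarith)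
  have a3 : 0 ≤ (p + 181 / 1000) * L ^ 2 := mul_nonneg (by linarith) (by positivity)
  have a4 : 0 ≤ (-p - 18 / 100) * L ^ 2 := mul_nonneg (by linarith) (by positivity)
  have a5 : 0 ≤ (q - 13 / 100) * L := mul_nonneg (by linarith) (by linarith)
  have a6 : 0 ≤ (131 / 1000 - q) * L := mul_nonneg (by linarith) (by linarith)
  constructor <;> nlinarith

theorem P0_bd (X : ℝ) : 1 - 1 / 10 ^ 8 ≤ P0' X ∧ P0'' X - 1 * P0' X ≤ - (99 / 100) := by
  obtain ⟨e1, e2, e3, e4⟩ := eps_om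
  unfold P0' P0''
  have hs1 := Real.neg_one_le_sin (omg * (X - gam))
  have hc1 := Real.cos_le_one (omg * (X - gam))
  generalize Real.sin (omg * (X - gam)) = s at *
  generalize Real.cos (omg * (X - gam)) = c at *
  generalize eps * omg = p at *
  generalize eps * omg ^ 2 = q at *
  constructor <;> nlinarith

/-- lower bound for `x f'(x)` -/
theorem fb1_ge {σ x : ℝ} (hσ : |σ| ≤ 1) (hx : 3072 ≤ x) : 9987 / 10000 / x ≤ fb1 σ x := by
  have hx0 : 0 < x := by linarith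
  have hL1 := Lx_ge (show 2048 ≤ x by linarith)
  have hL2 := Lx_div_le hx
  norm_num at hL1 hL2
  have h1 : fb1 σ x = (P0' (Lx x) * x ^ 3 + ((1 / 2 - σ * kap) - 1 * P1 σ (Lx x)) * x ^ 2 +
      (A2d (Lx x) - 2 * A2 (Lx x)) * x + (A3d (Lx x) - 3 * A3 (Lx x))) / x ^ 4 := by
    unfold fb1
    field_simp
  have hP0 := (P0_bd (Lx x)).1
  have hP1 := P1a_bd (L := Lx x) hσ (by linarith)
  have hP2 := (A2_bd (L := Lx x) (by linarith)).1
  have hP3 := (A3_bd (L := Lx x) (by linarith)).1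
  rw [h1, div_le_div_iff₀ hx0 (by positivity)]
  clear h1
  generalize P0' (Lx x) = a0 at *
  generalize (1 / 2 - σ * kap) - 1 * P1 σ (Lx x) = a1 at *
  generalize A2d (Lx x) - 2 * A2 (Lx x) = a2 at *
  generalize A3d (Lx x) - 3 * A3 (Lx x) = a3 at *
  generalize Lx x = L at *
  have hLL : L ^ 2 ≤ (63 / 25000 * x) ^ 2 := pow_le_pow_left₀ (by linarith) hL2 2
  have hLLL : L ^ 3 ≤ (63 / 25000 * x) ^ 3 := pow_le_pow_left₀ (by linarith) hL2 3
  have k0 : (1 - 1 / 10 ^ 8) * x ^ 3 ≤ a0 * x ^ 3 :=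
    mul_le_mul_of_nonneg_right hP0 (by positivity)
  have k1 : -(51 / 100 * (63 / 25000 * x)) * x ^ 2 ≤ a1 * x ^ 2 := by
    refine mul_le_mul_of_nonneg_right ?_ (by positivity)
    linarith
  have k2 : -(1 / 10 * (63 / 25000 * x) ^ 2) * x ≤ a2 * x := by
    refine mul_le_mul_of_nonneg_right ?_ (by positivity)
    linarith
  have k3 : -(1 / 10 * (63 / 25000 * x) ^ 3) ≤ a3 := by linarith
  have hx3 : 0 < x ^ 3 := by positivity
  have key : 9987 / 10000 * x ^ 3 ≤ a0 * x ^ 3 + a1 * x ^ 2 + a2 * x + a3 := by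
    have : 9987 / 10000 * x ^ 3 ≤ (1 - 1 / 10 ^ 8) * x ^ 3 + -(51 / 100 * (63 / 25000 * x)) * x ^ 2 +
      -(1 / 10 * (63 / 25000 * x) ^ 2) * x + -(1 / 10 * (63 / 25000 * x) ^ 3) := by
      nlinarith
    linarith
  calc 9987 / 10000 * x ^ 4 = (9987 / 10000 * x ^ 3) * x := by ring
    _ ≤ _ := mul_le_mul_of_nonneg_right key hx0.le

theorem fb2_le {σ x : ℝ} (hσ : |σ| ≤ 1) (hx : 3072 ≤ x) : fb2 σ x ≤ 0 := by
  have hx0 : 0 < x := by linarith
  have hL1 := Lx_ge (show 2048 ≤ x by linarith)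
  have hL2 := Lx_div_le hx
  norm_num at hL1 hL2
  have h1 : fb2 σ x = ((P0'' (Lx x) - 1 * P0' (Lx x)) * x ^ 3 +
      (- 1 * (1 / 2 - σ * kap) - 2 * ((1 / 2 - σ * kap) - 1 * P1 σ (Lx x))) * x ^ 2 +
      ((-1/6 - 2 * A2d (Lx x)) - 3 * (A2d (Lx x) - 2 * A2 (Lx x))) * x +
      ((2 * (-5/24 + 5/126 * ell) - 3 * A3d (Lx x)) - 4 * (A3d (Lx x) - 3 * A3 (Lx x)))) / x ^ 5 := by
    unfold fb2
    field_simp
  have hP0 := (P0_bd (Lx x)).2
  have hP1 := P1b_bd (L := Lx x) hσ (by linarith)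
  have hP2 := (A2_bd (L := Lx x) (by linarith)).2
  have hP3 := (A3_bd (L := Lx x) (by linarith)).2
  rw [h1]
  refine div_nonpos_of_nonpos_of_nonneg ?_ (by positivity)
  clear h1
  generalize P0'' (Lx x) - 1 * P0' (Lx x) = a0 at *
  generalize - 1 * (1 / 2 - σ * kap) - 2 * ((1 / 2 - σ * kap) - 1 * P1 σ (Lx x)) = a1 at *
  generalize (-1/6 - 2 * A2d (Lx x)) - 3 * (A2d (Lx x) - 2 * A2 (Lx x)) = a2 at *
  generalize (2 * (-5/24 + 5/126 * ell) - 3 * A3d (Lx x)) - 4 * (A3d (Lx x) - 3 * A3 (Lx x)) = a3 at *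
  generalize Lx x = L at *
  have hLL : L ^ 2 ≤ (63 / 25000 * x) ^ 2 := pow_le_pow_left₀ (by linarith) hL2 2
  have hLLL : L ^ 3 ≤ (63 / 25000 * x) ^ 3 := pow_le_pow_left₀ (by linarith) hL2 3
  have k0 := mul_le_mul_of_nonneg_right hP0 (show 0 ≤ x ^ 3 by positivity)
  have k1 : a1 * x ^ 2 ≤ (15 / 10 * (63 / 25000 * x)) * x ^ 2 := by
    refine mul_le_mul_of_nonneg_right ?_ (by positivity)
    linarith
  have k2 : a2 * x ≤ (63 / 25000 * x) ^ 2 * x := by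
    refine mul_le_mul_of_nonneg_right ?_ (by positivity)
    linarith
  have k3 : a3 ≤ (63 / 25000 * x) ^ 3 := by linarith
  have hx3 : 0 < x ^ 3 := by positivity
  nlinarith

end Pool.Agent.H95.Gilbert
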