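import Pool.Agent.H95.Gilbert.Tab

/-!
# Kernel program comparing the table with the asymptotic formula

`10 ^ 18 * log x` is tabulated from `x = 2048` on by the recursion `linc`.
-/

set_option autoImplicit false
set_option linter.all false

namespace Pool.Agent.H95.Gilbert

namespace Blk

/-- `10 ^ 18 * log ((x+1)/x)`, rounded -/
noncomputable def linc (x : Nat) : Nat :=
  Nat.div (Nat.mul 2000000000000000000 (Nat.succ (Nat.mul 3 (Nat.mul (Nat.succ (Nat.mul 2 x)) (Nat.succ (Nat.mul 2 x))))))
    (Nat.mul 3 (Nat.mul (Nat.succ (Nat.mul 2 x)) (Nat.mul (Nat.succ (Nat.mul 2 x)) (Nat.succ (Nat.mul 2 x)))))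

/-- positive part of `74088 x^3 U(x)`, scaled -/
noncomputable def uP (x Li : Nat) : Nat :=
  Nat.add (Nat.mul Li (Nat.add (Nat.mul x (Nat.add (Nat.mul x (Nat.add (Nat.mul x 74088000000000000000000000000000000000000) 37044000000000000000000000000000000000000)) 30870000000000000000000000000000000000000)) (Nat.add 35961449974066736341298039666404652066732 (Nat.mul 2037852710846239208460 Li))))
    (Nat.add (Nat.mul x (Nat.add (Nat.mul x 25676944156662614026596000000000000000000000000000000000000) 15691465873516041905142000000000000000000000000000000000000)) 13686288302463619166196351848506933022687497151314620847064)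

/-- negative part of `74088 x^3 U(x)`, scaled -/
noncomputable def uM (x Li : Nat) : Nat :=
  Nat.add (Nat.mul Li (Nat.add (Nat.mul Li (Nat.add (Nat.mul x 6174000000000000000000) 15435000000000000000000)) (Nat.add (Nat.mul x 11411975180738939567376000000000000000000) 26288299969916485789134000000000000000000)))
    (Nat.add (Nat.mul x 3625498443026747946173299933530561959626000000000000000000) 7240907372761213662440737251290630704151000000000000000000)

noncomputable def uY (x : Nat) : Nat := Nat.mul 74088000000000000000000000000000000000000 (Nat.mul x (Nat.mul x x))

noncomputable def uL (x Li a : Nat) : Nat :=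
  Nat.add (Nat.mul (uY x) (Nat.add (Nat.mul 693147180559945309 a) 72057594037927936000000000)) (Nat.mul 72057594037927936 (uM x Li))

noncomputable def uR (x Li c : Nat) : Nat :=
  Nat.add (Nat.mul 72057594037927936 (uP x Li)) (Nat.mul (uY x) (Nat.mul 72057594037927936 c))

/-- the check at `x`, where `lam` is `10 ^ 18 * log x` and `a` is the table entry for `x - 1` -/
noncomputable def lchk (x lam a clo chi : Nat) : Bool :=
  band (Nat.ble (uL x (Nat.sub lam 337968246891600000) a) (uR x (Nat.sub lam 337968246891600000) chi))
    (Nat.ble (uR x (Nat.sub lam 337968246891600000) clo) (uL x (Nat.sub lam 337968246891600000) a))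

/-- `k` checks with the constants `clo`, `chi`, followed by `cont` -/
noncomputable def grpG (f : Nat → Nat) (g : Nat → Nat → Nat → Nat → Nat → Bool) (k clo chi : Nat)
    (cont : List Nat → Nat → Nat → Bool) :
    List Nat → Nat → Nat → Bool :=
  Nat.rec (motive := fun _ => List Nat → Nat → Nat → Bool) cont
    (fun _ ih l x lam => List.rec (motive := fun _ => Bool) false
      (fun a t _ => Nat.rec (motive := fun _ => Bool) false
        (fun x' _ => Nat.rec (motive := fun _ => Bool) false
          (fun l' _ => band (g (Nat.succ x') (Nat.succ l') a clo chi)
            (ih t (Nat.succ (Nat.succ x')) (Nat.add (Nat.succ l') (f (Nat.succ x')))))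
          lam) x) l) k

/-- `k` checks with the constants `clo`, `chi`, followed by `cont` -/
noncomputable def grp : Nat → Nat → Nat → (List Nat → Nat → Nat → Bool) →
    List Nat → Nat → Nat → Bool := grpG linc lchk

/-- `k` steps of the recursion for the logarithm, leading to the value `target` -/
noncomputable def advG (f : Nat → Nat) (k target : Nat) : Nat → Nat → Bool :=
  Nat.rec (motive := fun _ => Nat → Nat → Bool) (fun _ lam => Nat.beq lam target)
    (fun _ ih x lam => Nat.rec (motive := fun _ => Bool) false
      (fun x' _ => Nat.rec (motive := fun _ => Bool) false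
        (fun l' _ => band true (ih (Nat.succ (Nat.succ x')) (Nat.add (Nat.succ l') (f (Nat.succ x')))))
        lam) x) k


theorem adv_ok : advG linc 1026 8030734924098540524 2048 7624618986159398399 = true := by
  decide +kernel

theorem cl_ok0 : (grp 85 1101228501 1189813499
    (grp 92 1071832001 1151499999
    (grp 96 1033500001 1106877999
    (grp 98 988896501 1058999999
    (grp 101 941000001 1011103499
    (grp 104 893122001 966499999
    (grp 64 848500001 928167999
    (fun _ _ l => Nat.beq l 8219864741912650120))))))))
    (elems (dropB 384 tab)) 3074 8030734924098540524 = true := by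
  decide +kernel

theorem cl_ok1 : (grp 43 848500001 928167999
    (grp 110 810186501 898771499
    (grp 113 780790001 880289999
    (grp 116 762308501 873999999
    (grp 121 762308501 873999999
    (grp 123 780790001 880289999
    (grp 14 810186501 898771499
    (fun _ _ l => Nat.beq l 8378850241794491447))))))))
    (elems (dropB 464 tab)) 3714 8219864741912650120 = true := by
  decide +kernel

theorem cl_ok2 : (grp 113 810186501 898771499
    (grp 131 848500001 928167999
    (grp 135 893122001 966499999
    (grp 138 941000001 1011103499
    (grp 123 988896501 1058999999
    (fun _ _ l => Nat.beq l 8515992470839716921))))))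
    (elems (dropB 544 tab)) 4354 8378850241794491447 = true := by
  decide +kernel

theorem cl_ok3 : (grp 20 988896501 1058999999
    (grp 147 1033500001 1106877999
    (grp 151 1071832001 1151499999
    (grp 156 1101228501 1189813499
    (grp 160 1119710001 1219209999
    (grp 6 1126000001 1237691499
    (fun _ _ l => Nat.beq l 8636574948436315970)))))))
    (elems (dropB 624 tab)) 4994 8515992470839716921 = true := by
  decide +kernel

theorem cl_ok4 : (grp 159 1126000001 1237691499
    (grp 170 1126000001 1237691499
    (grp 175 1119710001 1219209999
    (grp 136 1101228501 1189813499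
    (fun _ _ l => Nat.beq l 8744169388750621193)))))
    (elems (dropB 704 tab)) 5634 8636574948436315970 = true := by
  decide +kernel

theorem cl_ok5 : (grp 43 1101228501 1189813499
    (grp 185 1071832001 1151499999
    (grp 191 1033500001 1106877999
    (grp 196 988896501 1058999999
    (grp 25 941000001 1011103499
    (fun _ _ l => Nat.beq l 8841303620481567267))))))
    (elems (dropB 784 tab)) 6274 8744169388750621193 = true := by
  decide +kernel

theorem cl_ok6 : (grp 177 941000001 1011103499
    (grp 208 893122001 966499999
    (grp 214 848500001 928167999
    (grp 41 810186501 898771499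
    (fun _ _ l => Nat.beq l 8929832503272399270)))))
    (elems (dropB 864 tab)) 6914 8841303620481567267 = true := by
  decide +kernel

theorem cl_ok7 : (grp 179 810186501 898771499
    (grp 226 780790001 880289999
    (grp 233 762308501 873999999
    (grp 3 762308501 873999999
    (fun _ _ l => Nat.beq l 9011279491177926839)))))
    (elems (dropB 944 tab)) 7554 8929832503272399270 = true := by
  decide +kernel

end Blk

end Pool.Agent.H95.Gilbert
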