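import Mathlib
import Pool.Agent.H95.Gilbert.CloseK
import Pool.Agent.H95.Gilbert.BlkSound
import Pool.Agent.H95.Gilbert.Fun

/-! Soundness of the logarithm table. -/

namespace Pool.Agent.H95.Gilbert

open Blk

theorem sum64 : (693147180559945309 : ℚ) / 10 ^ 18 ≤ ∑ i ∈ Finset.range 64, (1 / 2 : ℚ) ^ (i + 1) / (i + 1) ∧
    ∑ i ∈ Finset.range 64, (1 / 2 : ℚ) ^ (i + 1) / (i + 1) ≤ 6931471805599453095 / 10 ^ 19 := by
  simp only [Finset.sum_range_succ, Finset.sum_range_zero]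
  norm_num

theorem ell_bd : |10 ^ 18 * ell - 693147180559945309| ≤ 1 := by
  have h1 := Real.abs_log_sub_add_sum_range_le (x := 1 / 2) (by norm_num [abs_of_pos]) 64
  have h2 : Real.log (1 - 1 / 2) = - ell := by
    unfold ell
    rw [← Real.log_inv]
    norm_num
  rw [h2] at h1
  obtain ⟨s1, s2⟩ := sum64
  have e : ((∑ i ∈ Finset.range 64, (1 / 2 : ℚ) ^ (i + 1) / (i + 1) : ℚ) : ℝ) =
      ∑ i ∈ Finset.range 64, (1 / 2 : ℝ) ^ (i + 1) / (i + 1) := by
    push_cast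
    rfl
  have s1' : ((693147180559945309 / 10 ^ 18 : ℚ) : ℝ) ≤ _ := Rat.cast_le.mpr s1
  have s2' : _ ≤ ((6931471805599453095 / 10 ^ 19 : ℚ) : ℝ) := Rat.cast_le.mpr s2
  rw [e] at s1' s2'
  push_cast at s1' s2'
  have h3 : |(1 / 2 : ℝ)| ^ (64 + 1) / (1 - |(1 / 2 : ℝ)|) ≤ 1 / 10 ^ 19 := by
    rw [abs_of_pos (by norm_num)]
    norm_num
  have h4 := abs_le.mp (h1.trans h3)
  rw [abs_le]
  constructor <;> linarith

theorem linc_eq (x : ℕ) : linc x =
    2000000000000000000 * (3 * ((2 * x + 1) * (2 * x + 1)) + 1) /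
      (3 * ((2 * x + 1) * ((2 * x + 1) * (2 * x + 1)))) := rfl

theorem nat_div_bd (N D : ℕ) (hD : 0 < D) :
    ((N / D : ℕ) : ℝ) ≤ (N : ℝ) / D ∧ (N : ℝ) / D ≤ ((N / D : ℕ) : ℝ) + 1 := by
  have hD' : (0 : ℝ) < D := by exact_mod_cast hD
  constructor
  · exact Nat.cast_div_le
  · rw [div_le_iff₀ hD']
    have := Nat.lt_div_mul_add (a := N) hD
    have h5 : (N : ℝ) < ((N / D : ℕ) : ℝ) * D + D := by exact_mod_cast this
    linarith

theorem linc_sound {x : ℕ} (hx : 2048 ≤ x) :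
    |10 ^ 18 * (Real.log ((x : ℝ) + 1) - Real.log x) - (linc x : ℝ)| ≤ 3 := by
  have hx' : (2048 : ℝ) ≤ x := by exact_mod_cast hx
  set a : ℝ := 2 * (x : ℝ) + 1 with ha
  have ha0 : 4097 ≤ a := by rw [ha]; linarith
  set u : ℝ := 1 / a with hu
  have hu0 : 0 < u := by rw [hu]; positivity
  have hu1 : u ≤ 1 / 4097 := by rw [hu]; exact one_div_le_one_div_of_le (by norm_num) ha0
  have h1 := Real.abs_log_sub_add_sum_range_le (x := u) (by rw [abs_of_pos hu0]; linarith) 4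
  have h2 := Real.abs_log_sub_add_sum_range_le (x := -u) (by rw [abs_neg, abs_of_pos hu0]; linarith) 4
  have e1 : Real.log ((x : ℝ) + 1) - Real.log x = Real.log (1 - -u) - Real.log (1 - u) := by
    rw [← Real.log_div (by linarith) (by linarith), ← Real.log_div (by linarith) (by linarith)]
    congr 1
    rw [hu, ha]
    field_simp
    ring
  rw [abs_neg, abs_of_pos hu0] at h2
  rw [abs_of_pos hu0] at h1
  have h3 : u ^ (4 + 1) / (1 - u) ≤ 87 / 10 ^ 20 := by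
    rw [div_le_iff₀ (by linarith)]
    have : u ^ (4 + 1) ≤ (1 / 4097) ^ 5 := pow_le_pow_left₀ hu0.le hu1 5
    norm_num at this ⊢
    linarith
  have h1' := abs_le.mp (h1.trans h3)
  have h2' := abs_le.mp (h2.trans h3)
  simp only [Finset.sum_range_succ, Finset.sum_range_zero] at h1' h2'
  norm_num at h1' h2'
  set A := Real.log (1 - u)
  set B := Real.log (1 + u)
  have e2 : Real.log (1 - -u) = B := by rw [sub_neg_eq_add]
  rw [e1, e2]
  -- the floor
  have h4 : (linc x : ℝ) ≤ 10 ^ 18 * (2 * u + 2 * u ^ 3 / 3) ∧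
      10 ^ 18 * (2 * u + 2 * u ^ 3 / 3) ≤ (linc x : ℝ) + 1 := by
    have e3 : 10 ^ 18 * (2 * u + 2 * u ^ 3 / 3) =
        ((2000000000000000000 * (3 * ((2 * x + 1) * (2 * x + 1)) + 1) : ℕ) : ℝ) /
        ((3 * ((2 * x + 1) * ((2 * x + 1) * (2 * x + 1))) : ℕ) : ℝ) := by
      rw [hu, ha]
      push_cast
      field_simp
      ring
    rw [e3, linc_eq]
    exact nat_div_bd _ _ (by positivity)
  rw [abs_le]
  constructor
  · nlinarith
  · nlinarith

end Pool.Agent.H95.Gilbert
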