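import Mathlib
import Pool.Agent.H95.Gilbert.LogS
import Pool.Agent.H95.Gilbert.Der

/-! Soundness of the comparison of the table with the asymptotic formula. -/

namespace Pool.Agent.H95.Gilbert

open Blk

/-- `lam` is `10 ^ 18 * log x` up to a small error -/
structure LV (x lam : ℕ) : Prop where
  x1 : 2048 ≤ x
  e : |10 ^ 18 * Real.log x - (lam : ℝ)| ≤ 3 * ((x : ℝ) - 2048) + 11

theorem LV.next {x lam : ℕ} (h : LV x lam) : LV (x + 1) (lam + linc x) := by
  refine ⟨by have := h.x1; omega, ?_⟩
  have h1 := linc_sound h.x1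
  have h2 := h.e
  rw [abs_le] at h1 h2 ⊢
  push_cast
  constructor <;> linarith

theorem LV.start : LV 2048 7624618986159398399 := by
  refine ⟨le_refl _, ?_⟩
  have h1 : Real.log ((2048 : ℕ) : ℝ) = 11 * ell := by
    unfold ell
    rw [show ((2048 : ℕ) : ℝ) = 2 ^ 11 by norm_num, Real.log_pow]
    norm_num
  have h2 := ell_bd
  rw [h1]
  rw [abs_le] at h2 ⊢
  norm_num
  constructor <;> linarith

theorem advG_succ (f : ℕ → ℕ) (k target x' l' : ℕ) : advG f (k + 1) target (x' + 1) (l' + 1) =
    advG f k target (x' + 1 + 1) (l' + 1 + f (x' + 1)) := rfl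

theorem adv_sound : ∀ (k : ℕ) {target x lam : ℕ}, LV x lam → advG linc k target x lam = true →
    LV (x + k) target := by
  have hnext := @LV.next
  generalize linc = f at hnext
  intro k
  induction k with
  | zero =>
    intro target x lam h1 h2
    have h3 : lam = target := Nat.eq_of_beq_eq_true h2
    rw [← h3]
    exact h1
  | succ k ih =>
    intro target x lam h1 h2
    cases x with
    | zero => exact Bool.noConfusion h2
    | succ x' =>
      cases lam with
      | zero => exact Bool.noConfusion h2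
      | succ l' =>
        rw [advG_succ] at h2
        have := ih (hnext h1) h2
        rwa [show x' + 1 + 1 + k = x' + 1 + (k + 1) by omega] at this

/-- the check at `n`, i.e. at `x = n + 1` -/
def Ck (v : ℕ → ℕ) (clo chi n : ℕ) : Prop :=
  ∃ lam, LV (n + 1) lam ∧ lchk (n + 1) lam (v n) clo chi = true

theorem band_true {a b : Bool} (h : band a b = true) : a = true ∧ b = true := by
  cases a with
  | false => exact Bool.noConfusion h
  | true => exact ⟨rfl, h⟩

theorem grpG_succ (f : ℕ → ℕ) (g : ℕ → ℕ → ℕ → ℕ → ℕ → Bool) (k clo chi : ℕ)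
    (cont : List ℕ → ℕ → ℕ → Bool) (a : ℕ) (t : List ℕ) (x' l' : ℕ) :
    grpG f g (k + 1) clo chi cont (a :: t) (x' + 1) (l' + 1) =
      band (g (x' + 1) (l' + 1) a clo chi)
        (grpG f g k clo chi cont t (x' + 1 + 1) (l' + 1 + f (x' + 1))) := rfl

theorem grp_sound {v : ℕ → ℕ} {clo chi : ℕ} {cont : List ℕ → ℕ → ℕ → Bool} : ∀ (k : ℕ)
    {l : List ℕ} {n lam : ℕ}, LAsc v n l → LV (n + 1) lam →
    grp k clo chi cont l (n + 1) lam = true →
    (∀ i, n ≤ i → i < n + k → Ck v clo chi i) ∧
    ∃ l' lam', LAsc v (n + k) l' ∧ LV (n + k + 1) lam' ∧ cont l' (n + k + 1) lam' = true := by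
  have hnext := @LV.next
  unfold grp Ck
  generalize linc = f at hnext
  generalize lchk = g
  intro k
  induction k with
  | zero =>
    intro l n lam h1 h2 h3
    exact ⟨fun i _ _ => by omega, l, lam, h1, h2, h3⟩
  | succ k ih =>
    intro l n lam h1 h2 h3
    cases l with
    | nil => exact Bool.noConfusion h3
    | cons a t =>
      cases lam with
      | zero => exact Bool.noConfusion h3
      | succ l' =>
        rw [grpG_succ] at h3
        obtain ⟨h5, h6⟩ := band_true h3
        obtain ⟨h7, h8⟩ := ih h1.2 (hnext h2) h6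
        rw [h1.1] at h5
        refine ⟨fun i hi1 hi2 => ?_, ?_⟩
        · rcases Nat.eq_or_lt_of_le hi1 with h | h
          · subst h; exact ⟨_, h2, h5⟩
          · exact h7 i (by omega) (by omega)
        · rwa [show n + 1 + k = n + (k + 1) by omega] at h8

/-- the approximation to `U` as a function of `x`, `L` and `log 2` -/
noncomputable def Ux (x L l : ℝ) : ℝ := L + (L + l) / 2 / x +
  (-1/12 * L ^ 2 + (5/12 - 2/9 * l) * L + (11/36 * l - 11/108 * l ^ 2)) / x ^ 2 +
  ((-5/24 + 5/126 * l) * L ^ 2 + (11/24 - 43/84 * l + 149/2646 * l ^ 2) * L +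
    (131/504 * l - 2153/10584 * l ^ 2 + 127/9261 * l ^ 3)) / x ^ 3

theorem U_eq_Ux (x : ℝ) : U x = Ux x (Lx x) ell := rfl

theorem uPM {x : ℕ} (hx : 0 < x) (Li : ℕ) : (uP x Li : ℝ) - (uM x Li : ℝ) =
    (uY x : ℝ) * 10 ^ 18 * Ux x ((Li : ℝ) / 10 ^ 18) (693147180559945309 / 10 ^ 18) := by
  have hx' : (0 : ℝ) < x := by exact_mod_cast hx
  have e1 : (uP x Li : ℝ) = (Li : ℝ) * (((((x : ℝ) * 74088000000000000000000000000000000000000 + 37044000000000000000000000000000000000000) * x) + 30870000000000000000000000000000000000000) * x + (35961449974066736341298039666404652066732 + 2037852710846239208460 * Li)) +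
      (x * ((x : ℝ) * 25676944156662614026596000000000000000000000000000000000000 + 15691465873516041905142000000000000000000000000000000000000) + 13686288302463619166196351848506933022687497151314620847064) := by
    have : uP x Li = Li * (x * (x * (x * 74088000000000000000000000000000000000000 + 37044000000000000000000000000000000000000) + 30870000000000000000000000000000000000000) + (35961449974066736341298039666404652066732 + 2037852710846239208460 * Li)) +
      (x * (x * 25676944156662614026596000000000000000000000000000000000000 + 15691465873516041905142000000000000000000000000000000000000) + 13686288302463619166196351848506933022687497151314620847064) := rfl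
    rw [this]
    push_cast
    ring
  have e2 : (uM x Li : ℝ) = (Li : ℝ) * ((Li : ℝ) * (x * 6174000000000000000000 + 15435000000000000000000) + (x * 11411975180738939567376000000000000000000 + 26288299969916485789134000000000000000000)) +
      (x * 3625498443026747946173299933530561959626000000000000000000 + 7240907372761213662440737251290630704151000000000000000000) := by
    have : uM x Li = Li * (Li * (x * 6174000000000000000000 + 15435000000000000000000) + (x * 11411975180738939567376000000000000000000 + 26288299969916485789134000000000000000000)) + (x * 3625498443026747946173299933530561959626000000000000000000 + 7240907372761213662440737251290630704151000000000000000000) := rfl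
    rw [this]
    push_cast
    ring
  have e3 : (uY x : ℝ) = 74088000000000000000000000000000000000000 * x ^ 3 := by
    have : uY x = 74088000000000000000000000000000000000000 * (x * (x * x)) := rfl
    rw [this]
    push_cast
    ring
  rw [e1, e2, e3]
  unfold Ux
  field_simp
  ring

theorem lchk_real {x lam a clo chi : ℕ} (hx : 0 < x) (h : lchk x lam a clo chi = true) :
    ((clo : ℝ) - 10 ^ 9) / 10 ^ 18 ≤ 693147180559945309 / 10 ^ 18 * ((a : ℝ) / 2 ^ 56) -
      Ux x (((lam - 337968246891600000 : ℕ) : ℝ) / 10 ^ 18) (693147180559945309 / 10 ^ 18) ∧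
    693147180559945309 / 10 ^ 18 * ((a : ℝ) / 2 ^ 56) -
      Ux x (((lam - 337968246891600000 : ℕ) : ℝ) / 10 ^ 18) (693147180559945309 / 10 ^ 18) ≤
      ((chi : ℝ) - 10 ^ 9) / 10 ^ 18 := by
  obtain ⟨h1, h2⟩ := band_true h
  generalize hLi : Nat.sub lam 337968246891600000 = Li at h1 h2
  have hLi' : lam - 337968246891600000 = Li := hLi
  rw [hLi']
  have h3 : uL x Li a ≤ uR x Li chi := Nat.le_of_ble_eq_true h1
  have h4 : uR x Li clo ≤ uL x Li a := Nat.le_of_ble_eq_true h2
  have k := uPM hx Li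
  have hY : (0 : ℝ) < (uY x : ℝ) := by
    have : uY x = 74088000000000000000000000000000000000000 * (x * (x * x)) := rfl
    rw [this]
    have hx' : (0 : ℝ) < x := by exact_mod_cast hx
    push_cast
    positivity
  have eL : uL x Li a = uY x * (693147180559945309 * a + 72057594037927936000000000) +
    72057594037927936 * uM x Li := rfl
  have eR : ∀ c, uR x Li c = 72057594037927936 * uP x Li + uY x * (72057594037927936 * c) :=
    fun c => rfl
  rw [eL, eR] at h3
  rw [eL, eR] at h4
  have h3' : ((uY x * (693147180559945309 * a + 72057594037927936000000000) +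
    72057594037927936 * uM x Li : ℕ) : ℝ) ≤
    ((72057594037927936 * uP x Li + uY x * (72057594037927936 * chi) : ℕ) : ℝ) :=
    Nat.cast_le.mpr h3
  have h4' : ((72057594037927936 * uP x Li + uY x * (72057594037927936 * clo) : ℕ) : ℝ) ≤
    ((uY x * (693147180559945309 * a + 72057594037927936000000000) +
    72057594037927936 * uM x Li : ℕ) : ℝ) := Nat.cast_le.mpr h4
  push_cast at h3' h4'
  generalize (uP x Li : ℝ) = P at *
  generalize (uM x Li : ℝ) = M at *
  generalize (uY x : ℝ) = Y at *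
  generalize Ux (x : ℝ) ((Li : ℝ) / 10 ^ 18) (693147180559945309 / 10 ^ 18) = W at *
  have kP : P = M + Y * 10 ^ 18 * W := by linarith
  rw [kP] at h3' h4'
  have hSS : (2 : ℝ) ^ 56 = 72057594037927936 := by norm_num
  rw [hSS]
  constructor
  · rw [div_le_iff₀ (by positivity)]
    have : Y * 72057594037927936 * ((clo : ℝ) - 10 ^ 9) ≤
        Y * 72057594037927936 * ((693147180559945309 / 10 ^ 18 * ((a : ℝ) / 72057594037927936) - W) *
          10 ^ 18) := by
      have e : Y * 72057594037927936 * ((693147180559945309 / 10 ^ 18 *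
          ((a : ℝ) / 72057594037927936) - W) * 10 ^ 18) =
          Y * (693147180559945309 * a) - 72057594037927936 * (Y * 10 ^ 18 * W) := by
        field_simp
      rw [e]
      linarith
    exact le_of_mul_le_mul_left this (by positivity)
  · rw [le_div_iff₀ (by positivity)]
    have : Y * 72057594037927936 * ((693147180559945309 / 10 ^ 18 * ((a : ℝ) / 72057594037927936) - W) *
          10 ^ 18) ≤ Y * 72057594037927936 * ((chi : ℝ) - 10 ^ 9) := by
      have e : Y * 72057594037927936 * ((693147180559945309 / 10 ^ 18 *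
          ((a : ℝ) / 72057594037927936) - W) * 10 ^ 18) =
          Y * (693147180559945309 * a) - 72057594037927936 * (Y * 10 ^ 18 * W) := by
        field_simp
      rw [e]
      linarith
    exact le_of_mul_le_mul_left this (by positivity)

theorem lip2 {L L' l l' d : ℝ} (h1 : 7 ≤ L) (h2 : L ≤ 10) (h3 : 7 ≤ L')
    (h4 : L' ≤ 10) (h5 : 0 ≤ l) (h6 : l ≤ 1) (h7 : 0 ≤ l') (h8 : l' ≤ 1) (hL : |L - L'| ≤ d)
    (hl : |l - l'| ≤ d) : |(L - L') * (-(L + L') / 12 + 5/12 - 2/9 * l) +
    (l - l') * (-2/9 * L' + 11/36 - 11/108 * (l + l'))| ≤ 10 * d := by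
  have hd : 0 ≤ d := (abs_nonneg _).trans hL
  refine (abs_add_le _ _).trans ?_
  rw [abs_mul, abs_mul]
  have c1 : |-(L + L') / 12 + 5/12 - 2/9 * l| ≤ 5 := by
    rw [abs_le]; constructor <;> linarith
  have c2 : |-2/9 * L' + 11/36 - 11/108 * (l + l')| ≤ 5 := by
    rw [abs_le]; constructor <;> linarith
  have := mul_le_mul hL c1 (abs_nonneg _) hd
  have := mul_le_mul hl c2 (abs_nonneg _) hd
  linarith

theorem lip3 {L L' l l' d : ℝ} (h1 : 7 ≤ L) (h2 : L ≤ 10) (h3 : 7 ≤ L')
    (h4 : L' ≤ 10) (h5 : 0 ≤ l) (h6 : l ≤ 1) (h7 : 0 ≤ l') (h8 : l' ≤ 1) (hL : |L - L'| ≤ d)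
    (hl : |l - l'| ≤ d) : |(L - L') * ((-5/24 + 5/126 * l) * (L + L') +
      (11/24 - 43/84 * l + 149/2646 * l ^ 2)) +
    (l - l') * (5/126 * L' ^ 2 + (-43/84 + 149/2646 * (l + l')) * L' + 131/504 -
      2153/10584 * (l + l') + 127/9261 * (l ^ 2 + l * l' + l' ^ 2))| ≤ 30 * d := by
  have hd : 0 ≤ d := (abs_nonneg _).trans hL
  refine (abs_add_le _ _).trans ?_
  rw [abs_mul, abs_mul]
  have l2 : l ^ 2 ≤ 1 := pow_le_one₀ h5 h6
  have l2' : l' ^ 2 ≤ 1 := pow_le_one₀ h7 h8
  have l20 : 0 ≤ l ^ 2 := by positivity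
  have l20' : 0 ≤ l' ^ 2 := by positivity
  have ll : l * l' ≤ 1 := mul_le_one₀ h6 h7 h8
  have ll0 : 0 ≤ l * l' := by positivity
  have L2 : L' ^ 2 ≤ 10 ^ 2 := pow_le_pow_left₀ (by linarith) h4 2
  have L20 : 0 ≤ L' ^ 2 := by positivity
  have c1 : |(-5/24 + 5/126 * l) * (L + L') + (11/24 - 43/84 * l + 149/2646 * l ^ 2)| ≤ 10 := by
    have d1 : 0 ≤ l * (L + L') := by apply mul_nonneg <;> linarith
    have d2 : l * (L + L') ≤ 1 * 20 :=
      mul_le_mul h6 (by linarith) (by linarith) (by norm_num)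
    rw [abs_le]; constructor <;> linarith
  have c2 : |5/126 * L' ^ 2 + (-43/84 + 149/2646 * (l + l')) * L' + 131/504 -
    2153/10584 * (l + l') + 127/9261 * (l ^ 2 + l * l' + l' ^ 2)| ≤ 20 := by
    have d1 : 0 ≤ (l + l') * L' := by apply mul_nonneg <;> linarith
    have d2 : (l + l') * L' ≤ 2 * 10 :=
      mul_le_mul (by linarith) (by linarith) (by linarith) (by norm_num)
    rw [abs_le]; constructor <;> linarith
  have := mul_le_mul hL c1 (abs_nonneg _) hd
  have := mul_le_mul hl c2 (abs_nonneg _) hd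
  linarith

theorem lip4 {x a b q2 q3 d : ℝ} (hx : 3000 ≤ x) (ha : |a| ≤ d) (hb : |b| ≤ d)
    (b2 : |q2| ≤ 10 * d) (b3 : |q3| ≤ 30 * d) :
    |a + (a + b) / 2 / x + q2 / x ^ 2 + q3 / x ^ 3| ≤ 2 * d := by
  have hx0 : 0 < x := by linarith
  have hd : 0 ≤ d := (abs_nonneg _).trans ha
  have f1 : |(a + b) / 2 / x| ≤ d / 3000 := by
    rw [abs_div, abs_div, abs_two, abs_of_pos hx0, div_le_div_iff₀ hx0 (by norm_num)]
    have h1 := abs_add_le a b
    have h2 : |a + b| / 2 ≤ d := by linarith
    calc _ ≤ d * 3000 := mul_le_mul_of_nonneg_right h2 (by norm_num)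
      _ ≤ _ := mul_le_mul_of_nonneg_left hx hd
  have f2 : |q2 / x ^ 2| ≤ d / 3000 := by
    rw [abs_div, abs_of_pos (show 0 < x ^ 2 by positivity), div_le_div_iff₀ (by positivity) (by norm_num)]
    have h1 : 30000 ≤ x ^ 2 := by nlinarith
    calc _ ≤ 10 * d * 3000 := mul_le_mul_of_nonneg_right b2 (by norm_num)
      _ = d * 30000 := by ring
      _ ≤ _ := mul_le_mul_of_nonneg_left h1 hd
  have f3 : |q3 / x ^ 3| ≤ d / 3000 := by
    rw [abs_div, abs_of_pos (show 0 < x ^ 3 by positivity), div_le_div_iff₀ (by positivity) (by norm_num)]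
    have h1 : 90000 ≤ x ^ 3 := by
      have : (3000 : ℝ) ^ 3 ≤ x ^ 3 := pow_le_pow_left₀ (by norm_num) hx 3
      linarith
    calc _ ≤ 30 * d * 3000 := mul_le_mul_of_nonneg_right b3 (by norm_num)
      _ = d * 90000 := by ring
      _ ≤ _ := mul_le_mul_of_nonneg_left h1 hd
  have g1 := abs_add_le (a + (a + b) / 2 / x + q2 / x ^ 2) (q3 / x ^ 3)
  have g2 := abs_add_le (a + (a + b) / 2 / x) (q2 / x ^ 2)
  have g3 := abs_add_le a ((a + b) / 2 / x)
  linarith

/-- Lipschitz bound for `Ux` -/
theorem Ux_lip {x L L' l l' d : ℝ} (hx : 3000 ≤ x) (h1 : 7 ≤ L) (h2 : L ≤ 10) (h3 : 7 ≤ L')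
    (h4 : L' ≤ 10) (h5 : 0 ≤ l) (h6 : l ≤ 1) (h7 : 0 ≤ l') (h8 : l' ≤ 1) (hL : |L - L'| ≤ d)
    (hl : |l - l'| ≤ d) : |Ux x L l - Ux x L' l'| ≤ 2 * d := by
  have hx0 : 0 < x := by linarith
  have b2 := lip2 h1 h2 h3 h4 h5 h6 h7 h8 hL hl
  have b3 := lip3 h1 h2 h3 h4 h5 h6 h7 h8 hL hl
  have h := lip4 hx hL hl b2 b3
  have e : Ux x L l - Ux x L' l' = (L - L') + ((L - L') + (l - l')) / 2 / x +
      ((L - L') * (-(L + L') / 12 + 5/12 - 2/9 * l) +
      (l - l') * (-2/9 * L' + 11/36 - 11/108 * (l + l'))) / x ^ 2 +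
      ((L - L') * ((-5/24 + 5/126 * l) * (L + L') +
      (11/24 - 43/84 * l + 149/2646 * l ^ 2)) +
    (l - l') * (5/126 * L' ^ 2 + (-43/84 + 149/2646 * (l + l')) * L' + 131/504 -
      2153/10584 * (l + l') + 127/9261 * (l ^ 2 + l * l' + l' ^ 2))) / x ^ 3 := by
    unfold Ux
    field_simp
    ring
  rw [e]
  exact h

end Pool.Agent.H95.Gilbert
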