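import Mathlib
import Pool.Agent.H95.Gilbert.Der

/-! Shape of the barrier functions: growth, concavity, size. -/

namespace Pool.Agent.H95.Gilbert

variable {σ : ℝ}

theorem fb_diff (hσ : |σ| ≤ 1) {a b : ℝ} (ha : 3072 ≤ a) (hab : a ≤ b) :
    9987 / 10000 * (Real.log b - Real.log a) ≤ fb σ b - fb σ a := by
  have hmono : MonotoneOn (fun x => fb σ x - 9987 / 10000 * Real.log x) (Set.Ici 3072) := by
    refine monotoneOn_of_hasDerivWithinAt_nonneg (convex_Ici _)
      (f' := fun x => fb1 σ x - 9987 / 10000 * x⁻¹) ?_ ?_ ?_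
    · intro x hx
      have hx0 : (0:ℝ) < x := lt_of_lt_of_le (by norm_num) hx
      exact ((hasDerivAt_fb σ hx0).continuousAt.sub
        (continuousAt_const.mul (Real.continuousAt_log hx0.ne'))).continuousWithinAt
    · intro x hx
      rw [interior_Ici, Set.mem_Ioi] at hx
      have hx0 : (0:ℝ) < x := by linarith
      exact ((hasDerivAt_fb σ hx0).sub
        ((Real.hasDerivAt_log hx0.ne').const_mul (9987 / 10000))).hasDerivWithinAt
    · intro x hx
      rw [interior_Ici, Set.mem_Ioi] at hx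
      have := fb1_ge hσ hx.le
      rw [div_eq_mul_inv] at this
      linarith
  have := hmono (Set.mem_Ici.mpr ha) (Set.mem_Ici.mpr (ha.trans hab)) hab
  simp only at this
  linarith

theorem fb_mono (hσ : |σ| ≤ 1) {a b : ℝ} (ha : 3072 ≤ a) (hab : a ≤ b) : fb σ a ≤ fb σ b := by
  have h1 := fb_diff hσ ha hab
  have h2 := Real.log_le_log (by linarith) hab
  linarith

theorem fb_strict (hσ : |σ| ≤ 1) {a b : ℝ} (ha : 3072 ≤ a) (hab : a < b) : fb σ a < fb σ b := by
  have h1 := fb_diff hσ ha hab.le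
  have h2 := Real.log_lt_log (by linarith) hab
  linarith

theorem fb_concave (hσ : |σ| ≤ 1) : ConcaveOn ℝ (Set.Ici 3072) (fb σ) := by
  refine concaveOn_of_hasDerivWithinAt2_nonpos (convex_Ici _) (f' := fb1 σ) (f'' := fb2 σ) ?_ ?_ ?_ ?_
  · intro x hx
    have hx0 : (0:ℝ) < x := lt_of_lt_of_le (by norm_num) hx
    exact (hasDerivAt_fb σ hx0).continuousAt.continuousWithinAt
  · intro x hx
    rw [interior_Ici, Set.mem_Ioi] at hx
    exact (hasDerivAt_fb σ (by linarith)).hasDerivWithinAt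
  · intro x hx
    rw [interior_Ici, Set.mem_Ioi] at hx
    exact (hasDerivAt_fb1 σ (by linarith)).hasDerivWithinAt
  · intro x hx
    rw [interior_Ici, Set.mem_Ioi] at hx
    exact fb2_le hσ hx.le

theorem fb_mid (hσ : |σ| ≤ 1) {a b : ℝ} (ha : 3072 ≤ a) (hb : 3072 ≤ b) :
    (fb σ a + fb σ b) / 2 ≤ fb σ ((a + b) / 2) := by
  have := (fb_concave hσ).2 (Set.mem_Ici.mpr ha) (Set.mem_Ici.mpr hb)
    (show (0:ℝ) ≤ 1/2 by norm_num) (show (0:ℝ) ≤ 1/2 by norm_num) (by norm_num)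
  simp only [smul_eq_mul] at this
  rw [show (1/2 : ℝ) * a + 1/2 * b = (a + b) / 2 by ring] at this
  linarith

theorem log_diff_ge {a b : ℝ} (ha : 0 < a) (hab : a ≤ b) :
    2 * (b - a) / (a + b) ≤ Real.log b - Real.log a := by
  have hb : 0 < b := by linarith
  set t := (b - a) / (a + b) with ht
  have ht0 : 0 ≤ t := by rw [ht]; apply div_nonneg <;> linarith
  have ht1 : t < 1 := by rw [ht, div_lt_one (by linarith)]; linarith
  have h1 := Real.hasSum_log_sub_log_of_abs_lt_one (x := t) (by rw [abs_of_nonneg ht0]; exact ht1)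
  have h2 := le_hasSum h1 0 (fun j _ => by positivity)
  have h3 : Real.log (1 + t) - Real.log (1 - t) = Real.log b - Real.log a := by
    rw [← Real.log_div (by linarith) (by linarith), ← Real.log_div hb.ne' ha.ne']
    congr 1
    have e1 : 1 + t = 2 * b / (a + b) := by rw [ht]; field_simp; ring
    have e2 : 1 - t = 2 * a / (a + b) := by rw [ht]; field_simp; ring
    rw [e1, e2]
    field_simp
  rw [h3] at h2
  simp only [Nat.cast_zero, mul_zero, zero_add, pow_one, ne_eq, one_ne_zero, not_false_eq_true,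
    div_self, mul_one] at h2
  calc 2 * (b - a) / (a + b) = 2 * t := by rw [ht]; ring
    _ ≤ _ := h2

theorem fb_diff' (hσ : |σ| ≤ 1) {a b : ℝ} (ha : 3072 ≤ a) (hab : a ≤ b) :
    9987 / 10000 * (2 * (b - a) / (a + b)) ≤ fb σ b - fb σ a := by
  have h1 := fb_diff hσ ha hab
  have h2 := log_diff_ge (show 0 < a by linarith) hab
  nlinarith

theorem EE_lt : EE ≤ 1 / 10 ^ 9 ∧ 0 ≤ EE := by
  unfold EE eps; norm_num

theorem Dd_bd {x : ℝ} (hx : 3072 ≤ x) : 0 ≤ Dd x ∧ Dd x ≤ 1 / 10 ^ 9 := by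
  have hL1 := Lx_ge (show 2048 ≤ x by linarith)
  have hL2 := Lx_div_le hx
  norm_num at hL1 hL2
  have hx0 : 0 < x := by linarith
  have hL0 : 0 ≤ Lx x := by linarith
  unfold Dd kap
  refine ⟨by positivity, ?_⟩
  rw [div_le_iff₀ hx0]
  linarith

theorem eta_bd (x : ℝ) : |eta x| ≤ eps := by
  unfold eta
  rw [neg_mul, abs_neg, abs_mul]
  have h1 := Real.abs_cos_le_one (omg * Real.log x)
  have h2 : |eps| = eps := abs_of_nonneg (by unfold eps; norm_num)
  rw [h2]
  have h3 : 0 ≤ eps := by unfold eps; norm_num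
  nlinarith

theorem fb_U (hσ : |σ| ≤ 1) {x : ℝ} (hx : 3072 ≤ x) : |fb σ x - U x| ≤ 3 / 10 ^ 9 := by
  obtain ⟨h1, h2⟩ := EE_lt
  obtain ⟨h3, h4⟩ := Dd_bd hx
  have h5 := eta_bd x
  have h6 : eps ≤ 1 / 10 ^ 9 := by unfold eps; norm_num
  have h7 : |σ * (EE - Dd x)| ≤ 1 / 10 ^ 9 := by
    rw [abs_mul]
    have : |EE - Dd x| ≤ 1 / 10 ^ 9 := by rw [abs_le]; constructor <;> linarith
    have := abs_nonneg (EE - Dd x)
    have := abs_nonneg σ
    nlinarith
  have h8 : fb σ x - U x = eta x + σ * (EE - Dd x) := by unfold fb; ring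
  rw [h8]
  refine (abs_add_le _ _).trans ?_
  linarith

theorem A2_bd' {L : ℝ} (hL : 728 / 100 ≤ L) : -(L ^ 2) ≤ A2 L ∧ A2 L ≤ 0 := by
  obtain ⟨c1, c2, c3, c4, -⟩ := coef_bd
  unfold A2
  generalize 5/12 - 2/9 * ell = p at *
  generalize 11/36 * ell - 11/108 * ell ^ 2 = q at *
  norm_num at c1 c2 c3 c4
  have hL2 : 0 ≤ (L - 728 / 100) * L := by
    apply mul_nonneg <;> linarith
  constructor <;> nlinarith

theorem A3_bd' {L : ℝ} (hL : 728 / 100 ≤ L) : -(L ^ 3) ≤ A3 L ∧ A3 L ≤ 0 := by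
  obtain ⟨-, -, -, -, c5, c6, c7, c8, c9, c10⟩ := coef_bd
  unfold A3
  generalize -5/24 + 5/126 * ell = p at *
  generalize 11/24 - 43/84 * ell + 149/2646 * ell ^ 2 = q at *
  generalize 131/504 * ell - 2153/10584 * ell ^ 2 + 127/9261 * ell ^ 3 = r at *
  norm_num at c5 c6 c7 c8 c9 c10
  have hL2 : 0 ≤ (L - 728 / 100) * L := by
    apply mul_nonneg <;> linarith
  have hL3 : 728 / 100 * L ^ 2 ≤ L ^ 3 := by
    have : 0 ≤ (L - 728 / 100) * L ^ 2 := by
      apply mul_nonneg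
      · linarith
      · positivity
    linarith
  have a3 : 0 ≤ (p + 181 / 1000) * L ^ 2 := mul_nonneg (by linarith) (by positivity)
  have a4 : 0 ≤ (-p - 18 / 100) * L ^ 2 := mul_nonneg (by linarith) (by positivity)
  have a5 : 0 ≤ (q - 13 / 100) * L := mul_nonneg (by linarith) (by linarith)
  have a6 : 0 ≤ (131 / 1000 - q) * L := mul_nonneg (by linarith) (by linarith)
  constructor <;> nlinarith

theorem U_bd {x : ℝ} (hx : 3072 ≤ x) : Lx x - 1 / 100 ≤ U x ∧
    U x ≤ Lx x + (Lx x + ell) / 2 / x := by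
  have hL1 := Lx_ge (show 2048 ≤ x by linarith)
  have hL2 := Lx_div_le hx
  norm_num at hL1 hL2
  have hx0 : 0 < x := by linarith
  obtain ⟨a1, a2⟩ := A2_bd' (L := Lx x) (by linarith)
  obtain ⟨a3, a4⟩ := A3_bd' (L := Lx x) (by linarith)
  have hl := ell_gt
  have h1 : A2 (Lx x) / x ^ 2 ≤ 0 := div_nonpos_of_nonpos_of_nonneg a2 (by positivity)
  have h2 : A3 (Lx x) / x ^ 3 ≤ 0 := div_nonpos_of_nonpos_of_nonneg a4 (by positivity)
  have h3 : -(1 / 1000) ≤ A2 (Lx x) / x ^ 2 := by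
    rw [le_div_iff₀ (by positivity)]
    have : (Lx x) ^ 2 ≤ (63 / 25000 * x) ^ 2 := pow_le_pow_left₀ (by linarith) hL2 2
    nlinarith
  have h4 : -(1 / 1000) ≤ A3 (Lx x) / x ^ 3 := by
    rw [le_div_iff₀ (by positivity)]
    have : (Lx x) ^ 3 ≤ (63 / 25000 * x) ^ 3 := pow_le_pow_left₀ (by linarith) hL2 3
    have h5 : 0 < x ^ 3 := by positivity
    nlinarith
  have h5 : 0 ≤ (Lx x + ell) / 2 / x := by
    apply div_nonneg _ hx0.le
    linarith
  unfold U
  constructor <;> linarith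

theorem fb_pos (hσ : |σ| ≤ 1) {x : ℝ} (hx : 3072 ≤ x) : 7 ≤ fb σ x := by
  have h1 := fb_U hσ hx
  have h2 := (U_bd hx).1
  have h3 := Lx_ge (show 2048 ≤ x by linarith)
  norm_num at h3
  rw [abs_le] at h1
  linarith

theorem fb_le (hσ : |σ| ≤ 1) {x : ℝ} (hx : 4096 ≤ x) : fb σ x ≤ 100015 / 100000 * Lx x := by
  have h1 := fb_U hσ (show 3072 ≤ x by linarith)
  have h2 := (U_bd (show 3072 ≤ x by linarith)).2
  have h3 := Lx_ge' hx
  norm_num at h3
  rw [abs_le] at h1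
  have hl := ell_lt
  have h4 : (Lx x + ell) / 2 / x ≤ (Lx x + ell) / 2 / 4096 := by
    apply div_le_div_of_nonneg_left _ (by norm_num) hx
    have := ell_gt
    linarith
  norm_num at hl
  linarith

end Pool.Agent.H95.Gilbert
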