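import Mathlib
import Pool.Agent.H95.Gilbert.Der

/-! Bounds on the weight function `Wf`. -/

namespace Pool.Agent.H95.Gilbert

open TM

noncomputable def a0f (m : ℝ) : ℝ := 1/4 + (3/16) * (1/m) - (1/8) * (1/m) * ell -
  (1/16) * (1/m) * Lx m + (31/192) * (1/m)^2 - (71/288) * (1/m)^2 * ell +
  (17/432) * (1/m)^2 * ell^2 - (25/192) * (1/m)^2 * Lx m + (5/144) * (1/m)^2 * Lx m * ell

noncomputable def a1f (m : ℝ) : ℝ := 1/24 + (7/48) * (1/m) - (1/16) * (1/m) * ell -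
  (5/144) * (1/m) * Lx m

noncomputable def hh (m s : ℝ) : ℝ := a0f m * s + a1f m * s^3 + 7/360 * s^5 + 181/15120 * s^7

theorem ev_powP (v : Env) (p : PL) (n : ℕ) : ev v (powP p n) = ev v p ^ n := by
  induction n with
  | zero => simp [powP, cst, Mn.ev, Env.pw]
  | succ n ih => rw [powP, ev_mul, ih, pow_succ]; ring

theorem ev_hP (m t : ℝ) (p : PL) : ev (env m t) (hP p) = hh m (ev (env m t) p) := by
  simp only [hP, ev_add, ev_mul, ev_powP]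
  have h0 : ev (env m t) al0 = a0f m := by
    simp only [al0, ev_cons, ev_nil, Mn.ev, Env.pw, env, a0f]
    push_cast
    ring
  have h1 : ev (env m t) al1 = a1f m := by
    simp only [al1, ev_cons, ev_nil, Mn.ev, Env.pw, env, a1f]
    push_cast
    ring
  have h2 : ev (env m t) al2 = 7/360 := by
    simp only [al2, cst, ev_cons, ev_nil, Mn.ev, Env.pw, env]
    push_cast
    ring
  have h3 : ev (env m t) al3 = 181/15120 := by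
    simp only [al3, cst, ev_cons, ev_nil, Mn.ev, Env.pw, env]
    push_cast
    ring
  rw [h0, h1, h2, h3]
  unfold hh
  ring

theorem Wf_eq (m t : ℝ) : Wf m t = 1 + (hh m t + hh m (t - 1 / m)) := by
  unfold Wf WP
  simp only [ev_add, ev_hP, ev_smul]
  have h1 : ev (env m t) (cst 1) = 1 := by simp [cst, Mn.ev, Env.pw, env]
  have h2 : ev (env m t) tP = t := by simp [tP, Mn.ev, Env.pw, env]
  have h3 : ev (env m t) yP = 1 / m := by simp [yP, Mn.ev, Env.pw, env]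
  rw [h1, h2, h3]
  push_cast
  ring_nf

theorem hh_odd (m s : ℝ) : hh m (-s) = - hh m s := by unfold hh; ring

section
variable {m : ℝ}

theorem y_bd (hm : 4097 ≤ m) : 0 < 1 / m ∧ 1 / m ≤ 1 / 4097 :=
  ⟨by positivity, one_div_le_one_div_of_le (by norm_num) hm⟩

theorem a_bd (hm : 4097 ≤ m) : 0 ≤ a0f m ∧ a0f m ≤ 2501 / 10000 ∧ 0 ≤ a1f m ∧
    a1f m ≤ 418 / 10000 := by
  obtain ⟨y0, y1⟩ := y_bd hm
  have hL1 := Lx_ge' (show 4096 ≤ m by linarith)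
  have hL2 := Lx_div_le (show 3072 ≤ m by linarith)
  norm_num at hL1 hL2
  have hl1 := ell_gt
  have hl2 := ell_lt
  norm_num at hl1 hl2
  have hz : 1 / m * Lx m ≤ 63 / 25000 := by
    rw [one_div, inv_mul_le_iff₀ (by linarith)]; linarith
  have hz0 : 0 ≤ 1 / m * Lx m := mul_nonneg y0.le (by linarith)
  unfold a0f a1f
  generalize 1 / m = y at *
  generalize Lx m = L at *
  generalize ell = l at *
  have hyl : y * l ≤ y := by nlinarith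
  have hyl0 : 0 ≤ y * l := by nlinarith
  have hy2 : y ^ 2 ≤ y * (1 / 4097) := by nlinarith
  have hy20 : 0 ≤ y ^ 2 := by positivity
  have hyyl : y ^ 2 * l ≤ y ^ 2 := by nlinarith
  have hyyl0 : 0 ≤ y ^ 2 * l := by nlinarith
  have hl22 : l ^ 2 ≤ 1 := by nlinarith
  have hyyll : y ^ 2 * l ^ 2 ≤ y ^ 2 := by nlinarith
  have hyyll0 : 0 ≤ y ^ 2 * l ^ 2 := by positivity
  have hyyL : y ^ 2 * L ≤ y * (63 / 25000) := by nlinarith
  have hyyL0 : 0 ≤ y ^ 2 * L := mul_nonneg hy20 (by linarith)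
  have hyyLl : y ^ 2 * L * l ≤ y ^ 2 * L := by nlinarith
  have hyyLl0 : 0 ≤ y ^ 2 * L * l := mul_nonneg hyyL0 (by linarith)
  refine ⟨?_, ?_, ?_, ?_⟩ <;> linarith

theorem W_even (hm : 4097 ≤ m) {t : ℝ} (ht : |t| ≤ 1 / 4) :
    ∃ J : ℝ, 0 ≤ J ∧ J ≤ 2605 / 10000 * (1 / m) ∧ (Wf m t + Wf m (-t)) / 2 = 1 - J := by
  obtain ⟨y0, y1⟩ := y_bd hm
  obtain ⟨b1, b2, b3, b4⟩ := a_bd hm
  have hT : t ^ 2 ≤ 1 / 16 := by
    rw [← sq_abs]; have := abs_nonneg t; nlinarith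
  have hT0 : 0 ≤ t ^ 2 := sq_nonneg t
  refine ⟨(1 / m) * (a0f m + a1f m * ((1 / m) ^ 2 + 3 * t ^ 2) +
    7/360 * ((1 / m) ^ 4 + 10 * (1 / m) ^ 2 * t ^ 2 + 5 * t ^ 4) +
    181/15120 * ((1 / m) ^ 6 + 21 * (1 / m) ^ 4 * t ^ 2 + 35 * (1 / m) ^ 2 * t ^ 4 + 7 * t ^ 6)),
    ?_, ?_, ?_⟩
  · positivity
  · rw [mul_comm (2605 / 10000 : ℝ)]
    refine mul_le_mul_of_nonneg_left ?_ y0.le
    have hy2 : (1 / m) ^ 2 ≤ 1 / 10 ^ 6 := by
      have := pow_le_pow_left₀ y0.le y1 2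
      norm_num at this ⊢
      linarith
    have hy20 : 0 ≤ (1 / m) ^ 2 := by positivity
    rw [show (1 / m) ^ 4 = ((1 / m) ^ 2) ^ 2 by ring, show (1 / m) ^ 6 = ((1 / m) ^ 2) ^ 3 by ring,
      show t ^ 4 = (t ^ 2) ^ 2 by ring, show t ^ 6 = (t ^ 2) ^ 3 by ring]
    generalize (1 / m) ^ 2 = Y at *
    generalize t ^ 2 = T at *
    calc _ ≤ (2501 / 10000 : ℝ) + 418 / 10000 * (1 / 10 ^ 6 + 3 * (1 / 16)) +
          7/360 * ((1 / 10 ^ 6) ^ 2 + 10 * (1 / 10 ^ 6) * (1 / 16) + 5 * (1 / 16) ^ 2) +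
          181/15120 * ((1 / 10 ^ 6) ^ 3 + 21 * (1 / 10 ^ 6) ^ 2 * (1 / 16) +
            35 * (1 / 10 ^ 6) * (1 / 16) ^ 2 + 7 * (1 / 16) ^ 3) := by gcongr
      _ ≤ _ := by norm_num
  · rw [Wf_eq, Wf_eq, show -t - 1 / m = -(t + 1 / m) by ring, hh_odd, hh_odd]
    unfold hh
    ring

theorem W_odd (hm : 4097 ≤ m) {t : ℝ} (ht : |t| ≤ 1 / 4) :
    |(Wf m t - Wf m (-t)) / 2| ≤ 508 / 1000 * |t| := by
  obtain ⟨y0, y1⟩ := y_bd hm
  obtain ⟨b1, b2, b3, b4⟩ := a_bd hm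
  have hT : t ^ 2 ≤ 1 / 16 := by
    rw [← sq_abs]; have := abs_nonneg t; nlinarith
  have hT0 : 0 ≤ t ^ 2 := sq_nonneg t
  have e : (Wf m t - Wf m (-t)) / 2 = (2 * a0f m + a1f m * (2 * t ^ 2 + 3 * (1 / m) ^ 2) +
    7/360 * (2 * t ^ 4 + 10 * t ^ 2 * (1 / m) ^ 2 + 5 * (1 / m) ^ 4) +
    181/15120 * (2 * t ^ 6 + 21 * t ^ 4 * (1 / m) ^ 2 + 35 * t ^ 2 * (1 / m) ^ 4 +
      7 * (1 / m) ^ 6)) * t := by
    rw [Wf_eq, Wf_eq, show -t - 1 / m = -(t + 1 / m) by ring, hh_odd, hh_odd]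
    unfold hh
    ring
  rw [e, abs_mul]
  refine mul_le_mul_of_nonneg_right ?_ (abs_nonneg t)
  rw [abs_of_nonneg (by positivity)]
  have hy2 : (1 / m) ^ 2 ≤ 1 / 10 ^ 6 := by
    have := pow_le_pow_left₀ y0.le y1 2
    norm_num at this ⊢
    linarith
  have hy20 : 0 ≤ (1 / m) ^ 2 := by positivity
  rw [show (1 / m) ^ 4 = ((1 / m) ^ 2) ^ 2 by ring, show (1 / m) ^ 6 = ((1 / m) ^ 2) ^ 3 by ring,
    show t ^ 4 = (t ^ 2) ^ 2 by ring, show t ^ 6 = (t ^ 2) ^ 3 by ring]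
  generalize (1 / m) ^ 2 = Y at *
  generalize t ^ 2 = T at *
  calc _ ≤ (2 : ℝ) * (2501 / 10000) + 418 / 10000 * (2 * (1 / 16) + 3 * (1 / 10 ^ 6)) +
        7/360 * (2 * (1 / 16) ^ 2 + 10 * (1 / 16) * (1 / 10 ^ 6) + 5 * (1 / 10 ^ 6) ^ 2) +
        181/15120 * (2 * (1 / 16) ^ 3 + 21 * (1 / 16) ^ 2 * (1 / 10 ^ 6) +
          35 * (1 / 16) * (1 / 10 ^ 6) ^ 2 + 7 * (1 / 10 ^ 6) ^ 3) := by gcongr
    _ ≤ _ := by norm_num

theorem W_abs (hm : 4097 ≤ m) {t : ℝ} (ht : |t| ≤ 1 / 4) : |Wf m t| ≤ 6 / 5 := by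
  obtain ⟨y0, y1⟩ := y_bd hm
  obtain ⟨J, h1, h2, h3⟩ := W_even hm ht
  have h4 := W_odd hm ht
  have h5 : Wf m t = (1 - J) + (Wf m t - Wf m (-t)) / 2 := by rw [← h3]; ring
  rw [h5]
  refine (abs_add_le _ _).trans ?_
  have h6 : |1 - J| ≤ 1 := by rw [abs_le]; constructor <;> linarith
  linarith

theorem hh_bd (hm : 4097 ≤ m) {s : ℝ} (h0 : 0 ≤ s) (h1 : s ≤ 26 / 100) :
    0 ≤ hh m s ∧ hh m s ≤ 7 / 100 := by
  obtain ⟨b1, b2, b3, b4⟩ := a_bd hm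
  unfold hh
  refine ⟨by positivity, ?_⟩
  calc _ ≤ (2501 / 10000 : ℝ) * (26 / 100) + 418 / 10000 * (26 / 100) ^ 3 + 7/360 * (26 / 100) ^ 5 +
      181/15120 * (26 / 100) ^ 7 := by gcongr
    _ ≤ _ := by norm_num

end

end Pool.Agent.H95.Gilbert
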