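import Mathlib
import Pool.Agent.H95.Gilbert.Shape
import Pool.Agent.H95.Gilbert.WB

/-! Bounds on the oscillating term and on the correction term. -/

namespace Pool.Agent.H95.Gilbert

section
variable {m t : ℝ}

/-- bounds for `log (1 + t)`, `log (1 - t)` -/
theorem log_pm (ht : |t| ≤ 1 / 4) :
    |Real.log (1 + t) + Real.log (1 - t)| ≤ 16 / 15 * t ^ 2 ∧
    |Real.log (1 + t) - Real.log (1 - t)| ≤ 7 / 3 * |t| := by
  have ht' := abs_le.mp ht
  have h1 : 0 < 1 + t := by linarith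
  have h2 : 0 < 1 - t := by linarith
  have hT : t ^ 2 ≤ 1 / 16 := by
    rw [← sq_abs]; have := abs_nonneg t; nlinarith
  constructor
  · rw [← Real.log_mul h1.ne' h2.ne']
    have h3 : (1 + t) * (1 - t) = 1 - t ^ 2 := by ring
    rw [h3]
    have h4 : 0 < 1 - t ^ 2 := by linarith
    have h5 := Real.log_le_sub_one_of_pos h4
    have h6 := Real.one_sub_inv_le_log_of_pos h4
    have h7 : (1 - t ^ 2)⁻¹ ≤ 1 + 16 / 15 * t ^ 2 := by
      rw [inv_le_comm₀ h4 (by positivity), inv_eq_one_div, div_le_iff₀ (by positivity)]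
      nlinarith [sq_nonneg t]
    rw [abs_le]
    constructor
    · linarith
    · have := sq_nonneg t; linarith
  · have h5 := Real.log_le_sub_one_of_pos h1
    have h6 := Real.one_sub_inv_le_log_of_pos h1
    have h7 := Real.log_le_sub_one_of_pos h2
    have h8 := Real.one_sub_inv_le_log_of_pos h2
    rcases le_total 0 t with h | h
    · rw [abs_of_nonneg h] at ht ⊢
      have h9 : (1 - t)⁻¹ ≤ 1 + 4 / 3 * t := by
        rw [inv_le_comm₀ h2 (by positivity), inv_eq_one_div, div_le_iff₀ (by positivity)]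
        nlinarith
      have h10 : (1 + t)⁻¹ ≤ 1 := inv_le_one_of_one_le₀ (by linarith)
      rw [abs_le]
      constructor <;> linarith
    · rw [abs_of_nonpos h] at ht ⊢
      have h9 : (1 + t)⁻¹ ≤ 1 + 4 / 3 * (-t) := by
        rw [inv_le_comm₀ h1 (by linarith), inv_eq_one_div, div_le_iff₀ (by linarith)]
        nlinarith
      have h10 : (1 - t)⁻¹ ≤ 1 := inv_le_one_of_one_le₀ (by linarith)
      rw [abs_le]
      constructor <;> linarith

theorem abs_cos_sub_cos_le (a b : ℝ) : |Real.cos a - Real.cos b| ≤ |a - b| := by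
  rw [Real.cos_sub_cos]
  have h1 : |Real.sin ((a - b) / 2)| ≤ |(a - b) / 2| := Real.abs_sin_le_abs
  have h2 := Real.abs_sin_le_one ((a + b) / 2)
  rw [abs_mul, abs_mul]
  have h3 : |(-2 : ℝ)| = 2 := by norm_num
  rw [h3]
  have h4 := abs_nonneg (Real.sin ((a - b) / 2))
  have h5 := abs_nonneg (Real.sin ((a + b) / 2))
  have h6 : |(a - b) / 2| = |a - b| / 2 := by rw [abs_div, abs_two]
  rw [h6] at h1
  nlinarith

theorem cos_pm (φ a b : ℝ) :
    |(Real.cos (φ + a + b) + Real.cos (φ + a - b)) / 2 - Real.cos φ| ≤ |a| + b ^ 2 / 2 := by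
  have h1 : (Real.cos (φ + a + b) + Real.cos (φ + a - b)) / 2 = Real.cos (φ + a) * Real.cos b := by
    rw [Real.cos_add, Real.cos_sub]; ring
  rw [h1]
  have h2 : Real.cos (φ + a) * Real.cos b - Real.cos φ =
      (Real.cos (φ + a) - Real.cos φ) - Real.cos (φ + a) * (1 - Real.cos b) := by ring
  rw [h2]
  refine (abs_sub _ _).trans (add_le_add ?_ ?_)
  · refine (abs_cos_sub_cos_le _ _).trans ?_
    rw [add_sub_cancel_left]
  · rw [abs_mul]
    have h3 := Real.abs_cos_le_one (φ + a)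
    have h4 := Real.one_sub_sq_div_two_le_cos (x := b)
    have h5 := Real.cos_le_one b
    rw [abs_of_nonneg (show 0 ≤ 1 - Real.cos b by linarith)]
    have h6 := abs_nonneg (Real.cos (φ + a))
    nlinarith

theorem eps_nonneg : 0 ≤ eps := by unfold eps; norm_num

theorem eta_even (hm : 0 < m) (ht : |t| ≤ 1 / 4) :
    |(eta (m * (1 + t)) + eta (m * (1 - t))) / 2 - eta m| ≤ 62 * eps * t ^ 2 := by
  have ht' := abs_le.mp ht
  have h1 : 0 < 1 + t := by linarith
  have h2 : 0 < 1 - t := by linarith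
  obtain ⟨l1, l2⟩ := log_pm ht
  unfold eta
  rw [Real.log_mul hm.ne' h1.ne', Real.log_mul hm.ne' h2.ne']
  set A := Real.log (1 + t)
  set B := Real.log (1 - t)
  have e1 : omg * (Real.log m + A) = omg * Real.log m + omg * ((A + B) / 2) +
      omg * ((A - B) / 2) := by ring
  have e2 : omg * (Real.log m + B) = omg * Real.log m + omg * ((A + B) / 2) -
      omg * ((A - B) / 2) := by ring
  rw [e1, e2]
  have h3 := cos_pm (omg * Real.log m) (omg * ((A + B) / 2)) (omg * ((A - B) / 2))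
  set c1 := Real.cos (omg * Real.log m + omg * ((A + B) / 2) + omg * ((A - B) / 2))
  set c2 := Real.cos (omg * Real.log m + omg * ((A + B) / 2) - omg * ((A - B) / 2))
  set c0 := Real.cos (omg * Real.log m)
  have e3 : (-eps * c1 + -eps * c2) / 2 - -eps * c0 = -(eps * ((c1 + c2) / 2 - c0)) := by ring
  rw [e3, abs_neg, abs_mul, abs_of_nonneg eps_nonneg]
  have ho := omg_lt
  have ho2 := omg_gt
  norm_num at ho ho2
  have h4 : |omg * ((A + B) / 2)| ≤ 91 / 10 * (8 / 15 * t ^ 2) := by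
    rw [abs_mul, abs_of_pos (show 0 < omg by linarith), abs_div, abs_two]
    have := abs_nonneg (A + B)
    refine mul_le_mul (by linarith) (by linarith) (by positivity) (by norm_num)
  have h5 : (omg * ((A - B) / 2)) ^ 2 ≤ (91 / 10 * (7 / 6)) ^ 2 * t ^ 2 := by
    rw [← sq_abs, ← sq_abs t, ← mul_pow]
    refine pow_le_pow_left₀ (abs_nonneg _) ?_ 2
    rw [abs_mul, abs_of_pos (show 0 < omg by linarith), abs_div, abs_two]
    have := abs_nonneg (A - B)
    rw [mul_assoc]
    refine mul_le_mul (by linarith) (by linarith) (by positivity) (by norm_num)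
  have h6 : |(c1 + c2) / 2 - c0| ≤ 62 * t ^ 2 := by
    refine h3.trans ?_
    have := sq_nonneg t
    linarith
  calc _ ≤ eps * (62 * t ^ 2) := mul_le_mul_of_nonneg_left h6 eps_nonneg
    _ = _ := by ring

theorem eta_odd (hm : 0 < m) (ht : |t| ≤ 1 / 4) :
    |(eta (m * (1 + t)) - eta (m * (1 - t))) / 2| ≤ 11 * eps * |t| := by
  have ht' := abs_le.mp ht
  have h1 : 0 < 1 + t := by linarith
  have h2 : 0 < 1 - t := by linarith
  obtain ⟨l1, l2⟩ := log_pm ht
  unfold eta
  rw [Real.log_mul hm.ne' h1.ne', Real.log_mul hm.ne' h2.ne']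
  set A := Real.log (1 + t)
  set B := Real.log (1 - t)
  have h3 := abs_cos_sub_cos_le (omg * (Real.log m + A)) (omg * (Real.log m + B))
  set c1 := Real.cos (omg * (Real.log m + A))
  set c2 := Real.cos (omg * (Real.log m + B))
  have e3 : (-eps * c1 - -eps * c2) / 2 = -(eps * ((c1 - c2) / 2)) := by ring
  rw [e3, abs_neg, abs_mul, abs_of_nonneg eps_nonneg]
  have ho := omg_lt
  have ho2 := omg_gt
  norm_num at ho ho2
  have h4 : |omg * (Real.log m + A) - omg * (Real.log m + B)| ≤ 91 / 10 * (7 / 3 * |t|) := by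
    rw [show omg * (Real.log m + A) - omg * (Real.log m + B) = omg * (A - B) by ring, abs_mul,
      abs_of_pos (show 0 < omg by linarith)]
    exact mul_le_mul (by linarith) l2 (abs_nonneg _) (by norm_num)
  have h5 : |(c1 - c2) / 2| ≤ 11 * |t| := by
    rw [abs_div, abs_two]
    have := abs_nonneg t
    linarith
  calc _ ≤ eps * (11 * |t|) := mul_le_mul_of_nonneg_left h5 eps_nonneg
    _ = _ := by ring

theorem kap_pos : 0 < kap := by unfold kap; norm_num

theorem Dd_even (hm : 4097 ≤ m) (ht : |t| ≤ 1 / 4) :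
    Dd m ≤ (Dd (m * (1 + t)) + Dd (m * (1 - t))) / 2 := by
  have hm0 : 0 < m := by linarith
  have ht' := abs_le.mp ht
  have h1 : 0 < 1 + t := by linarith
  have h2 : 0 < 1 - t := by linarith
  obtain ⟨l1, l2⟩ := log_pm ht
  have hL := Lx_ge' (show 4096 ≤ m by linarith)
  norm_num at hL
  unfold Dd
  rw [Lx_mul hm0 h1, Lx_mul hm0 h2]
  set A := Real.log (1 + t)
  set B := Real.log (1 - t)
  have hk := kap_pos
  have e : (kap * (Lx m + A) / (m * (1 + t)) + kap * (Lx m + B) / (m * (1 - t))) / 2 -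
      kap * Lx m / m = kap * (Lx m * t ^ 2 + ((A + B) - t * (A - B)) / 2) /
        (m * ((1 + t) * (1 - t))) := by
    field_simp
    ring
  have h3 : t * (A - B) ≤ 7 / 3 * t ^ 2 := by
    calc t * (A - B) ≤ |t * (A - B)| := le_abs_self _
      _ = |t| * |A - B| := abs_mul _ _
      _ ≤ |t| * (7 / 3 * |t|) := mul_le_mul_of_nonneg_left l2 (abs_nonneg _)
      _ = 7 / 3 * |t| ^ 2 := by ring
      _ = _ := by rw [sq_abs]
  have h4 := (abs_le.mp l1).1
  have h5 : 79 / 10 * t ^ 2 ≤ Lx m * t ^ 2 := mul_le_mul_of_nonneg_right (by linarith) (sq_nonneg t)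
  have h6 : 0 ≤ Lx m * t ^ 2 + ((A + B) - t * (A - B)) / 2 := by
    have := sq_nonneg t
    linarith
  have h7 : 0 ≤ kap * (Lx m * t ^ 2 + ((A + B) - t * (A - B)) / 2) / (m * ((1 + t) * (1 - t))) := by
    positivity
  linarith

theorem Dd_odd (hm : 4097 ≤ m) (ht : |t| ≤ 1 / 4) :
    |(Dd (m * (1 + t)) - Dd (m * (1 - t))) / 2| ≤ 13 / 10 * Dd m * |t| := by
  have hm0 : 0 < m := by linarith
  have ht' := abs_le.mp ht
  have h1 : 0 < 1 + t := by linarith
  have h2 : 0 < 1 - t := by linarith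
  obtain ⟨l1, l2⟩ := log_pm ht
  have hL := Lx_ge' (show 4096 ≤ m by linarith)
  norm_num at hL
  unfold Dd
  rw [Lx_mul hm0 h1, Lx_mul hm0 h2]
  set A := Real.log (1 + t)
  set B := Real.log (1 - t)
  have hk := kap_pos
  have e : (kap * (Lx m + A) / (m * (1 + t)) - kap * (Lx m + B) / (m * (1 - t))) / 2 =
      kap / m * ((-(Lx m * t) + ((A - B) - t * (A + B)) / 2) / ((1 + t) * (1 - t))) := by
    field_simp
    ring
  have hT : t ^ 2 ≤ 1 / 16 := by
    rw [← sq_abs]; have := abs_nonneg t; nlinarith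
  rw [e, abs_mul, abs_of_pos (by positivity), abs_div, abs_of_pos (show 0 < (1 + t) * (1 - t) by
    positivity)]
  have h3 : |t * (A + B)| ≤ 1 / 15 * |t| := by
    rw [abs_mul]
    have : |A + B| ≤ 1 / 15 := by linarith
    have h := mul_le_mul_of_nonneg_left this (abs_nonneg t)
    linarith
  have h4 : |-(Lx m * t) + ((A - B) - t * (A + B)) / 2| ≤ (Lx m + 37 / 30) * |t| := by
    refine (abs_add_le _ _).trans ?_
    rw [abs_neg, abs_mul, abs_of_pos (show 0 < Lx m by linarith), abs_div, abs_two]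
    have := abs_sub (A - B) (t * (A + B))
    have := abs_nonneg t
    linarith
  have h5 : (Lx m + 37 / 30) * |t| ≤ 116 / 100 * Lx m * |t| :=
    mul_le_mul_of_nonneg_right (by linarith) (abs_nonneg t)
  have h6 : 15 / 16 ≤ (1 + t) * (1 - t) := by nlinarith
  have h7 : |-(Lx m * t) + ((A - B) - t * (A + B)) / 2| / ((1 + t) * (1 - t)) ≤
      13 / 10 * Lx m * |t| := by
    rw [div_le_iff₀ (by positivity)]
    have h8 : 0 ≤ 13 / 10 * Lx m * |t| := by
      have := abs_nonneg t
      have : 0 ≤ Lx m := by linarith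
      positivity
    have h9 := mul_le_mul_of_nonneg_left h6 h8
    have h10 : 0 ≤ Lx m * |t| := mul_nonneg (by linarith) (abs_nonneg _)
    linarith
  calc _ ≤ kap / m * (13 / 10 * Lx m * |t|) := mul_le_mul_of_nonneg_left h7 (by positivity)
    _ = _ := by ring

theorem Dd_le_EE {x : ℝ} (hx : 3072 ≤ x) : 0 ≤ Dd x ∧ Dd x ≤ EE := by
  refine ⟨(Dd_bd hx).1, ?_⟩
  have hL2 := Lx_div_le hx
  norm_num at hL2
  have hx0 : 0 < x := by linarith
  unfold Dd kap EE eps
  rw [div_le_iff₀ hx0]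
  linarith

/-- The part `q = η + σ (E - D)` of the barrier function. -/
noncomputable def qf (σ x : ℝ) : ℝ := eta x + σ * (EE - Dd x)

theorem q_step {σ : ℝ} (hσ : σ = 1 ∨ σ = -1) (hm : 4097 ≤ m) (ht : |t| ≤ 1 / 4) :
    σ * ((qf σ (m * (1 + t)) * Wf m t + qf σ (m * (1 - t)) * Wf m (-t)) / 2 - eta m) ≤
      EE - Dd m + (68 * eps + 7 / 10 * Dd m) * t ^ 2 + 5 / 10 * eps * (1 / m) := by
  have hm0 : 0 < m := by linarith
  have ht' := abs_le.mp ht
  obtain ⟨J, j1, j2, j3⟩ := W_even hm ht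
  have w1 := W_odd hm ht
  have e1 := eta_even hm0 ht
  have e2 := eta_odd hm0 ht
  have d1 := Dd_even hm ht
  have d2 := Dd_odd hm ht
  have x1 : 3072 ≤ m * (1 + t) := by nlinarith
  have x2 : 3072 ≤ m * (1 - t) := by nlinarith
  have p1 := Dd_le_EE x1
  have p2 := Dd_le_EE x2
  have b1 := eta_bd (m * (1 + t))
  have b2 := eta_bd (m * (1 - t))
  have hDm := Dd_bd (show 3072 ≤ m by linarith)
  have hE := EE_lt.2
  have hEE : EE = 85 / 100 * eps := rfl
  have heps := eps_nonneg
  unfold qf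
  set ep := eta (m * (1 + t))
  set em := eta (m * (1 - t))
  set dp := Dd (m * (1 + t))
  set dm := Dd (m * (1 - t))
  set Wp := Wf m t
  set Wm := Wf m (-t)
  set e0 := eta m
  set D0 := Dd m
  have hy0 : 0 < 1 / m := by positivity
  have hsq : σ * σ = 1 := by rcases hσ with h | h <;> rw [h] <;> norm_num
  have hσa : |σ| = 1 := by rcases hσ with h | h <;> rw [h] <;> norm_num
  -- decomposition
  have key : σ * (((ep + σ * (EE - dp)) * Wp + (em + σ * (EE - dm)) * Wm) / 2 - e0) =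
      σ * ((ep + em) / 2 - e0) + (σ * σ) * (EE - (dp + dm) / 2) +
      (-(σ * ((ep + em) / 2 + σ * (EE - (dp + dm) / 2))) * J +
      σ * ((ep - em) / 2 - σ * ((dp - dm) / 2)) * ((Wp - Wm) / 2)) := by
    have hW : Wp = (1 - J) + (Wp - Wm) / 2 := by rw [← j3]; ring
    have hW' : Wm = (1 - J) - (Wp - Wm) / 2 := by rw [← j3]; ring
    set Wo := (Wp - Wm) / 2
    rw [hW, hW']
    ring
  rw [key, hsq]
  have t1 : σ * ((ep + em) / 2 - e0) ≤ 62 * eps * t ^ 2 := by
    calc _ ≤ |σ * ((ep + em) / 2 - e0)| := le_abs_self _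
      _ = |(ep + em) / 2 - e0| := by rw [abs_mul, hσa, one_mul]
      _ ≤ _ := e1
  have t2 : -(σ * ((ep + em) / 2 + σ * (EE - (dp + dm) / 2))) * J ≤ 5 / 10 * eps * (1 / m) := by
    have h1 : |(ep + em) / 2 + σ * (EE - (dp + dm) / 2)| ≤ 185 / 100 * eps := by
      refine (abs_add_le _ _).trans ?_
      rw [abs_mul, hσa, one_mul, abs_div, abs_two]
      have h2 := abs_add_le ep em
      have h3 : |EE - (dp + dm) / 2| ≤ EE := by
        rw [abs_le]; constructor <;> linarith
      linarith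
    calc _ ≤ |-(σ * ((ep + em) / 2 + σ * (EE - (dp + dm) / 2))) * J| := le_abs_self _
      _ = |(ep + em) / 2 + σ * (EE - (dp + dm) / 2)| * J := by
          rw [abs_mul, abs_neg, abs_mul, hσa, one_mul, abs_of_nonneg j1]
      _ ≤ 185 / 100 * eps * (2605 / 10000 * (1 / m)) :=
          mul_le_mul h1 j2 j1 (by positivity)
      _ ≤ _ := by
          have : 0 ≤ eps * (1 / m) := by positivity
          linarith
  have t3 : σ * ((ep - em) / 2 - σ * ((dp - dm) / 2)) * ((Wp - Wm) / 2) ≤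
      (11 * eps + 13 / 10 * D0) * (508 / 1000) * t ^ 2 := by
    have h1 : |(ep - em) / 2 - σ * ((dp - dm) / 2)| ≤ (11 * eps + 13 / 10 * D0) * |t| := by
      refine (abs_sub _ _).trans ?_
      rw [abs_mul, hσa, one_mul]
      linarith
    calc _ ≤ |σ * ((ep - em) / 2 - σ * ((dp - dm) / 2)) * ((Wp - Wm) / 2)| := le_abs_self _
      _ = |(ep - em) / 2 - σ * ((dp - dm) / 2)| * |(Wp - Wm) / 2| := by
          rw [abs_mul, abs_mul, hσa, one_mul]
      _ ≤ ((11 * eps + 13 / 10 * D0) * |t|) * (508 / 1000 * |t|) :=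
          mul_le_mul h1 w1 (abs_nonneg _) (by
            have := hDm.1
            positivity)
      _ = (11 * eps + 13 / 10 * D0) * (508 / 1000) * |t| ^ 2 := by ring
      _ = _ := by rw [sq_abs]
  have h5 : 0 ≤ eps * t ^ 2 := by positivity
  have h6 : 0 ≤ D0 * t ^ 2 := mul_nonneg hDm.1 (sq_nonneg t)
  linarith

end

end Pool.Agent.H95.Gilbert
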