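import Mathlib
import Pool.Agent.H95.Gilbert.TMU


namespace Pool.Agent.H95.Gilbert

open TM

theorem main_ok : mainCheck = true := by decide +kernel

end Pool.Agent.H95.Gilbert
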