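import Mathlib
import Pool.Agent.H95.Gilbert.Fun
import Pool.Agent.H95.Gilbert.MainOk

namespace Pool.Agent.H95.Gilbert

open TM

/-- the even moments of the `t i` are bounded by the constants `Mq` -/
def Mom {ι : Type*} (s : Finset ι) (w t : ι → ℝ) (z : ℝ) : Prop :=
  ∀ k : ℕ, k ≤ 6 → ∑ i ∈ s, w i * (t i ^ 2) ^ k ≤ (Mq k : ℝ) * z ^ k

theorem Mq_nonneg (k : ℕ) : (0 : ℝ) ≤ (Mq k : ℝ) := by
  have : (0:ℚ) ≤ Mq k := by
    unfold Mq
    split <;> norm_num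
  exact_mod_cast this

theorem pow_bound {t : ℝ} (ht : |t| ≤ 1 / 4) (a : ℕ) :
    |t| ^ a ≤ ((bif Nat.beq (a % 2) 0 then 1 else 1 / 4 : ℚ) : ℝ) * (1 / 16) ^ (a / 2 - kk a) *
      (t ^ 2) ^ kk a := by
  have h1 : |t| ^ a = (|t| ^ (a % 2)) * ((t ^ 2) ^ (a / 2 - kk a) * (t ^ 2) ^ kk a) := by
    rw [← pow_add, ← sq_abs t, ← pow_mul, ← pow_add]
    congr 1
    unfold kk
    omega
  have h2 : |t| ^ (a % 2) ≤ ((bif Nat.beq (a % 2) 0 then 1 else 1 / 4 : ℚ) : ℝ) := by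
    rcases Nat.mod_two_eq_zero_or_one a with h | h
    · rw [h]; simp
    · rw [h]
      simp only [pow_one]
      have : Nat.beq 1 0 = false := rfl
      rw [this, cond_false]
      push_cast
      exact ht
  have h3 : t ^ 2 ≤ 1 / 16 := by
    rw [← sq_abs]
    have := abs_nonneg t
    nlinarith
  have h4 : (t ^ 2) ^ (a / 2 - kk a) ≤ (1 / 16 : ℝ) ^ (a / 2 - kk a) :=
    pow_le_pow_left₀ (by positivity) h3 _
  rw [h1, mul_assoc]
  refine mul_le_mul h2 ?_ (by positivity) (le_trans (by positivity) h2)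
  exact mul_le_mul_of_nonneg_right h4 (by positivity)

theorem mono_bound {ι : Type*} (s : Finset ι) (w t : ι → ℝ) (hw : ∀ i ∈ s, 0 ≤ w i)
    (ht : ∀ i ∈ s, |t i| ≤ 1 / 4) {z L y l : ℝ} (hz0 : 0 ≤ z) (hz : z ≤ 1948 / 1000000)
    (hL : 79 / 10 ≤ L) (hy : y = z / L) (hl : 0 ≤ l) (hl2 : l ≤ 6932 / 10000)
    (mom : Mom s w t z) (m : Mn) (hok : okM m = true) :
    ∑ i ∈ s, w i * (|(m.c : ℝ)| * (|t i| ^ m.a * y ^ m.b * L ^ m.d * l ^ m.e)) ≤
      (wt m : ℝ) * z ^ 4 := by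
  have hL0 : 0 < L := by linarith
  have hy0 : 0 ≤ y := by rw [hy]; positivity
  unfold okM at hok
  rw [Bool.or_eq_true, Bool.and_eq_true, decide_eq_true_iff] at hok
  rcases hok with hc | ⟨h1, h2⟩
  · rw [hc]; simp only [Rat.cast_zero, abs_zero, zero_mul, mul_zero, Finset.sum_const_zero]
    unfold wt
    rw [hc]; simp
  have h1' : m.d ≤ m.b := Nat.le_of_ble_eq_true h1
  have h2' : 4 ≤ kk m.a + m.b := Nat.le_of_ble_eq_true h2
  set f : ℝ := ((bif Nat.beq (m.a % 2) 0 then 1 else 1 / 4 : ℚ) : ℝ) with hf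
  have hf0 : 0 ≤ f := by
    rw [hf]
    cases Nat.beq (m.a % 2) 0 <;> simp
  -- the factor
  set Q := |(m.c : ℝ)| * (y ^ m.b * L ^ m.d * l ^ m.e) with hQ
  have hQ0 : 0 ≤ Q := by positivity
  have e1 : ∑ i ∈ s, w i * (|(m.c : ℝ)| * (|t i| ^ m.a * y ^ m.b * L ^ m.d * l ^ m.e)) ≤
      Q * (f * (1 / 16) ^ (m.a / 2 - kk m.a) * ((Mq (kk m.a) : ℝ) * z ^ kk m.a)) := by
    calc _ = ∑ i ∈ s, Q * (w i * |t i| ^ m.a) := by
          refine Finset.sum_congr rfl fun i _ => ?_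
          rw [hQ]; ring
      _ ≤ ∑ i ∈ s, Q * (f * (1 / 16) ^ (m.a / 2 - kk m.a) * (w i * (t i ^ 2) ^ kk m.a)) := by
          refine Finset.sum_le_sum fun i hi => mul_le_mul_of_nonneg_left ?_ hQ0
          have := mul_le_mul_of_nonneg_left (pow_bound (ht i hi) m.a) (hw i hi)
          refine this.trans (le_of_eq ?_)
          rw [hf]; ring
      _ = Q * (f * (1 / 16) ^ (m.a / 2 - kk m.a) * ∑ i ∈ s, (w i * (t i ^ 2) ^ kk m.a)) := by
          rw [Finset.mul_sum, Finset.mul_sum]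
      _ ≤ _ := by
          apply mul_le_mul_of_nonneg_left _ hQ0
          apply mul_le_mul_of_nonneg_left _ (by positivity)
          exact mom (kk m.a) (by unfold kk; omega)
  have e2 : y ^ m.b * L ^ m.d ≤ z ^ m.b * (10 / 79) ^ (m.b - m.d) := by
    have : y ^ m.b * L ^ m.d = z ^ m.b * (1 / L) ^ (m.b - m.d) := by
      rw [hy, div_pow, one_div, inv_pow]
      have : L ^ m.b = L ^ m.d * L ^ (m.b - m.d) := by rw [← pow_add]; congr 1; omega
      rw [this]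
      field_simp
    rw [this]
    apply mul_le_mul_of_nonneg_left _ (by positivity)
    apply pow_le_pow_left₀ (by positivity)
    rw [div_le_div_iff₀ hL0 (by norm_num)]
    linarith
  have e3 : l ^ m.e ≤ (6932 / 10000 : ℝ) ^ m.e := pow_le_pow_left₀ hl hl2 _
  have e4 : Q ≤ |(m.c : ℝ)| * (z ^ m.b * (10 / 79) ^ (m.b - m.d) * (6932 / 10000) ^ m.e) := by
    rw [hQ]
    apply mul_le_mul_of_nonneg_left _ (abs_nonneg _)
    exact mul_le_mul e2 e3 (by positivity) (by positivity)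
  have e5 : z ^ kk m.a * z ^ m.b ≤ z ^ 4 * (1948 / 1000000) ^ (kk m.a + m.b - 4) := by
    have : z ^ kk m.a * z ^ m.b = z ^ 4 * z ^ (kk m.a + m.b - 4) := by
      rw [← pow_add, ← pow_add]; congr 1; omega
    rw [this]
    apply mul_le_mul_of_nonneg_left _ (by positivity)
    exact pow_le_pow_left₀ hz0 hz _
  refine e1.trans ?_
  have hMq := Mq_nonneg (kk m.a)
  calc Q * (f * (1 / 16) ^ (m.a / 2 - kk m.a) * ((Mq (kk m.a) : ℝ) * z ^ kk m.a))
      ≤ (|(m.c : ℝ)| * (z ^ m.b * (10 / 79) ^ (m.b - m.d) * (6932 / 10000) ^ m.e)) *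
        (f * (1 / 16) ^ (m.a / 2 - kk m.a) * ((Mq (kk m.a) : ℝ) * z ^ kk m.a)) :=
        mul_le_mul_of_nonneg_right e4 (by positivity)
    _ = (|(m.c : ℝ)| * (f * (Mq (kk m.a) : ℝ) * (1 / 16) ^ (m.a / 2 - kk m.a) *
          (10 / 79) ^ (m.b - m.d) * (6932 / 10000) ^ m.e)) * (z ^ kk m.a * z ^ m.b) := by ring
    _ ≤ (|(m.c : ℝ)| * (f * (Mq (kk m.a) : ℝ) * (1 / 16) ^ (m.a / 2 - kk m.a) *
          (10 / 79) ^ (m.b - m.d) * (6932 / 10000) ^ m.e)) *
          (z ^ 4 * (1948 / 1000000) ^ (kk m.a + m.b - 4)) :=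
        mul_le_mul_of_nonneg_left e5 (by positivity)
    _ = (wt m : ℝ) * z ^ 4 := by
        unfold wt
        rw [hf]
        simp only [TM.z0]
        push_cast
        ring

theorem E_bound {ι : Type*} (s : Finset ι) (w t : ι → ℝ) (hw : ∀ i ∈ s, 0 ≤ w i)
    (ht : ∀ i ∈ s, |t i| ≤ 1 / 4) {z L y l : ℝ} (hz0 : 0 ≤ z) (hz : z ≤ 1948 / 1000000)
    (hL : 79 / 10 ≤ L) (hy : y = z / L) (hl : 0 ≤ l) (hl2 : l ≤ 6932 / 10000)
    (mom : Mom s w t z) (p : PL) (hok : okP p = true) :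
    ∑ i ∈ s, w i * ev ⟨|t i|, y, L, l⟩ (absP p) ≤ (wtP p : ℝ) * z ^ 4 := by
  induction p with
  | nil => simp [absP, wtP]
  | cons m p ih =>
    rw [okP, Bool.and_eq_true] at hok
    have h1 := mono_bound s w t hw ht hz0 hz hL hy hl hl2 mom m hok.1
    have h2 := ih hok.2
    have h3 : absP (m :: p) = ⟨|m.c|, m.a, m.b, m.d, m.e⟩ :: absP p := rfl
    have h4 : ∑ i ∈ s, w i * ev ⟨|t i|, y, L, l⟩ (absP (m :: p)) =
        ∑ i ∈ s, w i * (|(m.c : ℝ)| * (|t i| ^ m.a * y ^ m.b * L ^ m.d * l ^ m.e)) +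
        ∑ i ∈ s, w i * ev ⟨|t i|, y, L, l⟩ (absP p) := by
      rw [← Finset.sum_add_distrib]
      refine Finset.sum_congr rfl fun i _ => ?_
      rw [h3, ev_cons, Mn.ev, Env.pw]
      push_cast
      ring
    rw [h4, wtP]
    push_cast
    linarith

/-- The pointwise estimate. -/
theorem main_pointwise {m t : ℝ} (ht : |t| ≤ 1 / 4) (hm : 0 < m) (hL : 0 ≤ Lx m)
    (hW : |Wf m t| ≤ 6 / 5) (hW' : |Wf m (-t)| ≤ 6 / 5) :
    |(U (m * (1 + t)) * Wf m t + U (m * (1 - t)) * Wf m (-t)) / 2 - Cm m| ≤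
      ev (env m t).abs (absP mainP) + 6 / 5 * ev (env m t).abs (absP UT.e) := by
  have hv := env_nn (t := t) hm hL
  have h1 := UT_holds ht hm hL
  have h2 := UT_holds (t := -t) (by rwa [abs_neg]) hm hL
  have hvabs : (env m (-t)).abs = (env m t).abs := by simp [env, Env.abs]
  unfold Holds at h1 h2
  rw [hvabs] at h2
  rw [show m * (1 + -t) = m * (1 - t) by ring] at h2
  have hneg : env m (-t) = ⟨-(env m t).t, (env m t).y, (env m t).L, (env m t).l⟩ := rfl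
  have h3 : (U (m * (1 + t)) * Wf m t + U (m * (1 - t)) * Wf m (-t)) / 2 - Cm m =
      ev (env m t) mainP + ((U (m * (1 + t)) - ev (env m t) UT.p) * Wf m t +
        (U (m * (1 - t)) - ev (env m (-t)) UT.p) * Wf m (-t)) / 2 := by
    have h4 : ev (env m t) CP = Cm m := by
      simp only [CP, LlP, LP, lP, a1P, a0P, b2P, b1P, b0P, ev_add, ev_mul, ev_smul, ev_cons,
        ev_nil, Mn.ev, Env.pw, env, pow_zero, mul_one, one_mul, pow_one]
      push_cast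
      unfold Cm A2 A3
      field_simp
      ring
    rw [mainP, ev_add, ev_smul, ev_evenP, ev_mul, ev_mul, h4, ← hneg]
    unfold Wf
    push_cast
    ring
  have h5 : ev (env m t).abs UT.e ≤ ev (env m t).abs (absP UT.e) := by
    have hv' : (env m t).abs.Nn := ⟨hv.y, hv.L, hv.l⟩
    have h6 := ev_abs hv' UT.e
    have h7 : (env m t).abs.abs = (env m t).abs := by simp [Env.abs]
    rw [h7] at h6
    exact (le_abs_self _).trans h6
  rw [h3]
  refine (abs_add_le _ _).trans (add_le_add (ev_abs hv _) ?_)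
  have h8 : |(U (m * (1 + t)) - ev (env m t) UT.p) * Wf m t| ≤
      ev (env m t).abs (absP UT.e) * (6 / 5) := by
    rw [abs_mul]
    exact mul_le_mul (h1.trans h5) hW (abs_nonneg _) ((abs_nonneg _).trans (h1.trans h5))
  have h9 : |(U (m * (1 - t)) - ev (env m (-t)) UT.p) * Wf m (-t)| ≤
      ev (env m t).abs (absP UT.e) * (6 / 5) := by
    rw [abs_mul]
    exact mul_le_mul (h2.trans h5) hW' (abs_nonneg _) ((abs_nonneg _).trans (h2.trans h5))
  rw [abs_div, abs_two]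
  have h10 := abs_add_le ((U (m * (1 + t)) - ev (env m t) UT.p) * Wf m t)
    ((U (m * (1 - t)) - ev (env m (-t)) UT.p) * Wf m (-t))
  linarith

theorem main_wt : okP mainP = true ∧ okP UT.e = true ∧
    (wtP mainP : ℝ) + 6 / 5 * (wtP UT.e : ℝ) ≤ 65 / 100 := by
  have h := main_ok
  unfold mainCheck at h
  rw [Bool.and_eq_true, Bool.and_eq_true, decide_eq_true_iff] at h
  refine ⟨h.1.1, h.1.2, ?_⟩
  have h2 := h.2
  have h3 : ((wtP mainP + (6/5) * wtP UT.e : ℚ) : ℝ) ≤ ((65/100 : ℚ) : ℝ) := by exact_mod_cast h2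
  push_cast at h3
  exact h3

/-- The averaged estimate. -/
theorem main_avg {ι : Type*} (s : Finset ι) (w t : ι → ℝ) (hw : ∀ i ∈ s, 0 ≤ w i)
    (ht : ∀ i ∈ s, |t i| ≤ 1 / 4) {m : ℝ} (hm : 0 < m) (hz : Lx m / m ≤ 1948 / 1000000)
    (hL : 79 / 10 ≤ Lx m) (mom : Mom s w t (Lx m / m))
    (hW : ∀ i ∈ s, |Wf m (t i)| ≤ 6 / 5) (hW' : ∀ i ∈ s, |Wf m (-(t i))| ≤ 6 / 5) :
    |∑ i ∈ s, w i * ((U (m * (1 + t i)) * Wf m (t i) + U (m * (1 - t i)) * Wf m (-(t i))) / 2 -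
      Cm m)| ≤ 65 / 100 * (Lx m / m) ^ 4 := by
  obtain ⟨h1, h2, h3⟩ := main_wt
  have hL0 : 0 < Lx m := by linarith
  have hl := ell_gt
  have hl2 := ell_lt
  have e1 := E_bound s w t hw ht (z := Lx m / m) (L := Lx m) (y := 1 / m) (l := ell)
    (by positivity) hz hL (by field_simp) (by linarith) (by linarith) mom mainP h1
  have e2 := E_bound s w t hw ht (z := Lx m / m) (L := Lx m) (y := 1 / m) (l := ell)
    (by positivity) hz hL (by field_simp) (by linarith) (by linarith) mom UT.e h2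
  refine (Finset.abs_sum_le_sum_abs _ _).trans ?_
  have e3 : ∀ i ∈ s, |w i * ((U (m * (1 + t i)) * Wf m (t i) + U (m * (1 - t i)) * Wf m (-(t i))) / 2 -
      Cm m)| ≤ w i * ev ⟨|t i|, 1 / m, Lx m, ell⟩ (absP mainP) +
        6 / 5 * (w i * ev ⟨|t i|, 1 / m, Lx m, ell⟩ (absP UT.e)) := by
    intro i hi
    rw [abs_mul, abs_of_nonneg (hw i hi)]
    have := mul_le_mul_of_nonneg_left
      (main_pointwise (ht i hi) hm hL0.le (hW i hi) (hW' i hi)) (hw i hi)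
    refine this.trans (le_of_eq ?_)
    simp only [env, Env.abs]
    ring
  refine (Finset.sum_le_sum e3).trans ?_
  rw [Finset.sum_add_distrib, ← Finset.mul_sum]
  have hz4 : 0 ≤ (Lx m / m) ^ 4 := by positivity
  calc _ ≤ (wtP mainP : ℝ) * (Lx m / m) ^ 4 + 6 / 5 * ((wtP UT.e : ℝ) * (Lx m / m) ^ 4) := by
        linarith
    _ = ((wtP mainP : ℝ) + 6 / 5 * (wtP UT.e : ℝ)) * (Lx m / m) ^ 4 := by ring
    _ ≤ _ := mul_le_mul_of_nonneg_right h3 hz4

end Pool.Agent.H95.Gilbert
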