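import Mathlib
import Pool.Agent.H95.Gilbert.Window

namespace Pool.Agent.H95.Gilbert

open Finset

variable {V : ℕ → ℝ}

theorem sum_reflect {n lo hi : ℕ} (hn : lo + hi + 1 = n) (f : ℕ → ℝ) :
    ∑ j ∈ Icc lo hi, f (n - 1 - j) = ∑ j ∈ Icc lo hi, f j := by
  refine Finset.sum_nbij' (fun j => n - 1 - j) (fun j => n - 1 - j) ?_ ?_ ?_ ?_ ?_
  · intro j hj; rw [Finset.mem_Icc] at hj ⊢; omega
  · intro j hj; rw [Finset.mem_Icc] at hj ⊢; omega
  · intro j hj; rw [Finset.mem_Icc] at hj; omega
  · intro j hj; rw [Finset.mem_Icc] at hj; omega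
  · intro j _; rfl

/-- Blue's window lemma. -/
theorem blue_window (hV : IsGilbertValue V) {n lo hi : ℕ} (hn : lo + hi + 1 = n) (hlh : lo < hi)
    (v a : ℕ → ℝ) (ha : ∀ j, lo ≤ j → j ≤ hi → 0 < a j)
    (hvpos : ∀ j, lo ≤ j → j ≤ hi → 0 < v j)
    (hv : ∀ j, lo ≤ j → j ≤ hi → v j ≤ V j)
    (hrec : ∀ j, lo ≤ j → j < hi → a (j + 1) * v (j + 1) = a j * v (n - 1 - j))
    (hsym : ∀ j, lo ≤ j → j ≤ hi → a (n - 1 - j) = a j)
    (hmono : ∀ j, lo ≤ j → j < hi → v j < v (j + 1))
    (hconc : ∀ j, lo ≤ j → j + 2 ≤ hi → v (j + 2) - v (j + 1) ≤ v (j + 1) - v j) :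
    ∑ j ∈ Icc lo hi, a j + ∑ j ∈ Icc lo hi, a j * v j - a lo * v lo ≤
      V n * ∑ j ∈ Icc lo hi, a j := by
  have hn1 : 1 ≤ n := by omega
  set A := ∑ j ∈ Icc lo hi, a j with hA
  have hApos : 0 < A := Finset.sum_pos (fun j hj => ha j (Finset.mem_Icc.mp hj).1
    (Finset.mem_Icc.mp hj).2) ⟨lo, Finset.mem_Icc.mpr ⟨le_refl _, hlh.le⟩⟩
  set C := (∑ j ∈ Icc lo hi, a j * v j - a lo * v lo) / A with hC
  have hCA : C * A = ∑ j ∈ Icc lo hi, a j * v j - a lo * v lo := by
    rw [hC]; field_simp
  -- strict monotonicity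
  have hmono' : ∀ i j, lo ≤ i → i < j → j ≤ hi → v i < v j := by
    intro i j h1 h2
    induction j, h2 using Nat.le_induction with
    | base => intro h3; exact hmono i h1 (by omega)
    | succ j hj ih =>
      intro h3
      exact (ih (by omega)).trans (hmono j (by omega) (by omega))
  have hmono'' : ∀ i j, lo ≤ i → i ≤ j → j ≤ hi → v i ≤ v j := by
    intro i j h1 h2 h3
    rcases Nat.lt_or_ge i j with h | h
    · exact (hmono' i j h1 h h3).le
    · rw [le_antisymm h2 h]
  -- the central pair
  obtain ⟨k1, k2, hk12, hk1, hk2, hk3, hk4⟩ : ∃ k1 k2 : ℕ, k1 + k2 = n - 1 ∧ k1 ≤ k2 ∧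
      k2 ≤ k1 + 1 ∧ lo ≤ k1 ∧ k2 ≤ hi := by
    refine ⟨(n - 1) / 2, n - 1 - (n - 1) / 2, by omega, by omega, by omega, by omega, by omega⟩
  set c0 := (v k1 + v k2) / 2 with hc0
  -- upper and lower estimates by the central pair
  have hup : ∀ j, lo ≤ j → j ≤ k1 →
      c0 - v j ≤ ((k1 - j : ℝ) + (k2 - j)) / 2 * (v (j + 1) - v j) := by
    intro j h1 h2
    have e1 := conc_upper hconc h1 h2 (by omega)
    have e2 := conc_upper hconc h1 (show j ≤ k2 by omega) hk4
    rw [hc0]; linarith
  have hlow : ∀ j, lo ≤ j → j ≤ k1 → j + 1 < n - j →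
      ((k1 - j : ℝ) + (k2 - j)) / 2 * (v (n - 1 - j) - v (n - 2 - j)) ≤ v (n - 1 - j) - c0 := by
    intro j h1 h2 h3
    have hB : n - 1 - j = (n - 2 - j) + 1 := by omega
    have e1 := conc_lower hconc hk3 (show k1 ≤ n - 2 - j by omega) (by omega)
    have e2 : ((n - 2 - j : ℕ) + 1 - k2 : ℝ) * (v (n - 2 - j + 1) - v (n - 2 - j)) ≤
        v (n - 2 - j + 1) - v k2 := by
      rcases Nat.lt_or_ge (n - 2 - j) k2 with h | h
      · have : k2 = n - 2 - j + 1 := by omega
        rw [this]; push_cast; simp
      · exact conc_lower hconc (by omega) h (by omega)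
    rw [← hB] at e1 e2
    have hc1 : ((n - 2 - j : ℕ) : ℝ) = n - 2 - j := by
      rw [Nat.cast_sub (by omega), Nat.cast_sub (by omega)]; push_cast; ring
    have hc2 : (k1 : ℝ) + k2 = n - 1 := by
      have : ((k1 + k2 : ℕ) : ℝ) = ((n - 1 : ℕ) : ℝ) := by rw [hk12]
      rw [Nat.cast_sub (by omega)] at this
      push_cast at this
      exact this
    rw [hc1] at e1 e2
    rw [hc0]
    have e3 : ((k1 - j : ℝ) + (k2 - j)) / 2 = (((n:ℝ) - 2 - j + 1 - k1) + ((n:ℝ) - 2 - j + 1 - k2)) / 2 := by
      have : (n:ℝ) = k1 + k2 + 1 := by linarith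
      rw [this]; ring
    rw [e3]
    linarith
  -- averages of symmetric pairs are at most c0
  have hpair : ∀ j, lo ≤ j → j ≤ hi → v j + v (n - 1 - j) ≤ v k1 + v k2 := by
    have hleft : ∀ j, lo ≤ j → j ≤ k1 → v j + v (n - 1 - j) ≤ v k1 + v k2 := by
      intro j h1 h2
      rcases Nat.lt_or_ge j k1 with h | h
      · -- v k1 - v j ≥ (k1 - j) Δ ≥ v (n-1-j) - v k2
        obtain ⟨m, rfl⟩ : ∃ m, k1 = m + 1 := ⟨k1 - 1, by omega⟩
        have e1 := conc_lower hconc h1 (show j ≤ m by omega) (by omega)
        have e2 := conc_upper hconc (show lo ≤ k2 by omega) (show k2 ≤ n - 1 - j by omega) (by omega)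
        have e3 : v (k2 + 1) - v k2 ≤ v (m + 1) - v m :=
          conc_diff hconc (by omega) (by omega) (by omega)
        have hc1 : ((n - 1 - j : ℕ) : ℝ) - k2 = (m : ℝ) + 1 - j := by
          rw [Nat.cast_sub (by omega)]
          have : ((n - 1 : ℕ) : ℝ) = ((m + 1 + k2 : ℕ) : ℝ) := by rw [hk12]
          rw [this]; push_cast; ring
        rw [hc1] at e2
        have hpos : (0:ℝ) ≤ (m : ℝ) + 1 - j := by
          have : (j:ℝ) ≤ m := by exact_mod_cast (show j ≤ m by omega)
          linarith
        have e4 := mul_le_mul_of_nonneg_left e3 hpos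
        linarith
      · have : j = k1 := by omega
        subst this
        rw [show n - 1 - j = k2 by omega]
    intro j h1 h2
    rcases Nat.lt_or_ge k1 j with h | h
    · have := hleft (n - 1 - j) (by omega) (by omega)
      rw [show n - 1 - (n - 1 - j) = j by omega] at this
      linarith
    · exact hleft j h1 h
  have hCle : C ≤ c0 := by
    have e1 : ∑ j ∈ Icc lo hi, a j * v (n - 1 - j) = ∑ j ∈ Icc lo hi, a j * v j := by
      rw [← sum_reflect hn (fun j => a j * v j)]
      refine Finset.sum_congr rfl fun j hj => ?_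
      rw [Finset.mem_Icc] at hj
      rw [hsym j hj.1 hj.2]
    have e2 : 2 * ∑ j ∈ Icc lo hi, a j * v j ≤ A * (v k1 + v k2) := by
      calc 2 * ∑ j ∈ Icc lo hi, a j * v j
          = ∑ j ∈ Icc lo hi, a j * v j + ∑ j ∈ Icc lo hi, a j * v (n - 1 - j) := by rw [e1]; ring
        _ = ∑ j ∈ Icc lo hi, a j * (v j + v (n - 1 - j)) := by
            rw [← Finset.sum_add_distrib]
            exact Finset.sum_congr rfl fun j _ => by ring
        _ ≤ ∑ j ∈ Icc lo hi, a j * (v k1 + v k2) := by
            refine Finset.sum_le_sum fun j hj => ?_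
            rw [Finset.mem_Icc] at hj
            exact mul_le_mul_of_nonneg_left (hpair j hj.1 hj.2) (ha j hj.1 hj.2).le
        _ = A * (v k1 + v k2) := by rw [← Finset.sum_mul]
    have e3 : 0 < a lo * v lo := mul_pos (ha lo (le_refl _) hlh.le) (hvpos lo (le_refl _) hlh.le)
    have e4 : C * A ≤ c0 * A := by rw [hCA, hc0]; linarith
    exact le_of_mul_le_mul_right e4 hApos
  have hc0hi : c0 ≤ v hi := by
    have := hmono'' k1 hi hk3 (by omega) (le_refl _)
    have := hmono'' k2 hi (by omega) hk4 (le_refl _)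
    rw [hc0]; linarith
  -- the star inequality
  have hstar : ∀ j, lo ≤ j → j + 1 ≤ k1 →
      (v (n - 1 - j) - v (n - 2 - j)) * (C - v j) ≤ (v (j + 1) - v j) * (v (n - 1 - j) - C) := by
    intro j h1 h2
    have e1 := hup j h1 (by omega)
    have e2 := hlow j h1 (by omega) (by omega)
    have hdr : 0 < v (n - 1 - j) - v (n - 2 - j) := by
      have := hmono (n - 2 - j) (by omega) (by omega)
      rw [show n - 2 - j + 1 = n - 1 - j by omega] at this
      linarith
    have hdl : 0 < v (j + 1) - v j := by
      have := hmono j h1 (by omega)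
      linarith
    calc (v (n - 1 - j) - v (n - 2 - j)) * (C - v j)
        ≤ (v (n - 1 - j) - v (n - 2 - j)) * (c0 - v j) := by
          apply mul_le_mul_of_nonneg_left _ hdr.le; linarith
      _ ≤ (v (n - 1 - j) - v (n - 2 - j)) *
            (((k1 - j : ℝ) + (k2 - j)) / 2 * (v (j + 1) - v j)) :=
          mul_le_mul_of_nonneg_left e1 hdr.le
      _ = (v (j + 1) - v j) *
            (((k1 - j : ℝ) + (k2 - j)) / 2 * (v (n - 1 - j) - v (n - 2 - j))) := by ring
      _ ≤ (v (j + 1) - v j) * (v (n - 1 - j) - c0) := mul_le_mul_of_nonneg_left e2 hdl.le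
      _ ≤ _ := by apply mul_le_mul_of_nonneg_left _ hdl.le; linarith
  -- definition of F
  set N : ℕ → ℝ := fun j => ∑ i ∈ Ico lo j, a i * (v (n - 1 - i) - C) with hN
  have hNlo : N lo = 0 := by simp [hN]
  have hNs : ∀ j, lo ≤ j → N (j + 1) = N j + a j * (v (n - 1 - j) - C) := by
    intro j hj
    simp only [hN]
    rw [Finset.sum_Ico_succ_top hj]
  have hNend : N (hi + 1) = a lo * v lo := by
    have e0 : N (hi + 1) = ∑ i ∈ Icc lo hi, a i * (v (n - 1 - i) - C) := by
      simp only [hN]; rfl
    rw [e0]
    have e1 : ∑ i ∈ Icc lo hi, a i * (v (n - 1 - i) - C) =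
        ∑ j ∈ Icc lo hi, a j * v (n - 1 - j) - C * A := by
      rw [hA, Finset.mul_sum, ← Finset.sum_sub_distrib]
      exact Finset.sum_congr rfl fun j _ => by ring
    have e2 : ∑ j ∈ Icc lo hi, a j * v (n - 1 - j) = ∑ j ∈ Icc lo hi, a j * v j := by
      rw [← sum_reflect hn (fun j => a j * v j)]
      refine Finset.sum_congr rfl fun j hj => ?_
      rw [Finset.mem_Icc] at hj
      rw [hsym j hj.1 hj.2]
    rw [e1, e2, hCA]; ring
  have hahi : a hi = a lo := by
    have := hsym lo (le_refl _) hlh.le
    rwa [show n - 1 - lo = hi by omega] at this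
  set F : ℕ → ℝ := fun j => if j ≤ lo then 0 else if j ≤ hi then N j / (a j * v j) else 1 with hF
  have hFlo : ∀ j, j ≤ lo → F j = 0 := by intro j hj; simp only [hF]; rw [if_pos hj]
  have hFhi : ∀ j, hi < j → F j = 1 := by
    intro j hj; simp only [hF]; rw [if_neg (by omega), if_neg (by omega)]
  have hFmid : ∀ j, lo ≤ j → j ≤ hi → a j * v j * F j = N j := by
    intro j h1 h2
    rcases Nat.lt_or_ge lo j with h | h
    · simp only [hF]; rw [if_neg (by omega), if_pos h2]
      have := ha j h1 h2
      have := hvpos j h1 h2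
      field_simp
    · have : j = lo := by omega
      subst this
      rw [hFlo j (le_refl _), hNlo, mul_zero]
  -- the recursion
  have hFrec : ∀ j, lo ≤ j → j < hi →
      v (n - 1 - j) * F (j + 1) = v j * F j + (v (n - 1 - j) - C) := by
    intro j h1 h2
    have e1 := hFmid (j + 1) (by omega) (by omega)
    rw [hrec j h1 h2, hNs j h1, ← hFmid j h1 h2.le] at e1
    have hapos := ha j h1 h2.le
    have e2 : a j * (v (n - 1 - j) * F (j + 1)) = a j * (v j * F j + (v (n - 1 - j) - C)) := by
      linarith
    exact mul_left_cancel₀ hapos.ne' e2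
  have hFlast : v hi * F hi = C := by
    have e1 := hFmid hi hlh.le (le_refl _)
    have e2 := hNs hi hlh.le
    rw [hNend, show n - 1 - hi = lo by omega, hahi] at e2
    rw [hahi] at e1
    have hapos := ha lo (le_refl _) hlh.le
    have e3 : a lo * (v hi * F hi) = a lo * C := by linarith
    exact mul_left_cancel₀ hapos.ne' e3
  -- symmetry
  have hsymN : ∀ j, lo ≤ j → j ≤ hi → N j + N (n - j) = a j * v j := by
    intro j h1
    induction j, h1 using Nat.le_induction with
    | base =>
      intro _
      rw [hNlo, show n - lo = hi + 1 by omega, hNend, zero_add]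
    | succ j hj ih =>
      intro h2
      have ih' := ih (by omega)
      rw [hNs j hj]
      have e1 := hNs (n - (j + 1)) (by omega)
      rw [show n - (j + 1) + 1 = n - j by omega, show n - 1 - (n - (j + 1)) = j by omega,
        show n - (j + 1) = n - 1 - j by omega, hsym j hj (by omega)] at e1
      have e2 := hrec j hj (by omega)
      rw [show n - (j + 1) = n - 1 - j by omega]
      linarith
  have hsymF : ∀ j, F j + F (n - j) = 1 := by
    intro j
    rcases Nat.lt_or_ge lo j with h | h
    · rcases Nat.lt_or_ge hi j with h2 | h2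
      · rw [hFhi j h2, hFlo (n - j) (by omega), add_zero]
      · have e1 := hFmid j h.le h2
        have e2 := hFmid (n - j) (by omega) (by omega)
        have e3 := hsymN j h.le h2
        have e4 : a (n - j) * v (n - j) = a j * v j := by
          have e5 := hrec (n - 1 - j) (by omega) (by omega)
          rw [show n - 1 - j + 1 = n - j by omega, show n - 1 - (n - 1 - j) = j by omega,
            hsym j h.le h2] at e5
          exact e5
        rw [e4] at e2
        have hpos : 0 < a j * v j := mul_pos (ha j h.le h2) (hvpos j h.le h2)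
        have e6 : a j * v j * (F j + F (n - j)) = a j * v j * 1 := by
          rw [mul_add, e1, e2, e3, mul_one]
        exact mul_left_cancel₀ hpos.ne' e6
    · rw [hFlo j h, zero_add, hFhi (n - j) (by omega)]
  -- monotonicity on the left half
  have hG : ∀ j, lo ≤ j → j < k1 → (v (n - 1 - j) - v j) * F j ≤ v (n - 1 - j) - C := by
    intro j h1
    induction j, h1 using Nat.le_induction with
    | base =>
      intro _
      rw [hFlo lo (le_refl _), mul_zero, show n - 1 - lo = hi by omega]
      linarith
    | succ j hj ih =>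
      intro h2
      have ih' := ih (by omega)
      have hrec' := hFrec j hj (by omega)
      have hst := hstar j hj (by omega)
      set b := v (n - 1 - j) with hb
      set b' := v (n - 1 - (j + 1)) with hb'
      have hb'' : v (n - 2 - j) = b' := by rw [hb', show n - 1 - (j + 1) = n - 2 - j by omega]
      rw [hb''] at hst
      have hbpos : 0 < b := hvpos _ (by omega) (by omega)
      have hapos : 0 < v j := hvpos _ (by omega) (by omega)
      have hba : 0 < b - v j := by
        have := hmono' j (n - 1 - j) hj (by omega) (by omega)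
        linarith
      have hba' : 0 < b' - v (j + 1) := by
        have := hmono' (j + 1) (n - 1 - (j + 1)) (by omega) (by omega) (by omega)
        linarith
      -- (b - a) F_{j+1} ≤ b - C
      have e1 : (b - v j) * F (j + 1) ≤ b - C := by
        have e2 : b * ((b - v j) * F (j + 1)) ≤ b * (b - C) := by
          have h5 : b * ((b - v j) * F (j + 1)) = (b - v j) * (v j * F j + (b - C)) := by
            rw [← hrec']; ring
          have h6 := mul_le_mul_of_nonneg_left ih' hapos.le
          rw [h5]
          linarith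
        exact le_of_mul_le_mul_left e2 hbpos
      have e3 : (b - v j) * ((b' - v (j + 1)) * F (j + 1)) ≤ (b - v j) * (b' - C) := by
        calc (b - v j) * ((b' - v (j + 1)) * F (j + 1))
            = (b' - v (j + 1)) * ((b - v j) * F (j + 1)) := by ring
          _ ≤ (b' - v (j + 1)) * (b - C) := mul_le_mul_of_nonneg_left e1 hba'.le
          _ ≤ (b - v j) * (b' - C) := by linarith
      exact le_of_mul_le_mul_left e3 hba
  have hmL : ∀ j, j ≤ k1 → F j ≤ F (j + 1) := by
    intro j h1
    rcases Nat.lt_or_ge j lo with h | h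
    · rw [hFlo j h.le, hFlo (j + 1) h]
    · have e1 := hFrec j h (by omega)
      have hbpos : 0 < v (n - 1 - j) := hvpos _ (by omega) (by omega)
      have e2 : v (n - 1 - j) * F j ≤ v (n - 1 - j) * F (j + 1) := by
        rcases Nat.lt_or_ge j k1 with h2 | h2
        · have := hG j h h2
          rw [e1]; linarith
        · have hj : j = k1 := by omega
          rcases Nat.lt_or_ge k1 k2 with h3 | h3
          · -- n even : k2 = k1 + 1, F (k1+1) = 1/2 by symmetry
            have e4 := hsymF (j + 1)
            rw [show n - (j + 1) = j + 1 by omega] at e4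
            have e5 : F (j + 1) = 1 / 2 := by linarith
            have e6 : n - 1 - j = k2 := by omega
            rw [e6] at e1 ⊢
            rw [e5] at e1 ⊢
            -- v k2 / 2 = v k1 F + v k2 - C, C ≤ (v k1 + v k2)/2
            have e7 : v j * F j ≤ v j * (1 / 2) := by
              rw [hj] at e1 ⊢
              rw [hc0] at hCle
              linarith
            have e8 : F j ≤ 1 / 2 := le_of_mul_le_mul_left e7 (hvpos j h (by omega))
            exact mul_le_mul_of_nonneg_left e8 (by rw [← e6]; exact hbpos.le)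
          · have h4 : k1 = k2 := by omega
            have e6 : n - 1 - j = j := by omega
            rw [e6] at e1 ⊢
            have : c0 = v j := by rw [hc0, ← h4, ← hj]; ring
            rw [e1]; linarith
      exact le_of_mul_le_mul_left e2 hbpos
  have hm : ∀ j, j < n → F j ≤ F (j + 1) := by
    intro j h1
    rcases Nat.lt_or_ge k1 j with h | h
    · have e1 := hmL (n - 1 - j) (by omega)
      have e2 := hsymF j
      have e3 := hsymF (j + 1)
      rw [show n - 1 - j + 1 = n - j by omega] at e1
      rw [show n - (j + 1) = n - 1 - j by omega] at e3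
      linarith
    · exact hmL j h
  have hF0 : ∀ j, 0 ≤ F j ∧ F j ≤ 1 := by
    have hmle : ∀ i j, i ≤ j → j ≤ n → F i ≤ F j := by
      intro i j h1
      induction j, h1 using Nat.le_induction with
      | base => intro _; exact le_refl _
      | succ j hj ih => intro h; exact (ih (by omega)).trans (hm j (by omega))
    intro j
    rcases Nat.lt_or_ge n j with h | h
    · rw [hFhi j (by omega)]; norm_num
    · have e1 := hmle 0 j (by omega) h
      have e2 := hmle j n h (le_refl _)
      rw [hFlo 0 (by omega)] at e1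
      rw [hFhi n (by omega)] at e2
      exact ⟨e1, e2⟩
  have hfin : 1 + C ≤ V n := by
    refine blue_lemma hV hn1 F C (hFlo 0 (by omega)) (hFhi n (by omega)) ?_ ?_
    · intro g hg
      have hg' := Finset.mem_Icc.mp hg
      have := hm (g - 1) (by omega)
      rwa [Nat.sub_add_cancel hg'.1] at this
    · intro g hg
      have hg' := Finset.mem_Icc.mp hg
      obtain ⟨j, rfl⟩ : ∃ j, g = j + 1 := ⟨g - 1, by omega⟩
      rw [Nat.add_sub_cancel, show n - (j + 1) = n - 1 - j by omega]
      have hChi : C ≤ V hi := hCle.trans (hc0hi.trans (hv hi hlh.le (le_refl _)))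
      rcases Nat.lt_or_ge j lo with h | h
      · rw [hFlo j h.le, hFlo (j + 1) h]
        have := gilbert_mono hV (show hi ≤ n - 1 - j by omega)
        linarith
      rcases Nat.lt_or_ge hi j with h2 | h2
      · rw [hFhi j h2, hFhi (j + 1) (by omega)]
        have := gilbert_mono hV (show hi ≤ j by omega)
        linarith
      rcases Nat.lt_or_ge j hi with h3 | h3
      · have e1 := hFrec j h h3
        have e2 := mul_le_mul_of_nonneg_right (hv j h h2) (hF0 j).1
        have e3 := mul_le_mul_of_nonneg_right (hv (n - 1 - j) (by omega) (by omega))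
          (show 0 ≤ 1 - F (j + 1) by linarith [(hF0 (j + 1)).2])
        linarith
      · have : j = hi := by omega
        subst this
        rw [hFhi (j + 1) (by omega)]
        have e2 := mul_le_mul_of_nonneg_right (hv j h h2) (hF0 j).1
        linarith
  calc ∑ j ∈ Icc lo hi, a j + ∑ j ∈ Icc lo hi, a j * v j - a lo * v lo
      = (1 + C) * A := by rw [add_mul, hCA]; ring
    _ ≤ V n * A := mul_le_mul_of_nonneg_right hfin hApos.le

end Pool.Agent.H95.Gilbert
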