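import Mathlib
import Pool.Agent.H95.Gilbert.Window2

/-! The weights `a j` of the window, defined by products. -/

namespace Pool.Agent.H95.Gilbert

open Finset

/-- the product of `g i` for `lo < i ≤ k` -/
noncomputable def Pw (g : ℕ → ℝ) (lo k : ℕ) : ℝ := ∏ i ∈ Finset.Ioc lo k, g i

theorem Pw_succ (g : ℕ → ℝ) {lo k : ℕ} (h : lo ≤ k) : Pw g lo (k + 1) = Pw g lo k * g (k + 1) := by
  unfold Pw
  rw [← Finset.insert_Ioc_right_eq_Ioc_add_one h, Finset.prod_insert, mul_comm]
  simp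

/-- the weights -/
noncomputable def aw (g : ℕ → ℝ) (n lo j : ℕ) : ℝ := 1 / (Pw g lo j * Pw g lo (n - 1 - j))

section
variable {g : ℕ → ℝ} {n lo hi : ℕ}

theorem Pw_pos (hg : ∀ j, lo ≤ j → j ≤ hi → 0 < g j) {k : ℕ} (hk : k ≤ hi) : 0 < Pw g lo k := by
  refine Finset.prod_pos fun i hi' => ?_
  rw [Finset.mem_Ioc] at hi'
  exact hg i (by omega) (by omega)

theorem aw_pos (hn : lo + hi + 1 = n) (hg : ∀ j, lo ≤ j → j ≤ hi → 0 < g j) {j : ℕ}
    (h1 : lo ≤ j) (h2 : j ≤ hi) : 0 < aw g n lo j := by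
  have := Pw_pos hg h2
  have h3 := Pw_pos hg (k := n - 1 - j) (by omega)
  unfold aw
  positivity

theorem aw_sym (hn : lo + hi + 1 = n) {j : ℕ}
    (h1 : lo ≤ j) (h2 : j ≤ hi) : aw g n lo (n - 1 - j) = aw g n lo j := by
  unfold aw
  rw [show n - 1 - (n - 1 - j) = j by omega, mul_comm]

theorem aw_rec (hn : lo + hi + 1 = n) (hg : ∀ j, lo ≤ j → j ≤ hi → 0 < g j) {j : ℕ}
    (h1 : lo ≤ j) (h2 : j < hi) :
    aw g n lo (j + 1) * g (j + 1) = aw g n lo j * g (n - 1 - j) := by
  have p1 := Pw_pos hg (k := j) (by omega)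
  have p2 := Pw_pos hg (k := n - 1 - (j + 1)) (by omega)
  have g1 := hg (j + 1) (by omega) (by omega)
  have g2 := hg (n - 1 - j) (by omega) (by omega)
  have e1 : Pw g lo (n - 1 - j) = Pw g lo (n - 1 - (j + 1)) * g (n - 1 - j) := by
    have := Pw_succ g (lo := lo) (k := n - 1 - (j + 1)) (by omega)
    rw [show n - 1 - (j + 1) + 1 = n - 1 - j by omega] at this
    exact this
  unfold aw
  rw [Pw_succ g h1, e1]
  field_simp

/-- the telescoping identity -/
theorem tele (hn : lo + hi + 1 = n) (hlh : lo ≤ hi) (hg : ∀ j, lo ≤ j → j ≤ hi → 0 < g j)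
    (G : ℕ → ℝ) :
    ∑ j ∈ Icc lo hi, aw g n lo j * (g j * G j - g (n - 1 - j) * G (j + 1)) =
      aw g n lo lo * g lo * G lo - aw g n lo lo * g lo * G (hi + 1) := by
  have key : ∀ k, lo ≤ k → k ≤ hi →
      ∑ j ∈ Icc lo k, aw g n lo j * (g j * G j - g (n - 1 - j) * G (j + 1)) =
      aw g n lo lo * g lo * G lo - aw g n lo k * g (n - 1 - k) * G (k + 1) := by
    intro k hk
    induction k, hk using Nat.le_induction with
    | base => intro _; rw [Finset.Icc_self, Finset.sum_singleton]; ring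
    | succ k hk ih =>
      intro hk2
      rw [Finset.sum_Icc_succ_top (by omega), ih (by omega), ← aw_rec hn hg hk (by omega)]
      ring
  have h := key hi hlh (le_refl _)
  rw [h]
  have h1 := aw_sym (g := g) hn (le_refl lo) hlh
  rw [show n - 1 - lo = hi by omega] at h1
  rw [h1, show n - 1 - hi = lo by omega]

/-- the telescoping identity for odd functions -/
theorem tele_odd (hn : lo + hi + 1 = n) (hlh : lo ≤ hi) (hg : ∀ j, lo ≤ j → j ≤ hi → 0 < g j)
    (G : ℕ → ℝ) (hG : ∀ j, lo ≤ j → j ≤ hi + 1 → G (n - j) = - G j) :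
    ∑ j ∈ Icc lo hi, aw g n lo j * (g j * G j) = - (aw g n lo lo * g lo * G (hi + 1)) := by
  have h := tele hn hlh hg G
  have h1 : ∑ j ∈ Icc lo hi, aw g n lo j * (g (n - 1 - j) * G (j + 1)) =
      - ∑ j ∈ Icc lo hi, aw g n lo j * (g j * G j) := by
    rw [← Finset.sum_neg_distrib, ← sum_reflect hn]
    refine Finset.sum_congr rfl fun j hj => ?_
    rw [Finset.mem_Icc] at hj
    rw [aw_sym hn hj.1 hj.2, show n - 1 - (n - 1 - j) = j by omega,
      show n - 1 - j + 1 = n - j by omega, hG j hj.1 (by omega)]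
    ring
  have h2 : ∑ j ∈ Icc lo hi, aw g n lo j * (g j * G j - g (n - 1 - j) * G (j + 1)) =
      ∑ j ∈ Icc lo hi, aw g n lo j * (g j * G j) -
      ∑ j ∈ Icc lo hi, aw g n lo j * (g (n - 1 - j) * G (j + 1)) := by
    rw [← Finset.sum_sub_distrib]
    exact Finset.sum_congr rfl fun j _ => by ring
  have h3 : G lo = - G (hi + 1) := by
    have := hG (hi + 1) (by omega) (le_refl _)
    rwa [show n - (hi + 1) = lo by omega] at this
  rw [h2, h1, h3] at h
  linarith

/-- The Gaussian tail. -/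
theorem tail_bound (hn : lo + hi + 1 = n) (hg : ∀ j, lo ≤ j → j ≤ hi → 0 < g j) {b : ℝ} {c : ℕ}
    (hc : c = (n - 1) / 2) (hlc : lo ≤ c)
    (hgr : ∀ d, d < c - lo → Real.exp (b * (2 * d + 1)) * g (c - d) ≤ g (n - c + d)) :
    ∀ d, d ≤ c - lo → aw g n lo (c - d) * Real.exp (b * d ^ 2) ≤ aw g n lo c := by
  intro d
  induction d with
  | zero => intro _; simp
  | succ d ih =>
    intro hd
    have h1 := ih (by omega)
    have h2 := hgr d (by omega)
    have h3 := aw_rec hn hg (j := c - (d + 1)) (by omega) (by omega)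
    rw [show c - (d + 1) + 1 = c - d by omega, show n - 1 - (c - (d + 1)) = n - c + d by omega] at h3
    have p1 := aw_pos hn hg (j := c - (d + 1)) (by omega) (by omega)
    have p2 := hg (c - d) (by omega) (by omega)
    have h4 : aw g n lo (c - (d + 1)) * Real.exp (b * (2 * d + 1)) ≤ aw g n lo (c - d) := by
      have h5 : (aw g n lo (c - (d + 1)) * Real.exp (b * (2 * d + 1))) * g (c - d) ≤
          aw g n lo (c - d) * g (c - d) := by
        rw [h3, mul_assoc]
        exact mul_le_mul_of_nonneg_left h2 p1.le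
      exact le_of_mul_le_mul_right h5 p2
    have h6 : Real.exp (b * ((d + 1 : ℕ) : ℝ) ^ 2) = Real.exp (b * (2 * d + 1)) *
        Real.exp (b * d ^ 2) := by
      rw [← Real.exp_add]; congr 1; push_cast; ring
    rw [h6, ← mul_assoc]
    exact (mul_le_mul_of_nonneg_right h4 (Real.exp_pos _).le).trans h1

end

end Pool.Agent.H95.Gilbert
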