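import Mathlib
import Pool.Agent.H95.Gilbert.Shape
import Pool.Agent.H95.Gilbert.Wts
import Pool.Agent.H95.Gilbert.TMW

/-! The window, its weights, moments and tail. -/

namespace Pool.Agent.H95.Gilbert

open Finset

structure WinD (n lo hi : ℕ) : Prop where
  hn : lo + hi + 1 = n
  h8 : 8194 ≤ n
  lo1 : 3 * (n + 1) ≤ 8 * (lo + 1)
  lo2 : 8 * (lo + 1) ≤ 3 * (n + 1) + 7

/-- the midpoint -/
noncomputable def md (n : ℕ) : ℝ := ((n : ℝ) + 1) / 2

/-- offset from the midpoint -/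
noncomputable def Ko (n j : ℕ) : ℝ := (j : ℝ) + 1 - md n

/-- relative offset from the midpoint -/
noncomputable def tj (n j : ℕ) : ℝ := Ko n j / md n

noncomputable def gf (σ : ℝ) (j : ℕ) : ℝ := fb σ ((j : ℝ) + 1)

noncomputable def wa (σ : ℝ) (n lo j : ℕ) : ℝ := aw (gf σ) n lo j

variable {σ : ℝ} {n lo hi : ℕ}

namespace WinD

theorem lohi (W : WinD n lo hi) : lo < hi := by
  have := W.hn; have := W.h8; have := W.lo1; have := W.lo2
  omega

theorem m_ge (W : WinD n lo hi) : 4097.5 ≤ md n := by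
  unfold md
  have : (8194 : ℝ) ≤ n := by exact_mod_cast W.h8
  norm_num
  linarith

theorem m_pos (W : WinD n lo hi) : 0 < md n := by have := W.m_ge; linarith

theorem x_ge (W : WinD n lo hi) {j : ℕ} (h1 : lo ≤ j) : (3072 : ℝ) ≤ (j : ℝ) + 1 := by
  have : 3072 ≤ j + 1 := by
    have := W.hn; have := W.h8; have := W.lo1; have := W.lo2
    omega
  exact_mod_cast this

theorem g_pos (W : WinD n lo hi) (hσ : |σ| ≤ 1) : ∀ j, lo ≤ j → j ≤ hi → 0 < gf σ j := by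
  intro j h1 _
  have := fb_pos hσ (W.x_ge h1)
  unfold gf
  linarith

theorem wa_pos (W : WinD n lo hi) (hσ : |σ| ≤ 1) {j : ℕ} (h1 : lo ≤ j) (h2 : j ≤ hi) :
    0 < wa σ n lo j := aw_pos W.hn (W.g_pos hσ) h1 h2

theorem wa_sym (W : WinD n lo hi) {j : ℕ} (h1 : lo ≤ j) (h2 : j ≤ hi) :
    wa σ n lo (n - 1 - j) = wa σ n lo j := aw_sym W.hn h1 h2

theorem Ko_refl (W : WinD n lo hi) {j : ℕ} (h2 : j ≤ hi) : Ko n (n - 1 - j) = - Ko n j := by
  have := W.hn; have := W.h8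
  unfold Ko md
  rw [show n - 1 - j = n - (j + 1) by omega, Nat.cast_sub (by omega)]
  push_cast
  ring

theorem tj_refl (W : WinD n lo hi) {j : ℕ} (h2 : j ≤ hi) : tj n (n - 1 - j) = - tj n j := by
  unfold tj
  rw [W.Ko_refl h2, neg_div]

theorem x_eq (W : WinD n lo hi) (j : ℕ) : (j : ℝ) + 1 = md n * (1 + tj n j) := by
  have := W.m_pos
  unfold tj Ko
  field_simp
  ring

theorem Ko_bd (W : WinD n lo hi) {j : ℕ} (h1 : lo ≤ j) (h2 : j ≤ hi) : |Ko n j| ≤ md n / 4 := by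
  have := W.hn; have := W.h8; have := W.lo1; have := W.lo2
  have a1 : (3 * ((n:ℝ) + 1)) ≤ 8 * ((j:ℝ) + 1) := by
    have : 3 * (n + 1) ≤ 8 * (j + 1) := by omega
    exact_mod_cast this
  have a2 : 8 * ((j:ℝ) + 1) ≤ 5 * ((n:ℝ) + 1) := by
    have : 8 * (j + 1) ≤ 5 * (n + 1) := by omega
    exact_mod_cast this
  unfold Ko md
  rw [abs_le]
  constructor <;> linarith

theorem tj_bd (W : WinD n lo hi) {j : ℕ} (h1 : lo ≤ j) (h2 : j ≤ hi) : |tj n j| ≤ 1 / 4 := by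
  have h := W.Ko_bd h1 h2
  have hm := W.m_pos
  unfold tj
  rw [abs_div, abs_of_pos hm, div_le_iff₀ hm]
  linarith

theorem L_ge (W : WinD n lo hi) : 7.9797 ≤ Lx (md n) := Lx_ge' (by have := W.m_ge; linarith)

theorem z_le (W : WinD n lo hi) : Lx (md n) / md n ≤ 1948 / 1000000 := by
  have h1 := W.m_ge
  have h2 := Lx_le W.m_pos
  rw [div_le_iff₀ W.m_pos]
  norm_num at *
  linarith

theorem g_diff (W : WinD n lo hi) (hσ : |σ| ≤ 1) {j : ℕ} (h1 : lo ≤ j) (h2 : j ≤ hi) :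
    2 * (9987 / 10000) * (Ko n j) ^ 2 / md n ≤ (gf σ j - gf σ (n - 1 - j)) * Ko n j := by
  have hn := W.hn
  have hm := W.m_pos
  have e1 : (j : ℝ) + 1 = md n + Ko n j := by unfold Ko; ring
  have e2 : ((n - 1 - j : ℕ) : ℝ) + 1 = md n - Ko n j := by
    have := W.Ko_refl h2
    unfold Ko at this ⊢
    linarith
  have a1 := W.x_ge h1
  have a2 := W.x_ge (j := n - 1 - j) (by omega)
  unfold gf
  rw [e1] at a1 ⊢
  rw [e2] at a2 ⊢
  rcases le_total 0 (Ko n j) with hK | hK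
  · have := fb_diff' hσ a2 (show md n - Ko n j ≤ md n + Ko n j by linarith)
    rw [show 2 * (md n + Ko n j - (md n - Ko n j)) / (md n - Ko n j + (md n + Ko n j)) =
      2 * Ko n j / md n by field_simp; ring] at this
    calc _ = (9987 / 10000 * (2 * Ko n j / md n)) * Ko n j := by ring
      _ ≤ _ := mul_le_mul_of_nonneg_right this hK
  · have := fb_diff' hσ a1 (show md n + Ko n j ≤ md n - Ko n j by linarith)
    rw [show 2 * (md n - Ko n j - (md n + Ko n j)) / (md n + Ko n j + (md n - Ko n j)) =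
      2 * (- Ko n j) / md n by field_simp; ring] at this
    calc _ = (9987 / 10000 * (2 * (-Ko n j) / md n)) * (-Ko n j) := by ring
      _ ≤ (fb σ (md n - Ko n j) - fb σ (md n + Ko n j)) * (-Ko n j) :=
        mul_le_mul_of_nonneg_right this (by linarith)
      _ = _ := by ring

theorem g_mid (W : WinD n lo hi) (hσ : |σ| ≤ 1) {j : ℕ} (h1 : lo ≤ j) (h2 : j ≤ hi) :
    (gf σ j + gf σ (n - 1 - j)) / 2 ≤ fb σ (md n) := by
  have hn := W.hn
  have a1 := W.x_ge h1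
  have a2 := W.x_ge (j := n - 1 - j) (by omega)
  have := fb_mid hσ a1 a2
  have e2 : (((j : ℝ) + 1) + (((n - 1 - j : ℕ) : ℝ) + 1)) / 2 = md n := by
    have := W.Ko_refl h2
    unfold Ko at this
    linarith
  rw [e2] at this
  exact this

/-- general moment inequality -/
theorem mom_gen (W : WinD n lo hi) (hσ : |σ| ≤ 1) (p : ℕ) (R S : ℝ → ℝ)
    (hR : ∀ K : ℝ, ((K + 1/2) ^ (2 * p + 1) + (K - 1/2) ^ (2 * p + 1)) / 2 = K * R K)
    (hR2 : ∀ K : ℝ, (K ^ 2) ^ p ≤ R K)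
    (hS : ∀ K : ℝ, (K + 1/2) ^ (2 * p + 1) - (K - 1/2) ^ (2 * p + 1) = S K)
    (hS2 : ∀ K : ℝ, 0 ≤ S K) :
    2 * (9987 / 10000) / md n * ∑ j ∈ Icc lo hi, wa σ n lo j * ((Ko n j) ^ 2) ^ (p + 1) ≤
      fb σ (md n) * ∑ j ∈ Icc lo hi, wa σ n lo j * S (Ko n j) := by
  have hn := W.hn
  have hm := W.m_pos
  have hlh := W.lohi
  -- the telescoping identity
  have h1 := tele_odd hn hlh.le (W.g_pos hσ) (fun j => ((j : ℝ) - n / 2) ^ (2 * p + 1)) (by
    intro j hj1 hj2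
    rw [Nat.cast_sub (by omega)]
    have hodd : Odd (2 * p + 1) := ⟨p, rfl⟩
    rw [← hodd.neg_pow]
    congr 1
    ring)
  have h2 : ∑ j ∈ Icc lo hi, wa σ n lo j * (gf σ j * (Ko n j - 1/2) ^ (2 * p + 1)) ≤ 0 := by
    have e : ∑ j ∈ Icc lo hi, wa σ n lo j * (gf σ j * (Ko n j - 1/2) ^ (2 * p + 1)) =
        ∑ j ∈ Icc lo hi, aw (gf σ) n lo j * (gf σ j * ((j : ℝ) - n / 2) ^ (2 * p + 1)) := by
      refine Finset.sum_congr rfl fun j _ => ?_
      unfold wa Ko md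
      congr 3
      ring
    rw [e, h1]
    have a1 := W.wa_pos hσ (le_refl lo) hlh.le
    have a2 := W.g_pos hσ lo (le_refl lo) hlh.le
    have a3 : 0 ≤ ((hi + 1 : ℕ) : ℝ) - n / 2 := by
      have : (n : ℝ) = lo + hi + 1 := by exact_mod_cast hn.symm
      have h3 : (lo : ℝ) ≤ hi := by exact_mod_cast hlh.le
      push_cast
      linarith
    unfold wa at a1
    have : 0 ≤ aw (gf σ) n lo lo * gf σ lo * (((hi + 1 : ℕ) : ℝ) - n / 2) ^ (2 * p + 1) := by
      positivity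
    linarith
  have h3 : ∑ j ∈ Icc lo hi, wa σ n lo j * (gf σ j * (Ko n j - 1/2) ^ (2 * p + 1)) =
      ∑ j ∈ Icc lo hi, - (wa σ n lo j * (gf σ (n - 1 - j) * (Ko n j + 1/2) ^ (2 * p + 1))) := by
    rw [← sum_reflect hn]
    refine Finset.sum_congr rfl fun j hj => ?_
    rw [Finset.mem_Icc] at hj
    rw [W.wa_sym hj.1 hj.2, W.Ko_refl hj.2]
    have hodd : Odd (2 * p + 1) := ⟨p, rfl⟩
    rw [show - Ko n j - 1/2 = -(Ko n j + 1/2) by ring, hodd.neg_pow]
    ring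
  have h4 : ∑ j ∈ Icc lo hi, wa σ n lo j * ((gf σ j - gf σ (n - 1 - j)) * (Ko n j * R (Ko n j)) -
      (gf σ j + gf σ (n - 1 - j)) / 2 * S (Ko n j)) ≤ 0 := by
    have e : ∑ j ∈ Icc lo hi, wa σ n lo j * ((gf σ j - gf σ (n - 1 - j)) * (Ko n j * R (Ko n j)) -
        (gf σ j + gf σ (n - 1 - j)) / 2 * S (Ko n j)) =
        ∑ j ∈ Icc lo hi, wa σ n lo j * (gf σ j * (Ko n j - 1/2) ^ (2 * p + 1)) +
        ∑ j ∈ Icc lo hi, - (wa σ n lo j * (gf σ (n - 1 - j) * (Ko n j + 1/2) ^ (2 * p + 1))) := by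
      rw [← Finset.sum_add_distrib]
      refine Finset.sum_congr rfl fun j _ => ?_
      rw [← hR, ← hS]
      ring
    rw [e, ← h3]
    linarith
  have h5 : ∑ j ∈ Icc lo hi, wa σ n lo j * (2 * (9987 / 10000) / md n * ((Ko n j) ^ 2) ^ (p + 1) -
      fb σ (md n) * S (Ko n j)) ≤ 0 := by
    refine le_trans (Finset.sum_le_sum fun j hj => ?_) h4
    rw [Finset.mem_Icc] at hj
    refine mul_le_mul_of_nonneg_left ?_ (W.wa_pos hσ hj.1 hj.2).le
    have a1 := W.g_diff hσ hj.1 hj.2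
    have a2 := W.g_mid hσ hj.1 hj.2
    have a3 := mul_le_mul_of_nonneg_right a2 (hS2 (Ko n j))
    have a4 : 2 * (9987 / 10000) / md n * ((Ko n j) ^ 2) ^ (p + 1) ≤
        (gf σ j - gf σ (n - 1 - j)) * (Ko n j * R (Ko n j)) := by
      have b1 : 0 ≤ 2 * (9987 / 10000) * (Ko n j) ^ 2 / md n := by positivity
      calc _ = (2 * (9987 / 10000) * (Ko n j) ^ 2 / md n) * ((Ko n j) ^ 2) ^ p := by
            rw [pow_succ]; ring
        _ ≤ (2 * (9987 / 10000) * (Ko n j) ^ 2 / md n) * R (Ko n j) :=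
            mul_le_mul_of_nonneg_left (hR2 _) b1
        _ ≤ ((gf σ j - gf σ (n - 1 - j)) * Ko n j) * R (Ko n j) := by
            refine mul_le_mul_of_nonneg_right a1 (le_trans (by positivity) (hR2 _))
        _ = _ := by ring
    linarith
  have h6 : ∑ j ∈ Icc lo hi, wa σ n lo j * (2 * (9987 / 10000) / md n * ((Ko n j) ^ 2) ^ (p + 1) -
      fb σ (md n) * S (Ko n j)) =
      2 * (9987 / 10000) / md n * ∑ j ∈ Icc lo hi, wa σ n lo j * ((Ko n j) ^ 2) ^ (p + 1) -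
      fb σ (md n) * ∑ j ∈ Icc lo hi, wa σ n lo j * S (Ko n j) := by
    rw [Finset.mul_sum, Finset.mul_sum, ← Finset.sum_sub_distrib]
    exact Finset.sum_congr rfl fun j _ => by ring
  rw [h6] at h5
  linarith

end WinD

end Pool.Agent.H95.Gilbert
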