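import Mathlib
import Pool.Agent.H95.Gilbert.Win

/-! The moments of the window distribution. -/

namespace Pool.Agent.H95.Gilbert

open Finset

variable {σ : ℝ} {n lo hi : ℕ}

/-- total weight -/
noncomputable def Sw (σ : ℝ) (n lo hi : ℕ) : ℝ := ∑ j ∈ Icc lo hi, wa σ n lo j

/-- normalised weights -/
noncomputable def ww (σ : ℝ) (n lo hi : ℕ) (j : ℕ) : ℝ := wa σ n lo j / Sw σ n lo hi

/-- moments -/
noncomputable def Am (σ : ℝ) (n lo hi k : ℕ) : ℝ :=
  ∑ j ∈ Icc lo hi, ww σ n lo hi j * (tj n j ^ 2) ^ k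

namespace WinD

theorem Sw_pos (W : WinD n lo hi) (hσ : |σ| ≤ 1) : 0 < Sw σ n lo hi :=
  Finset.sum_pos (fun j hj => W.wa_pos hσ (Finset.mem_Icc.mp hj).1 (Finset.mem_Icc.mp hj).2)
    ⟨lo, Finset.mem_Icc.mpr ⟨le_refl _, W.lohi.le⟩⟩

theorem ww_nonneg (W : WinD n lo hi) (hσ : |σ| ≤ 1) : ∀ j ∈ Icc lo hi, 0 ≤ ww σ n lo hi j := by
  intro j hj
  rw [Finset.mem_Icc] at hj
  exact div_nonneg (W.wa_pos hσ hj.1 hj.2).le (W.Sw_pos hσ).le

theorem ww_sum (W : WinD n lo hi) (hσ : |σ| ≤ 1) : ∑ j ∈ Icc lo hi, ww σ n lo hi j = 1 := by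
  unfold ww
  rw [← Finset.sum_div]
  exact div_self (W.Sw_pos hσ).ne'

theorem Am_zero (W : WinD n lo hi) (hσ : |σ| ≤ 1) : Am σ n lo hi 0 = 1 := by
  unfold Am
  simp only [pow_zero, mul_one]
  exact W.ww_sum hσ

theorem Am_nonneg (W : WinD n lo hi) (hσ : |σ| ≤ 1) (k : ℕ) : 0 ≤ Am σ n lo hi k :=
  Finset.sum_nonneg fun j hj => mul_nonneg (W.ww_nonneg hσ j hj) (by positivity)

theorem mom_gen' (W : WinD n lo hi) (hσ : |σ| ≤ 1) (p : ℕ) (R S : ℝ → ℝ)
    (hR : ∀ K : ℝ, ((K + 1/2) ^ (2 * p + 1) + (K - 1/2) ^ (2 * p + 1)) / 2 = K * R K)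
    (hR2 : ∀ K : ℝ, (K ^ 2) ^ p ≤ R K)
    (hS : ∀ K : ℝ, (K + 1/2) ^ (2 * p + 1) - (K - 1/2) ^ (2 * p + 1) = S K)
    (hS2 : ∀ K : ℝ, 0 ≤ S K) :
    Am σ n lo hi (p + 1) ≤ 50075 / 100000 * (Lx (md n) / md n) *
      ∑ j ∈ Icc lo hi, ww σ n lo hi j * (S (Ko n j) / md n ^ (2 * p)) := by
  have h := W.mom_gen hσ p R S hR hR2 hS hS2
  have hm := W.m_pos
  have hS0 := W.Sw_pos hσ
  have e1 : ∑ j ∈ Icc lo hi, wa σ n lo j * ((Ko n j) ^ 2) ^ (p + 1) =
      Am σ n lo hi (p + 1) * (Sw σ n lo hi * md n ^ (2 * (p + 1))) := by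
    unfold Am
    rw [Finset.sum_mul]
    refine Finset.sum_congr rfl fun j _ => ?_
    unfold ww tj
    rw [div_pow, div_pow, pow_mul (md n)]
    field_simp
  have e2 : ∑ j ∈ Icc lo hi, wa σ n lo j * S (Ko n j) =
      (∑ j ∈ Icc lo hi, ww σ n lo hi j * (S (Ko n j) / md n ^ (2 * p))) *
        (Sw σ n lo hi * md n ^ (2 * p)) := by
    rw [Finset.sum_mul]
    refine Finset.sum_congr rfl fun j _ => ?_
    unfold ww
    field_simp
  rw [e1, e2] at h
  have hfb := fb_le hσ (show (4096:ℝ) ≤ md n by have := W.m_ge; linarith)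
  set Q := ∑ j ∈ Icc lo hi, ww σ n lo hi j * (S (Ko n j) / md n ^ (2 * p)) with hQ
  have hQ0 : 0 ≤ Q := Finset.sum_nonneg fun j hj =>
    mul_nonneg (W.ww_nonneg hσ j hj) (div_nonneg (hS2 _) (by positivity))
  have h2 : 2 * (9987 / 10000) / md n * (Am σ n lo hi (p + 1) *
      (Sw σ n lo hi * md n ^ (2 * (p + 1)))) ≤
      (100015 / 100000 * Lx (md n)) * (Q * (Sw σ n lo hi * md n ^ (2 * p))) := by
    refine h.trans (mul_le_mul_of_nonneg_right hfb (by positivity))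
  have h3 : (2 * (9987 / 10000) * Am σ n lo hi (p + 1) * md n) * (Sw σ n lo hi * md n ^ (2 * p)) ≤
      (100015 / 100000 * Lx (md n) * Q) * (Sw σ n lo hi * md n ^ (2 * p)) := by
    calc _ = 2 * (9987 / 10000) / md n * (Am σ n lo hi (p + 1) *
      (Sw σ n lo hi * md n ^ (2 * (p + 1)))) := by
          rw [show 2 * (p + 1) = 2 * p + 2 by ring, pow_add]
          field_simp
      _ ≤ _ := h2
      _ = _ := by ring
  have h4 := le_of_mul_le_mul_right h3 (by positivity)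
  have hL := W.L_ge
  have h5 : 0 ≤ Lx (md n) * Q := mul_nonneg (by norm_num at hL; linarith) hQ0
  rw [show 50075 / 100000 * (Lx (md n) / md n) * Q = 50075 / 100000 * (Lx (md n) * Q) / md n by ring,
    le_div_iff₀ hm]
  linarith

/-- sum of a combination -/
theorem Am_lin (W : WinD n lo hi) (c : ℕ → ℝ) (p : ℕ) (S : ℝ → ℝ)
    (hS : ∀ K : ℝ, S K = ∑ i ∈ range (p + 1), c i * (K ^ 2) ^ i) :
    ∑ j ∈ Icc lo hi, ww σ n lo hi j * (S (Ko n j) / md n ^ (2 * p)) =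
      ∑ i ∈ range (p + 1), c i * Am σ n lo hi i * (1 / md n ^ 2) ^ (p - i) := by
  have hm := W.m_pos
  have h1 : ∀ j, ww σ n lo hi j * (S (Ko n j) / md n ^ (2 * p)) = ∑ i ∈ range (p + 1),
      c i * (ww σ n lo hi j * (tj n j ^ 2) ^ i) * (1 / md n ^ 2) ^ (p - i) := by
    intro j
    rw [hS, Finset.sum_div, Finset.mul_sum]
    refine Finset.sum_congr rfl fun i hi => ?_
    rw [Finset.mem_range] at hi
    have : md n ^ (2 * p) = (md n ^ 2) ^ i * (md n ^ 2) ^ (p - i) := by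
      rw [← pow_add, ← pow_mul]; congr 1
      rw [Nat.add_sub_cancel' (by omega)]
    unfold tj
    rw [this, div_pow, div_pow, one_div, inv_pow]
    field_simp
  simp only [h1]
  rw [Finset.sum_comm]
  refine Finset.sum_congr rfl fun i _ => ?_
  unfold Am
  rw [Finset.mul_sum, Finset.sum_mul]

theorem inv_sq (W : WinD n lo hi) : 1 / md n ^ 2 ≤ (Lx (md n) / md n) ^ 2 / 62 := by
  have hm := W.m_pos
  have hL := W.L_ge
  norm_num at hL
  rw [div_pow, div_div, div_le_div_iff₀ (by positivity) (by positivity)]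
  have : 62 ≤ Lx (md n) ^ 2 := by nlinarith
  have h2 : 0 < md n ^ 2 := by positivity
  nlinarith

theorem mom_lin (W : WinD n lo hi) (hσ : |σ| ≤ 1) (p : ℕ) (R : ℝ → ℝ) (c : ℕ → ℝ)
    (hc : ∀ i, 0 ≤ c i)
    (hR : ∀ K : ℝ, ((K + 1/2) ^ (2 * p + 1) + (K - 1/2) ^ (2 * p + 1)) / 2 = K * R K)
    (hR2 : ∀ K : ℝ, (K ^ 2) ^ p ≤ R K)
    (hS : ∀ K : ℝ, (K + 1/2) ^ (2 * p + 1) - (K - 1/2) ^ (2 * p + 1) =
      ∑ i ∈ range (p + 1), c i * (K ^ 2) ^ i) :
    Am σ n lo hi (p + 1) ≤ 50075 / 100000 * (Lx (md n) / md n) *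
      ∑ i ∈ range (p + 1), c i * Am σ n lo hi i * (1 / md n ^ 2) ^ (p - i) := by
  have h := W.mom_gen' hσ p R (fun K => ∑ i ∈ range (p + 1), c i * (K ^ 2) ^ i) hR hR2 hS
    (fun K => Finset.sum_nonneg fun i _ => mul_nonneg (hc i) (by positivity))
  rwa [W.Am_lin c p _ (fun K => rfl)] at h

theorem moments (W : WinD n lo hi) (hσ : |σ| ≤ 1) {z : ℝ} (hz : z = Lx (md n) / md n) :
    Am σ n lo hi 1 ≤ 50075 / 100000 * z ∧ Am σ n lo hi 2 ≤ 7523 / 10000 * z ^ 2 ∧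
    Am σ n lo hi 3 ≤ 18837 / 10000 * z ^ 3 ∧ Am σ n lo hi 4 ≤ 66032 / 10000 * z ^ 4 ∧
    Am σ n lo hi 5 ≤ 297610 / 10000 * z ^ 5 ∧ Am σ n lo hi 6 ≤ 1639500 / 10000 * z ^ 6 := by
  have hm := W.m_pos
  have hL := W.L_ge
  norm_num at hL
  have hz1 := W.z_le
  rw [← hz] at hz1
  have hz0 : 0 < z := by rw [hz]; apply div_pos <;> linarith
  have hy := W.inv_sq
  rw [← hz] at hy
  set Y := 1 / md n ^ 2 with hY
  have hY0 : 0 ≤ Y := by rw [hY]; positivity
  have hYz : Y ≤ z * (1 / 30000) := by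
    refine hy.trans ?_
    nlinarith
  have h0 := W.Am_zero hσ
  have nn := W.Am_nonneg hσ
  have m1 : Am σ n lo hi 1 ≤ 50075 / 100000 * z := by
    refine (W.mom_lin hσ 0 (fun _ => 1) (fun _ => 1) (fun i => by norm_num) (fun K => by ring)
      (fun K => by simp) (fun K => by simp; ring)).trans (le_of_eq ?_)
    rw [← hz, ← hY]
    simp [h0]
  have m2 : Am σ n lo hi 2 ≤ 50075 / 100000 * z * (3 * Am σ n lo hi 1 + 1 / 4 * Y) := by
    refine (W.mom_lin hσ 1 (fun K => K ^ 2 + 3/4) (fun i => if i = 0 then 1/4 else 3)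
      (fun i => by split_ifs <;> norm_num) (fun K => by ring)
      (fun K => by nlinarith) (fun K => by simp [Finset.sum_range_succ]; ring)).trans (le_of_eq ?_)
    rw [← hz, ← hY]
    congr 1
    simp [Finset.sum_range_succ, h0]
    ring
  have m3 : Am σ n lo hi 3 ≤ 50075 / 100000 * z * (5 * Am σ n lo hi 2 + 10 / 4 * Am σ n lo hi 1 * Y +
      1 / 16 * Y ^ 2) := by
    refine (W.mom_lin hσ 2 (fun K => K ^ 4 + 10/4 * K ^ 2 + 5/16)
      (fun i => if i = 0 then 1/16 else if i = 1 then 10/4 else 5)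
      (fun i => by split_ifs <;> norm_num) (fun K => by ring)
      (fun K => by nlinarith [sq_nonneg K]) (fun K => by
        simp [Finset.sum_range_succ]; ring)).trans (le_of_eq ?_)
    rw [← hz, ← hY]
    congr 1
    simp [Finset.sum_range_succ, h0]
    ring
  have m4 : Am σ n lo hi 4 ≤ 50075 / 100000 * z * (7 * Am σ n lo hi 3 + 35 / 4 * Am σ n lo hi 2 * Y +
      21 / 16 * Am σ n lo hi 1 * Y ^ 2 + 1 / 64 * Y ^ 3) := by
    refine (W.mom_lin hσ 3 (fun K => K ^ 6 + 21/4 * K ^ 4 + 35/16 * K ^ 2 + 7/64)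
      (fun i => if i = 0 then 1/64 else if i = 1 then 21/16 else if i = 2 then 35/4 else 7)
      (fun i => by split_ifs <;> norm_num) (fun K => by ring)
      (fun K => by nlinarith [sq_nonneg K, sq_nonneg (K ^ 2)]) (fun K => by
        simp [Finset.sum_range_succ]; ring)).trans (le_of_eq ?_)
    rw [← hz, ← hY]
    congr 1
    simp [Finset.sum_range_succ, h0]
    ring
  have m5 : Am σ n lo hi 5 ≤ 50075 / 100000 * z * (9 * Am σ n lo hi 4 + 84 / 4 * Am σ n lo hi 3 * Y +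
      126 / 16 * Am σ n lo hi 2 * Y ^ 2 + 36 / 64 * Am σ n lo hi 1 * Y ^ 3 + 1 / 256 * Y ^ 4) := by
    refine (W.mom_lin hσ 4
      (fun K => K ^ 8 + 36/4 * K ^ 6 + 126/16 * K ^ 4 + 84/64 * K ^ 2 + 9/256)
      (fun i => if i = 0 then 1/256 else if i = 1 then 36/64 else if i = 2 then 126/16
        else if i = 3 then 84/4 else 9)
      (fun i => by split_ifs <;> norm_num) (fun K => by ring)
      (fun K => by nlinarith [sq_nonneg K, sq_nonneg (K ^ 2), sq_nonneg (K ^ 3)]) (fun K => by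
        simp [Finset.sum_range_succ]; ring)).trans (le_of_eq ?_)
    rw [← hz, ← hY]
    congr 1
    simp [Finset.sum_range_succ, h0]
    ring
  have m6 : Am σ n lo hi 6 ≤ 50075 / 100000 * z * (11 * Am σ n lo hi 5 +
      165 / 4 * Am σ n lo hi 4 * Y + 462 / 16 * Am σ n lo hi 3 * Y ^ 2 +
      330 / 64 * Am σ n lo hi 2 * Y ^ 3 + 55 / 256 * Am σ n lo hi 1 * Y ^ 4 +
      1 / 1024 * Y ^ 5) := by
    refine (W.mom_lin hσ 5
      (fun K => K ^ 10 + 55/4 * K ^ 8 + 330/16 * K ^ 6 + 462/64 * K ^ 4 + 165/256 * K ^ 2 + 11/1024)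
      (fun i => if i = 0 then 1/1024 else if i = 1 then 55/256 else if i = 2 then 330/64
        else if i = 3 then 462/16 else if i = 4 then 165/4 else 11)
      (fun i => by split_ifs <;> norm_num) (fun K => by ring)
      (fun K => by
        nlinarith [sq_nonneg K, sq_nonneg (K ^ 2), sq_nonneg (K ^ 3), sq_nonneg (K ^ 4)])
      (fun K => by simp [Finset.sum_range_succ]; ring)).trans (le_of_eq ?_)
    rw [← hz, ← hY]
    congr 1
    simp [Finset.sum_range_succ, h0]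
    ring
  have n1 := nn 1
  have n2 := nn 2
  have n3 := nn 3
  have n4 := nn 4
  have n5 := nn 5
  have k2 : Am σ n lo hi 2 ≤ 7523 / 10000 * z ^ 2 := by
    calc _ ≤ 50075 / 100000 * z * (3 * Am σ n lo hi 1 + 1 / 4 * Y) := m2
      _ ≤ 50075 / 100000 * z * (3 * (50075 / 100000 * z) + 1 / 4 * (z * (1 / 30000))) := by gcongr
      _ ≤ _ := by linarith [pow_pos hz0 2]
  have k3 : Am σ n lo hi 3 ≤ 18837 / 10000 * z ^ 3 := by
    calc _ ≤ 50075 / 100000 * z * (5 * Am σ n lo hi 2 + 10 / 4 * Am σ n lo hi 1 * Y +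
          1 / 16 * Y ^ 2) := m3
      _ ≤ 50075 / 100000 * z * (5 * (7523 / 10000 * z ^ 2) + 10 / 4 * (50075 / 100000 * z) *
          (z * (1 / 30000)) + 1 / 16 * (z * (1 / 30000)) ^ 2) := by gcongr
      _ ≤ _ := by linarith [pow_pos hz0 3]
  have k4 : Am σ n lo hi 4 ≤ 66032 / 10000 * z ^ 4 := by
    calc _ ≤ 50075 / 100000 * z * (7 * Am σ n lo hi 3 + 35 / 4 * Am σ n lo hi 2 * Y +
          21 / 16 * Am σ n lo hi 1 * Y ^ 2 + 1 / 64 * Y ^ 3) := m4
      _ ≤ 50075 / 100000 * z * (7 * (18837 / 10000 * z ^ 3) + 35 / 4 * (7523 / 10000 * z ^ 2) *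
          (z * (1 / 30000)) + 21 / 16 * (50075 / 100000 * z) * (z * (1 / 30000)) ^ 2 +
          1 / 64 * (z * (1 / 30000)) ^ 3) := by gcongr
      _ ≤ _ := by linarith [pow_pos hz0 4]
  have k5 : Am σ n lo hi 5 ≤ 297610 / 10000 * z ^ 5 := by
    calc _ ≤ 50075 / 100000 * z * (9 * Am σ n lo hi 4 + 84 / 4 * Am σ n lo hi 3 * Y +
          126 / 16 * Am σ n lo hi 2 * Y ^ 2 + 36 / 64 * Am σ n lo hi 1 * Y ^ 3 +
          1 / 256 * Y ^ 4) := m5
      _ ≤ 50075 / 100000 * z * (9 * (66032 / 10000 * z ^ 4) + 84 / 4 * (18837 / 10000 * z ^ 3) *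
          (z * (1 / 30000)) + 126 / 16 * (7523 / 10000 * z ^ 2) * (z * (1 / 30000)) ^ 2 +
          36 / 64 * (50075 / 100000 * z) * (z * (1 / 30000)) ^ 3 +
          1 / 256 * (z * (1 / 30000)) ^ 4) := by gcongr
      _ ≤ _ := by linarith [pow_pos hz0 5]
  have k6 : Am σ n lo hi 6 ≤ 1639500 / 10000 * z ^ 6 := by
    calc _ ≤ 50075 / 100000 * z * (11 * Am σ n lo hi 5 +
          165 / 4 * Am σ n lo hi 4 * Y + 462 / 16 * Am σ n lo hi 3 * Y ^ 2 +
          330 / 64 * Am σ n lo hi 2 * Y ^ 3 + 55 / 256 * Am σ n lo hi 1 * Y ^ 4 +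
          1 / 1024 * Y ^ 5) := m6
      _ ≤ 50075 / 100000 * z * (11 * (297610 / 10000 * z ^ 5) +
          165 / 4 * (66032 / 10000 * z ^ 4) * (z * (1 / 30000)) +
          462 / 16 * (18837 / 10000 * z ^ 3) * (z * (1 / 30000)) ^ 2 +
          330 / 64 * (7523 / 10000 * z ^ 2) * (z * (1 / 30000)) ^ 3 +
          55 / 256 * (50075 / 100000 * z) * (z * (1 / 30000)) ^ 4 +
          1 / 1024 * (z * (1 / 30000)) ^ 5) := by gcongr
      _ ≤ _ := by linarith [pow_pos hz0 6]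
  exact ⟨m1, k2, k3, k4, k5, k6⟩

theorem mom (W : WinD n lo hi) (hσ : |σ| ≤ 1) :
    Mom (Icc lo hi) (ww σ n lo hi) (tj n) (Lx (md n) / md n) := by
  intro k hk
  obtain ⟨a1, a2, a3, a4, a5, a6⟩ := W.moments hσ rfl
  have a0 := W.Am_zero hσ
  have hL := W.L_ge
  norm_num at hL
  have hz0 : 0 < Lx (md n) / md n := div_pos (by linarith) W.m_pos
  change Am σ n lo hi k ≤ _
  have p1 := pow_pos hz0 2
  have p2 := pow_pos hz0 3
  have p3 := pow_pos hz0 4
  have p4 := pow_pos hz0 5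
  have p5 := pow_pos hz0 6
  interval_cases k
  · rw [a0]; simp [TM.Mq]
  · simp only [TM.Mq]; push_cast; linarith
  · simp only [TM.Mq]; push_cast; linarith
  · simp only [TM.Mq]; push_cast; linarith
  · simp only [TM.Mq]; push_cast; linarith
  · simp only [TM.Mq]; push_cast; linarith
  · simp only [TM.Mq]; push_cast; linarith

end WinD

end Pool.Agent.H95.Gilbert
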