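import Mathlib
import Pool.Agent.H95.Gilbert.MomB

/-! The Gaussian tail of the window distribution. -/

namespace Pool.Agent.H95.Gilbert

open Finset

variable {σ : ℝ} {n lo hi : ℕ}

theorem exp_le_lin {x : ℝ} (hx0 : 0 ≤ x) (hx : x ≤ 7 / 100) : Real.exp x ≤ 1 + 108 / 100 * x := by
  have h1 : (1 - x) * Real.exp x ≤ 1 := by
    have := Real.add_one_le_exp (-x)
    have h2 : Real.exp (-x) * Real.exp x = 1 := by rw [← Real.exp_add]; simp
    have h3 := Real.exp_pos x
    nlinarith
  have h2 : 1 ≤ (1 - x) * (1 + 108 / 100 * x) := by nlinarith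
  have h3 : (1 - x) * Real.exp x ≤ (1 - x) * (1 + 108 / 100 * x) := h1.trans h2
  exact le_of_mul_le_mul_left h3 (by linarith)

theorem exp_29 {r : ℝ} (hr : 1 ≤ r) : 2048 * 10 ^ 9 * r ^ 2 ≤ Real.exp (29 * r) := by
  have h1 : 27 / 10 * r ≤ Real.exp r := by
    have h2 : Real.exp r = Real.exp 1 * Real.exp (r - 1) := by rw [← Real.exp_add]; congr 1; ring
    have h3 := Real.exp_one_gt_d9
    have h4 := Real.add_one_le_exp (r - 1)
    norm_num at h3
    rw [h2]
    have h5 : (27 / 10 : ℝ) ≤ Real.exp 1 := by linarith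
    have h6 : r ≤ Real.exp (r - 1) := by linarith
    exact mul_le_mul h5 h6 (by linarith) (Real.exp_pos _).le
  have h2 : Real.exp (29 * r) = (Real.exp r) ^ 29 := by
    rw [← Real.exp_nat_mul]; norm_num
  rw [h2]
  have h3 : (27 / 10 * r) ^ 29 ≤ (Real.exp r) ^ 29 := pow_le_pow_left₀ (by positivity) h1 29
  refine le_trans ?_ h3
  rw [mul_pow]
  have h4 : r ^ 2 ≤ r ^ 29 := pow_le_pow_right₀ hr (by norm_num)
  have h5 : (2048 * 10 ^ 9 : ℝ) ≤ (27 / 10) ^ 29 := by norm_num
  exact mul_le_mul h5 h4 (by positivity) (by positivity)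

theorem poly1 {r : ℝ} (hr1 : 1 ≤ r) :
    29 * r * ((2 * (4096 * r ^ 2) + 1) * (100015 / 100000 * (798 / 100 * r)) * (108 / 100)) ≤
      2 * (9987 / 10000) * (4096 * r ^ 2 / 4 - 11 / 8) ^ 2 := by
  have hs : 1 ≤ r ^ 2 := by nlinarith
  have e : 29 * r * ((2 * (4096 * r ^ 2) + 1) * (100015 / 100000 * (798 / 100 * r)) * (108 / 100)) =
      29 * ((2 * (4096 * r ^ 2) + 1) * (100015 / 100000 * (798 / 100)) * (108 / 100)) * r ^ 2 := by
    ring
  rw [e]
  generalize r ^ 2 = s at *
  have h2 : 0 ≤ (s - 1) * s := mul_nonneg (by linarith) (by linarith)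
  linarith

namespace WinD

theorem tail (W : WinD n lo hi) (hσ : |σ| ≤ 1) : ww σ n lo hi lo * md n ≤ 2 / 10 ^ 9 := by
  have hn := W.hn
  have h8 := W.h8
  have l1 := W.lo1
  have l2 := W.lo2
  have hm := W.m_ge
  norm_num at hm
  have hm0 := W.m_pos
  have hL := W.L_ge
  norm_num at hL
  set m := md n with hmd
  have hnm : (n : ℝ) = 2 * m - 1 := by rw [hmd]; unfold md; ring
  set c := (n - 1) / 2 with hc
  -- the size of `Lx m`
  set r := Real.sqrt (m / 4096) with hr
  have hr2 : r ^ 2 = m / 4096 := by rw [hr]; exact Real.sq_sqrt (by positivity)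
  have hr0 : 0 ≤ r := by rw [hr]; exact Real.sqrt_nonneg _
  have hr1 : 1 ≤ r := by
    by_contra hlt
    push Not at hlt
    have : r ^ 2 < 1 := by nlinarith
    rw [hr2, div_lt_one (by norm_num)] at this
    linarith
  have hmr : m = 4096 * r ^ 2 := by rw [hr2]; ring
  have hLr : Lx m ≤ 798 / 100 * r := by
    unfold Lx gam
    have e1 : Real.log m = 12 * ell + 2 * Real.log r := by
      rw [hmr, Real.log_mul (by norm_num) (by positivity), log_4096, Real.log_pow]
      norm_num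
    have e2 := Real.log_le_sub_one_of_pos (show 0 < r by linarith)
    have e3 := ell_lt
    norm_num at e3
    rw [e1]
    linarith
  set u := 100015 / 100000 * Lx m with hu
  have hu0 : 0 < u := by rw [hu]; linarith
  set b := 2 * (9987 / 10000) / ((2 * m + 1) * u * (108 / 100)) with hb
  have hb0 : 0 < b := by rw [hb]; positivity
  have hbu : b * (108 / 100) * u = 2 * (9987 / 10000) / (2 * m + 1) := by
    rw [hb]; field_simp
  -- casts
  have hc1 : (c : ℝ) + 1 ≤ m := by
    have : 2 * c + 1 ≤ n := by omega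
    have : 2 * (c : ℝ) + 1 ≤ n := by exact_mod_cast this
    linarith
  have hc2 : m - 3 / 2 ≤ (c : ℝ) := by
    have : n ≤ 2 * c + 2 := by omega
    have : (n : ℝ) ≤ 2 * c + 2 := by exact_mod_cast this
    linarith
  have hlo1 : 3 * m / 4 ≤ (lo : ℝ) + 1 := by
    have : 3 * ((n : ℝ) + 1) ≤ 8 * ((lo : ℝ) + 1) := by exact_mod_cast l1
    linarith
  have hlo2 : (lo : ℝ) + 1 ≤ 3 * m / 4 + 7 / 8 := by
    have : 8 * ((lo : ℝ) + 1) ≤ 3 * ((n : ℝ) + 1) + 7 := by exact_mod_cast l2
    linarith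
  have hlc : lo ≤ c := by omega
  have htb := tail_bound (g := gf σ) (n := n) (lo := lo) (hi := hi) hn (W.g_pos hσ) (b := b)
    (c := c) hc hlc (by
      intro d hd
      have hd1 : (lo : ℝ) + d + 1 ≤ c := by
        have : lo + d + 1 ≤ c := by omega
        exact_mod_cast this
      have x1 : ((c - d : ℕ) : ℝ) + 1 = (c : ℝ) - d + 1 := by
        rw [Nat.cast_sub (by omega)]
      have x2 : ((n - c + d : ℕ) : ℝ) + 1 = (n : ℝ) - c + d + 1 := by
        rw [Nat.cast_add, Nat.cast_sub (by omega)]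
      have a1 : (3072 : ℝ) ≤ (c : ℝ) - d + 1 := by
        rw [← x1]; exact W.x_ge (by omega)
      have a2 : (c : ℝ) - d + 1 ≤ (n : ℝ) - c + d + 1 := by
        have : (0 : ℝ) ≤ d := Nat.cast_nonneg d
        linarith
      have a3 := fb_diff' hσ a1 a2
      have a4 := fb_mono hσ a1 (show (c : ℝ) - d + 1 ≤ m by
        have : (0 : ℝ) ≤ d := Nat.cast_nonneg d
        linarith)
      have a5 := fb_le hσ (show 4096 ≤ m by linarith)
      unfold gf
      rw [x1, x2]
      set A := fb σ ((c : ℝ) - d + 1)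
      set B := fb σ ((n : ℝ) - c + d + 1)
      have hA : A ≤ u := a4.trans a5
      have hA0 : 7 ≤ A := fb_pos hσ a1
      have a6 : 2 * (9987 / 10000) / (2 * m + 1) * (2 * d + 1) ≤ B - A := by
        refine le_trans ?_ a3
        rw [show (c : ℝ) - d + 1 + ((n : ℝ) - c + d + 1) = 2 * m + 1 by rw [hnm]; ring]
        have h7 : 2 * (d : ℝ) + 1 ≤ (n : ℝ) - c + d + 1 - ((c : ℝ) - d + 1) := by linarith
        calc 2 * (9987 / 10000) / (2 * m + 1) * (2 * d + 1) =
            2 * (9987 / 10000) * (2 * (d : ℝ) + 1) / (2 * m + 1) := by ring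
          _ ≤ 2 * (9987 / 10000) * ((n : ℝ) - c + d + 1 - ((c : ℝ) - d + 1)) / (2 * m + 1) := by
              gcongr
          _ = _ := by ring
      have hd0 : (0 : ℝ) ≤ 2 * d + 1 := by positivity
      have hx : b * (2 * d + 1) ≤ 7 / 100 := by
        have h1 : 2 * (d : ℝ) + 1 ≤ m / 2 := by linarith
        have h2 : b * (2 * d + 1) ≤ b * (m / 2) := mul_le_mul_of_nonneg_left h1 hb0.le
        refine h2.trans ?_
        rw [hb, div_mul_eq_mul_div, div_le_iff₀ (by positivity)]
        have h3 : 79 / 10 ≤ u := by rw [hu]; linarith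
        have h4 := mul_le_mul_of_nonneg_left h3 (show 0 ≤ 2 * m + 1 by linarith)
        clear_value u m
        linarith
      have h9 := exp_le_lin (by positivity) hx
      have h10 : 0 ≤ b * (2 * d + 1) := by positivity
      calc Real.exp (b * (2 * d + 1)) * A ≤ (1 + 108 / 100 * (b * (2 * d + 1))) * A :=
            mul_le_mul_of_nonneg_right h9 (by linarith)
        _ = A + 108 / 100 * (b * (2 * d + 1)) * A := by ring
        _ ≤ A + 108 / 100 * (b * (2 * d + 1)) * u := by
            have := mul_le_mul_of_nonneg_left hA (show 0 ≤ 108 / 100 * (b * (2 * (d : ℝ) + 1)) by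
              positivity)
            linarith
        _ = A + (b * (108 / 100) * u) * (2 * d + 1) := by ring
        _ ≤ B := by rw [hbu]; linarith) (c - lo) (le_refl _)
  rw [show c - (c - lo) = lo by omega] at htb
  have hexp : 2048 * 10 ^ 9 * r ^ 2 ≤ Real.exp (b * ((c - lo : ℕ) : ℝ) ^ 2) := by
    refine (exp_29 hr1).trans (Real.exp_le_exp.mpr ?_)
    rw [Nat.cast_sub hlc]
    have h1 : m / 4 - 11 / 8 ≤ (c : ℝ) - lo := by linarith
    have h2 : (m / 4 - 11 / 8) ^ 2 ≤ ((c : ℝ) - lo) ^ 2 :=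
      pow_le_pow_left₀ (by linarith) h1 2
    have h3 : b * (m / 4 - 11 / 8) ^ 2 ≤ b * ((c : ℝ) - lo) ^ 2 :=
      mul_le_mul_of_nonneg_left h2 hb0.le
    refine le_trans ?_ h3
    rw [hb, div_mul_eq_mul_div, le_div_iff₀ (by positivity)]
    have hur : u ≤ 100015 / 100000 * (798 / 100 * r) := by rw [hu]; linarith
    have h4 : 29 * r * ((2 * m + 1) * u * (108 / 100)) ≤
        29 * r * ((2 * m + 1) * (100015 / 100000 * (798 / 100 * r)) * (108 / 100)) := by
      gcongr
    refine h4.trans ?_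
    rw [hmr]
    exact poly1 hr1
  have hS : wa σ n lo c ≤ Sw σ n lo hi :=
    Finset.single_le_sum (f := fun j => wa σ n lo j)
      (fun j hj => (W.wa_pos hσ (Finset.mem_Icc.mp hj).1 (Finset.mem_Icc.mp hj).2).le)
      (Finset.mem_Icc.mpr ⟨hlc, by omega⟩)
  have hS0 := W.Sw_pos hσ
  have hw0 := W.wa_pos hσ (le_refl lo) W.lohi.le
  unfold ww
  rw [div_mul_eq_mul_div, div_le_iff₀ hS0]
  have h1 : wa σ n lo lo * (2048 * 10 ^ 9 * r ^ 2) ≤ Sw σ n lo hi :=
    (mul_le_mul_of_nonneg_left hexp hw0.le).trans (htb.trans hS)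
  rw [hmr]
  linarith

end WinD

end Pool.Agent.H95.Gilbert
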