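import Mathlib
import Pool.Agent.H95.Gilbert.TailB
import Pool.Agent.H95.Gilbert.EtaB

/-! The induction step. -/

namespace Pool.Agent.H95.Gilbert

open Finset

variable {σ : ℝ} {n lo hi : ℕ}

theorem fb_split (σ x : ℝ) : fb σ x = U x + qf σ x := by unfold fb qf; ring

/-- the test function on the half-integers -/
noncomputable def Gt (n j : ℕ) : ℝ :=
  hh (md n) (((j : ℝ) + 1 - md n) / md n) + hh (md n) (((j : ℝ) - md n) / md n)

namespace WinD

theorem Gt_odd (W : WinD n lo hi) : ∀ j, lo ≤ j → j ≤ hi + 1 → Gt n (n - j) = - Gt n j := by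
  intro j h1 h2
  have hn := W.hn
  have e : ((n - j : ℕ) : ℝ) = 2 * md n - 1 - j := by
    rw [Nat.cast_sub (by omega)]
    unfold md
    ring
  unfold Gt
  rw [e]
  rw [show (2 * md n - 1 - (j : ℝ) + 1 - md n) / md n = -(((j : ℝ) - md n) / md n) by ring,
    show (2 * md n - 1 - (j : ℝ) - md n) / md n = -(((j : ℝ) + 1 - md n) / md n) by ring,
    hh_odd, hh_odd]
  ring

theorem Gt_top (W : WinD n lo hi) : 0 ≤ Gt n (hi + 1) ∧ Gt n (hi + 1) ≤ 14 / 100 := by
  have hm := W.m_ge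
  norm_num at hm
  have hm0 := W.m_pos
  have h1 := W.Ko_bd (j := hi) W.lohi.le (le_refl _)
  have hK : 0 ≤ Ko n hi := by
    have h2 := W.Ko_refl (j := lo) W.lohi.le
    have hn := W.hn
    rw [show n - 1 - lo = hi by omega] at h2
    have h3 : (lo : ℝ) ≤ hi := by exact_mod_cast W.lohi.le
    unfold Ko at h2 ⊢
    linarith
  rw [abs_of_nonneg hK] at h1
  have e1 : (((hi + 1 : ℕ) : ℝ) + 1 - md n) / md n = (Ko n hi + 1) / md n := by
    unfold Ko; push_cast; ring
  have e2 : (((hi + 1 : ℕ) : ℝ) - md n) / md n = Ko n hi / md n := by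
    unfold Ko; push_cast; ring
  unfold Gt
  rw [e1, e2]
  have b1 := hh_bd (m := md n) (by linarith) (s := (Ko n hi + 1) / md n) (by positivity) (by
    rw [div_le_iff₀ hm0]; linarith)
  have b2 := hh_bd (m := md n) (by linarith) (s := Ko n hi / md n) (by positivity) (by
    rw [div_le_iff₀ hm0]; linarith)
  constructor <;> linarith

/-- the average of the barrier function -/
theorem avg_eq (W : WinD n lo hi) (hσ : |σ| ≤ 1) :
    ∑ j ∈ Icc lo hi, ww σ n lo hi j * gf σ j =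
    ∑ j ∈ Icc lo hi, ww σ n lo hi j * (gf σ j * Wf (md n) (tj n j)) +
      ww σ n lo hi lo * gf σ lo * Gt n (hi + 1) := by
  have hm0 := W.m_pos
  have h1 := tele_odd W.hn W.lohi.le (W.g_pos hσ) (Gt n) W.Gt_odd
  have h2 : ∑ j ∈ Icc lo hi, ww σ n lo hi j * (gf σ j * Gt n j) =
      - (ww σ n lo hi lo * gf σ lo * Gt n (hi + 1)) := by
    have e : ∑ j ∈ Icc lo hi, ww σ n lo hi j * (gf σ j * Gt n j) =
        (∑ j ∈ Icc lo hi, aw (gf σ) n lo j * (gf σ j * Gt n j)) / Sw σ n lo hi := by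
      rw [Finset.sum_div]
      refine Finset.sum_congr rfl fun j _ => ?_
      unfold ww wa
      ring
    rw [e, h1]
    unfold ww wa
    ring
  have h3 : ∑ j ∈ Icc lo hi, ww σ n lo hi j * (gf σ j * Wf (md n) (tj n j)) =
      ∑ j ∈ Icc lo hi, ww σ n lo hi j * gf σ j +
      ∑ j ∈ Icc lo hi, ww σ n lo hi j * (gf σ j * Gt n j) := by
    rw [← Finset.sum_add_distrib]
    refine Finset.sum_congr rfl fun j _ => ?_
    rw [Wf_eq]
    unfold Gt tj Ko
    rw [show ((j : ℝ) + 1 - md n) / md n - 1 / md n = ((j : ℝ) - md n) / md n by ring]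
    ring
  rw [h3, h2]
  ring

theorem avg_sym (W : WinD n lo hi) :
    ∑ j ∈ Icc lo hi, ww σ n lo hi j * (gf σ j * Wf (md n) (tj n j)) =
    ∑ j ∈ Icc lo hi, ww σ n lo hi j * ((gf σ j * Wf (md n) (tj n j) +
      gf σ (n - 1 - j) * Wf (md n) (-(tj n j))) / 2) := by
  have h1 : ∑ j ∈ Icc lo hi, ww σ n lo hi j * (gf σ j * Wf (md n) (tj n j)) =
      ∑ j ∈ Icc lo hi, ww σ n lo hi j * (gf σ (n - 1 - j) * Wf (md n) (-(tj n j))) := by
    rw [← sum_reflect W.hn]
    refine Finset.sum_congr rfl fun j hj => ?_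
    rw [Finset.mem_Icc] at hj
    unfold ww
    rw [W.wa_sym hj.1 hj.2, W.tj_refl hj.2]
  have h2 : ∑ j ∈ Icc lo hi, ww σ n lo hi j * ((gf σ j * Wf (md n) (tj n j) +
      gf σ (n - 1 - j) * Wf (md n) (-(tj n j))) / 2) =
      (∑ j ∈ Icc lo hi, ww σ n lo hi j * (gf σ j * Wf (md n) (tj n j)) +
      ∑ j ∈ Icc lo hi, ww σ n lo hi j * (gf σ (n - 1 - j) * Wf (md n) (-(tj n j)))) / 2 := by
    rw [← Finset.sum_add_distrib, Finset.sum_div]
    exact Finset.sum_congr rfl fun j _ => by ring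
  rw [h2, ← h1]
  ring

theorem main_step (W : WinD n lo hi) (hσ : σ = 1 ∨ σ = -1) :
    σ * (∑ j ∈ Icc lo hi, ww σ n lo hi j * (gf σ j * Wf (md n) (tj n j)) - Cm (md n) -
      eta (md n)) ≤ EE - Dd (md n) + 65 / 100 * (Lx (md n) / md n) ^ 4 +
      (68 * eps + 7 / 10 * Dd (md n)) * (50075 / 100000 * (Lx (md n) / md n)) +
      5 / 10 * eps * (1 / md n) := by
  have hσ1 : |σ| ≤ 1 := by rcases hσ with h | h <;> rw [h] <;> norm_num
  have hσa : |σ| = 1 := by rcases hσ with h | h <;> rw [h] <;> norm_num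
  have hm := W.m_ge
  norm_num at hm
  have hm0 := W.m_pos
  have hL := W.L_ge
  norm_num at hL
  have hws := W.ww_sum hσ1
  set m := md n with hmd
  have hn := W.hn
  -- decomposition
  have h1 : ∑ j ∈ Icc lo hi, ww σ n lo hi j * (gf σ j * Wf m (tj n j)) - Cm m - eta m =
      ∑ j ∈ Icc lo hi, ww σ n lo hi j * ((U (m * (1 + tj n j)) * Wf m (tj n j) +
        U (m * (1 - tj n j)) * Wf m (-(tj n j))) / 2 - Cm m) +
      ∑ j ∈ Icc lo hi, ww σ n lo hi j * ((qf σ (m * (1 + tj n j)) * Wf m (tj n j) +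
        qf σ (m * (1 - tj n j)) * Wf m (-(tj n j))) / 2 - eta m) := by
    have e1 : Cm m + eta m = ∑ j ∈ Icc lo hi, ww σ n lo hi j * (Cm m + eta m) := by
      rw [← Finset.sum_mul, hws, one_mul]
    rw [sub_sub, W.avg_sym, e1, ← Finset.sum_sub_distrib, ← Finset.sum_add_distrib]
    refine Finset.sum_congr rfl fun j hj => ?_
    rw [Finset.mem_Icc] at hj
    have x1 : gf σ j = fb σ (m * (1 + tj n j)) := by
      unfold gf; rw [W.x_eq j]
    have x2 : gf σ (n - 1 - j) = fb σ (m * (1 - tj n j)) := by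
      unfold gf; rw [W.x_eq (n - 1 - j), W.tj_refl hj.2]
      rfl
    rw [x1, x2, fb_split, fb_split]
    ring
  have h2 := main_avg (Icc lo hi) (ww σ n lo hi) (tj n) (W.ww_nonneg hσ1)
    (fun j hj => W.tj_bd (Finset.mem_Icc.mp hj).1 (Finset.mem_Icc.mp hj).2) hm0 W.z_le
    (by linarith) (W.mom hσ1)
    (fun j hj => W_abs (by linarith) (W.tj_bd (Finset.mem_Icc.mp hj).1 (Finset.mem_Icc.mp hj).2))
    (fun j hj => W_abs (by linarith) (by
      rw [abs_neg]; exact W.tj_bd (Finset.mem_Icc.mp hj).1 (Finset.mem_Icc.mp hj).2))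
  have h3 : σ * ∑ j ∈ Icc lo hi, ww σ n lo hi j * ((qf σ (m * (1 + tj n j)) * Wf m (tj n j) +
        qf σ (m * (1 - tj n j)) * Wf m (-(tj n j))) / 2 - eta m) ≤
      EE - Dd m + (68 * eps + 7 / 10 * Dd m) * Am σ n lo hi 1 + 5 / 10 * eps * (1 / m) := by
    have e1 : EE - Dd m + (68 * eps + 7 / 10 * Dd m) * Am σ n lo hi 1 + 5 / 10 * eps * (1 / m) =
        ∑ j ∈ Icc lo hi, ww σ n lo hi j * (EE - Dd m + (68 * eps + 7 / 10 * Dd m) * tj n j ^ 2 +
          5 / 10 * eps * (1 / m)) := by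
      have e2 : ∀ j, ww σ n lo hi j * (EE - Dd m + (68 * eps + 7 / 10 * Dd m) * tj n j ^ 2 +
          5 / 10 * eps * (1 / m)) = ww σ n lo hi j * (EE - Dd m + 5 / 10 * eps * (1 / m)) +
          (68 * eps + 7 / 10 * Dd m) * (ww σ n lo hi j * (tj n j ^ 2) ^ 1) := by
        intro j; ring
      simp only [e2]
      rw [Finset.sum_add_distrib, ← Finset.sum_mul, hws, ← Finset.mul_sum]
      unfold Am
      ring
    rw [e1, Finset.mul_sum]
    refine Finset.sum_le_sum fun j hj => ?_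
    have h4 := q_step hσ (m := m) (t := tj n j) (by linarith)
      (W.tj_bd (Finset.mem_Icc.mp hj).1 (Finset.mem_Icc.mp hj).2)
    have h5 := mul_le_mul_of_nonneg_left h4 (W.ww_nonneg hσ1 j hj)
    calc _ = ww σ n lo hi j * (σ * ((qf σ (m * (1 + tj n j)) * Wf m (tj n j) +
        qf σ (m * (1 - tj n j)) * Wf m (-(tj n j))) / 2 - eta m)) := by ring
      _ ≤ _ := h5
  have h6 := (W.moments hσ1 (z := Lx m / m) rfl).1
  have h7 : (68 * eps + 7 / 10 * Dd m) * Am σ n lo hi 1 ≤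
      (68 * eps + 7 / 10 * Dd m) * (50075 / 100000 * (Lx m / m)) := by
    refine mul_le_mul_of_nonneg_left h6 ?_
    have := eps_nonneg
    have := (Dd_bd (show 3072 ≤ m by linarith)).1
    positivity
  rw [h1, mul_add]
  have h8 : σ * ∑ j ∈ Icc lo hi, ww σ n lo hi j * ((U (m * (1 + tj n j)) * Wf m (tj n j) +
        U (m * (1 - tj n j)) * Wf m (-(tj n j))) / 2 - Cm m) ≤ 65 / 100 * (Lx m / m) ^ 4 := by
    calc _ ≤ |σ * ∑ j ∈ Icc lo hi, ww σ n lo hi j * ((U (m * (1 + tj n j)) * Wf m (tj n j) +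
        U (m * (1 - tj n j)) * Wf m (-(tj n j))) / 2 - Cm m)| := le_abs_self _
      _ = _ := by rw [abs_mul, hσa, one_mul]
      _ ≤ _ := h2
  linarith

/-- the numerical inequality of the step -/
theorem num_step (W : WinD n lo hi) :
    65 / 100 * (Lx (md n) / md n) ^ 4 +
      (68 * eps + 7 / 10 * Dd (md n)) * (50075 / 100000 * (Lx (md n) / md n)) +
      5 / 10 * eps * (1 / md n) + 21 / 10 ^ 10 * (Lx (md n) / md n) ≤
    Dd (md n) - Dd (2 * md n) := by
  have hm0 := W.m_pos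
  have hL := W.L_ge
  norm_num at hL
  have hz := W.z_le
  have hl := ell_lt
  norm_num at hl
  have hL2 : Lx (2 * md n) = Lx (md n) + ell := by
    rw [mul_comm, Lx_mul hm0 (by norm_num)]; rfl
  have e1 : Dd (md n) = kap * (Lx (md n) / md n) := by unfold Dd; ring
  have e2 : Dd (2 * md n) = kap * ((Lx (md n) / md n) + ell * (1 / md n)) / 2 := by
    unfold Dd; rw [hL2]; field_simp
  rw [e1, e2]
  have hy : 1 / md n ≤ (Lx (md n) / md n) * (10000 / 79797) := by
    rw [div_mul_eq_mul_div, div_le_div_iff_of_pos_right hm0]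
    linarith
  have hy0 : 0 < 1 / md n := by positivity
  have hz0 : 0 < Lx (md n) / md n := div_pos (by linarith) hm0
  generalize Lx (md n) / md n = z at *
  generalize 1 / md n = y at *
  have hly : ell * y ≤ 6932 / 10000 * (z * (10000 / 79797)) := by
    have := ell_gt
    calc ell * y ≤ 6932 / 10000 * y := mul_le_mul_of_nonneg_right (by linarith) hy0.le
      _ ≤ _ := mul_le_mul_of_nonneg_left hy (by norm_num)
  have hz4 : z ^ 4 ≤ (1948 / 1000000) ^ 3 * z := by
    have := pow_le_pow_left₀ hz0.le hz 3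
    calc z ^ 4 = z ^ 3 * z := by ring
      _ ≤ _ := mul_le_mul_of_nonneg_right this hz0.le
  have hz2 : z ^ 2 ≤ (1948 / 1000000) * z := by nlinarith
  unfold kap eps
  clear e1 e2 hL2
  linarith

theorem tail' (W : WinD n lo hi) (hσ : |σ| ≤ 1) :
    0 ≤ ww σ n lo hi lo * gf σ lo ∧
    ww σ n lo hi lo * gf σ lo ≤ 21 / 10 ^ 10 * (Lx (md n) / md n) := by
  have hm := W.m_ge
  norm_num at hm
  have hm0 := W.m_pos
  have hL := W.L_ge
  norm_num at hL
  have h1 := W.tail hσ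
  have h2 := W.ww_nonneg hσ lo (Finset.mem_Icc.mpr ⟨le_refl _, W.lohi.le⟩)
  have h3 := W.g_pos hσ lo (le_refl _) W.lohi.le
  have h4 : gf σ lo ≤ 100015 / 100000 * Lx (md n) := by
    unfold gf
    refine (fb_mono hσ (W.x_ge (le_refl _)) ?_).trans (fb_le hσ (by linarith))
    have h5 := W.Ko_refl (j := lo) W.lohi.le
    have hn := W.hn
    rw [show n - 1 - lo = hi by omega] at h5
    have h6 : (lo : ℝ) ≤ hi := by exact_mod_cast W.lohi.le
    unfold Ko at h5
    linarith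
  refine ⟨mul_nonneg h2 h3.le, ?_⟩
  have h5 : ww σ n lo hi lo ≤ 2 / 10 ^ 9 / md n := by rwa [le_div_iff₀ hm0]
  calc _ ≤ (2 / 10 ^ 9 / md n) * (100015 / 100000 * Lx (md n)) :=
        mul_le_mul h5 h4 h3.le (by positivity)
    _ = (2 / 10 ^ 9 * (100015 / 100000)) * (Lx (md n) / md n) := by ring
    _ ≤ _ := by
        refine mul_le_mul_of_nonneg_right ?_ (div_nonneg (by linarith) hm0.le)
        norm_num

theorem omg_ell : omg * ell = 2 * Real.pi := by
  unfold omg
  have := ell_gt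
  have h : ell ≠ 0 := by norm_num at this; linarith
  field_simp

theorem eta_two {m : ℝ} (hm : 0 < m) : eta (2 * m) = eta m := by
  unfold eta
  rw [Real.log_mul (by norm_num) hm.ne']
  have : omg * (Real.log 2 + Real.log m) = omg * Real.log m + 2 * Real.pi := by
    have := omg_ell
    unfold ell at this
    linarith
  rw [this, Real.cos_add_two_pi]

theorem fb_two (W : WinD n lo hi) (σ : ℝ) : fb σ ((n : ℝ) + 1) =
    Cm (md n) + ell + eta (md n) + σ * (EE - Dd (2 * md n)) := by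
  have h : (n : ℝ) + 1 = 2 * md n := by unfold md; ring
  rw [h]
  unfold fb
  rw [Cm_eq W.m_pos, eta_two W.m_pos]

theorem step_up (W : WinD n lo hi) :
    ell + ∑ j ∈ Icc lo hi, ww 1 n lo hi j * gf 1 j ≤ fb 1 ((n : ℝ) + 1) := by
  have h1 := W.main_step (σ := 1) (Or.inl rfl)
  have h2 := W.num_step
  have h3 := W.avg_eq (σ := 1) (by norm_num)
  have h4 := W.tail' (σ := 1) (by norm_num)
  have h5 := W.Gt_top
  have h6 : ww 1 n lo hi lo * gf 1 lo * Gt n (hi + 1) ≤ ww 1 n lo hi lo * gf 1 lo := by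
    have := mul_le_mul_of_nonneg_left h5.2 h4.1
    have := h4.1
    linarith
  rw [W.fb_two, h3]
  linarith

theorem step_lo (W : WinD n lo hi) :
    fb (-1) ((n : ℝ) + 1) ≤ ell + ∑ j ∈ Icc lo hi, ww (-1) n lo hi j * gf (-1) j -
      ww (-1) n lo hi lo * gf (-1) lo := by
  have h1 := W.main_step (σ := -1) (Or.inr rfl)
  have h2 := W.num_step
  have h3 := W.avg_eq (σ := -1) (by norm_num)
  have h4 := W.tail' (σ := -1) (by norm_num)
  have h5 := W.Gt_top
  have h6 : 0 ≤ ww (-1) n lo hi lo * gf (-1) lo * Gt n (hi + 1) := mul_nonneg h4.1 h5.1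
  rw [W.fb_two, h3]
  linarith

end WinD

end Pool.Agent.H95.Gilbert
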