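import Mathlib
import Pool.Agent.H95.Gilbert.Step
import Pool.Agent.H95.Gilbert.Window2

/-! The induction. -/

namespace Pool.Agent.H95.Gilbert

open Finset

variable {V : ℕ → ℝ}

/-- the barriers hold at `n` -/
def Bar (V : ℕ → ℝ) (n : ℕ) : Prop :=
  fb (-1) ((n : ℝ) + 1) ≤ ell * V n ∧ ell * V n ≤ fb 1 ((n : ℝ) + 1)

theorem ell_pos : 0 < ell := by have := ell_gt; norm_num at this; linarith

theorem bar_step (hV : IsGilbertValue V) {n : ℕ} (h8 : 8194 ≤ n)
    (ih : ∀ k, 3073 ≤ k → k < n → Bar V k) : Bar V n := by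
  set lo := (3 * (n + 1) + 7) / 8 - 1 with hlo
  set hi := n - 1 - lo with hhi
  have W : WinD n lo hi := ⟨by omega, h8, by omega, by omega⟩
  have hn := W.hn
  have hlh := W.lohi
  have hlo3 : 3073 ≤ lo := by omega
  have hl := ell_pos
  have s1 : |(1 : ℝ)| ≤ 1 := by norm_num
  have s2 : |(-1 : ℝ)| ≤ 1 := by norm_num
  constructor
  · -- lower bound
    have hS := W.Sw_pos s2
    have h := blue_window hV hn hlh (fun j => gf (-1) j / ell) (wa (-1) n lo)
      (fun j h1 h2 => W.wa_pos s2 h1 h2)
      (fun j h1 h2 => div_pos (W.g_pos s2 j h1 h2) hl)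
      (fun j h1 h2 => by
        rw [div_le_iff₀ hl, mul_comm]
        exact (ih j (by omega) (by omega)).1)
      (fun j h1 h2 => by
        have := aw_rec hn (W.g_pos s2) h1 h2
        unfold wa
        rw [mul_div_assoc', mul_div_assoc', this])
      (fun j h1 h2 => W.wa_sym h1 h2)
      (fun j h1 h2 => by
        rw [div_lt_div_iff_of_pos_right hl]
        unfold gf
        refine fb_strict s2 (W.x_ge h1) ?_
        push_cast
        linarith)
      (fun j h1 h2 => by
        rw [← sub_div, ← sub_div, div_le_div_iff_of_pos_right hl]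
        have := fb_mid s2 (W.x_ge h1) (W.x_ge (j := j + 2) (by omega))
        unfold gf
        rw [show (((j : ℝ) + 1) + (((j + 2 : ℕ) : ℝ) + 1)) / 2 = ((j + 1 : ℕ) : ℝ) + 1 by
          push_cast; ring] at this
        linarith)
    have h2 := W.step_lo
    have e1 : ∑ j ∈ Icc lo hi, wa (-1) n lo j * (gf (-1) j / ell) =
        (∑ j ∈ Icc lo hi, ww (-1) n lo hi j * gf (-1) j) * Sw (-1) n lo hi / ell := by
      rw [Finset.sum_mul, Finset.sum_div]
      refine Finset.sum_congr rfl fun j _ => ?_
      unfold ww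
      field_simp
    have e2 : wa (-1) n lo lo * (gf (-1) lo / ell) =
        (ww (-1) n lo hi lo * gf (-1) lo) * Sw (-1) n lo hi / ell := by
      unfold ww
      field_simp
    have e3 : ∑ j ∈ Icc lo hi, wa (-1) n lo j = Sw (-1) n lo hi := rfl
    rw [e1, e3] at h

    rw [e2] at h
    have h3 : (ell + ∑ j ∈ Icc lo hi, ww (-1) n lo hi j * gf (-1) j -
      ww (-1) n lo hi lo * gf (-1) lo) * Sw (-1) n lo hi ≤ (ell * V n) * Sw (-1) n lo hi := by
      have h4 := mul_le_mul_of_nonneg_left h hl.le
      calc _ = ell * (Sw (-1) n lo hi + (∑ j ∈ Icc lo hi, ww (-1) n lo hi j * gf (-1) j) *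
            Sw (-1) n lo hi / ell - (ww (-1) n lo hi lo * gf (-1) lo) * Sw (-1) n lo hi / ell) := by
            field_simp
        _ ≤ _ := h4
        _ = _ := by ring
    exact h2.trans (le_of_mul_le_mul_right h3 hS)
  · -- upper bound
    have hS := W.Sw_pos s1
    have h := red_window hV hn hlh.le (fun j => gf 1 j / ell) (wa 1 n lo)
      (fun j h1 h2 => W.wa_pos s1 h1 h2)
      (fun j h1 h2 => by
        rw [le_div_iff₀ hl, mul_comm]
        exact (ih j (by omega) (by omega)).2)
      (fun j h1 h2 => by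
        have := aw_rec hn (W.g_pos s1) h1 h2
        unfold wa
        rw [mul_div_assoc', mul_div_assoc', this])
      (by
        have := W.wa_sym (σ := 1) (le_refl lo) hlh.le
        rw [show n - 1 - lo = hi by omega] at this
        rw [this])
    have h2 := W.step_up
    have e1 : ∑ j ∈ Icc lo hi, wa 1 n lo j * (gf 1 j / ell) =
        (∑ j ∈ Icc lo hi, ww 1 n lo hi j * gf 1 j) * Sw 1 n lo hi / ell := by
      rw [Finset.sum_mul, Finset.sum_div]
      refine Finset.sum_congr rfl fun j _ => ?_
      unfold ww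
      field_simp
    have e3 : ∑ j ∈ Icc lo hi, wa 1 n lo j = Sw 1 n lo hi := rfl
    rw [e1, e3] at h
    have h3 : (ell * V n) * Sw 1 n lo hi ≤
        (ell + ∑ j ∈ Icc lo hi, ww 1 n lo hi j * gf 1 j) * Sw 1 n lo hi := by
      have h4 := mul_le_mul_of_nonneg_left h hl.le
      calc _ = ell * (V n * Sw 1 n lo hi) := by ring
        _ ≤ _ := h4
        _ = _ := by field_simp
    exact (le_of_mul_le_mul_right h3 hS).trans h2

theorem bar_all (hV : IsGilbertValue V) (h0 : ∀ k, 3073 ≤ k → k ≤ 8193 → Bar V k) :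
    ∀ n, 3073 ≤ n → Bar V n := by
  intro n
  induction n using Nat.strong_induction_on with
  | _ n ih =>
    intro hn
    rcases Nat.lt_or_ge n 8194 with h | h
    · exact h0 n hn (by omega)
    · exact bar_step hV h (fun k h1 h2 => ih k h2 h1)

end Pool.Agent.H95.Gilbert
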