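import Mathlib
import Pool.Agent.H95.Gilbert.BlkSound2
import Pool.Agent.H95.Gilbert.ChSmall
import Pool.Agent.H95.Gilbert.Ch00
import Pool.Agent.H95.Gilbert.Ch01
import Pool.Agent.H95.Gilbert.Ch02
import Pool.Agent.H95.Gilbert.Ch03
import Pool.Agent.H95.Gilbert.Ch04
import Pool.Agent.H95.Gilbert.Ch05
import Pool.Agent.H95.Gilbert.Ch06
import Pool.Agent.H95.Gilbert.Ch07
import Pool.Agent.H95.Gilbert.Ch08
import Pool.Agent.H95.Gilbert.Ch09
import Pool.Agent.H95.Gilbert.Ch10
import Pool.Agent.H95.Gilbert.Ch11

/-! The values `V n` for `n ≤ 8193`. -/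

namespace Pool.Agent.H95.Gilbert

open Blk

theorem chs0 : ∀ j, 0 ≤ j → j ≤ 43 → chunk tab (32 + 2 * j) 16 = true := by
  intro j h1 h2
  interval_cases j
  · exact ch0
  · exact ch1
  · exact ch2
  · exact ch3
  · exact ch4
  · exact ch5
  · exact ch6
  · exact ch7
  · exact ch8
  · exact ch9
  · exact ch10
  · exact ch11
  · exact ch12
  · exact ch13
  · exact ch14
  · exact ch15
  · exact ch16
  · exact ch17
  · exact ch18
  · exact ch19
  · exact ch20
  · exact ch21
  · exact ch22
  · exact ch23
  · exact ch24
  · exact ch25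
  · exact ch26
  · exact ch27
  · exact ch28
  · exact ch29
  · exact ch30
  · exact ch31
  · exact ch32
  · exact ch33
  · exact ch34
  · exact ch35
  · exact ch36
  · exact ch37
  · exact ch38
  · exact ch39
  · exact ch40
  · exact ch41
  · exact ch42
  · exact ch43

theorem chs1 : ∀ j, 44 ≤ j → j ≤ 71 → chunk tab (32 + 2 * j) 16 = true := by
  intro j h1 h2
  interval_cases j
  · exact ch44
  · exact ch45
  · exact ch46
  · exact ch47
  · exact ch48
  · exact ch49
  · exact ch50
  · exact ch51
  · exact ch52
  · exact ch53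
  · exact ch54
  · exact ch55
  · exact ch56
  · exact ch57
  · exact ch58
  · exact ch59
  · exact ch60
  · exact ch61
  · exact ch62
  · exact ch63
  · exact ch64
  · exact ch65
  · exact ch66
  · exact ch67
  · exact ch68
  · exact ch69
  · exact ch70
  · exact ch71

theorem chs2 : ∀ j, 72 ≤ j → j ≤ 95 → chunk tab (32 + 2 * j) 16 = true := by
  intro j h1 h2
  interval_cases j
  · exact ch72
  · exact ch73
  · exact ch74
  · exact ch75
  · exact ch76
  · exact ch77
  · exact ch78
  · exact ch79
  · exact ch80
  · exact ch81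
  · exact ch82
  · exact ch83
  · exact ch84
  · exact ch85
  · exact ch86
  · exact ch87
  · exact ch88
  · exact ch89
  · exact ch90
  · exact ch91
  · exact ch92
  · exact ch93
  · exact ch94
  · exact ch95

theorem chs3 : ∀ j, 96 ≤ j → j ≤ 115 → chunk tab (32 + 2 * j) 16 = true := by
  intro j h1 h2
  interval_cases j
  · exact ch96
  · exact ch97
  · exact ch98
  · exact ch99
  · exact ch100
  · exact ch101
  · exact ch102
  · exact ch103
  · exact ch104
  · exact ch105
  · exact ch106
  · exact ch107
  · exact ch108
  · exact ch109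
  · exact ch110
  · exact ch111
  · exact ch112
  · exact ch113
  · exact ch114
  · exact ch115

theorem chs4 : ∀ j, 116 ≤ j → j ≤ 134 → chunk tab (32 + 2 * j) 16 = true := by
  intro j h1 h2
  interval_cases j
  · exact ch116
  · exact ch117
  · exact ch118
  · exact ch119
  · exact ch120
  · exact ch121
  · exact ch122
  · exact ch123
  · exact ch124
  · exact ch125
  · exact ch126
  · exact ch127
  · exact ch128
  · exact ch129
  · exact ch130
  · exact ch131
  · exact ch132
  · exact ch133
  · exact ch134

theorem chs5 : ∀ j, 135 ≤ j → j ≤ 152 → chunk tab (32 + 2 * j) 16 = true := by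
  intro j h1 h2
  interval_cases j
  · exact ch135
  · exact ch136
  · exact ch137
  · exact ch138
  · exact ch139
  · exact ch140
  · exact ch141
  · exact ch142
  · exact ch143
  · exact ch144
  · exact ch145
  · exact ch146
  · exact ch147
  · exact ch148
  · exact ch149
  · exact ch150
  · exact ch151
  · exact ch152

theorem chs6 : ∀ j, 153 ≤ j → j ≤ 168 → chunk tab (32 + 2 * j) 16 = true := by
  intro j h1 h2
  interval_cases j
  · exact ch153
  · exact ch154
  · exact ch155
  · exact ch156
  · exact ch157
  · exact ch158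
  · exact ch159
  · exact ch160
  · exact ch161
  · exact ch162
  · exact ch163
  · exact ch164
  · exact ch165
  · exact ch166
  · exact ch167
  · exact ch168

theorem chs7 : ∀ j, 169 ≤ j → j ≤ 183 → chunk tab (32 + 2 * j) 16 = true := by
  intro j h1 h2
  interval_cases j
  · exact ch169
  · exact ch170
  · exact ch171
  · exact ch172
  · exact ch173
  · exact ch174
  · exact ch175
  · exact ch176
  · exact ch177
  · exact ch178
  · exact ch179
  · exact ch180
  · exact ch181
  · exact ch182
  · exact ch183

theorem chs8 : ∀ j, 184 ≤ j → j ≤ 198 → chunk tab (32 + 2 * j) 16 = true := by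
  intro j h1 h2
  interval_cases j
  · exact ch184
  · exact ch185
  · exact ch186
  · exact ch187
  · exact ch188
  · exact ch189
  · exact ch190
  · exact ch191
  · exact ch192
  · exact ch193
  · exact ch194
  · exact ch195
  · exact ch196
  · exact ch197
  · exact ch198

theorem chs9 : ∀ j, 199 ≤ j → j ≤ 213 → chunk tab (32 + 2 * j) 16 = true := by
  intro j h1 h2
  interval_cases j
  · exact ch199
  · exact ch200
  · exact ch201
  · exact ch202
  · exact ch203
  · exact ch204
  · exact ch205
  · exact ch206
  · exact ch207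
  · exact ch208
  · exact ch209
  · exact ch210
  · exact ch211
  · exact ch212
  · exact ch213

theorem chs10 : ∀ j, 214 ≤ j → j ≤ 226 → chunk tab (32 + 2 * j) 16 = true := by
  intro j h1 h2
  interval_cases j
  · exact ch214
  · exact ch215
  · exact ch216
  · exact ch217
  · exact ch218
  · exact ch219
  · exact ch220
  · exact ch221
  · exact ch222
  · exact ch223
  · exact ch224
  · exact ch225
  · exact ch226

theorem chs11 : ∀ j, 227 ≤ j → j ≤ 239 → chunk tab (32 + 2 * j) 16 = true := by
  intro j h1 h2
  interval_cases j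
  · exact ch227
  · exact ch228
  · exact ch229
  · exact ch230
  · exact ch231
  · exact ch232
  · exact ch233
  · exact ch234
  · exact ch235
  · exact ch236
  · exact ch237
  · exact ch238
  · exact ch239

theorem chs : ∀ j, j < 240 → chunk tab (32 + 2 * j) 16 = true := by
  intro j hj
  rcases Nat.lt_or_ge 43 j with h0 | h0
  swap
  · exact chs0 j (by omega) h0
  rcases Nat.lt_or_ge 71 j with h1 | h1
  swap
  · exact chs1 j (by omega) h1
  rcases Nat.lt_or_ge 95 j with h2 | h2
  swap
  · exact chs2 j (by omega) h2
  rcases Nat.lt_or_ge 115 j with h3 | h3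
  swap
  · exact chs3 j (by omega) h3
  rcases Nat.lt_or_ge 134 j with h4 | h4
  swap
  · exact chs4 j (by omega) h4
  rcases Nat.lt_or_ge 152 j with h5 | h5
  swap
  · exact chs5 j (by omega) h5
  rcases Nat.lt_or_ge 168 j with h6 | h6
  swap
  · exact chs6 j (by omega) h6
  rcases Nat.lt_or_ge 183 j with h7 | h7
  swap
  · exact chs7 j (by omega) h7
  rcases Nat.lt_or_ge 198 j with h8 | h8
  swap
  · exact chs8 j (by omega) h8
  rcases Nat.lt_or_ge 213 j with h9 | h9
  swap
  · exact chs9 j (by omega) h9
  rcases Nat.lt_or_ge 226 j with h10 | h10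
  swap
  · exact chs10 j (by omega) h10
  exact chs11 j (by omega) (by omega)

/-- the table as a function -/
def tv (n : ℕ) : ℕ := if n = 0 then 0 else getB tab (n - 1)

theorem asc_tab : Asc tv 1 tab := by
  refine (Asc.getB (l := tab) (i := 1)).congr fun j hj => ?_
  unfold tv
  rw [if_neg (by omega)]

theorem tv_zero : tv 0 = 0 := rfl

theorem tv_one : tv 1 = SS := headIs_sound head_ok asc_tab.elems

theorem tabOK_top : TabOK tv 8240 ∧ tv 8240 ≤ 50 * SS := by
  obtain ⟨h1, h2⟩ := tabchk_sound 8239 (i := 0) tabchk_ok tv_zero.symm tv_one.symm asc_tab.elems.tl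
  refine ⟨⟨tv_zero, tv_one, fun j hj => ?_, fun j hj => ?_⟩, ?_⟩
  · rcases Nat.eq_zero_or_pos j with h | h
    · subst h; rw [tv_zero, tv_one]; norm_num
    · exact (h1 j (by omega) (by omega)).1
  · have := (h1 (j + 1) (by omega) (by omega)).2
    rwa [show j + 1 - 1 = j by omega] at this
  · refine h2.trans ?_
    norm_num

theorem tabOK : TabOK tv 8240 := tabOK_top.1

theorem good : ∀ p, 1 ≤ p → p ≤ 4096 → GoodE tv p ∧ GoodO tv p := by
  intro p h1 h2
  rcases Nat.lt_or_ge 256 p with h | h
  · have h3 := chunk_sound tabOK tabOK_top.2 asc_tab (chs ((p - 257) / 16) (by omega))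
      (by omega) ((p - 257) % 16) (Nat.mod_lt _ (by norm_num))
    rwa [show 8 * (32 + 2 * ((p - 257) / 16)) + 1 + (p - 257) % 16 = p by omega] at h3
  · exact small_sound tv_zero asc_tab small_ok p h1 h

theorem table_bd {V : ℕ → ℝ} (hV : IsGilbertValue V) : ∀ n, n ≤ 8193 → Bd V tv n := by
  intro n
  induction n using Nat.strong_induction_on with
  | _ n ih =>
    intro hn
    have hB : ∀ j < n, Bd V tv j := fun j hj => ih j hj (by omega)
    rcases Nat.lt_or_ge n 2 with h | h
    · interval_cases n
      · constructor
        · rw [tv_zero, hV.1]; norm_num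
        · rw [tv_zero, hV.1]; norm_num
      · constructor
        · rw [tv_one, gilbert_one hV]; norm_num [del]
        · rw [tv_one, gilbert_one hV]; norm_num [del]
    · rcases Nat.even_or_odd' n with ⟨p, hp | hp⟩
      · subst hp
        exact (good p (by omega) (by omega)).1.bd hV tabOK (by omega) (by omega) hB
      · subst hp
        exact (good p (by omega) (by omega)).2.bd hV tabOK (by omega) (by omega) hB

end Pool.Agent.H95.Gilbert
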