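import Mathlib
import Pool.Agent.H95.Gilbert.CloseS
import Pool.Agent.H95.Gilbert.TableMain
import Pool.Agent.H95.Gilbert.Ind

/-! Closeness of the table to the asymptotic formula. -/

namespace Pool.Agent.H95.Gilbert

open Blk

variable {V : ℕ → ℝ}

theorem Ck_real (hV : IsGilbertValue V) {n clo chi : ℕ} (h1 : 3073 ≤ n) (h2 : n ≤ 8193)
    (h : Ck tv clo chi n) (hchi : chi ≤ 2 * 10 ^ 9) :
    ((clo : ℝ) - 10 ^ 9) / 10 ^ 18 - 43 / 10 ^ 13 ≤ ell * V n - U ((n : ℝ) + 1) ∧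
    ell * V n - U ((n : ℝ) + 1) ≤ ((chi : ℝ) - 10 ^ 9) / 10 ^ 18 + 43 / 10 ^ 13 := by
  obtain ⟨lam, hlv, hck⟩ := h
  have hr := lchk_real (by omega) hck
  have he := hlv.e
  have hn1 : (3073 : ℝ) ≤ n := by exact_mod_cast h1
  have hn2 : (n : ℝ) ≤ 8193 := by exact_mod_cast h2
  have hx1 : (3074 : ℝ) ≤ ((n + 1 : ℕ) : ℝ) := by push_cast; linarith
  have hx2 : ((n + 1 : ℕ) : ℝ) ≤ 8194 := by push_cast; linarith
  have hxe : ((n + 1 : ℕ) : ℝ) = (n : ℝ) + 1 := by push_cast; ring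
  rw [← hxe]
  generalize ((n + 1 : ℕ) : ℝ) = x at *
  have hx0 : 0 < x := by linarith
  have hL1 := Lx_ge (show 2048 ≤ x by linarith)
  have hL2 := Lx_le hx0
  norm_num at hL1 hL2
  have hgam : gam = -(3379682468916 / 10 ^ 13) := rfl
  have hlog : Real.log x = Lx x + 3379682468916 / 10 ^ 13 := by unfold Lx; rw [hgam]; ring
  rw [abs_le] at he
  -- lam is large
  have hlam : (337968246891600000 : ℝ) ≤ (lam : ℝ) := by
    have : (7 : ℝ) ≤ Real.log x := by rw [hlog]; linarith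
    linarith [he.2]
  have hlam' : 337968246891600000 ≤ lam := by exact_mod_cast hlam
  rw [Nat.cast_sub hlam'] at hr
  push_cast at hr
  set L' : ℝ := ((lam : ℝ) - 337968246891600000) / 10 ^ 18 with hL'
  set e' : ℝ := 693147180559945309 / 10 ^ 18 with he'
  have hLL : |Lx x - L'| ≤ 2 / 10 ^ 14 := by
    have e1 : Lx x - L' = Real.log x - (lam : ℝ) / 10 ^ 18 := by
      rw [hlog, hL']; ring
    rw [e1, abs_le]
    constructor <;> linarith [he.1, he.2]
  have hl := ell_bd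
  have hll : |ell - e'| ≤ 1 / 10 ^ 18 := by
    have e1 : ell - e' = (10 ^ 18 * ell - 693147180559945309) / 10 ^ 18 := by rw [he']; ring
    rw [e1, abs_div, abs_of_pos (show (0:ℝ) < 10 ^ 18 by norm_num), div_le_div_iff_of_pos_right (by norm_num)]
    exact hl
  have hLL' := abs_le.mp hLL
  have hll' := abs_le.mp hll
  have hgt := ell_gt
  have hlt := ell_lt
  norm_num at hgt hlt
  have hlip := Ux_lip (x := x) (L := Lx x) (L' := L') (l := ell) (l' := e') (d := 2 / 10 ^ 14)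
    (by linarith) (by linarith) (by linarith) (by linarith [hLL'.2]) (by linarith [hLL'.1])
    (by linarith) (by linarith) (by rw [he']; norm_num) (by rw [he']; norm_num) hLL
    (hll.trans (by norm_num))
  rw [← U_eq_Ux] at hlip
  have hlip' := abs_le.mp hlip
  -- size of the table entry
  obtain ⟨b1, b2⟩ := table_bd hV n h2
  have hSS : (SS : ℝ) = 2 ^ 56 := by norm_num [SS]
  rw [hSS] at b1 b2
  have hA0 : (0 : ℝ) ≤ (tv n : ℝ) / 2 ^ 56 := by positivity
  generalize (tv n : ℝ) / 2 ^ 56 = A at *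
  have hUb := (U_bd (show 3072 ≤ x by linarith)).2
  have hUb2 : (Lx x + ell) / 2 / x ≤ 1 / 100 := by
    rw [div_le_iff₀ hx0]; linarith
  have hchi' : (chi : ℝ) ≤ 2 * 10 ^ 9 := by exact_mod_cast hchi
  have hUx : Ux x L' e' ≤ 9 + 2 / 100 := by linarith [hlip'.1]
  have hchi2 : ((chi : ℝ) - 10 ^ 9) / 10 ^ 18 ≤ 1 / 100 := by
    rw [div_le_iff₀ (by norm_num)]; linarith
  have hA1 : e' * A ≤ 904 / 100 := by linarith [hr.2]
  have hA2 : A ≤ 14 := by
    by_contra hc
    push Not at hc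
    have : e' * 14 ≤ e' * A := mul_le_mul_of_nonneg_left hc.le (by rw [he']; norm_num)
    rw [he'] at this hA1
    linarith
  have hdiff : |(ell - e') * A| ≤ 14 / 10 ^ 18 := by
    rw [abs_mul, abs_of_nonneg hA0]
    have := mul_le_mul hll hA2 hA0 (by norm_num)
    linarith
  have hdiff' := abs_le.mp hdiff
  have hlA : ell * A = e' * A + (ell - e') * A := by ring
  have hlA2 : ell * A ≤ 905 / 100 := by linarith [hdiff'.2]
  have hl0 : 0 ≤ ell := by linarith
  have hlA0 : 0 ≤ ell * A := mul_nonneg hl0 hA0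
  have b1' := mul_le_mul_of_nonneg_left b1 hl0
  have b2' := mul_le_mul_of_nonneg_left b2 hl0
  unfold del at b1' b2'
  have hdd : ell * ((1 + 1 / 2199023255552) * A) ≤ ell * A + 42 / 10 ^ 13 := by linarith
  have hdd' : ell * A - 42 / 10 ^ 13 ≤ ell * ((1 - 1 / 2199023255552) * A) := by linarith
  constructor
  · linarith [hr.1, hlip'.2, hdiff'.1]
  · linarith [hr.2, hlip'.1, hdiff'.2]

theorem EDd {x : ℝ} (h1 : 3074 ≤ x) (h2 : x ≤ 8194) : 6415 / 10 ^ 14 ≤ EE - Dd x := by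
  have hx0 : 0 < x := by linarith
  have hL2 := Lx_le hx0
  norm_num at hL2
  have : Dd x ≤ 931 / 10 ^ 13 := by
    unfold Dd kap
    rw [div_le_iff₀ hx0]
    linarith
  unfold EE eps
  linarith

theorem bar_of (hV : IsGilbertValue V) {n clo chi : ℕ} {p q : ℝ} (h1 : 3073 ≤ n) (h2 : n ≤ 8193)
    (h : Ck tv clo chi n) (hchi : chi ≤ 2 * 10 ^ 9)
    (hp : p ≤ Real.cos (omg * Real.log ((n + 1 : ℕ) : ℝ)))
    (hq : Real.cos (omg * Real.log ((n + 1 : ℕ) : ℝ)) ≤ q)
    (hc1 : (chi : ℝ) ≤ 10 ^ 9 - 185 * 10 ^ 6 * q + 598 * 10 ^ 5)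
    (hc2 : 10 ^ 9 - 185 * 10 ^ 6 * p - 598 * 10 ^ 5 ≤ (clo : ℝ)) : Bar V n := by
  obtain ⟨r1, r2⟩ := Ck_real hV h1 h2 h hchi
  have hn1 : (3073 : ℝ) ≤ n := by exact_mod_cast h1
  have hn2 : (n : ℝ) ≤ 8193 := by exact_mod_cast h2
  have hx : ((n + 1 : ℕ) : ℝ) = (n : ℝ) + 1 := by push_cast; ring
  rw [hx] at hp hq
  have hE := EDd (x := (n : ℝ) + 1) (by linarith) (by linarith)
  unfold Bar fb eta eps
  generalize Real.cos (omg * Real.log ((n : ℝ) + 1)) = c at *
  constructor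
  · linarith
  · linarith

/-! ### values of the cosine -/

theorem cos15 : 9659 / 10000 ≤ Real.cos (Real.pi / 12) ∧ Real.cos (Real.pi / 12) ≤ 9660 / 10000 := by
  have h1 : Real.cos (Real.pi / 12) ^ 2 = 1 / 2 + Real.cos (Real.pi / 6) / 2 := by
    rw [Real.cos_sq]; congr 3; ring
  rw [Real.cos_pi_div_six] at h1
  have h3 : (17320 / 10000 : ℝ) ≤ √3 := Real.le_sqrt_of_sq_le (by norm_num)
  have h4 : √3 ≤ (17321 / 10000 : ℝ) := by
    rw [Real.sqrt_le_left (by norm_num)]; norm_num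
  have h5 : 0 ≤ Real.cos (Real.pi / 12) := Real.cos_nonneg_of_mem_Icc
    ⟨by have := Real.pi_pos; linarith, by have := Real.pi_pos; linarith⟩
  constructor
  · by_contra hc
    push Not at hc
    nlinarith
  · by_contra hc
    push Not at hc
    nlinarith

theorem cos75 : 2588 / 10000 ≤ Real.cos (5 * Real.pi / 12) ∧
    Real.cos (5 * Real.pi / 12) ≤ 2589 / 10000 := by
  have h1 : Real.cos (5 * Real.pi / 12) ^ 2 = 1 / 2 - Real.cos (Real.pi / 6) / 2 := by
    rw [Real.cos_sq]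
    have : Real.cos (2 * (5 * Real.pi / 12)) = - Real.cos (Real.pi / 6) := by
      rw [← Real.cos_pi_sub]; congr 1; ring
    rw [this]; ring
  rw [Real.cos_pi_div_six] at h1
  have h3 : (1732050 / 1000000 : ℝ) ≤ √3 := Real.le_sqrt_of_sq_le (by norm_num)
  have h4 : √3 ≤ (1732051 / 1000000 : ℝ) := by
    rw [Real.sqrt_le_left (by norm_num)]; norm_num
  have h5 : 0 ≤ Real.cos (5 * Real.pi / 12) := Real.cos_nonneg_of_mem_Icc
    ⟨by have := Real.pi_pos; linarith, by have := Real.pi_pos; linarith⟩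
  constructor
  · by_contra hc
    push Not at hc
    nlinarith
  · by_contra hc
    push Not at hc
    nlinarith

/-- rational bounds for `cos (k π / 12)` -/
def cl : ℕ → ℤ
  | 0 => 10000 | 1 => 9659 | 2 => 8660 | 3 => 7071 | 4 => 5000 | 5 => 2588 | 6 => 0
  | 7 => -2589 | 8 => -5000 | 9 => -7072 | 10 => -8661 | 11 => -9660 | _ => -10000

def cu : ℕ → ℤ
  | 0 => 10000 | 1 => 9660 | 2 => 8661 | 3 => 7072 | 4 => 5000 | 5 => 2589 | 6 => 0
  | 7 => -2588 | 8 => -5000 | 9 => -7071 | 10 => -8660 | 11 => -9659 | _ => -10000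

theorem cos_k0 {k : ℕ} (hk : k ≤ 6) : (cl k : ℝ) / 10000 ≤ Real.cos (k * Real.pi / 12) ∧
    Real.cos (k * Real.pi / 12) ≤ (cu k : ℝ) / 10000 := by
  interval_cases k
  · simp [cl, cu]
  · have := cos15
    simp only [cl, cu]
    push_cast
    rw [show (1 : ℝ) * Real.pi / 12 = Real.pi / 12 by ring]
    exact this
  · rw [show ((2 : ℕ) : ℝ) * Real.pi / 12 = Real.pi / 6 by push_cast; ring, Real.cos_pi_div_six]
    have h3 : (17320 / 10000 : ℝ) ≤ √3 := Real.le_sqrt_of_sq_le (by norm_num)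
    have h4 : √3 ≤ (17321 / 10000 : ℝ) := by
      rw [Real.sqrt_le_left (by norm_num)]; norm_num
    simp only [cl, cu]
    push_cast
    constructor <;> linarith
  · rw [show ((3 : ℕ) : ℝ) * Real.pi / 12 = Real.pi / 4 by push_cast; ring, Real.cos_pi_div_four]
    have h3 : (14142 / 10000 : ℝ) ≤ √2 := Real.le_sqrt_of_sq_le (by norm_num)
    have h4 : √2 ≤ (14143 / 10000 : ℝ) := by
      rw [Real.sqrt_le_left (by norm_num)]; norm_num
    simp only [cl, cu]
    push_cast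
    constructor <;> linarith
  · rw [show ((4 : ℕ) : ℝ) * Real.pi / 12 = Real.pi / 3 by push_cast; ring, Real.cos_pi_div_three]
    simp only [cl, cu]
    push_cast
    constructor <;> norm_num
  · have := cos75
    simp only [cl, cu]
    push_cast
    exact this
  · rw [show ((6 : ℕ) : ℝ) * Real.pi / 12 = Real.pi / 2 by push_cast; ring, Real.cos_pi_div_two]
    simp [cl, cu]

theorem cl_refl : ∀ k : ℕ, 6 ≤ k → k ≤ 12 → cl k = - cu (12 - k) ∧ cu k = - cl (12 - k) := by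
  intro k h1 h2
  interval_cases k <;> simp [cl, cu]

theorem cos_k {k : ℕ} (hk : k ≤ 12) : (cl k : ℝ) / 10000 ≤ Real.cos (k * Real.pi / 12) ∧
    Real.cos (k * Real.pi / 12) ≤ (cu k : ℝ) / 10000 := by
  rcases Nat.lt_or_ge 6 k with h | h
  · obtain ⟨e1, e2⟩ := cl_refl k h.le hk
    have h1 := cos_k0 (k := 12 - k) (by omega)
    have h2 : Real.cos (k * Real.pi / 12) = - Real.cos ((12 - k : ℕ) * Real.pi / 12) := by
      rw [← Real.cos_pi_sub]
      congr 1
      rw [Nat.cast_sub hk]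
      push_cast
      ring
    rw [h2, e1, e2]
    push_cast
    constructor <;> linarith [h1.1, h1.2]
  · exact cos_k0 h

/-- the cosine on a cell -/
theorem cell_cos {x s i : ℕ} (hx : 0 < x) (hi : i < 24) (h1 : 2 ^ (24 * (11 + s) + i) ≤ x ^ 24)
    (h2 : x ^ 24 ≤ 2 ^ (24 * (11 + s) + i + 1)) :
    (i ≤ 11 → (cl (i + 1) : ℝ) / 10000 ≤ Real.cos (omg * Real.log (x : ℝ)) ∧
      Real.cos (omg * Real.log (x : ℝ)) ≤ (cu i : ℝ) / 10000) ∧
    (12 ≤ i → (cl (24 - i) : ℝ) / 10000 ≤ Real.cos (omg * Real.log (x : ℝ)) ∧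
      Real.cos (omg * Real.log (x : ℝ)) ≤ (cu (23 - i) : ℝ) / 10000) := by
  have hx' : (0 : ℝ) < x := by exact_mod_cast hx
  have hoe := WinD.omg_ell
  have ho : 0 < omg := by have := omg_gt; norm_num at this; linarith
  have l1 : ((24 * (11 + s) + i : ℕ) : ℝ) * ell ≤ 24 * Real.log x := by
    have : Real.log ((2 ^ (24 * (11 + s) + i) : ℕ) : ℝ) ≤ Real.log ((x ^ 24 : ℕ) : ℝ) :=
      Real.log_le_log (by positivity) (by exact_mod_cast h1)
    rw [Nat.cast_pow, Nat.cast_pow, Real.log_pow, Real.log_pow] at this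
    exact this
  have l2 : 24 * Real.log x ≤ ((24 * (11 + s) + i + 1 : ℕ) : ℝ) * ell := by
    have : Real.log ((x ^ 24 : ℕ) : ℝ) ≤ Real.log ((2 ^ (24 * (11 + s) + i + 1) : ℕ) : ℝ) :=
      Real.log_le_log (by positivity) (by exact_mod_cast h2)
    rw [Nat.cast_pow, Nat.cast_pow, Real.log_pow, Real.log_pow] at this
    exact this
  have m1 := mul_le_mul_of_nonneg_left l1 ho.le
  have m2 := mul_le_mul_of_nonneg_left l2 ho.le
  set φ := omg * Real.log x - ((11 + s : ℕ) : ℝ) * (2 * Real.pi) with hφ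
  have hcos : Real.cos (omg * Real.log x) = Real.cos φ := by
    rw [hφ, Real.cos_sub_nat_mul_two_pi]
  have f1 : (i : ℝ) * Real.pi / 12 ≤ φ := by
    rw [hφ]
    have e : omg * (((24 * (11 + s) + i : ℕ) : ℝ) * ell) = (24 * (11 + s) + i) * (2 * Real.pi) := by
      rw [← hoe]; push_cast; ring
    rw [e] at m1
    push_cast
    linarith
  have f2 : φ ≤ ((i : ℝ) + 1) * Real.pi / 12 := by
    rw [hφ]
    have e : omg * (((24 * (11 + s) + i + 1 : ℕ) : ℝ) * ell) =
        (24 * (11 + s) + i + 1) * (2 * Real.pi) := by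
      rw [← hoe]; push_cast; ring
    rw [e] at m2
    push_cast
    linarith
  have hpi := Real.pi_pos
  have hi' : (i : ℝ) + 1 ≤ 24 := by exact_mod_cast hi
  have hi0 : (0 : ℝ) ≤ i := Nat.cast_nonneg i
  constructor
  · intro h11
    have h11' : (i : ℝ) ≤ 11 := by exact_mod_cast h11
    have c1 := (cos_k (k := i + 1) (by omega)).1
    have c2 := (cos_k (k := i) (by omega)).2
    rw [hcos]
    have g1 : Real.cos (((i + 1 : ℕ) : ℝ) * Real.pi / 12) ≤ Real.cos φ := by
      refine Real.cos_le_cos_of_nonneg_of_le_pi (le_trans (by positivity) f1) ?_ (by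
        push_cast; exact f2)
      push_cast
      nlinarith
    have g2 : Real.cos φ ≤ Real.cos ((i : ℝ) * Real.pi / 12) := by
      refine Real.cos_le_cos_of_nonneg_of_le_pi (by positivity) ?_ f1
      refine f2.trans ?_
      nlinarith
    exact ⟨c1.trans g1, g2.trans c2⟩
  · intro h12
    have h12' : (12 : ℝ) ≤ i := by exact_mod_cast h12
    have c1 := (cos_k (k := 24 - i) (by omega)).1
    have c2 := (cos_k (k := 23 - i) (by omega)).2
    rw [Nat.cast_sub (by omega)] at c1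
    rw [Nat.cast_sub (by omega)] at c2
    push_cast at c1 c2
    have hcos2 : Real.cos φ = Real.cos (2 * Real.pi - φ) := by
      rw [Real.cos_two_pi_sub]
    rw [hcos, hcos2]
    have g1 : Real.cos ((24 - (i : ℝ)) * Real.pi / 12) ≤ Real.cos (2 * Real.pi - φ) := by
      refine Real.cos_le_cos_of_nonneg_of_le_pi ?_ ?_ ?_
      · nlinarith
      · nlinarith
      · linarith
    have g2 : Real.cos (2 * Real.pi - φ) ≤ Real.cos ((23 - (i : ℝ)) * Real.pi / 12) := by
      refine Real.cos_le_cos_of_nonneg_of_le_pi ?_ ?_ ?_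
      · nlinarith
      · nlinarith
      · linarith
    exact ⟨c1.trans g1, g2.trans c2⟩

end Pool.Agent.H95.Gilbert
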