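import Mathlib
import Pool.Agent.H95.Gilbert.Ind

/-! The conclusion: `V n - log₂ n` has no limit. -/

namespace Pool.Agent.H95.Gilbert

open Finset Filter Topology

variable {V : ℕ → ℝ}

theorem tendsto_Lx_div : Tendsto (fun x : ℝ => Lx x / x) atTop (𝓝 0) := by
  have h1 : Tendsto (fun x : ℝ => Real.log x / x) atTop (𝓝 0) :=
    Real.isLittleO_log_id_atTop.tendsto_div_nhds_zero
  have h2 : Tendsto (fun x : ℝ => gam / x) atTop (𝓝 0) := tendsto_const_nhds.div_atTop tendsto_id
  have h3 := h1.add h2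
  rw [add_zero] at h3
  refine h3.congr fun x => ?_
  unfold Lx
  ring

theorem tendsto_U : Tendsto (fun x : ℝ => U x - Real.log x) atTop (𝓝 gam) := by
  have hw := tendsto_Lx_div
  have hy : Tendsto (fun x : ℝ => 1 / x) atTop (𝓝 0) := tendsto_const_nhds.div_atTop tendsto_id
  have h := ((((hw.const_mul (1 / 2)).add (hy.const_mul (ell / 2))).add
    ((((hw.pow 2).const_mul (-1/12)).add ((hw.mul hy).const_mul (5/12 - 2/9 * ell))).add
      ((hy.pow 2).const_mul (11/36 * ell - 11/108 * ell ^ 2)))).add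
    (((((hw.pow 2).mul hy).const_mul (-5/24 + 5/126 * ell)).add
      ((hw.mul (hy.pow 2)).const_mul (11/24 - 43/84 * ell + 149/2646 * ell ^ 2))).add
      ((hy.pow 3).const_mul (131/504 * ell - 2153/10584 * ell ^ 2 + 127/9261 * ell ^ 3)))).const_add
      gam
  have e : gam + (1 / 2 * 0 + ell / 2 * 0 + (-1 / 12 * 0 ^ 2 + (5 / 12 - 2 / 9 * ell) * (0 * 0) +
      (11 / 36 * ell - 11 / 108 * ell ^ 2) * 0 ^ 2) + ((-5 / 24 + 5 / 126 * ell) * (0 ^ 2 * 0) +
      (11 / 24 - 43 / 84 * ell + 149 / 2646 * ell ^ 2) * (0 * 0 ^ 2) +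
      (131 / 504 * ell - 2153 / 10584 * ell ^ 2 + 127 / 9261 * ell ^ 3) * 0 ^ 3)) = gam := by ring
  rw [e] at h
  refine h.congr' ?_
  filter_upwards [eventually_gt_atTop 0] with x hx
  have e2 : Real.log x = Lx x - gam := by unfold Lx; ring
  rw [e2]
  unfold U A2 A3
  field_simp
  ring

theorem tendsto_logn : Tendsto (fun n : ℕ => Real.log ((n : ℝ) + 1) - Real.log n) atTop (𝓝 0) := by
  have h1 : Tendsto (fun n : ℕ => 1 + 1 / (n : ℝ)) atTop (𝓝 1) := by
    have := (tendsto_const_nhds (x := (1:ℝ))).add (tendsto_one_div_atTop_nhds_zero_nat (𝕜 := ℝ))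
    rwa [add_zero] at this
  have h2 := (Real.continuousAt_log (one_ne_zero)).tendsto.comp h1
  rw [Real.log_one] at h2
  refine h2.congr' ?_
  filter_upwards [eventually_gt_atTop 0] with n hn
  have hn' : (0 : ℝ) < n := by exact_mod_cast hn
  simp only [Function.comp_apply]
  rw [← Real.log_div (by positivity) hn'.ne']
  congr 1
  field_simp

theorem eta_pow (k : ℕ) : eta ((2 : ℝ) ^ k) = - eps := by
  unfold eta
  rw [Real.log_pow]
  have : omg * ((k : ℝ) * Real.log 2) = (k : ℝ) * (2 * Real.pi) := by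
    have := WinD.omg_ell
    unfold ell at this
    rw [← this]; ring
  rw [this, Real.cos_nat_mul_two_pi, mul_one]

theorem eta_three (k : ℕ) : 8 / 10 * eps ≤ eta (3 * (2 : ℝ) ^ k) := by
  unfold eta
  rw [Real.log_mul (by norm_num) (by positivity), Real.log_pow]
  have hl := ell_pos
  have hoe := WinD.omg_ell
  have : omg * (Real.log 3 + (k : ℝ) * Real.log 2) =
      (omg * (Real.log 3 - 3 / 2 * ell) + Real.pi) + ((k + 1 : ℕ) : ℝ) * (2 * Real.pi) := by
    unfold ell at *
    push_cast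
    linear_combination (k + 3 / 2 : ℝ) * hoe
  rw [this, Real.cos_add_nat_mul_two_pi, Real.cos_add_pi]
  set b := omg * (Real.log 3 - 3 / 2 * ell) with hb
  have h1 : 0 ≤ Real.log 3 - 3 / 2 * ell := by
    have : Real.log ((2:ℝ) ^ 3) ≤ Real.log ((3:ℝ) ^ 2) := Real.log_le_log (by norm_num) (by norm_num)
    rw [Real.log_pow, Real.log_pow] at this
    unfold ell
    push_cast at this
    linarith
  have h2 : Real.log 3 - 3 / 2 * ell ≤ 1 / 10 * ell := by
    have : Real.log ((3:ℝ) ^ 5) ≤ Real.log ((2:ℝ) ^ 8) := Real.log_le_log (by norm_num) (by norm_num)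
    rw [Real.log_pow, Real.log_pow] at this
    unfold ell
    push_cast at this
    linarith
  have ho : 0 < omg := by have := omg_gt; norm_num at this; linarith
  have h3 : 0 ≤ b := by rw [hb]; positivity
  have h4 : b ≤ 1 / 5 * Real.pi := by
    have := mul_le_mul_of_nonneg_left h2 ho.le
    rw [hb]
    linarith
  have h5 := Real.pi_lt_d2
  norm_num at h5
  have h6 := Real.one_sub_sq_div_two_le_cos (x := b)
  have h7 : b ^ 2 ≤ (63 / 100) ^ 2 := pow_le_pow_left₀ h3 (by linarith) 2
  have h8 : 8 / 10 ≤ Real.cos b := by linarith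
  have h9 := mul_le_mul_of_nonneg_left h8 eps_nonneg
  linarith

theorem no_limit (h : ∀ n, 3073 ≤ n → Bar V n) :
    ¬ ∃ c : ℝ, Tendsto (fun n : ℕ => V n - Real.logb 2 n) atTop (𝓝 c) := by
  rintro ⟨c, hc⟩
  have hl := ell_pos
  -- the limit of `ell * V n - U (n + 1)`
  have h1 : Tendsto (fun n : ℕ => (n : ℝ) + 1) atTop atTop :=
    tendsto_atTop_add_const_right _ _ tendsto_natCast_atTop_atTop
  have h2 := tendsto_U.comp h1
  have h3 : Tendsto (fun n : ℕ => ell * V n - U ((n : ℝ) + 1)) atTop (𝓝 (ell * c - gam - 0)) := by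
    refine (((hc.const_mul ell).sub h2).sub tendsto_logn).congr fun n => ?_
    simp only [Function.comp_apply]
    unfold Real.logb
    have : ell * (V n - Real.log n / Real.log 2) = ell * V n - Real.log n := by
      unfold ell
      have : Real.log 2 ≠ 0 := by have := ell_pos; unfold ell at this; linarith
      field_simp
    rw [this]
    ring
  set d := ell * c - gam - 0
  -- the two subsequences
  have s1 : Tendsto (fun k : ℕ => 2 ^ k - 1) atTop atTop :=
    tendsto_atTop_mono (f := fun k : ℕ => k) (fun k => by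
      have := Nat.lt_two_pow_self (n := k)
      change k ≤ 2 ^ k - 1
      omega) tendsto_id
  have s2 : Tendsto (fun k : ℕ => 3 * 2 ^ k - 1) atTop atTop :=
    tendsto_atTop_mono (f := fun k : ℕ => k) (fun k => by
      have := Nat.lt_two_pow_self (n := k)
      change k ≤ 3 * 2 ^ k - 1
      omega) tendsto_id
  have hE := EE_lt.2
  have hEE : EE = 85 / 100 * eps := rfl
  have heps : 0 < eps := by unfold eps; norm_num
  have u1 : d ≤ - eps + EE := by
    refine le_of_tendsto (h3.comp s1) ?_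
    filter_upwards [eventually_ge_atTop 12] with k hk
    have hk2 : 4096 ≤ 2 ^ k := by
      calc 4096 = 2 ^ 12 := by norm_num
        _ ≤ 2 ^ k := Nat.pow_le_pow_right (by norm_num) hk
    have hb := (h (2 ^ k - 1) (by omega)).2
    have hx : ((2 ^ k - 1 : ℕ) : ℝ) + 1 = (2 : ℝ) ^ k := by
      rw [Nat.cast_sub (by omega)]; push_cast; ring
    simp only [Function.comp_apply]
    rw [hx] at hb ⊢
    unfold fb at hb
    rw [eta_pow] at hb
    have hx2 : (3072 : ℝ) ≤ 2 ^ k := by
      have : ((4096 : ℕ) : ℝ) ≤ ((2 ^ k : ℕ) : ℝ) := by exact_mod_cast hk2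
      push_cast at this
      linarith
    have hD := (Dd_bd hx2).1
    linarith
  have u2 : 8 / 10 * eps - EE ≤ d := by
    refine ge_of_tendsto (h3.comp s2) ?_
    filter_upwards [eventually_ge_atTop 12] with k hk
    have hk2 : 4096 ≤ 2 ^ k := by
      calc 4096 = 2 ^ 12 := by norm_num
        _ ≤ 2 ^ k := Nat.pow_le_pow_right (by norm_num) hk
    have hb := (h (3 * 2 ^ k - 1) (by omega)).1
    have hx : ((3 * 2 ^ k - 1 : ℕ) : ℝ) + 1 = 3 * (2 : ℝ) ^ k := by
      rw [Nat.cast_sub (by omega)]; push_cast; ring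
    simp only [Function.comp_apply]
    rw [hx] at hb ⊢
    unfold fb at hb
    have he := eta_three k
    have hx2 : (3072 : ℝ) ≤ 3 * 2 ^ k := by
      have : ((4096 : ℕ) : ℝ) ≤ ((2 ^ k : ℕ) : ℝ) := by exact_mod_cast hk2
      push_cast at this
      linarith
    have hD := (Dd_bd hx2).1
    linarith
  linarith

end Pool.Agent.H95.Gilbert
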