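import Mathlib
import Pool.Agent.H95.Gilbert.CloseF
import Pool.Agent.H95.Gilbert.Concl

/-! The barriers hold on the table; the main theorem. -/

namespace Pool.Agent.H95.Gilbert

open Blk

variable {V : ℕ → ℝ}

theorem bar_cell (hV : IsGilbertValue V) {n clo chi s i a b : ℕ} (hi : i < 24) (ha : 3073 ≤ a)
    (hb : b ≤ 8193) (ha1 : 2 ^ (24 * (11 + s) + i) ≤ (a + 1) ^ 24)
    (hb1 : (b + 1) ^ 24 ≤ 2 ^ (24 * (11 + s) + i + 1)) (hchi : chi ≤ 2 * 10 ^ 9)
    (hc : (i ≤ 11 ∧ (chi : ℤ) ≤ 10 ^ 9 - 18500 * cu i + 598 * 10 ^ 5 ∧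
        10 ^ 9 - 18500 * cl (i + 1) - 598 * 10 ^ 5 ≤ (clo : ℤ)) ∨
      (12 ≤ i ∧ (chi : ℤ) ≤ 10 ^ 9 - 18500 * cu (23 - i) + 598 * 10 ^ 5 ∧
        10 ^ 9 - 18500 * cl (24 - i) - 598 * 10 ^ 5 ≤ (clo : ℤ)))
    (h1 : a ≤ n) (h2 : n ≤ b) (h : Ck tv clo chi n) : Bar V n := by
  have k1 : 2 ^ (24 * (11 + s) + i) ≤ (n + 1) ^ 24 := ha1.trans (Nat.pow_le_pow_left (by omega) 24)
  have k2 : (n + 1) ^ 24 ≤ 2 ^ (24 * (11 + s) + i + 1) :=
    le_trans (Nat.pow_le_pow_left (by omega) 24) hb1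
  obtain ⟨c1, c2⟩ := cell_cos (x := n + 1) (by omega) hi k1 k2
  rcases hc with ⟨g1, g2, g3⟩ | ⟨g1, g2, g3⟩
  · obtain ⟨p1, p2⟩ := c1 g1
    have g2' : ((chi : ℤ) : ℝ) ≤ ((10 ^ 9 - 18500 * cu i + 598 * 10 ^ 5 : ℤ) : ℝ) := by
      exact_mod_cast g2
    have g3' : ((10 ^ 9 - 18500 * cl (i + 1) - 598 * 10 ^ 5 : ℤ) : ℝ) ≤ ((clo : ℤ) : ℝ) := by
      exact_mod_cast g3
    push_cast at g2' g3'
    exact bar_of hV (by omega) (by omega) h hchi p1 p2 (by linarith) (by linarith)
  · obtain ⟨p1, p2⟩ := c2 g1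
    have g2' : ((chi : ℤ) : ℝ) ≤ ((10 ^ 9 - 18500 * cu (23 - i) + 598 * 10 ^ 5 : ℤ) : ℝ) := by
      exact_mod_cast g2
    have g3' : ((10 ^ 9 - 18500 * cl (24 - i) - 598 * 10 ^ 5 : ℤ) : ℝ) ≤ ((clo : ℤ) : ℝ) := by
      exact_mod_cast g3
    push_cast at g2' g3'
    exact bar_of hV (by omega) (by omega) h hchi p1 p2 (by linarith) (by linarith)

theorem g14 (hV : IsGilbertValue V) {n : ℕ} (h1 : 3073 ≤ n) (h2 : n ≤ 3157)
    (h : Ck tv 1101228501 1189813499 n) : Bar V n :=
  bar_cell hV (s := 0) (i := 14) (a := 3073) (b := 3157) (by norm_num) (by norm_num)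
    (by norm_num) (by decide +kernel) (by decide +kernel) (by norm_num)
    (Or.inr ⟨by norm_num, by norm_num [cu], by norm_num [cl]⟩) h1 h2 h

theorem g15 (hV : IsGilbertValue V) {n : ℕ} (h1 : 3158 ≤ n) (h2 : n ≤ 3249)
    (h : Ck tv 1071832001 1151499999 n) : Bar V n :=
  bar_cell hV (s := 0) (i := 15) (a := 3158) (b := 3249) (by norm_num) (by norm_num)
    (by norm_num) (by decide +kernel) (by decide +kernel) (by norm_num)
    (Or.inr ⟨by norm_num, by norm_num [cu], by norm_num [cl]⟩) h1 h2 h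

theorem g16 (hV : IsGilbertValue V) {n : ℕ} (h1 : 3250 ≤ n) (h2 : n ≤ 3345)
    (h : Ck tv 1033500001 1106877999 n) : Bar V n :=
  bar_cell hV (s := 0) (i := 16) (a := 3250) (b := 3345) (by norm_num) (by norm_num)
    (by norm_num) (by decide +kernel) (by decide +kernel) (by norm_num)
    (Or.inr ⟨by norm_num, by norm_num [cu], by norm_num [cl]⟩) h1 h2 h

theorem g17 (hV : IsGilbertValue V) {n : ℕ} (h1 : 3346 ≤ n) (h2 : n ≤ 3443)
    (h : Ck tv 988896501 1058999999 n) : Bar V n :=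
  bar_cell hV (s := 0) (i := 17) (a := 3346) (b := 3443) (by norm_num) (by norm_num)
    (by norm_num) (by decide +kernel) (by decide +kernel) (by norm_num)
    (Or.inr ⟨by norm_num, by norm_num [cu], by norm_num [cl]⟩) h1 h2 h

theorem g18 (hV : IsGilbertValue V) {n : ℕ} (h1 : 3444 ≤ n) (h2 : n ≤ 3544)
    (h : Ck tv 941000001 1011103499 n) : Bar V n :=
  bar_cell hV (s := 0) (i := 18) (a := 3444) (b := 3544) (by norm_num) (by norm_num)
    (by norm_num) (by decide +kernel) (by decide +kernel) (by norm_num)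
    (Or.inr ⟨by norm_num, by norm_num [cu], by norm_num [cl]⟩) h1 h2 h

theorem g19 (hV : IsGilbertValue V) {n : ℕ} (h1 : 3545 ≤ n) (h2 : n ≤ 3648)
    (h : Ck tv 893122001 966499999 n) : Bar V n :=
  bar_cell hV (s := 0) (i := 19) (a := 3545) (b := 3648) (by norm_num) (by norm_num)
    (by norm_num) (by decide +kernel) (by decide +kernel) (by norm_num)
    (Or.inr ⟨by norm_num, by norm_num [cu], by norm_num [cl]⟩) h1 h2 h

theorem g20 (hV : IsGilbertValue V) {n : ℕ} (h1 : 3649 ≤ n) (h2 : n ≤ 3755)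
    (h : Ck tv 848500001 928167999 n) : Bar V n :=
  bar_cell hV (s := 0) (i := 20) (a := 3649) (b := 3755) (by norm_num) (by norm_num)
    (by norm_num) (by decide +kernel) (by decide +kernel) (by norm_num)
    (Or.inr ⟨by norm_num, by norm_num [cu], by norm_num [cl]⟩) h1 h2 h

theorem g21 (hV : IsGilbertValue V) {n : ℕ} (h1 : 3756 ≤ n) (h2 : n ≤ 3865)
    (h : Ck tv 810186501 898771499 n) : Bar V n :=
  bar_cell hV (s := 0) (i := 21) (a := 3756) (b := 3865) (by norm_num) (by norm_num)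
    (by norm_num) (by decide +kernel) (by decide +kernel) (by norm_num)
    (Or.inr ⟨by norm_num, by norm_num [cu], by norm_num [cl]⟩) h1 h2 h

theorem g22 (hV : IsGilbertValue V) {n : ℕ} (h1 : 3866 ≤ n) (h2 : n ≤ 3978)
    (h : Ck tv 780790001 880289999 n) : Bar V n :=
  bar_cell hV (s := 0) (i := 22) (a := 3866) (b := 3978) (by norm_num) (by norm_num)
    (by norm_num) (by decide +kernel) (by decide +kernel) (by norm_num)
    (Or.inr ⟨by norm_num, by norm_num [cu], by norm_num [cl]⟩) h1 h2 h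

theorem g23 (hV : IsGilbertValue V) {n : ℕ} (h1 : 3979 ≤ n) (h2 : n ≤ 4094)
    (h : Ck tv 762308501 873999999 n) : Bar V n :=
  bar_cell hV (s := 0) (i := 23) (a := 3979) (b := 4094) (by norm_num) (by norm_num)
    (by norm_num) (by decide +kernel) (by decide +kernel) (by norm_num)
    (Or.inr ⟨by norm_num, by norm_num [cu], by norm_num [cl]⟩) h1 h2 h

theorem g24 (hV : IsGilbertValue V) {n : ℕ} (h1 : 4095 ≤ n) (h2 : n ≤ 4215)
    (h : Ck tv 762308501 873999999 n) : Bar V n :=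
  bar_cell hV (s := 1) (i := 0) (a := 4095) (b := 4215) (by norm_num) (by norm_num)
    (by norm_num) (by decide +kernel) (by decide +kernel) (by norm_num)
    (Or.inl ⟨by norm_num, by norm_num [cu], by norm_num [cl]⟩) h1 h2 h

theorem g25 (hV : IsGilbertValue V) {n : ℕ} (h1 : 4216 ≤ n) (h2 : n ≤ 4338)
    (h : Ck tv 780790001 880289999 n) : Bar V n :=
  bar_cell hV (s := 1) (i := 1) (a := 4216) (b := 4338) (by norm_num) (by norm_num)
    (by norm_num) (by decide +kernel) (by decide +kernel) (by norm_num)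
    (Or.inl ⟨by norm_num, by norm_num [cu], by norm_num [cl]⟩) h1 h2 h

theorem g26 (hV : IsGilbertValue V) {n : ℕ} (h1 : 4339 ≤ n) (h2 : n ≤ 4465)
    (h : Ck tv 810186501 898771499 n) : Bar V n :=
  bar_cell hV (s := 1) (i := 2) (a := 4339) (b := 4465) (by norm_num) (by norm_num)
    (by norm_num) (by decide +kernel) (by decide +kernel) (by norm_num)
    (Or.inl ⟨by norm_num, by norm_num [cu], by norm_num [cl]⟩) h1 h2 h

theorem g27 (hV : IsGilbertValue V) {n : ℕ} (h1 : 4466 ≤ n) (h2 : n ≤ 4596)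
    (h : Ck tv 848500001 928167999 n) : Bar V n :=
  bar_cell hV (s := 1) (i := 3) (a := 4466) (b := 4596) (by norm_num) (by norm_num)
    (by norm_num) (by decide +kernel) (by decide +kernel) (by norm_num)
    (Or.inl ⟨by norm_num, by norm_num [cu], by norm_num [cl]⟩) h1 h2 h

theorem g28 (hV : IsGilbertValue V) {n : ℕ} (h1 : 4597 ≤ n) (h2 : n ≤ 4731)
    (h : Ck tv 893122001 966499999 n) : Bar V n :=
  bar_cell hV (s := 1) (i := 4) (a := 4597) (b := 4731) (by norm_num) (by norm_num)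
    (by norm_num) (by decide +kernel) (by decide +kernel) (by norm_num)
    (Or.inl ⟨by norm_num, by norm_num [cu], by norm_num [cl]⟩) h1 h2 h

theorem g29 (hV : IsGilbertValue V) {n : ℕ} (h1 : 4732 ≤ n) (h2 : n ≤ 4869)
    (h : Ck tv 941000001 1011103499 n) : Bar V n :=
  bar_cell hV (s := 1) (i := 5) (a := 4732) (b := 4869) (by norm_num) (by norm_num)
    (by norm_num) (by decide +kernel) (by decide +kernel) (by norm_num)
    (Or.inl ⟨by norm_num, by norm_num [cu], by norm_num [cl]⟩) h1 h2 h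

theorem g30 (hV : IsGilbertValue V) {n : ℕ} (h1 : 4870 ≤ n) (h2 : n ≤ 5012)
    (h : Ck tv 988896501 1058999999 n) : Bar V n :=
  bar_cell hV (s := 1) (i := 6) (a := 4870) (b := 5012) (by norm_num) (by norm_num)
    (by norm_num) (by decide +kernel) (by decide +kernel) (by norm_num)
    (Or.inl ⟨by norm_num, by norm_num [cu], by norm_num [cl]⟩) h1 h2 h

theorem g31 (hV : IsGilbertValue V) {n : ℕ} (h1 : 5013 ≤ n) (h2 : n ≤ 5159)
    (h : Ck tv 1033500001 1106877999 n) : Bar V n :=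
  bar_cell hV (s := 1) (i := 7) (a := 5013) (b := 5159) (by norm_num) (by norm_num)
    (by norm_num) (by decide +kernel) (by decide +kernel) (by norm_num)
    (Or.inl ⟨by norm_num, by norm_num [cu], by norm_num [cl]⟩) h1 h2 h

theorem g32 (hV : IsGilbertValue V) {n : ℕ} (h1 : 5160 ≤ n) (h2 : n ≤ 5310)
    (h : Ck tv 1071832001 1151499999 n) : Bar V n :=
  bar_cell hV (s := 1) (i := 8) (a := 5160) (b := 5310) (by norm_num) (by norm_num)
    (by norm_num) (by decide +kernel) (by decide +kernel) (by norm_num)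
    (Or.inl ⟨by norm_num, by norm_num [cu], by norm_num [cl]⟩) h1 h2 h

theorem g33 (hV : IsGilbertValue V) {n : ℕ} (h1 : 5311 ≤ n) (h2 : n ≤ 5466)
    (h : Ck tv 1101228501 1189813499 n) : Bar V n :=
  bar_cell hV (s := 1) (i := 9) (a := 5311) (b := 5466) (by norm_num) (by norm_num)
    (by norm_num) (by decide +kernel) (by decide +kernel) (by norm_num)
    (Or.inl ⟨by norm_num, by norm_num [cu], by norm_num [cl]⟩) h1 h2 h

theorem g34 (hV : IsGilbertValue V) {n : ℕ} (h1 : 5467 ≤ n) (h2 : n ≤ 5626)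
    (h : Ck tv 1119710001 1219209999 n) : Bar V n :=
  bar_cell hV (s := 1) (i := 10) (a := 5467) (b := 5626) (by norm_num) (by norm_num)
    (by norm_num) (by decide +kernel) (by decide +kernel) (by norm_num)
    (Or.inl ⟨by norm_num, by norm_num [cu], by norm_num [cl]⟩) h1 h2 h

theorem g35 (hV : IsGilbertValue V) {n : ℕ} (h1 : 5627 ≤ n) (h2 : n ≤ 5791)
    (h : Ck tv 1126000001 1237691499 n) : Bar V n :=
  bar_cell hV (s := 1) (i := 11) (a := 5627) (b := 5791) (by norm_num) (by norm_num)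
    (by norm_num) (by decide +kernel) (by decide +kernel) (by norm_num)
    (Or.inl ⟨by norm_num, by norm_num [cu], by norm_num [cl]⟩) h1 h2 h

theorem g36 (hV : IsGilbertValue V) {n : ℕ} (h1 : 5792 ≤ n) (h2 : n ≤ 5961)
    (h : Ck tv 1126000001 1237691499 n) : Bar V n :=
  bar_cell hV (s := 1) (i := 12) (a := 5792) (b := 5961) (by norm_num) (by norm_num)
    (by norm_num) (by decide +kernel) (by decide +kernel) (by norm_num)
    (Or.inr ⟨by norm_num, by norm_num [cu], by norm_num [cl]⟩) h1 h2 h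

theorem g37 (hV : IsGilbertValue V) {n : ℕ} (h1 : 5962 ≤ n) (h2 : n ≤ 6136)
    (h : Ck tv 1119710001 1219209999 n) : Bar V n :=
  bar_cell hV (s := 1) (i := 13) (a := 5962) (b := 6136) (by norm_num) (by norm_num)
    (by norm_num) (by decide +kernel) (by decide +kernel) (by norm_num)
    (Or.inr ⟨by norm_num, by norm_num [cu], by norm_num [cl]⟩) h1 h2 h

theorem g38 (hV : IsGilbertValue V) {n : ℕ} (h1 : 6137 ≤ n) (h2 : n ≤ 6315)
    (h : Ck tv 1101228501 1189813499 n) : Bar V n :=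
  bar_cell hV (s := 1) (i := 14) (a := 6137) (b := 6315) (by norm_num) (by norm_num)
    (by norm_num) (by decide +kernel) (by decide +kernel) (by norm_num)
    (Or.inr ⟨by norm_num, by norm_num [cu], by norm_num [cl]⟩) h1 h2 h

theorem g39 (hV : IsGilbertValue V) {n : ℕ} (h1 : 6316 ≤ n) (h2 : n ≤ 6500)
    (h : Ck tv 1071832001 1151499999 n) : Bar V n :=
  bar_cell hV (s := 1) (i := 15) (a := 6316) (b := 6500) (by norm_num) (by norm_num)
    (by norm_num) (by decide +kernel) (by decide +kernel) (by norm_num)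
    (Or.inr ⟨by norm_num, by norm_num [cu], by norm_num [cl]⟩) h1 h2 h

theorem g40 (hV : IsGilbertValue V) {n : ℕ} (h1 : 6501 ≤ n) (h2 : n ≤ 6691)
    (h : Ck tv 1033500001 1106877999 n) : Bar V n :=
  bar_cell hV (s := 1) (i := 16) (a := 6501) (b := 6691) (by norm_num) (by norm_num)
    (by norm_num) (by decide +kernel) (by decide +kernel) (by norm_num)
    (Or.inr ⟨by norm_num, by norm_num [cu], by norm_num [cl]⟩) h1 h2 h

theorem g41 (hV : IsGilbertValue V) {n : ℕ} (h1 : 6692 ≤ n) (h2 : n ≤ 6887)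
    (h : Ck tv 988896501 1058999999 n) : Bar V n :=
  bar_cell hV (s := 1) (i := 17) (a := 6692) (b := 6887) (by norm_num) (by norm_num)
    (by norm_num) (by decide +kernel) (by decide +kernel) (by norm_num)
    (Or.inr ⟨by norm_num, by norm_num [cu], by norm_num [cl]⟩) h1 h2 h

theorem g42 (hV : IsGilbertValue V) {n : ℕ} (h1 : 6888 ≤ n) (h2 : n ≤ 7089)
    (h : Ck tv 941000001 1011103499 n) : Bar V n :=
  bar_cell hV (s := 1) (i := 18) (a := 6888) (b := 7089) (by norm_num) (by norm_num)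
    (by norm_num) (by decide +kernel) (by decide +kernel) (by norm_num)
    (Or.inr ⟨by norm_num, by norm_num [cu], by norm_num [cl]⟩) h1 h2 h

theorem g43 (hV : IsGilbertValue V) {n : ℕ} (h1 : 7090 ≤ n) (h2 : n ≤ 7297)
    (h : Ck tv 893122001 966499999 n) : Bar V n :=
  bar_cell hV (s := 1) (i := 19) (a := 7090) (b := 7297) (by norm_num) (by norm_num)
    (by norm_num) (by decide +kernel) (by decide +kernel) (by norm_num)
    (Or.inr ⟨by norm_num, by norm_num [cu], by norm_num [cl]⟩) h1 h2 h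

theorem g44 (hV : IsGilbertValue V) {n : ℕ} (h1 : 7298 ≤ n) (h2 : n ≤ 7511)
    (h : Ck tv 848500001 928167999 n) : Bar V n :=
  bar_cell hV (s := 1) (i := 20) (a := 7298) (b := 7511) (by norm_num) (by norm_num)
    (by norm_num) (by decide +kernel) (by decide +kernel) (by norm_num)
    (Or.inr ⟨by norm_num, by norm_num [cu], by norm_num [cl]⟩) h1 h2 h

theorem g45 (hV : IsGilbertValue V) {n : ℕ} (h1 : 7512 ≤ n) (h2 : n ≤ 7731)
    (h : Ck tv 810186501 898771499 n) : Bar V n :=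
  bar_cell hV (s := 1) (i := 21) (a := 7512) (b := 7731) (by norm_num) (by norm_num)
    (by norm_num) (by decide +kernel) (by decide +kernel) (by norm_num)
    (Or.inr ⟨by norm_num, by norm_num [cu], by norm_num [cl]⟩) h1 h2 h

theorem g46 (hV : IsGilbertValue V) {n : ℕ} (h1 : 7732 ≤ n) (h2 : n ≤ 7957)
    (h : Ck tv 780790001 880289999 n) : Bar V n :=
  bar_cell hV (s := 1) (i := 22) (a := 7732) (b := 7957) (by norm_num) (by norm_num)
    (by norm_num) (by decide +kernel) (by decide +kernel) (by norm_num)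
    (Or.inr ⟨by norm_num, by norm_num [cu], by norm_num [cl]⟩) h1 h2 h

theorem g47 (hV : IsGilbertValue V) {n : ℕ} (h1 : 7958 ≤ n) (h2 : n ≤ 8190)
    (h : Ck tv 762308501 873999999 n) : Bar V n :=
  bar_cell hV (s := 1) (i := 23) (a := 7958) (b := 8190) (by norm_num) (by norm_num)
    (by norm_num) (by decide +kernel) (by decide +kernel) (by norm_num)
    (Or.inr ⟨by norm_num, by norm_num [cu], by norm_num [cl]⟩) h1 h2 h

theorem g48 (hV : IsGilbertValue V) {n : ℕ} (h1 : 8191 ≤ n) (h2 : n ≤ 8193)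
    (h : Ck tv 762308501 873999999 n) : Bar V n :=
  bar_cell hV (s := 2) (i := 0) (a := 8191) (b := 8193) (by norm_num) (by norm_num)
    (by norm_num) (by decide +kernel) (by decide +kernel) (by norm_num)
    (Or.inl ⟨by norm_num, by norm_num [cu], by norm_num [cl]⟩) h1 h2 h

theorem lv0 : LV 3074 8030734924098540524 := adv_sound 1026 LV.start adv_ok

theorem beq_lv {n lam target : ℕ} (h : LV n lam) (hb : Nat.beq lam target = true) :
    LV n target := by
  rw [← Nat.eq_of_beq_eq_true hb]; exact h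

theorem chunkC0 (hV : IsGilbertValue V) : (∀ n, 3073 ≤ n → n < 3713 → Bar V n) ∧
    LV 3714 8219864741912650120 := by
  have hl : LAsc tv 3073 (elems (dropB 384 tab)) := (asc_tab.dropB 384).elems
  have hv : LV (3073 + 1) 8030734924098540524 := lv0
  obtain ⟨c0, l0, m0, a0, v0, e0⟩ := grp_sound 85 hl hv cl_ok0
  obtain ⟨c1, l1, m1, a1, v1, e1⟩ := grp_sound 92 a0 v0 e0
  obtain ⟨c2, l2, m2, a2, v2, e2⟩ := grp_sound 96 a1 v1 e1
  obtain ⟨c3, l3, m3, a3, v3, e3⟩ := grp_sound 98 a2 v2 e2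
  obtain ⟨c4, l4, m4, a4, v4, e4⟩ := grp_sound 101 a3 v3 e3
  obtain ⟨c5, l5, m5, a5, v5, e5⟩ := grp_sound 104 a4 v4 e4
  obtain ⟨c6, l6, m6, a6, v6, e6⟩ := grp_sound 64 a5 v5 e5
  refine ⟨fun n h1 h2 => ?_, beq_lv v6 e6⟩
  rcases Nat.lt_or_ge n 3158 with h | h
  · exact g14 hV (by omega) (by omega) (c0 n (by omega) (by omega))
  rcases Nat.lt_or_ge n 3250 with h | h
  · exact g15 hV (by omega) (by omega) (c1 n (by omega) (by omega))
  rcases Nat.lt_or_ge n 3346 with h | h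
  · exact g16 hV (by omega) (by omega) (c2 n (by omega) (by omega))
  rcases Nat.lt_or_ge n 3444 with h | h
  · exact g17 hV (by omega) (by omega) (c3 n (by omega) (by omega))
  rcases Nat.lt_or_ge n 3545 with h | h
  · exact g18 hV (by omega) (by omega) (c4 n (by omega) (by omega))
  rcases Nat.lt_or_ge n 3649 with h | h
  · exact g19 hV (by omega) (by omega) (c5 n (by omega) (by omega))
  exact g20 hV (by omega) (by omega) (c6 n (by omega) (by omega))

theorem chunkC1 (hV : IsGilbertValue V) : (∀ n, 3713 ≤ n → n < 4353 → Bar V n) ∧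
    LV 4354 8378850241794491447 := by
  have hl : LAsc tv 3713 (elems (dropB 464 tab)) := (asc_tab.dropB 464).elems
  have hv : LV (3713 + 1) 8219864741912650120 := (chunkC0 hV).2
  obtain ⟨c0, l0, m0, a0, v0, e0⟩ := grp_sound 43 hl hv cl_ok1
  obtain ⟨c1, l1, m1, a1, v1, e1⟩ := grp_sound 110 a0 v0 e0
  obtain ⟨c2, l2, m2, a2, v2, e2⟩ := grp_sound 113 a1 v1 e1
  obtain ⟨c3, l3, m3, a3, v3, e3⟩ := grp_sound 116 a2 v2 e2
  obtain ⟨c4, l4, m4, a4, v4, e4⟩ := grp_sound 121 a3 v3 e3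
  obtain ⟨c5, l5, m5, a5, v5, e5⟩ := grp_sound 123 a4 v4 e4
  obtain ⟨c6, l6, m6, a6, v6, e6⟩ := grp_sound 14 a5 v5 e5
  refine ⟨fun n h1 h2 => ?_, beq_lv v6 e6⟩
  rcases Nat.lt_or_ge n 3756 with h | h
  · exact g20 hV (by omega) (by omega) (c0 n (by omega) (by omega))
  rcases Nat.lt_or_ge n 3866 with h | h
  · exact g21 hV (by omega) (by omega) (c1 n (by omega) (by omega))
  rcases Nat.lt_or_ge n 3979 with h | h
  · exact g22 hV (by omega) (by omega) (c2 n (by omega) (by omega))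
  rcases Nat.lt_or_ge n 4095 with h | h
  · exact g23 hV (by omega) (by omega) (c3 n (by omega) (by omega))
  rcases Nat.lt_or_ge n 4216 with h | h
  · exact g24 hV (by omega) (by omega) (c4 n (by omega) (by omega))
  rcases Nat.lt_or_ge n 4339 with h | h
  · exact g25 hV (by omega) (by omega) (c5 n (by omega) (by omega))
  exact g26 hV (by omega) (by omega) (c6 n (by omega) (by omega))

theorem chunkC2 (hV : IsGilbertValue V) : (∀ n, 4353 ≤ n → n < 4993 → Bar V n) ∧
    LV 4994 8515992470839716921 := by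
  have hl : LAsc tv 4353 (elems (dropB 544 tab)) := (asc_tab.dropB 544).elems
  have hv : LV (4353 + 1) 8378850241794491447 := (chunkC1 hV).2
  obtain ⟨c0, l0, m0, a0, v0, e0⟩ := grp_sound 113 hl hv cl_ok2
  obtain ⟨c1, l1, m1, a1, v1, e1⟩ := grp_sound 131 a0 v0 e0
  obtain ⟨c2, l2, m2, a2, v2, e2⟩ := grp_sound 135 a1 v1 e1
  obtain ⟨c3, l3, m3, a3, v3, e3⟩ := grp_sound 138 a2 v2 e2
  obtain ⟨c4, l4, m4, a4, v4, e4⟩ := grp_sound 123 a3 v3 e3
  refine ⟨fun n h1 h2 => ?_, beq_lv v4 e4⟩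
  rcases Nat.lt_or_ge n 4466 with h | h
  · exact g26 hV (by omega) (by omega) (c0 n (by omega) (by omega))
  rcases Nat.lt_or_ge n 4597 with h | h
  · exact g27 hV (by omega) (by omega) (c1 n (by omega) (by omega))
  rcases Nat.lt_or_ge n 4732 with h | h
  · exact g28 hV (by omega) (by omega) (c2 n (by omega) (by omega))
  rcases Nat.lt_or_ge n 4870 with h | h
  · exact g29 hV (by omega) (by omega) (c3 n (by omega) (by omega))
  exact g30 hV (by omega) (by omega) (c4 n (by omega) (by omega))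

theorem chunkC3 (hV : IsGilbertValue V) : (∀ n, 4993 ≤ n → n < 5633 → Bar V n) ∧
    LV 5634 8636574948436315970 := by
  have hl : LAsc tv 4993 (elems (dropB 624 tab)) := (asc_tab.dropB 624).elems
  have hv : LV (4993 + 1) 8515992470839716921 := (chunkC2 hV).2
  obtain ⟨c0, l0, m0, a0, v0, e0⟩ := grp_sound 20 hl hv cl_ok3
  obtain ⟨c1, l1, m1, a1, v1, e1⟩ := grp_sound 147 a0 v0 e0
  obtain ⟨c2, l2, m2, a2, v2, e2⟩ := grp_sound 151 a1 v1 e1
  obtain ⟨c3, l3, m3, a3, v3, e3⟩ := grp_sound 156 a2 v2 e2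
  obtain ⟨c4, l4, m4, a4, v4, e4⟩ := grp_sound 160 a3 v3 e3
  obtain ⟨c5, l5, m5, a5, v5, e5⟩ := grp_sound 6 a4 v4 e4
  refine ⟨fun n h1 h2 => ?_, beq_lv v5 e5⟩
  rcases Nat.lt_or_ge n 5013 with h | h
  · exact g30 hV (by omega) (by omega) (c0 n (by omega) (by omega))
  rcases Nat.lt_or_ge n 5160 with h | h
  · exact g31 hV (by omega) (by omega) (c1 n (by omega) (by omega))
  rcases Nat.lt_or_ge n 5311 with h | h
  · exact g32 hV (by omega) (by omega) (c2 n (by omega) (by omega))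
  rcases Nat.lt_or_ge n 5467 with h | h
  · exact g33 hV (by omega) (by omega) (c3 n (by omega) (by omega))
  rcases Nat.lt_or_ge n 5627 with h | h
  · exact g34 hV (by omega) (by omega) (c4 n (by omega) (by omega))
  exact g35 hV (by omega) (by omega) (c5 n (by omega) (by omega))

theorem chunkC4 (hV : IsGilbertValue V) : (∀ n, 5633 ≤ n → n < 6273 → Bar V n) ∧
    LV 6274 8744169388750621193 := by
  have hl : LAsc tv 5633 (elems (dropB 704 tab)) := (asc_tab.dropB 704).elems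
  have hv : LV (5633 + 1) 8636574948436315970 := (chunkC3 hV).2
  obtain ⟨c0, l0, m0, a0, v0, e0⟩ := grp_sound 159 hl hv cl_ok4
  obtain ⟨c1, l1, m1, a1, v1, e1⟩ := grp_sound 170 a0 v0 e0
  obtain ⟨c2, l2, m2, a2, v2, e2⟩ := grp_sound 175 a1 v1 e1
  obtain ⟨c3, l3, m3, a3, v3, e3⟩ := grp_sound 136 a2 v2 e2
  refine ⟨fun n h1 h2 => ?_, beq_lv v3 e3⟩
  rcases Nat.lt_or_ge n 5792 with h | h
  · exact g35 hV (by omega) (by omega) (c0 n (by omega) (by omega))
  rcases Nat.lt_or_ge n 5962 with h | h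
  · exact g36 hV (by omega) (by omega) (c1 n (by omega) (by omega))
  rcases Nat.lt_or_ge n 6137 with h | h
  · exact g37 hV (by omega) (by omega) (c2 n (by omega) (by omega))
  exact g38 hV (by omega) (by omega) (c3 n (by omega) (by omega))

theorem chunkC5 (hV : IsGilbertValue V) : (∀ n, 6273 ≤ n → n < 6913 → Bar V n) ∧
    LV 6914 8841303620481567267 := by
  have hl : LAsc tv 6273 (elems (dropB 784 tab)) := (asc_tab.dropB 784).elems
  have hv : LV (6273 + 1) 8744169388750621193 := (chunkC4 hV).2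
  obtain ⟨c0, l0, m0, a0, v0, e0⟩ := grp_sound 43 hl hv cl_ok5
  obtain ⟨c1, l1, m1, a1, v1, e1⟩ := grp_sound 185 a0 v0 e0
  obtain ⟨c2, l2, m2, a2, v2, e2⟩ := grp_sound 191 a1 v1 e1
  obtain ⟨c3, l3, m3, a3, v3, e3⟩ := grp_sound 196 a2 v2 e2
  obtain ⟨c4, l4, m4, a4, v4, e4⟩ := grp_sound 25 a3 v3 e3
  refine ⟨fun n h1 h2 => ?_, beq_lv v4 e4⟩
  rcases Nat.lt_or_ge n 6316 with h | h
  · exact g38 hV (by omega) (by omega) (c0 n (by omega) (by omega))
  rcases Nat.lt_or_ge n 6501 with h | h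
  · exact g39 hV (by omega) (by omega) (c1 n (by omega) (by omega))
  rcases Nat.lt_or_ge n 6692 with h | h
  · exact g40 hV (by omega) (by omega) (c2 n (by omega) (by omega))
  rcases Nat.lt_or_ge n 6888 with h | h
  · exact g41 hV (by omega) (by omega) (c3 n (by omega) (by omega))
  exact g42 hV (by omega) (by omega) (c4 n (by omega) (by omega))

theorem chunkC6 (hV : IsGilbertValue V) : (∀ n, 6913 ≤ n → n < 7553 → Bar V n) ∧
    LV 7554 8929832503272399270 := by
  have hl : LAsc tv 6913 (elems (dropB 864 tab)) := (asc_tab.dropB 864).elems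
  have hv : LV (6913 + 1) 8841303620481567267 := (chunkC5 hV).2
  obtain ⟨c0, l0, m0, a0, v0, e0⟩ := grp_sound 177 hl hv cl_ok6
  obtain ⟨c1, l1, m1, a1, v1, e1⟩ := grp_sound 208 a0 v0 e0
  obtain ⟨c2, l2, m2, a2, v2, e2⟩ := grp_sound 214 a1 v1 e1
  obtain ⟨c3, l3, m3, a3, v3, e3⟩ := grp_sound 41 a2 v2 e2
  refine ⟨fun n h1 h2 => ?_, beq_lv v3 e3⟩
  rcases Nat.lt_or_ge n 7090 with h | h
  · exact g42 hV (by omega) (by omega) (c0 n (by omega) (by omega))
  rcases Nat.lt_or_ge n 7298 with h | h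
  · exact g43 hV (by omega) (by omega) (c1 n (by omega) (by omega))
  rcases Nat.lt_or_ge n 7512 with h | h
  · exact g44 hV (by omega) (by omega) (c2 n (by omega) (by omega))
  exact g45 hV (by omega) (by omega) (c3 n (by omega) (by omega))

theorem chunkC7 (hV : IsGilbertValue V) : (∀ n, 7553 ≤ n → n < 8194 → Bar V n) ∧
    LV 8195 9011279491177926839 := by
  have hl : LAsc tv 7553 (elems (dropB 944 tab)) := (asc_tab.dropB 944).elems
  have hv : LV (7553 + 1) 8929832503272399270 := (chunkC6 hV).2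
  obtain ⟨c0, l0, m0, a0, v0, e0⟩ := grp_sound 179 hl hv cl_ok7
  obtain ⟨c1, l1, m1, a1, v1, e1⟩ := grp_sound 226 a0 v0 e0
  obtain ⟨c2, l2, m2, a2, v2, e2⟩ := grp_sound 233 a1 v1 e1
  obtain ⟨c3, l3, m3, a3, v3, e3⟩ := grp_sound 3 a2 v2 e2
  refine ⟨fun n h1 h2 => ?_, beq_lv v3 e3⟩
  rcases Nat.lt_or_ge n 7732 with h | h
  · exact g45 hV (by omega) (by omega) (c0 n (by omega) (by omega))
  rcases Nat.lt_or_ge n 7958 with h | h
  · exact g46 hV (by omega) (by omega) (c1 n (by omega) (by omega))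
  rcases Nat.lt_or_ge n 8191 with h | h
  · exact g47 hV (by omega) (by omega) (c2 n (by omega) (by omega))
  exact g48 hV (by omega) (by omega) (c3 n (by omega) (by omega))

theorem base_ok (hV : IsGilbertValue V) : ∀ n, 3073 ≤ n → n ≤ 8193 → Bar V n := by
  intro n h1 h2
  rcases Nat.lt_or_ge n 3713 with h | h
  · exact (chunkC0 hV).1 n (by omega) (by omega)
  rcases Nat.lt_or_ge n 4353 with h | h
  · exact (chunkC1 hV).1 n (by omega) (by omega)
  rcases Nat.lt_or_ge n 4993 with h | h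
  · exact (chunkC2 hV).1 n (by omega) (by omega)
  rcases Nat.lt_or_ge n 5633 with h | h
  · exact (chunkC3 hV).1 n (by omega) (by omega)
  rcases Nat.lt_or_ge n 6273 with h | h
  · exact (chunkC4 hV).1 n (by omega) (by omega)
  rcases Nat.lt_or_ge n 6913 with h | h
  · exact (chunkC5 hV).1 n (by omega) (by omega)
  rcases Nat.lt_or_ge n 7553 with h | h
  · exact (chunkC6 hV).1 n (by omega) (by omega)
  exact (chunkC7 hV).1 n (by omega) (by omega)

theorem bar_everywhere (hV : IsGilbertValue V) : ∀ n, 3073 ≤ n → Bar V n :=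
  bar_all hV (base_ok hV)

open Filter Topology in
theorem gilbert_no_limit (hV : IsGilbertValue V) :
    ¬ ∃ c : ℝ, Tendsto (fun n : ℕ => V n - Real.logb 2 n) atTop (𝓝 c) :=
  no_limit (bar_everywhere hV)

end Pool.Agent.H95.Gilbert
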