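import Mathlib
import Pool.Agent.H95.Gilbert.Game

namespace Pool.Agent.H95.Gilbert

open Finset

/-- von Neumann's minimax theorem for `Fin k × Fin k` matrix games. -/
theorem minimax_fin (k : ℕ) (hk : 0 < k) (A : Fin k → Fin k → ℝ) :
    ∃ a ∈ stdSimplex ℝ (Fin k), ∃ b ∈ stdSimplex ℝ (Fin k), ∃ v : ℝ,
      (∀ j, ∑ i, a i * A i j ≤ v) ∧ (∀ i, v ≤ ∑ j, b j * A i j) := by
  have : Nonempty (Fin k) := ⟨⟨0, hk⟩⟩
  let f : (Fin k → ℝ) → (Fin k → ℝ) → ℝ := fun x y => ∑ i, ∑ j, x i * y j * A i j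
  have hcont1 : ∀ y, Continuous fun x => f x y := by
    intro y
    simp only [f]
    fun_prop
  have hcont2 : ∀ x, Continuous fun y => f x y := by
    intro y
    simp only [f]
    fun_prop
  have hlin1 : ∀ (y x x' : Fin k → ℝ) (s t : ℝ), f (s • x + t • x') y = s * f x y + t * f x' y := by
    intro y x x' s t
    simp only [f, Pi.add_apply, Pi.smul_apply, smul_eq_mul, Finset.mul_sum, ← Finset.sum_add_distrib]
    refine Finset.sum_congr rfl fun i _ => Finset.sum_congr rfl fun j _ => by ring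
  have hlin2 : ∀ (x y y' : Fin k → ℝ) (s t : ℝ), f x (s • y + t • y') = s * f x y + t * f x y' := by
    intro x y y' s t
    simp only [f, Pi.add_apply, Pi.smul_apply, smul_eq_mul, Finset.mul_sum, ← Finset.sum_add_distrib]
    refine Finset.sum_congr rfl fun i _ => Finset.sum_congr rfl fun j _ => by ring
  have ne : (stdSimplex ℝ (Fin k)).Nonempty := ⟨_, single_mem_stdSimplex ℝ (⟨0, hk⟩ : Fin k)⟩
  have hcv := convex_stdSimplex ℝ (Fin k)
  obtain ⟨a, ha, b, hb, hab⟩ := Sion.exists_isSaddlePointOn (f := f) ne hcv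
    (isCompact_stdSimplex ℝ (Fin k))
    (fun y _ => (hcont1 y).lowerSemicontinuous.lowerSemicontinuousOn _)
    (fun y _ => by
      have : ConvexOn ℝ (stdSimplex ℝ (Fin k)) (fun x => f x y) :=
        ⟨hcv, fun x _ x' _ s t _ _ _ => by simp only [hlin1, smul_eq_mul]; exact le_refl _⟩
      exact this.quasiconvexOn)
    hcv ne (isCompact_stdSimplex ℝ (Fin k))
    (fun x _ => (hcont2 x).upperSemicontinuous.upperSemicontinuousOn _)
    (fun x _ => by
      have : ConcaveOn ℝ (stdSimplex ℝ (Fin k)) (fun y => f x y) :=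
        ⟨hcv, fun y _ y' _ s t _ _ _ => by simp only [hlin2, smul_eq_mul]; exact le_refl _⟩
      exact this.quasiconcaveOn)
  refine ⟨a, ha, b, hb, f a b, fun j => ?_, fun i => ?_⟩
  · have h := hab a ha _ (single_mem_stdSimplex ℝ j)
    refine le_trans (le_of_eq ?_) h
    simp only [f]
    refine Finset.sum_congr rfl fun i _ => ?_
    rw [Finset.sum_eq_single j]
    · simp
    · intro b _ hb; simp [hb]
    · simp
  · have h := hab _ (single_mem_stdSimplex ℝ i) b hb
    refine le_trans h (le_of_eq ?_)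
    simp only [f]
    rw [Finset.sum_eq_single i]
    · simp
    · intro b _ hb; simp [hb]
    · simp

theorem sum_Icc_fin (k : ℕ) (f : ℕ → ℝ) : ∑ i ∈ Icc 1 k, f i = ∑ i : Fin k, f (i + 1) := by
  rw [Fin.sum_univ_eq_sum_range (fun i => f (i + 1)) k, Finset.range_eq_Ico,
    Finset.sum_Ico_add' f 0 k 1]
  rfl

theorem exists_gameValue (n : ℕ) (hn : 1 ≤ n) (A : ℕ → ℕ → ℝ) : ∃ v, IsGameValue n A v := by
  obtain ⟨a, ha, b, hb, v, h1, h2⟩ := minimax_fin n hn (fun i j => A (i + 1) (j + 1))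
  set q : ℕ → ℝ := fun g => if h : g - 1 < n then a ⟨g - 1, h⟩ else 0 with hq
  set p : ℕ → ℝ := fun g => if h : g - 1 < n then b ⟨g - 1, h⟩ else 0 with hp
  have hq1 : ∀ i : Fin n, q (i + 1) = a i := by
    intro i; simp [hq]
  have hp1 : ∀ i : Fin n, p (i + 1) = b i := by
    intro i; simp [hp]
  refine ⟨v, ⟨q, ⟨fun i _ => ?_, ?_⟩, fun h hh => ?_⟩, ⟨p, ⟨fun i _ => ?_, ?_⟩, fun h hh => ?_⟩⟩
  · simp only [hq]; split_ifs
    · exact ha.1 _
    · exact le_refl _
  · rw [sum_Icc_fin]; simp only [hq1]; exact ha.2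
  · rw [sum_Icc_fin]; simp only [hq1]
    have hh' := Finset.mem_Icc.mp hh
    have := h1 ⟨h - 1, by omega⟩
    simpa [Nat.sub_add_cancel hh'.1] using this
  · simp only [hp]; split_ifs
    · exact hb.1 _
    · exact le_refl _
  · rw [sum_Icc_fin]; simp only [hp1]; exact hb.2
  · rw [sum_Icc_fin]; simp only [hp1]
    have hh' := Finset.mem_Icc.mp hh
    have := h2 ⟨h - 1, by omega⟩
    simpa [Nat.sub_add_cancel hh'.1] using this

theorem gameValue_congr {n : ℕ} {A B : ℕ → ℕ → ℝ} {v : ℝ}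
    (h : ∀ g ∈ Icc 1 n, ∀ k ∈ Icc 1 n, A g k = B g k) (hv : IsGameValue n A v) :
    IsGameValue n B v := by
  obtain ⟨⟨q, hq, hq'⟩, ⟨p, hp, hp'⟩⟩ := hv
  refine ⟨⟨q, hq, fun k hk => ?_⟩, ⟨p, hp, fun g hg => ?_⟩⟩
  · have e : ∑ g ∈ Icc 1 n, q g * B g k = ∑ g ∈ Icc 1 n, q g * A g k :=
      Finset.sum_congr rfl fun g hg => by rw [h g hg k hk]
    rw [e]; exact hq' k hk
  · have e : ∑ k ∈ Icc 1 n, p k * B g k = ∑ k ∈ Icc 1 n, p k * A g k :=
      Finset.sum_congr rfl fun k hk => by rw [h g hg k hk]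
    rw [e]; exact hp' g hg

theorem payoff_congr {V W : ℕ → ℝ} {n : ℕ} (h : ∀ k < n, V k = W k) :
    ∀ g ∈ Icc 1 n, ∀ k ∈ Icc 1 n, payoff V n g k = payoff W n g k := by
  intro g hg k _
  have hg' := Finset.mem_Icc.mp hg
  unfold payoff
  rw [h (g - 1) (by omega), h (n - g) (by omega)]

/-- The sequence of values, by strong recursion. -/
noncomputable def Vseq : ℕ → ℝ := fun n =>
  Nat.strongRec (motive := fun _ => ℝ) (fun n ih =>
    if h : 1 ≤ n then
      Classical.choose (exists_gameValue n h (payoff (fun k => if hk : k < n then ih k hk else 0) n))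
    else 0) n

theorem Vseq_spec (n : ℕ) : Vseq n = if h : 1 ≤ n then
      Classical.choose (exists_gameValue n h (payoff (fun k => if k < n then Vseq k else 0) n))
    else 0 := by
  conv_lhs => rw [Vseq, Nat.strongRec]
  rfl

theorem Vseq_isGilbertValue : IsGilbertValue Vseq := by
  refine ⟨by rw [Vseq_spec]; simp, fun n hn => ?_⟩
  have h := Classical.choose_spec
    (exists_gameValue n hn (payoff (fun k => if k < n then Vseq k else 0) n))
  have h2 := Vseq_spec n
  rw [dif_pos hn] at h2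
  rw [h2]
  refine gameValue_congr (payoff_congr fun k hk => ?_) h
  simp [hk]

theorem existsUnique_isGilbertValue : ∃! V : ℕ → ℝ, IsGilbertValue V := by
  refine ⟨Vseq, Vseq_isGilbertValue, fun W hW => ?_⟩
  funext n
  induction n using Nat.strong_induction_on with
  | _ n ih =>
    rcases Nat.eq_zero_or_pos n with h | h
    · rw [h, hW.1, Vseq_isGilbertValue.1]
    · exact gameValue_unique (gameValue_congr (payoff_congr ih) (hW.2 n h))
        (Vseq_isGilbertValue.2 n h)

end Pool.Agent.H95.Gilbert
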